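import Mathlib

/-! Signs of the derivative at the points of a level set. -/

open Set

namespace Pool.Agent.H.MP_eff680_pr.D1

/-- Zeros of the derivative between consecutive points. -/
theorem alt_zeros {g g' : ℝ → ℝ} (hg : ∀ x, HasDerivAt g (g' x) x) (K : ℕ)
    (a : Fin (K + 1) → ℝ) (ha : StrictMono a) (hlev : ∀ i i', g (a i) = g (a i')) :
    ∃ z : Fin K → ℝ, ∀ i, a i.castSucc < z i ∧ z i < a i.succ ∧ g' (z i) = 0 := by
  have h : ∀ i : Fin K, ∃ z, a i.castSucc < z ∧ z < a i.succ ∧ g' z = 0 := by
    intro i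
    have h1 : a i.castSucc < a i.succ := ha Fin.castSucc_lt_succ
    obtain ⟨c, hc, hc'⟩ := exists_hasDerivAt_eq_zero h1
      (fun x _ => (hg x).continuousAt.continuousWithinAt) (hlev i.castSucc i.succ)
      (fun x _ => hg x)
    exact ⟨c, hc.1, hc.2, hc'⟩
  choose z hz using h
  exact ⟨z, hz⟩

theorem alt_inj {K : ℕ} {a : Fin (K + 1) → ℝ} (ha : StrictMono a) {z : Fin K → ℝ}
    (hz : ∀ i, a i.castSucc < z i ∧ z i < a i.succ) : Function.Injective z := by
  have hm : StrictMono z := by
    intro i j hij
    have h1 : a i.succ ≤ a j.castSucc := ha.monotone (Fin.succ_le_castSucc_iff.mpr hij)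
    linarith [(hz i).2, (hz j).1]
  exact hm.injective

/-- If `g` takes the same value at `m + 1` points then its derivative has at least `m` zeros; so a bound for the
number of positive zeros of `g'` bounds the number of points.

Proof: Rolle between consecutive points (`exists_hasDerivAt_eq_zero`), giving `m - 1` distinct zeros. -/
theorem card_le_of_level {g g' : ℝ → ℝ} (hg : ∀ x, HasDerivAt g (g' x) x) (k : ℕ)
    (hZ : ∀ Z : Finset ℝ, (∀ x ∈ Z, 0 < x ∧ g' x = 0) → Z.card < k) (m : ℕ) (a : Fin m → ℝ)
    (ha : StrictMono a) (ha0 : ∀ i, 0 < a i) (hlev : ∀ i i', g (a i) = g (a i')) : m ≤ k := by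
  rcases m with _ | K
  · exact Nat.zero_le _
  · obtain ⟨z, hz⟩ := alt_zeros hg K a ha hlev
    have hinj : Function.Injective z := alt_inj ha fun i => ⟨(hz i).1, (hz i).2.1⟩
    have h1 := hZ (Finset.univ.image z) (by
      intro x hx
      obtain ⟨i, -, rfl⟩ := Finset.mem_image.mp hx
      exact ⟨(ha0 _).trans (hz i).1, (hz i).2.2⟩)
    rw [Finset.card_image_of_injective _ hinj, Finset.card_univ, Fintype.card_fin] at h1
    omega

theorem alt_finset {g g' : ℝ → ℝ} (hg : ∀ x, HasDerivAt g (g' x) x) (k : ℕ)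
    (hZ : ∀ Z : Finset ℝ, (∀ x ∈ Z, 0 < x ∧ g' x = 0) → Z.card < k) (T : Finset ℝ)
    (h0 : ∀ x ∈ T, 0 < x) (hlev : ∀ x ∈ T, ∀ y ∈ T, g x = g y) : T.card ≤ k := by
  refine card_le_of_level hg k hZ T.card (T.orderEmbOfFin rfl) (T.orderEmbOfFin rfl).strictMono
    (fun i => h0 _ (T.orderEmbOfFin_mem rfl i)) (fun i i' => hlev _ (T.orderEmbOfFin_mem rfl i) _
      (T.orderEmbOfFin_mem rfl i'))

/-- Derivatives of the same sign at the ends: a further point of the level set. -/
theorem alt_between {g g' : ℝ → ℝ} (hg : ∀ x, HasDerivAt g (g' x) x) {x y : ℝ} (hxy : x < y)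
    (he : g x = g y) (hx : 0 < g' x) (hy : 0 < g' y) : ∃ c, x < c ∧ c < y ∧ g c = g x := by
  have hcont : Continuous g := continuous_iff_continuousAt.mpr fun t => (hg t).continuousAt
  have h1 : ∀ᶠ t in nhdsWithin x (Ioi x), g x < g t := by
    have := (hg x).hasDerivWithinAt (s := Ioi x)
    rw [hasDerivWithinAt_iff_tendsto_slope' (by simp)] at this
    filter_upwards [this.eventually (lt_mem_nhds hx), self_mem_nhdsWithin] with t ht ht'
    rw [slope_def_field] at ht
    have h2 : 0 < t - x := sub_pos.mpr ht'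
    have h3 := (div_pos_iff_of_pos_right h2).mp ht
    linarith
  have h2 : ∀ᶠ t in nhdsWithin y (Iio y), g t < g y := by
    have := (hg y).hasDerivWithinAt (s := Iio y)
    rw [hasDerivWithinAt_iff_tendsto_slope' (by simp)] at this
    filter_upwards [this.eventually (lt_mem_nhds hy), self_mem_nhdsWithin] with t ht ht'
    rw [slope_def_field] at ht
    have h2 : t - y < 0 := sub_neg.mpr ht'
    by_contra hcon
    push Not at hcon
    have : (g t - g y) / (t - y) ≤ 0 := div_nonpos_of_nonneg_of_nonpos (by linarith) h2.le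
    linarith
  have h3 : ∀ᶠ t in nhdsWithin x (Ioi x), t < (x + y) / 2 :=
    nhdsWithin_le_nhds (gt_mem_nhds (by linarith))
  have h4 : ∀ᶠ t in nhdsWithin y (Iio y), (x + y) / 2 < t :=
    nhdsWithin_le_nhds (lt_mem_nhds (by linarith))
  obtain ⟨u, hu1, hu2, hu3⟩ := (h1.and (h3.and self_mem_nhdsWithin)).exists
  obtain ⟨v, hv1, hv2, hv3⟩ := (h2.and (h4.and self_mem_nhdsWithin)).exists
  have huv : u ≤ v := by linarith
  have hmem : g x ∈ Icc (g v) (g u) := ⟨by rw [he]; exact hv1.le, hu1.le⟩
  obtain ⟨c, hc, hc'⟩ := intermediate_value_Icc' huv hcont.continuousOn hmem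
  exact ⟨c, lt_of_lt_of_le hu3 hc.1, lt_of_le_of_lt hc.2 hv3, hc'⟩

theorem alt_between' {g g' : ℝ → ℝ} (hg : ∀ x, HasDerivAt g (g' x) x) {x y : ℝ} (hxy : x < y)
    (he : g x = g y) (h : 0 < g' x * g' y) : ∃ c, x < c ∧ c < y ∧ g c = g x := by
  rcases (mul_pos_iff.mp h) with h | h
  · exact alt_between hg hxy he h.1 h.2
  · obtain ⟨c, h1, h2, h3⟩ := alt_between (g := fun t => - g t) (g' := fun t => - g' t)
      (fun t => (hg t).neg) hxy (by simp [he]) (by simpa using h.1) (by simpa using h.2)
    exact ⟨c, h1, h2, by simpa using h3⟩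

/-- If moreover `m = k`, the derivative does not vanish at the points and alternates in sign.

Proof. Between consecutive `a_i` there is a zero of `g'`: `k - 1` zeros. If `g' (a_i) = 0` for some `i` there
would be `k` zeros, contradiction. If `g' (a_i)` and `g' (a_{i+1})` had the same sign, `g - g (a_i)` would have
a further zero in `(a_i, a_{i+1})` (intermediate value theorem), so `g` takes its value at `k + 1` points and `g'`
has `k` zeros, contradiction. So consecutive signs are opposite, which gives the statement for all pairs. -/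
theorem alternate {g g' : ℝ → ℝ} (hg : ∀ x, HasDerivAt g (g' x) x) (hc : Continuous g') (k : ℕ)
    (hZ : ∀ Z : Finset ℝ, (∀ x ∈ Z, 0 < x ∧ g' x = 0) → Z.card < k) (a : Fin k → ℝ)
    (ha : StrictMono a) (ha0 : ∀ i, 0 < a i) (hlev : ∀ i i', g (a i) = g (a i')) :
    ∀ i i' : Fin k, 0 < (-1 : ℝ) ^ (i.val + i'.val) * (g' (a i) * g' (a i')) := by
  rcases k with _ | K
  · intro i; exact i.elim0
  -- no zero at the points
  have hne : ∀ i, g' (a i) ≠ 0 := by
    intro i hi
    obtain ⟨z, hz⟩ := alt_zeros hg K a ha hlev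
    have hinj : Function.Injective z := alt_inj ha fun i => ⟨(hz i).1, (hz i).2.1⟩
    have hnot : a i ∉ Finset.univ.image z := by
      intro hx
      obtain ⟨j, -, hj⟩ := Finset.mem_image.mp hx
      rcases le_or_gt i j.castSucc with h | h
      · have h1 : a i ≤ a j.castSucc := ha.monotone h
        linarith [(hz j).1]
      · have h1 : a j.succ ≤ a i := ha.monotone (Fin.castSucc_lt_iff_succ_le.mp h)
        linarith [(hz j).2.1]
    have h1 := hZ (insert (a i) (Finset.univ.image z)) (by
      intro x hx
      rcases Finset.mem_insert.mp hx with rfl | hx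
      · exact ⟨ha0 _, hi⟩
      · obtain ⟨j, -, rfl⟩ := Finset.mem_image.mp hx
        exact ⟨(ha0 _).trans (hz j).1, (hz j).2.2⟩)
    rw [Finset.card_insert_of_notMem hnot, Finset.card_image_of_injective _ hinj,
      Finset.card_univ, Fintype.card_fin] at h1
    omega
  -- consecutive signs
  have hcons : ∀ i : Fin K, g' (a i.castSucc) * g' (a i.succ) < 0 := by
    intro i
    by_contra hcon
    push Not at hcon
    have hpos : 0 < g' (a i.castSucc) * g' (a i.succ) :=
      lt_of_le_of_ne hcon (Ne.symm (mul_ne_zero (hne _) (hne _)))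
    obtain ⟨c, h1, h2, h3⟩ := alt_between' hg (ha Fin.castSucc_lt_succ) (hlev _ _) hpos
    have hnot : c ∉ Finset.univ.image a := by
      intro hx
      obtain ⟨j, -, hj⟩ := Finset.mem_image.mp hx
      rcases le_or_gt j i.castSucc with h | h
      · have h4 : a j ≤ a i.castSucc := ha.monotone h
        linarith
      · have h4 : a i.succ ≤ a j := ha.monotone (Fin.castSucc_lt_iff_succ_le.mp h)
        linarith
    have h5 := alt_finset hg (K + 1) hZ (insert c (Finset.univ.image a)) (by
        intro x hx
        rcases Finset.mem_insert.mp hx with rfl | hx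
        · exact (ha0 _).trans h1
        · obtain ⟨j, -, rfl⟩ := Finset.mem_image.mp hx
          exact ha0 _) (by
        have h6 : ∀ x ∈ insert c (Finset.univ.image a), g x = g (a i.castSucc) := by
          intro x hx
          rcases Finset.mem_insert.mp hx with rfl | hx
          · exact h3
          · obtain ⟨j, -, rfl⟩ := Finset.mem_image.mp hx
            exact hlev _ _
        intro x hx y hy
        rw [h6 x hx, h6 y hy])
    rw [Finset.card_insert_of_notMem hnot, Finset.card_image_of_injective _ ha.injective,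
      Finset.card_univ, Fintype.card_fin] at h5
    omega
  -- all pairs
  have hup : ∀ (i : Fin (K + 1)) (n : ℕ) (h : i.val + n < K + 1),
      0 < (-1 : ℝ) ^ n * (g' (a i) * g' (a ⟨i.val + n, h⟩)) := by
    intro i n
    induction n with
    | zero =>
      intro h
      have h1 : 0 < g' (a i) * g' (a i) := mul_self_pos.mpr (hne i)
      simpa using h1
    | succ n ih =>
      intro h
      have h1 := ih (by omega)
      have h2 := hcons ⟨i.val + n, by omega⟩
      have e1 : (⟨i.val + n, by omega⟩ : Fin K).castSucc = (⟨i.val + n, by omega⟩ : Fin (K + 1)) := rfl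
      have e2 : (⟨i.val + n, by omega⟩ : Fin K).succ = (⟨i.val + (n + 1), h⟩ : Fin (K + 1)) := rfl
      rw [e1, e2] at h2
      have h3 := mul_pos_of_neg_of_neg h2 (neg_lt_zero.mpr h1)
      have h4 : 0 < (g' (a ⟨i.val + n, by omega⟩)) ^ 2 := by
        have := hne ⟨i.val + n, by omega⟩
        positivity
      rw [pow_succ]
      nlinarith [h3, h4, mul_pos h4 h4]
  intro i i'
  rcases le_total i.val i'.val with h | h
  · have h1 := hup i (i'.val - i.val) (by have := i'.isLt; omega)
    have e : (⟨i.val + (i'.val - i.val), by have := i'.isLt; omega⟩ : Fin (K + 1)) = i' := by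
      apply Fin.ext; simp; omega
    rw [e] at h1
    have e2 : (-1 : ℝ) ^ (i.val + i'.val) = (-1) ^ (i'.val - i.val) := by
      have : i.val + i'.val = (i'.val - i.val) + 2 * i.val := by omega
      rw [this, pow_add, pow_mul]; simp
    rw [e2]; exact h1
  · have h1 := hup i' (i.val - i'.val) (by have := i.isLt; omega)
    have e : (⟨i'.val + (i.val - i'.val), by have := i.isLt; omega⟩ : Fin (K + 1)) = i := by
      apply Fin.ext; simp; omega
    rw [e] at h1
    have e2 : (-1 : ℝ) ^ (i.val + i'.val) = (-1) ^ (i.val - i'.val) := by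
      have : i.val + i'.val = (i.val - i'.val) + 2 * i'.val := by omega
      rw [this, pow_add, pow_mul]; simp
    rw [e2, mul_comm (g' (a i))]; exact h1

end Pool.Agent.H.MP_eff680_pr.D1
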