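import Pool.Agent.H.MP_eff680_pr.D1.Defs

/-! Calculus of `F` and `qt`. -/

open MeasureTheory Set

namespace Pool.Agent.H.MP_eff680_pr.D1

lemma calc_Ke_cont (ρ : ℝ) : Continuous (fun p : ℝ × ℝ => Ke ρ p.1 p.2) := by
  unfold Ke
  have h1 : Continuous (fun p : ℝ × ℝ => Real.cosh (ρ * p.1 * p.2 / cc ρ ^ 2)) :=
    Real.continuous_cosh.comp (by fun_prop)
  have h2 : Continuous (fun p : ℝ × ℝ =>
      Real.exp (-(ρ ^ 2 * (p.1 ^ 2 + p.2 ^ 2)) / (2 * cc ρ ^ 2))) :=
    Real.continuous_exp.comp (by fun_prop)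
  exact (continuous_const.mul h2).mul h1

lemma calc_k_cont (ρ : ℝ) :
    Continuous (fun p : ℝ × ℝ => kap * ph p.1 * (kap * ph p.2 * Ke ρ p.1 p.2)) := by
  have h1 := ph_continuous.comp (continuous_fst : Continuous (fun p : ℝ × ℝ => p.1))
  have h2 := ph_continuous.comp (continuous_snd : Continuous (fun p : ℝ × ℝ => p.2))
  exact (continuous_const.mul h1).mul ((continuous_const.mul h2).mul (calc_Ke_cont ρ))

lemma calc_G_eq {ρ : ℝ} (hρ : 0 < ρ) (hρ1 : ρ < 1) (x t : ℝ) :
    G ρ x t = ∫ y in (0 : ℝ)..t, kap * ph y * Ke ρ x y := by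
  have hcont : Continuous fun y => kap * ph y * Ke ρ x y :=
    (continuous_const.mul ph_continuous).mul
      ((calc_Ke_cont ρ).comp (Continuous.prodMk continuous_const continuous_id))
  have h1 : ∀ y ∈ uIcc 0 t, HasDerivAt (fun y => G ρ x y) (kap * ph y * Ke ρ x y) y := by
    intro y _
    have := G_hasDerivAt hρ hρ1 (hasDerivAt_const y x) (hasDerivAt_id y)
    refine this.congr_deriv ?_
    simp only [id]
    ring
  rw [intervalIntegral.integral_eq_sub_of_hasDerivAt h1 (hcont.intervalIntegrable _ _)]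
  have h0 : G ρ x 0 = 0 := by
    unfold G
    have e : (0 - ρ * x) / cc ρ = -((0 + ρ * x) / cc ρ) := by ring
    rw [e, W_neg]
    ring
  rw [h0, sub_zero]

lemma calc_F_eq {ρ : ℝ} (hρ : 0 < ρ) (hρ1 : ρ < 1) (s t : ℝ) :
    F ρ s t = ∫ x in (0 : ℝ)..s, ∫ y in (0 : ℝ)..t,
      kap * ph x * (kap * ph y * Ke ρ x y) := by
  unfold F
  refine intervalIntegral.integral_congr fun x _ => ?_
  show kap * ph x * G ρ x t = ∫ y in (0 : ℝ)..t, kap * ph x * (kap * ph y * Ke ρ x y)
  rw [calc_G_eq hρ hρ1, intervalIntegral.integral_const_mul]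

/-- `F` is symmetric. -/
theorem F_symm {ρ : ℝ} (hρ : 0 < ρ) (hρ1 : ρ < 1) (s t : ℝ) : F ρ s t = F ρ t s := by
  rw [calc_F_eq hρ hρ1, calc_F_eq hρ hρ1, intervalIntegral_intervalIntegral_swap]
  · refine intervalIntegral.integral_congr fun y _ => ?_
    refine intervalIntegral.integral_congr fun x _ => ?_
    show kap * ph x * (kap * ph y * Ke ρ x y) = kap * ph y * (kap * ph x * Ke ρ y x)
    rw [Ke_symm ρ x y]
    ring
  · have h := (calc_k_cont ρ).continuousOn.integrableOn_compact (μ := volume)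
      ((isCompact_uIcc (a := (0 : ℝ)) (b := s)).prod (isCompact_uIcc (a := (0 : ℝ)) (b := t)))
    exact h.mono_set (prod_mono uIoc_subset_uIcc uIoc_subset_uIcc)

lemma calc_G_cont (ρ : ℝ) : Continuous (fun p : ℝ × ℝ => G ρ p.1 p.2) := by
  unfold G
  have h1 := W_continuous.comp
    (show Continuous (fun p : ℝ × ℝ => (p.2 - ρ * p.1) / cc ρ) by fun_prop)
  have h2 := W_continuous.comp
    (show Continuous (fun p : ℝ × ℝ => (p.2 + ρ * p.1) / cc ρ) by fun_prop)
  exact continuous_const.mul (h1.add h2)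

lemma calc_F_left (ρ s t : ℝ) :
    HasDerivAt (fun u => F ρ u t) (kap * ph s * G ρ s t) s := by
  have hcont : Continuous fun x => kap * ph x * G ρ x t :=
    (continuous_const.mul ph_continuous).mul
      ((calc_G_cont ρ).comp (Continuous.prodMk continuous_id continuous_const))
  exact intervalIntegral.integral_hasDerivAt_right (hcont.intervalIntegrable _ _)
    (hcont.stronglyMeasurableAtFilter _ _) hcont.continuousAt

lemma calc_F_right {ρ : ℝ} (hρ : 0 < ρ) (hρ1 : ρ < 1) (s t : ℝ) :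
    HasDerivAt (fun u => F ρ s u) (kap * ph t * G ρ t s) t := by
  have h := calc_F_left ρ t s
  have e : (fun u => F ρ s u) = fun u => F ρ u s := by
    funext u
    exact F_symm hρ hρ1 s u
  rw [e]
  exact h

/-- `F` along a differentiable path. -/
theorem F_hasDerivAt {ρ : ℝ} (hρ : 0 < ρ) (hρ1 : ρ < 1) {f g : ℝ → ℝ} {f' g' x : ℝ}
    (hf : HasDerivAt f f' x) (hg : HasDerivAt g g' x) :
    HasDerivAt (fun y => F ρ (f y) (g y))
      (kap * ph (f x) * G ρ (f x) (g x) * f' + kap * ph (g x) * G ρ (g x) (f x) * g') x := by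
  have c1 : Continuous (fun p : ℝ × ℝ => kap * ph p.1 * G ρ p.1 p.2) :=
    (continuous_const.mul (ph_continuous.comp continuous_fst)).mul (calc_G_cont ρ)
  have c2 : Continuous (fun p : ℝ × ℝ => kap * ph p.2 * G ρ p.2 p.1) :=
    (continuous_const.mul (ph_continuous.comp continuous_snd)).mul
      ((calc_G_cont ρ).comp continuous_swap)
  have hF : ∀ (c : ℝ) (h : ℝ → ℝ) (z : ℝ), HasDerivAt h c z →
      HasFDerivAt h (c • ContinuousLinearMap.id ℝ ℝ) z := by
    intro c h z hd
    have e : c • ContinuousLinearMap.id ℝ ℝ = ContinuousLinearMap.toSpanSingleton ℝ c := by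
      ext
      simp
    rw [e]
    exact hd.hasFDerivAt
  have key := hasStrictFDerivAt_uncurry_coprod (𝕜 := ℝ) (u := (f x, g x)) (f := F ρ)
    (f₁ := fun s t => (kap * ph s * G ρ s t) • ContinuousLinearMap.id ℝ ℝ)
    (f₂ := fun s t => (kap * ph t * G ρ t s) • ContinuousLinearMap.id ℝ ℝ)
    (Filter.Eventually.of_forall fun v => hF _ _ _ (calc_F_left ρ v.1 v.2))
    (Filter.Eventually.of_forall fun v => hF _ _ _ (calc_F_right hρ hρ1 v.1 v.2))
    (c1.smul continuous_const).continuousAt (c2.smul continuous_const).continuousAt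
  have h2 := key.hasFDerivAt.comp_hasDerivAt x (hf.prodMk hg)
  exact h2

/-- `kap * W s → 1` as `s → ∞`. -/
theorem tendsto_kapW : Filter.Tendsto (fun s => kap * W s) Filter.atTop (nhds 1) := by
  have e : ∀ x : ℝ, ph x = Real.exp (-(1 / 2) * x ^ 2) := by
    intro x; unfold ph; congr 1; ring
  have hint : IntegrableOn ph (Ioi 0) := by
    have := (integrable_exp_neg_mul_sq (b := 1 / 2) (by norm_num)).integrableOn (s := Ioi (0 : ℝ))
    refine this.congr ?_
    exact Filter.Eventually.of_forall fun x => (e x).symm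
  have h1 : Filter.Tendsto W Filter.atTop (nhds (∫ x in Ioi (0 : ℝ), ph x)) :=
    intervalIntegral_tendsto_integral_Ioi 0 hint Filter.tendsto_id
  have h2 : ∫ x in Ioi (0 : ℝ), ph x = √(Real.pi / (1 / 2)) / 2 := by
    rw [← integral_gaussian_Ioi (1 / 2)]
    exact integral_congr_ae (Filter.Eventually.of_forall fun x => e x)
  have h3 : kap * (√(Real.pi / (1 / 2)) / 2) = 1 := by
    unfold kap
    rw [← mul_div_assoc, ← Real.sqrt_mul (by positivity)]
    have : 2 / Real.pi * (Real.pi / (1 / 2)) = 2 ^ 2 := by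
      field_simp
    rw [this, Real.sqrt_sq (by norm_num)]
    norm_num
  rw [← h3, ← h2]
  exact h1.const_mul kap

lemma calc_mono : StrictMono (fun s => kap * W s) := fun _ _ h =>
  mul_lt_mul_of_pos_left (W_strictMono h) kap_pos

/-- `kap * W s < 1`. -/
theorem kapW_lt (s : ℝ) : kap * W s < 1 := by
  have h1 : kap * W s < kap * W (s + 1) := calc_mono (by linarith)
  have h2 : kap * W (s + 1) ≤ 1 := calc_mono.monotone.ge_of_tendsto tendsto_kapW (s + 1)
  exact lt_of_lt_of_le h1 h2

lemma calc_neg_lt (s : ℝ) : -1 < kap * W s := by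
  have h := kapW_lt (-s)
  rw [W_neg] at h
  linarith

/-- `qt` is a left inverse of `s ↦ kap * W s` (injectivity). -/
theorem qt_kapW (s : ℝ) : qt (kap * W s) = s :=
  Function.leftInverse_invFun calc_mono.injective s

lemma calc_exists {u : ℝ} (hu : -1 < u) (hu1 : u < 1) : ∃ s, kap * W s = u := by
  have hc : Continuous (fun s => kap * W s) := continuous_const.mul W_continuous
  obtain ⟨a, ha⟩ := (tendsto_kapW.eventually (lt_mem_nhds hu1)).exists
  obtain ⟨b, hb⟩ := (tendsto_kapW.eventually (lt_mem_nhds (show -u < 1 by linarith))).exists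
  have hb' : kap * W (-b) ≤ u := by rw [W_neg]; linarith
  exact mem_range_of_exists_le_of_exists_ge hc ⟨-b, hb'⟩ ⟨a, ha.le⟩

/-- `qt` is a right inverse on `(-1, 1)` (intermediate value theorem). -/
theorem kapW_qt {u : ℝ} (hu : -1 < u) (hu1 : u < 1) : kap * W (qt u) = u :=
  Function.invFun_eq (f := fun s : ℝ => kap * W s) (calc_exists hu hu1)

theorem qt_pos {u : ℝ} (hu : 0 < u) (hu1 : u < 1) : 0 < qt u := by
  have h1 := kapW_qt (by linarith) hu1
  apply calc_mono.lt_iff_lt.1
  show kap * W 0 < kap * W (qt u)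
  rw [h1, W_zero, mul_zero]
  exact hu

theorem qt_strictMonoOn : StrictMonoOn qt (Ioo (-1) 1) := by
  intro u hu v hv huv
  apply calc_mono.lt_iff_lt.1
  show kap * W (qt u) < kap * W (qt v)
  rw [kapW_qt hu.1 hu.2, kapW_qt hv.1 hv.2]
  exact huv

/-- Inverse function theorem (`HasStrictDerivAt.to_local_left_inverse`). -/
theorem qt_hasDerivAt {u : ℝ} (hu : -1 < u) (hu1 : u < 1) :
    HasDerivAt qt (1 / (kap * ph (qt u))) u := by
  have h1 : HasStrictDerivAt (fun s => kap * W s) (kap * ph (qt u)) (qt u) :=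
    (W_hasStrictDerivAt (qt u)).const_mul kap
  have h2 := (h1.to_local_left_inverse (mul_pos kap_pos (ph_pos _)).ne'
    (Filter.Eventually.of_forall fun s => qt_kapW s)).hasDerivAt
  rw [kapW_qt hu hu1] at h2
  rw [one_div]
  exact h2

/-- `qt` is measurable. -/
theorem qt_measurable : Measurable qt := by
  classical
  have h1 : ContinuousOn qt (Ioo (-1) 1) := fun u hu =>
    (qt_hasDerivAt hu.1 hu.2).continuousAt.continuousWithinAt
  have h2 : qt = (Ioo (-1 : ℝ) 1).piecewise qt
      (fun _ => (Classical.choice (inferInstance : Nonempty ℝ))) := by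
    funext u
    by_cases hu : u ∈ Ioo (-1 : ℝ) 1
    · rw [piecewise_eq_of_mem _ _ _ hu]
    · rw [piecewise_eq_of_notMem _ _ _ hu]
      apply Function.invFun_neg
      rintro ⟨s, hs⟩
      apply hu
      rw [← hs]
      exact ⟨calc_neg_lt s, kapW_lt s⟩
  rw [h2]
  exact h1.measurable_piecewise continuousOn_const measurableSet_Ioo

end Pool.Agent.H.MP_eff680_pr.D1
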