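import Pool.Agent.H.MP_eff680_pr.D1.Tp

/-! At least three boundary points on each side: the second variation is positive somewhere. -/

open Set

namespace Pool.Agent.H.MP_eff680_pr.D1

/-- The inequality, in abstract form. -/
theorem lin_core (k : ℕ) (hk : 3 ≤ k) (ρ : ℝ) (hρ1 : ρ < 1)
    (Ke Me n : Fin k → Fin k → ℝ) (p q X Y : Fin k → ℝ) (hp : ∀ i, 0 < p i) (hq : ∀ j, 0 < q j)
    (hX : ∀ i, 0 < X i) (hY : ∀ j, 0 < Y j) (hn : ∀ j i, |Me j i| ≤ n j i)
    (hinv : ∀ j j', ∑ i, Me j i * Ke i j' = if j = j' then 1 else 0)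
    (h1 : ∀ j, ∑ i, n j i * (p i * X i) = ρ * Y j)
    (h2 : ∀ i, ∑ j, n j i * (q j * Y j) = ρ * X i) :
    ∃ α β : Fin k → ℝ, ∑ i, α i = 0 ∧ ∑ j, β j = 0 ∧
      ∑ i, p i * α i ^ 2 + ∑ j, q j * β j ^ 2 <
        2 * ∑ i, ∑ j, α i * β j * Ke i j := by
  classical
  -- the linear map
  let f : (Fin k → ℝ) →ₗ[ℝ] (Fin 2 → ℝ) :=
    { toFun := fun β => ![∑ j, β j, ∑ i, (∑ j, Ke i j * β j) / p i]
      map_add' := by
        intro x y
        ext t
        fin_cases t
        · simp [Finset.sum_add_distrib]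
        · simp [Finset.sum_add_distrib, mul_add, add_div]
      map_smul' := by
        intro c x
        ext t
        fin_cases t
        · simp [Finset.mul_sum]
        · simp only [Pi.smul_apply, smul_eq_mul, RingHom.id_apply, Fin.mk_one, Matrix.cons_val_one,
            Matrix.cons_val_fin_one]
          rw [Finset.mul_sum]
          refine Finset.sum_congr rfl (fun i _ => ?_)
          rw [mul_div_assoc', Finset.mul_sum]
          congr 1
          refine Finset.sum_congr rfl (fun j _ => ?_)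
          ring }
  have hker : LinearMap.ker f ≠ ⊥ := by
    apply LinearMap.ker_ne_bot_of_finrank_lt
    simp
    omega
  obtain ⟨β, hβker, hβ0⟩ := (Submodule.ne_bot_iff _).mp hker
  have hf : f β = 0 := hβker
  have hf0 : ∑ j, β j = 0 := by
    have := congrFun hf 0
    simpa [f] using this
  have hf1 : ∑ i, (∑ j, Ke i j * β j) / p i = 0 := by
    have := congrFun hf 1
    simpa [f] using this
  set α : Fin k → ℝ := fun i => (∑ j, Ke i j * β j) / p i with hα
  have hpα : ∀ i, p i * α i = ∑ j, Ke i j * β j := by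
    intro i
    simp only [hα]
    field_simp [(hp i).ne']
  have hβM : ∀ j, β j = ∑ i, Me j i * (p i * α i) := by
    intro j
    have : ∑ i, Me j i * (p i * α i) = ∑ j', (∑ i, Me j i * Ke i j') * β j' := by
      simp_rw [hpα, Finset.mul_sum, Finset.sum_mul]
      rw [Finset.sum_comm]
      refine Finset.sum_congr rfl (fun j' _ => Finset.sum_congr rfl (fun i _ => ?_))
      ring
    rw [this]
    simp_rw [hinv]
    simp
  have hα0 : ∃ i, α i ≠ 0 := by
    by_contra hcon
    push Not at hcon
    apply hβ0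
    funext j
    rw [hβM j]
    simp [hcon]
  have hP : 0 < ∑ i, p i * α i ^ 2 := by
    obtain ⟨i, hi⟩ := hα0
    apply Finset.sum_pos'
    · intro i _
      have := hp i
      positivity
    · refine ⟨i, Finset.mem_univ _, ?_⟩
      have := hp i
      positivity
  have hpt : ∀ j i, q j * β j * (Me j i * (p i * α i)) ≤
      (1 / 2) * ((q j * β j ^ 2 / Y j) * (n j i * (p i * X i))
        + (p i * α i ^ 2 / X i) * (n j i * (q j * Y j))) := by
    intro j i
    have hx := hX i
    have hy := hY j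
    have hpi := hp i
    have hqj := hq j
    have hnn : 0 ≤ n j i := le_trans (abs_nonneg _) (hn j i)
    have e1 : q j * β j * (Me j i * (p i * α i)) ≤ q j * p i * n j i * (|β j| * |α i|) := by
      have : q j * β j * (Me j i * (p i * α i)) ≤ |q j * β j * (Me j i * (p i * α i))| := le_abs_self _
      refine this.trans ?_
      rw [abs_mul, abs_mul, abs_mul, abs_mul, abs_of_pos hqj, abs_of_pos hpi]
      have h3 := hn j i
      have h4 : 0 ≤ q j * p i * (|β j| * |α i|) := by positivity
      nlinarith [mul_le_mul_of_nonneg_left h3 h4]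
    have e2 : |β j| * |α i| ≤ (1 / 2) * (β j ^ 2 * (X i / Y j) + α i ^ 2 * (Y j / X i)) := by
      have h5 : 0 ≤ (|β j| * X i - |α i| * Y j) ^ 2 := sq_nonneg _
      have h6 : (1 / 2) * (β j ^ 2 * (X i / Y j) + α i ^ 2 * (Y j / X i)) - |β j| * |α i|
          = (|β j| * X i - |α i| * Y j) ^ 2 / (2 * (X i * Y j)) := by
        rw [← sq_abs (β j), ← sq_abs (α i)]
        field_simp
        ring
      have h7 : 0 ≤ (|β j| * X i - |α i| * Y j) ^ 2 / (2 * (X i * Y j)) := by positivity
      linarith
    have e3 : q j * p i * n j i * (|β j| * |α i|) ≤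
        q j * p i * n j i * ((1 / 2) * (β j ^ 2 * (X i / Y j) + α i ^ 2 * (Y j / X i))) :=
      mul_le_mul_of_nonneg_left e2 (by positivity)
    refine (e1.trans e3).trans (le_of_eq ?_)
    field_simp
  have hQ : ∑ j, q j * β j ^ 2 ≤ (ρ / 2) * (∑ j, q j * β j ^ 2 + ∑ i, p i * α i ^ 2) := by
    have e1 : ∑ j, q j * β j ^ 2 = ∑ j, ∑ i, q j * β j * (Me j i * (p i * α i)) := by
      refine Finset.sum_congr rfl (fun j _ => ?_)
      rw [← Finset.mul_sum, ← hβM j]
      ring
    have e2 : ∑ j, ∑ i, q j * β j * (Me j i * (p i * α i)) ≤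
        ∑ j, ∑ i, (1 / 2) * ((q j * β j ^ 2 / Y j) * (n j i * (p i * X i))
        + (p i * α i ^ 2 / X i) * (n j i * (q j * Y j))) :=
      Finset.sum_le_sum (fun j _ => Finset.sum_le_sum (fun i _ => hpt j i))
    have e3 : ∑ j, ∑ i, (1 / 2) * ((q j * β j ^ 2 / Y j) * (n j i * (p i * X i))
        + (p i * α i ^ 2 / X i) * (n j i * (q j * Y j)))
        = (1 / 2) * (∑ j, (q j * β j ^ 2 / Y j) * (∑ i, n j i * (p i * X i))
          + ∑ i, (p i * α i ^ 2 / X i) * (∑ j, n j i * (q j * Y j))) := by
      simp_rw [← Finset.mul_sum, Finset.sum_add_distrib]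
      congr 2
      · simp_rw [Finset.mul_sum]
      · simp_rw [Finset.mul_sum]
        rw [Finset.sum_comm]
    rw [e3] at e2
    simp_rw [h1, h2] at e2
    have e4 : ∑ j, (q j * β j ^ 2 / Y j) * (ρ * Y j) = ρ * ∑ j, q j * β j ^ 2 := by
      rw [Finset.mul_sum]
      refine Finset.sum_congr rfl (fun j _ => ?_)
      have := (hY j).ne'
      field_simp
    have e5 : ∑ i, (p i * α i ^ 2 / X i) * (ρ * X i) = ρ * ∑ i, p i * α i ^ 2 := by
      rw [Finset.mul_sum]
      refine Finset.sum_congr rfl (fun i _ => ?_)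
      have := (hX i).ne'
      field_simp
    rw [e4, e5, ← e1] at e2
    linarith
  refine ⟨α, β, hf1, hf0, ?_⟩
  have hcross : ∑ i, ∑ j, α i * β j * Ke i j = ∑ i, p i * α i ^ 2 := by
    refine Finset.sum_congr rfl (fun i _ => ?_)
    have : ∑ j, α i * β j * Ke i j = α i * ∑ j, Ke i j * β j := by
      rw [Finset.mul_sum]
      exact Finset.sum_congr rfl (fun j _ => by ring)
    rw [this, ← hpα i]
    ring
  rw [hcross]
  nlinarith [hP, hQ]

theorem lin_inv (k : ℕ) (K : Matrix (Fin k) (Fin k) ℝ)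
    (h : ∀ v : Fin k → ℝ, (∀ i, ∑ j, K i j * v j = 0) → v = 0) :
    ∃ M : Matrix (Fin k) (Fin k) ℝ, K * M = 1 ∧ M * K = 1 := by
  have hinj : Function.Injective K.mulVec := by
    intro v w hvw
    have : v - w = 0 := by
      apply h
      intro i
      have h1 := congrFun hvw i
      simp only [Matrix.mulVec, dotProduct] at h1
      simp only [Pi.sub_apply, mul_sub, Finset.sum_sub_distrib]
      linarith
    exact sub_eq_zero.mp this
  have hu : IsUnit K := Matrix.mulVec_injective_iff_isUnit.mp hinj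
  obtain ⟨u, rfl⟩ := hu
  exact ⟨(u⁻¹ : (Matrix (Fin k) (Fin k) ℝ)ˣ), u.mul_inv, u.inv_mul⟩

theorem lin_abs_sum {k : ℕ} (f : Fin k → ℝ) (h : ∀ i i', 0 < f i * f i') :
    |∑ i, f i| = ∑ i, |f i| := by
  cases k with
  | zero => simp
  | succ m =>
    rcases lt_trichotomy (f 0) 0 with h0 | h0 | h0
    · have : ∀ i, f i < 0 := by
        intro i
        by_contra hcon
        have h1 := h 0 i
        have h2 := mul_nonneg (not_lt.mp hcon) (neg_nonneg.mpr h0.le)
        linarith
      have e1 : ∑ i, |f i| = -∑ i, f i := by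
        rw [← Finset.sum_neg_distrib]
        exact Finset.sum_congr rfl (fun i _ => abs_of_neg (this i))
      rw [e1, abs_of_nonpos (Finset.sum_nonpos (fun i _ => (this i).le))]
    · have := h 0 0
      rw [h0] at this
      simp at this
    · have : ∀ i, 0 < f i := by
        intro i
        by_contra hcon
        have h1 := h 0 i
        have h2 := mul_nonneg h0.le (neg_nonneg.mpr (not_lt.mp hcon))
        linarith
      rw [abs_of_nonneg (Finset.sum_nonneg (fun i _ => (this i).le))]
      exact Finset.sum_congr rfl (fun i _ => (abs_of_pos (this i)).symm)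

/-- The linear algebra of the second variation.

Proof. The matrices `C = [cosh (a_i b_j)]`, `S = [sinh (a_i b_j)]` are invertible (`coshSum_zeros`,
`sinhSum_zeros`: trivial kernel; rows `i`, columns `j`). Let `Me`, `Mo` be the inverses of
`Ke = [r_i s_j cosh (a_i b_j)]`, `Ko = [r_i s_j sinh (a_i b_j)]`; their entries are those of `C⁻¹`, `S⁻¹`
divided by `s_j r_i`. `tp` (applied to the columns of `C⁻¹`, `S⁻¹`) gives `|Me j i| ≤ |Mo j i|` and that `Mo j i`
alternates in sign in `j`; `tp` for the transposed matrices (roles of `a`, `b` exchanged) gives that `Mo j i`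
alternates in sign in `i`. Let `n j i = |Mo j i|`. From `h1`: `y_j = ρ⁻¹ Σ_i Mo j i p_i x_i`, all terms of the
same sign, so `Σ_i n j i p_i |x_i| = ρ |y_j|`; from `h2`: `Σ_j n j i q_j |y_j| = ρ |x_i|`.
Choose `β ≠ 0` with `Σ β_j = 0` and `Σ_i α_i = 0` where `α_i = (Σ_j Ke i j β_j) / p_i` (two linear equations,
`k ≥ 3` unknowns). `α ≠ 0` as `Ke` is injective. `β_j = Σ_i Me j i p_i α_i`, so
`Σ_j q_j β_j² ≤ Σ_{j,i} q_j |β_j| n j i p_i |α_i| ≤ ½ Σ_{j,i} q_j n j i p_i (β_j² |x_i|/|y_j| + α_i² |y_j|/|x_i|)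
 = (ρ/2) (Σ_j q_j β_j² + Σ_i p_i α_i²)`. Since `ρ < 1` and `Σ p_i α_i² > 0`, `Σ q_j β_j² < Σ p_i α_i²`, and
`2 Σ α_i Ke i j β_j = 2 Σ p_i α_i² > Σ p_i α_i² + Σ q_j β_j²`. -/
theorem lin_pos (k : ℕ) (hk : 3 ≤ k) (ρ : ℝ) (hρ : 0 < ρ) (hρ1 : ρ < 1)
    (a b : Fin k → ℝ) (ha : StrictMono a) (ha0 : ∀ i, 0 < a i) (hb : StrictMono b)
    (hb0 : ∀ j, 0 < b j) (r s : Fin k → ℝ) (hr : ∀ i, 0 < r i) (hs : ∀ j, 0 < s j)
    (p q x y : Fin k → ℝ) (hp : ∀ i, 0 < p i) (hq : ∀ j, 0 < q j)
    (hx : ∀ i i' : Fin k, 0 < (-1 : ℝ) ^ (i.val + i'.val) * (x i * x i'))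
    (hy : ∀ j j' : Fin k, 0 < (-1 : ℝ) ^ (j.val + j'.val) * (y j * y j'))
    (h1 : ∀ i, ∑ j, r i * s j * Real.sinh (a i * b j) * y j = ρ⁻¹ * (p i * x i))
    (h2 : ∀ j, ∑ i, r i * s j * Real.sinh (a i * b j) * x i = ρ⁻¹ * (q j * y j)) :
    ∃ α β : Fin k → ℝ, ∑ i, α i = 0 ∧ ∑ j, β j = 0 ∧
      ∑ i, p i * α i ^ 2 + ∑ j, q j * β j ^ 2 <
        2 * ∑ i, ∑ j, α i * β j * (r i * s j * Real.cosh (a i * b j)) := by
  classical
  set C : Matrix (Fin k) (Fin k) ℝ := Matrix.of (fun i j => Real.cosh (a i * b j)) with hC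
  set S : Matrix (Fin k) (Fin k) ℝ := Matrix.of (fun i j => Real.sinh (a i * b j)) with hS
  have hZ0 : ∀ t ∈ Finset.univ.image a, 0 < t := by
    intro t ht
    obtain ⟨i, -, rfl⟩ := Finset.mem_image.mp ht
    exact ha0 i
  have hZc : (Finset.univ.image a).card = k := by
    rw [Finset.card_image_of_injective _ ha.injective, Finset.card_univ, Fintype.card_fin]
  obtain ⟨Ci, hCi, hCi'⟩ := lin_inv k C (by
    intro v hv
    by_contra hne
    have := coshSum_zeros k b hb hb0 v hne (Finset.univ.image a) hZ0 (by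
      intro t ht
      obtain ⟨i, -, rfl⟩ := Finset.mem_image.mp ht
      rw [← hv i]
      refine Finset.sum_congr rfl (fun j _ => ?_)
      simp only [hC, Matrix.of_apply]
      rw [mul_comm (b j), mul_comm])
    omega)
  obtain ⟨Si, hSi, hSi'⟩ := lin_inv k S (by
    intro v hv
    by_contra hne
    have := sinhSum_zeros k b hb hb0 v hne (Finset.univ.image a) hZ0 (by
      intro t ht
      obtain ⟨i, -, rfl⟩ := Finset.mem_image.mp ht
      rw [← hv i]
      refine Finset.sum_congr rfl (fun j _ => ?_)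
      simp only [hS, Matrix.of_apply]
      rw [mul_comm (b j), mul_comm])
    omega)
  have eC : ∀ l i, ∑ j, Ci j i * Real.cosh (b j * a l) = if l = i then 1 else 0 := by
    intro l i
    have := congrFun (congrFun hCi l) i
    rw [Matrix.mul_apply, Matrix.one_apply] at this
    rw [← this]
    refine Finset.sum_congr rfl (fun j _ => ?_)
    simp only [hC, Matrix.of_apply]
    rw [mul_comm (b j), mul_comm]
  have eS : ∀ l i, ∑ j, Si j i * Real.sinh (b j * a l) = if l = i then 1 else 0 := by
    intro l i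
    have := congrFun (congrFun hSi l) i
    rw [Matrix.mul_apply, Matrix.one_apply] at this
    rw [← this]
    refine Finset.sum_congr rfl (fun j _ => ?_)
    simp only [hS, Matrix.of_apply]
    rw [mul_comm (b j), mul_comm]
  have eC' : ∀ j l, ∑ i, Ci j i * Real.cosh (a i * b l) = if l = j then 1 else 0 := by
    intro j l
    have := congrFun (congrFun hCi' j) l
    rw [Matrix.mul_apply, Matrix.one_apply] at this
    simp only [hC, Matrix.of_apply] at this
    rw [this]
    simp only [eq_comm]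
  have eS' : ∀ j l, ∑ i, Si j i * Real.sinh (a i * b l) = if l = j then 1 else 0 := by
    intro j l
    have := congrFun (congrFun hSi' j) l
    rw [Matrix.mul_apply, Matrix.one_apply] at this
    simp only [hS, Matrix.of_apply] at this
    rw [this]
    simp only [eq_comm]
  have t1 : ∀ i, (∀ j, |Ci j i| < |Si j i|) ∧
      (∀ j j' : Fin k, 0 < (-1 : ℝ) ^ (j.val + j'.val) * (Si j i * Si j' i)) := fun i =>
    tp k a b ha ha0 hb hb0 i (fun j => Ci j i) (fun j => Si j i) (fun l => eC l i) (fun l => eS l i)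
  have t2 : ∀ j, ∀ i i' : Fin k, 0 < (-1 : ℝ) ^ (i.val + i'.val) * (Si j i * Si j i') := fun j =>
    (tp k b a hb hb0 ha ha0 j (fun i => Ci j i) (fun i => Si j i)
      (fun l => eC' j l) (fun l => eS' j l)).2
  have hx0 : ∀ i, x i ≠ 0 := by
    intro i hi
    have := hx i i
    rw [hi] at this
    simp at this
  have hy0 : ∀ j, y j ≠ 0 := by
    intro j hj
    have := hy j j
    rw [hj] at this
    simp at this
  have hSgn : ∀ m : ℕ, (-1 : ℝ) ^ m * (-1 : ℝ) ^ m = 1 := by
    intro m
    rw [← mul_pow]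
    simp
  -- y in terms of x
  have hyx : ∀ j, ρ * y j = ∑ i, Si j i / (s j * r i) * (p i * x i) := by
    intro j
    have e1 : ∀ i, p i * x i = ρ * ∑ l, r i * s l * Real.sinh (a i * b l) * y l := by
      intro i
      rw [h1 i]
      field_simp
    have e2 : ∑ i, Si j i / (s j * r i) * (p i * x i)
        = ∑ l, ρ * (s l / s j) * y l * ∑ i, Si j i * Real.sinh (a i * b l) := by
      simp_rw [e1, Finset.mul_sum]
      rw [Finset.sum_comm]
      refine Finset.sum_congr rfl (fun l _ => Finset.sum_congr rfl (fun i _ => ?_))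
      have hri := (hr i).ne'
      have hsj := (hs j).ne'
      field_simp
    rw [e2]
    simp_rw [eS' j]
    have hsj := (hs j).ne'
    simp [hsj]
  have hxy : ∀ i, ρ * x i = ∑ j, Si j i / (s j * r i) * (q j * y j) := by
    intro i
    have e1 : ∀ j, q j * y j = ρ * ∑ l, r l * s j * Real.sinh (a l * b j) * x l := by
      intro j
      rw [h2 j]
      field_simp
    have e2 : ∑ j, Si j i / (s j * r i) * (q j * y j)
        = ∑ l, ρ * (r l / r i) * x l * ∑ j, Si j i * Real.sinh (b j * a l) := by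
      simp_rw [e1, Finset.mul_sum]
      rw [Finset.sum_comm]
      refine Finset.sum_congr rfl (fun l _ => Finset.sum_congr rfl (fun j _ => ?_))
      have hri := (hr i).ne'
      have hsj := (hs j).ne'
      rw [mul_comm (b j)]
      field_simp
    rw [e2]
    simp_rw [fun l => eS l i]
    have hri := (hr i).ne'
    simp [hri]
  have key := lin_core k hk ρ hρ1 (fun i j => r i * s j * Real.cosh (a i * b j))
    (fun j i => Ci j i / (s j * r i)) (fun j i => |Si j i| / (s j * r i)) p q
    (fun i => |x i|) (fun j => |y j|) hp hq (fun i => abs_pos.mpr (hx0 i))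
    (fun j => abs_pos.mpr (hy0 j)) ?_ ?_ ?_ ?_
  · exact key
  · intro j i
    have hri := hr i
    have hsj := hs j
    rw [abs_div, abs_of_pos (mul_pos hsj hri)]
    exact div_le_div_of_nonneg_right ((t1 i).1 j).le (by positivity)
  · intro j j'
    have e : ∑ i, Ci j i / (s j * r i) * (r i * s j' * Real.cosh (a i * b j'))
        = (s j' / s j) * ∑ i, Ci j i * Real.cosh (a i * b j') := by
      rw [Finset.mul_sum]
      refine Finset.sum_congr rfl (fun i _ => ?_)
      have hri := (hr i).ne'
      have hsj := (hs j).ne'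
      field_simp
    rw [e, eC' j j']
    have hsj := (hs j).ne'
    by_cases hjj : j = j'
    · subst hjj
      simp [hsj]
    · rw [if_neg hjj, if_neg (Ne.symm hjj), mul_zero]
  · intro j
    have e1 : |∑ i, Si j i / (s j * r i) * (p i * x i)|
        = ∑ i, |Si j i / (s j * r i) * (p i * x i)| := by
      apply lin_abs_sum
      intro i i'
      have g1 := t2 j i i'
      have g2 := hx i i'
      have g3 := mul_pos g1 g2
      have g4 : (-1 : ℝ) ^ (i.val + i'.val) * (Si j i * Si j i') *
          ((-1 : ℝ) ^ (i.val + i'.val) * (x i * x i')) = Si j i * Si j i' * (x i * x i') := by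
        have := hSgn (i.val + i'.val)
        calc _ = ((-1 : ℝ) ^ (i.val + i'.val) * (-1 : ℝ) ^ (i.val + i'.val)) *
            (Si j i * Si j i' * (x i * x i')) := by ring
          _ = _ := by rw [this, one_mul]
      rw [g4] at g3
      have hri := hr i
      have hri' := hr i'
      have hsj := hs j
      have hpi := hp i
      have hpi' := hp i'
      have g5 : Si j i / (s j * r i) * (p i * x i) * (Si j i' / (s j * r i') * (p i' * x i'))
          = (Si j i * Si j i' * (x i * x i')) * (p i * p i' / ((s j * r i) * (s j * r i'))) := by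
        field_simp
      rw [g5]
      exact mul_pos g3 (by positivity)
    rw [← hyx j, abs_mul, abs_of_pos hρ] at e1
    rw [e1]
    refine Finset.sum_congr rfl (fun i _ => ?_)
    rw [abs_mul (_ / _), abs_div, abs_mul (p i), abs_of_pos (mul_pos (hs j) (hr i)),
      abs_of_pos (hp i)]
  · intro i
    have e1 : |∑ j, Si j i / (s j * r i) * (q j * y j)|
        = ∑ j, |Si j i / (s j * r i) * (q j * y j)| := by
      apply lin_abs_sum
      intro j j'
      have g1 := (t1 i).2 j j'
      have g2 := hy j j'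
      have g3 := mul_pos g1 g2
      have g4 : (-1 : ℝ) ^ (j.val + j'.val) * (Si j i * Si j' i) *
          ((-1 : ℝ) ^ (j.val + j'.val) * (y j * y j')) = Si j i * Si j' i * (y j * y j') := by
        have := hSgn (j.val + j'.val)
        calc _ = ((-1 : ℝ) ^ (j.val + j'.val) * (-1 : ℝ) ^ (j.val + j'.val)) *
            (Si j i * Si j' i * (y j * y j')) := by ring
          _ = _ := by rw [this, one_mul]
      rw [g4] at g3
      have hri := hr i
      have hsj := hs j
      have hsj' := hs j'
      have hqj := hq j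
      have hqj' := hq j'
      have g5 : Si j i / (s j * r i) * (q j * y j) * (Si j' i / (s j' * r i) * (q j' * y j'))
          = (Si j i * Si j' i * (y j * y j')) * (q j * q j' / ((s j * r i) * (s j' * r i))) := by
        field_simp
      rw [g5]
      exact mul_pos g3 (by positivity)
    rw [← hxy i, abs_mul, abs_of_pos hρ] at e1
    rw [e1]
    refine Finset.sum_congr rfl (fun j _ => ?_)
    rw [abs_mul (_ / _), abs_div, abs_mul (q j), abs_of_pos (mul_pos (hs j) (hr i)),
      abs_of_pos (hq j)]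

end Pool.Agent.H.MP_eff680_pr.D1
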