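import Pool.Agent.H.MP_eff680_pr.D1.Half
import Pool.Agent.H.MP_eff680_pr.D1.Lin
import Pool.Agent.H.MP_eff680_pr.D1.Alt

/-! Critical configurations with the second order condition have one boundary point on each side. -/

open MeasureTheory Set

namespace Pool.Agent.H.MP_eff680_pr.D1

/-- the first factor of the kernels -/
noncomputable def crit_r (ρ s : ℝ) : ℝ := 1 / cc ρ * Real.exp (-(ρ ^ 2 * s ^ 2) / (2 * cc ρ ^ 2))

noncomputable def crit_s (ρ s : ℝ) : ℝ := Real.exp (-(ρ ^ 2 * s ^ 2) / (2 * cc ρ ^ 2))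

theorem crit_r_pos {ρ : ℝ} (hρ : 0 < ρ) (hρ1 : ρ < 1) (s : ℝ) : 0 < crit_r ρ s := by
  unfold crit_r
  have := cc_pos hρ hρ1
  positivity

theorem crit_s_pos (ρ s : ℝ) : 0 < crit_s ρ s := Real.exp_pos _

theorem crit_Ko (ρ s t : ℝ) :
    Ko ρ s t = crit_r ρ s * crit_s ρ t * Real.sinh (ρ / cc ρ ^ 2 * s * t) := by
  unfold Ko crit_r crit_s
  rw [mul_assoc (1 / cc ρ) (Real.exp _) (Real.exp _), ← Real.exp_add]
  congr 2
  · congr 1
    ring
  · ring

theorem crit_Ke (ρ s t : ℝ) :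
    Ke ρ s t = crit_r ρ s * crit_s ρ t * Real.cosh (ρ / cc ρ ^ 2 * s * t) := by
  unfold Ke crit_r crit_s
  rw [mul_assoc (1 / cc ρ) (Real.exp _) (Real.exp _), ← Real.exp_add]
  congr 2
  · congr 1
    ring
  · ring

theorem crit_sq {n : ℕ} {τ : Fin n → ℝ}
    (hτ : ∀ j j' : Fin n, τ j * τ j' = (-1) ^ (j.val + j'.val)) (j : Fin n) : τ j * τ j = 1 := by
  rw [hτ j j, ← two_mul, pow_mul]
  norm_num

theorem crit_deriv {ρ : ℝ} (hρ : 0 < ρ) (hρ1 : ρ < 1) {n : ℕ} (b τ : Fin n → ℝ) (x : ℝ) :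
    HasDerivAt (fun s => ∑ j, τ j * G ρ s (b j))
      (-(kap * ρ) * ∑ j, τ j * ph (b j) * Ko ρ x (b j)) x := by
  have h1 : HasDerivAt (fun s => ∑ j, τ j * G ρ s (b j))
      (∑ j, τ j * (kap * ph (b j) * (Ke ρ x (b j) * 0 - ρ * Ko ρ x (b j) * 1))) x := by
    apply HasDerivAt.fun_sum
    intro j _
    exact (G_hasDerivAt hρ hρ1 (hasDerivAt_id x) (hasDerivAt_const x (b j))).const_mul (τ j)
  refine h1.congr_deriv ?_
  rw [Finset.mul_sum]
  apply Finset.sum_congr rfl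
  intro j _
  ring

theorem crit_zeros {ρ : ℝ} (hρ : 0 < ρ) (hρ1 : ρ < 1) {n : ℕ} (hn : 0 < n) (b : Fin n → ℝ)
    (hb : StrictMono b) (hb0 : ∀ j, 0 < b j) (τ : Fin n → ℝ)
    (hτ : ∀ j j' : Fin n, τ j * τ j' = (-1) ^ (j.val + j'.val)) (Z : Finset ℝ)
    (hZ : ∀ x ∈ Z, 0 < x ∧ -(kap * ρ) * ∑ j, τ j * ph (b j) * Ko ρ x (b j) = 0) :
    Z.card < n := by
  have hc := cc_pos hρ hρ1
  have hk : -(kap * ρ) ≠ 0 := neg_ne_zero.2 (mul_pos kap_pos hρ).ne'
  refine sinhSum_zeros n (fun j => ρ / cc ρ ^ 2 * b j)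
    (fun i j hij => mul_lt_mul_of_pos_left (hb hij) (by positivity))
    (fun j => mul_pos (by positivity) (hb0 j)) (fun j => τ j * ph (b j) * crit_s ρ (b j)) ?_ Z
    (fun t ht => (hZ t ht).1) ?_
  · intro h0
    have h1 := congrFun h0 ⟨0, hn⟩
    simp only [Pi.zero_apply, mul_eq_zero] at h1
    have h2 := crit_sq hτ ⟨0, hn⟩
    rcases h1 with (h1 | h1) | h1
    · rw [h1, zero_mul] at h2
      exact zero_ne_one h2
    · exact (ph_pos _).ne' h1
    · exact (crit_s_pos _ _).ne' h1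
  · intro t ht
    have h1 := (mul_eq_zero.1 (hZ t ht).2).resolve_left hk
    have h2 : ∑ j, τ j * ph (b j) * Ko ρ t (b j) = crit_r ρ t *
        ∑ j, τ j * ph (b j) * crit_s ρ (b j) * Real.sinh (ρ / cc ρ ^ 2 * b j * t) := by
      rw [Finset.mul_sum]
      apply Finset.sum_congr rfl
      intro j _
      rw [crit_Ko, mul_right_comm (ρ / cc ρ ^ 2) t (b j)]
      ring
    rw [h2] at h1
    exact (mul_eq_zero.1 h1).resolve_left (crit_r_pos hρ hρ1 t).ne'

theorem crit_le {ρ : ℝ} (hρ : 0 < ρ) (hρ1 : ρ < 1) {m n : ℕ} (hn : 0 < n)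
    (a : Fin m → ℝ) (b : Fin n → ℝ) (ha : StrictMono a) (hb : StrictMono b)
    (ha0 : ∀ i, 0 < a i) (hb0 : ∀ j, 0 < b j) (τ : Fin n → ℝ)
    (hτ : ∀ j j' : Fin n, τ j * τ j' = (-1) ^ (j.val + j'.val))
    (h1 : ∀ i i', ∑ j, τ j * G ρ (a i) (b j) = ∑ j, τ j * G ρ (a i') (b j)) : m ≤ n :=
  card_le_of_level (crit_deriv hρ hρ1 b τ) n (crit_zeros hρ hρ1 hn b hb hb0 τ hτ) m a ha ha0 h1

theorem crit_Ko_continuous (ρ t : ℝ) : Continuous (fun s => Ko ρ s t) := by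
  unfold Ko
  fun_prop

theorem crit_alt {ρ : ℝ} (hρ : 0 < ρ) (hρ1 : ρ < 1) {n : ℕ} (hn : 0 < n)
    (a : Fin n → ℝ) (b : Fin n → ℝ) (ha : StrictMono a) (hb : StrictMono b)
    (ha0 : ∀ i, 0 < a i) (hb0 : ∀ j, 0 < b j) (τ : Fin n → ℝ)
    (hτ : ∀ j j' : Fin n, τ j * τ j' = (-1) ^ (j.val + j'.val))
    (h1 : ∀ i i', ∑ j, τ j * G ρ (a i) (b j) = ∑ j, τ j * G ρ (a i') (b j)) (i i' : Fin n) :
    0 < (-1 : ℝ) ^ (i.val + i'.val) * ((∑ j, τ j * ph (b j) * Ko ρ (a i) (b j)) *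
      ∑ j, τ j * ph (b j) * Ko ρ (a i') (b j)) := by
  have hcont : Continuous (fun x => -(kap * ρ) * ∑ j, τ j * ph (b j) * Ko ρ x (b j)) :=
    continuous_const.mul (continuous_finsetSum _
      (fun j _ => continuous_const.mul (crit_Ko_continuous ρ (b j))))
  have h2 := alternate (crit_deriv hρ hρ1 b τ) hcont n
    (crit_zeros hρ hρ1 hn b hb hb0 τ hτ) a ha ha0 h1 i i'
  have h3 : (0 : ℝ) < (kap * ρ) ^ 2 := pow_pos (mul_pos kap_pos hρ) 2
  have h4 : (-1 : ℝ) ^ (i.val + i'.val) *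
      ((-(kap * ρ) * ∑ j, τ j * ph (b j) * Ko ρ (a i) (b j)) *
        (-(kap * ρ) * ∑ j, τ j * ph (b j) * Ko ρ (a i') (b j))) =
      (kap * ρ) ^ 2 * ((-1 : ℝ) ^ (i.val + i'.val) *
        ((∑ j, τ j * ph (b j) * Ko ρ (a i) (b j)) *
      ∑ j, τ j * ph (b j) * Ko ρ (a i') (b j))) := by ring
  rw [h4] at h2
  exact (mul_pos_iff_of_pos_left h3).1 h2

/-- the numbers `σ_i x_i` have the same sign -/
theorem crit_same {n : ℕ} {σ x : Fin n → ℝ}
    (hσ : ∀ i i' : Fin n, σ i * σ i' = (-1) ^ (i.val + i'.val))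
    (hx : ∀ i i' : Fin n, 0 < (-1 : ℝ) ^ (i.val + i'.val) * (x i * x i')) (i i' : Fin n) :
    0 < (σ i * x i) * (σ i' * x i') := by
  have h := hx i i'
  rw [← hσ i i'] at h
  calc (0 : ℝ) < σ i * σ i' * (x i * x i') := h
    _ = _ := by ring

theorem crit_two {ρ : ℝ} (hρ : 0 < ρ) (hρ1 : ρ < 1)
    (a : Fin 2 → ℝ) (b : Fin 2 → ℝ) (ha : StrictMono a) (hb : StrictMono b)
    (ha0 : ∀ i, 0 < a i) (hb0 : ∀ j, 0 < b j) (σ : Fin 2 → ℝ) (τ : Fin 2 → ℝ)
    (hσ : ∀ i i' : Fin 2, σ i * σ i' = (-1) ^ (i.val + i'.val))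
    (hτ : ∀ j j' : Fin 2, τ j * τ j' = (-1) ^ (j.val + j'.val))
    (h1 : ∀ i i', ∑ j, τ j * G ρ (a i) (b j) = ∑ j, τ j * G ρ (a i') (b j))
    (h2 : ∀ j j', ∑ i, σ i * G ρ (b j) (a i) = ∑ i, σ i * G ρ (b j') (a i))
    (h3 : ∀ (α : Fin 2 → ℝ) (β : Fin 2 → ℝ), ∑ i, α i = 0 → ∑ j, β j = 0 →
      2 * ∑ i, ∑ j, α i * β j * Ke ρ (a i) (b j) ≤
        ∑ i, ρ * (σ i * ∑ j, τ j * ph (b j) * Ko ρ (a i) (b j)) / ph (a i) * α i ^ 2 +
        ∑ j, ρ * (τ j * ∑ i, σ i * ph (a i) * Ko ρ (b j) (a i)) / ph (b j) * β j ^ 2) :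
    False := by
  have hσ0 := crit_sq hσ 0
  have hτ0 := crit_sq hτ 0
  have hσ1 : σ 1 = -σ 0 := by
    have h4 := hσ 0 1
    norm_num at h4
    have h5 : σ 0 * (σ 1 + σ 0) = 0 := by linear_combination h4 + hσ0
    rcases mul_eq_zero.1 h5 with h6 | h6
    · rw [h6] at hσ0
      norm_num at hσ0
    · linarith
  have hτ1 : τ 1 = -τ 0 := by
    have h4 := hτ 0 1
    norm_num at h4
    have h5 : τ 0 * (τ 1 + τ 0) = 0 := by linear_combination h4 + hτ0
    rcases mul_eq_zero.1 h5 with h6 | h6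
    · rw [h6] at hτ0
      norm_num at hτ0
    · linarith
  have hσn : σ 0 ≠ 0 := by
    intro h
    rw [h] at hσ0
    norm_num at hσ0
  have hτn : τ 0 ≠ 0 := by
    intro h
    rw [h] at hτ0
    norm_num at hτ0
  have ha01 : a 0 < a 1 := ha (by decide)
  have hb01 : b 0 < b 1 := hb (by decide)
  have h1' := h1 0 1
  have h2' := h2 0 1
  simp only [Fin.sum_univ_two, hσ1, hτ1] at h1' h2' h3
  have e1 : G ρ (a 0) (b 0) - G ρ (a 0) (b 1) = G ρ (a 1) (b 0) - G ρ (a 1) (b 1) := by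
    apply mul_left_cancel₀ hτn
    linarith
  have e2 : G ρ (b 0) (a 0) - G ρ (b 0) (a 1) = G ρ (b 1) (a 0) - G ρ (b 1) (a 1) := by
    apply mul_left_cancel₀ hσn
    linarith
  obtain ⟨hX, hX2⟩ := half hρ hρ1 (ha0 0) ha01 (hb0 0) hb01 e1
  obtain ⟨hY, hY2⟩ := half hρ hρ1 (hb0 0) hb01 (ha0 0) ha01 e2
  have hDs : Ke ρ (b 0) (a 0) - Ke ρ (b 0) (a 1) - Ke ρ (b 1) (a 0) + Ke ρ (b 1) (a 1) =
      Ke ρ (a 0) (b 0) - Ke ρ (a 0) (b 1) - Ke ρ (a 1) (b 0) + Ke ρ (a 1) (b 1) := by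
    rw [Ke_symm ρ (b 0) (a 0), Ke_symm ρ (b 0) (a 1), Ke_symm ρ (b 1) (a 0),
      Ke_symm ρ (b 1) (a 1)]
    ring
  rw [hDs] at hY2
  set X := (ph (b 0) * Ko ρ (a 0) (b 0) - ph (b 1) * Ko ρ (a 0) (b 1)) / ph (a 0) -
    (ph (b 0) * Ko ρ (a 1) (b 0) - ph (b 1) * Ko ρ (a 1) (b 1)) / ph (a 1) with hXdef
  set Y := (ph (a 0) * Ko ρ (b 0) (a 0) - ph (a 1) * Ko ρ (b 0) (a 1)) / ph (b 0) -
    (ph (a 0) * Ko ρ (b 1) (a 0) - ph (a 1) * Ko ρ (b 1) (a 1)) / ph (b 1) with hYdef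
  set D := Ke ρ (a 0) (b 0) - Ke ρ (a 0) (b 1) - Ke ρ (a 1) (b 0) + Ke ρ (a 1) (b 1) with hDdef
  set u := 1 / ph (a 0) + 1 / ph (a 1) with hu
  set v := 1 / ph (b 0) + 1 / ph (b 1) with hv
  have hu0 : 0 < u := by
    have := ph_pos (a 0)
    have := ph_pos (a 1)
    positivity
  have hv0 : 0 < v := by
    have := ph_pos (b 0)
    have := ph_pos (b 1)
    positivity
  -- the quadratic form
  have h4 : ∀ α β : ℝ, 2 * (α * β * D) ≤
      ρ * (σ 0 * τ 0) * X * α ^ 2 + ρ * (σ 0 * τ 0) * Y * β ^ 2 := by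
    intro α β
    have h5 := h3 ![α, -α] ![β, -β] (by simp) (by simp)
    simp only [Matrix.cons_val_zero, Matrix.cons_val_one] at h5
    have e3 : 2 * (α * β * Ke ρ (a 0) (b 0) + α * -β * Ke ρ (a 0) (b 1) +
        (-α * β * Ke ρ (a 1) (b 0) + -α * -β * Ke ρ (a 1) (b 1))) = 2 * (α * β * D) := by
      rw [hDdef]
      ring
    rw [e3] at h5
    refine h5.trans (le_of_eq ?_)
    rw [hXdef, hYdef]
    have := (ph_pos (a 0)).ne'
    have := (ph_pos (a 1)).ne'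
    have := (ph_pos (b 0)).ne'
    have := (ph_pos (b 1)).ne'
    ring
  have hst : (σ 0 * τ 0) * (σ 0 * τ 0) = 1 := by
    linear_combination (τ 0 * τ 0) * hσ0 + hτ0
  have hst2 : σ 0 * τ 0 = 1 ∨ σ 0 * τ 0 = -1 := mul_self_eq_one_iff.1 hst
  rcases hst2 with hst2 | hst2
  · have h5 := h4 v u
    rw [hst2] at h5
    have hD0 : 0 < D := by
      have h6 : 0 < v * X := mul_pos hv0 hX
      have h7 : 0 < u * D := h6.trans_le hX2
      exact (mul_pos_iff_of_pos_left hu0).1 h7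
    have h6 : v * (v * X) ≤ v * (u * D) := mul_le_mul_of_nonneg_left hX2 hv0.le
    have h7 : u * (u * Y) ≤ u * (v * D) := mul_le_mul_of_nonneg_left hY2 hu0.le
    have h8 : ρ * (v * (v * X) + u * (u * Y)) ≤ ρ * (v * (u * D) + u * (v * D)) :=
      mul_le_mul_of_nonneg_left (add_le_add h6 h7) hρ.le
    have h9 : 0 < u * v * D := mul_pos (mul_pos hu0 hv0) hD0
    have h10 : 0 < (1 - ρ) * (u * v * D) := mul_pos (sub_pos.2 hρ1) h9
    have h11 : ρ * 1 * X * v ^ 2 + ρ * 1 * Y * u ^ 2 = ρ * (v * (v * X) + u * (u * Y)) := by ring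
    have h12 : ρ * (v * (u * D) + u * (v * D)) = 2 * (ρ * (u * v * D)) := by ring
    have h13 : 2 * (v * u * D) = 2 * (u * v * D) := by ring
    have h14 : (1 - ρ) * (u * v * D) = u * v * D - ρ * (u * v * D) := by ring
    rw [h11, h13] at h5
    rw [h12] at h8
    rw [h14] at h10
    linarith
  · have h5 := h4 1 0
    rw [hst2] at h5
    have h6 : 2 * (1 * 0 * D) = 0 := by ring
    have h7 : ρ * -1 * X * 1 ^ 2 + ρ * -1 * Y * 0 ^ 2 = -(ρ * X) := by ring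
    rw [h6, h7] at h5
    linarith [mul_pos hρ hX]

theorem crit {ρ : ℝ} (hρ : 0 < ρ) (hρ1 : ρ < 1) {m n : ℕ} (hm : 0 < m) (hn : 0 < n)
    (a : Fin m → ℝ) (b : Fin n → ℝ) (ha : StrictMono a) (hb : StrictMono b)
    (ha0 : ∀ i, 0 < a i) (hb0 : ∀ j, 0 < b j) (σ : Fin m → ℝ) (τ : Fin n → ℝ)
    (hσ : ∀ i i' : Fin m, σ i * σ i' = (-1) ^ (i.val + i'.val))
    (hτ : ∀ j j' : Fin n, τ j * τ j' = (-1) ^ (j.val + j'.val))
    (h1 : ∀ i i', ∑ j, τ j * G ρ (a i) (b j) = ∑ j, τ j * G ρ (a i') (b j))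
    (h2 : ∀ j j', ∑ i, σ i * G ρ (b j) (a i) = ∑ i, σ i * G ρ (b j') (a i))
    (h3 : ∀ (α : Fin m → ℝ) (β : Fin n → ℝ), ∑ i, α i = 0 → ∑ j, β j = 0 →
      2 * ∑ i, ∑ j, α i * β j * Ke ρ (a i) (b j) ≤
        ∑ i, ρ * (σ i * ∑ j, τ j * ph (b j) * Ko ρ (a i) (b j)) / ph (a i) * α i ^ 2 +
        ∑ j, ρ * (τ j * ∑ i, σ i * ph (a i) * Ko ρ (b j) (a i)) / ph (b j) * β j ^ 2) :
    m = 1 ∧ n = 1 := by
  have hmn : m = n := le_antisymm (crit_le hρ hρ1 hn a b ha hb ha0 hb0 τ hτ h1)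
    (crit_le hρ hρ1 hm b a hb ha hb0 ha0 σ hσ h2)
  subst hmn
  have hcase : m = 1 ∨ m = 2 ∨ 3 ≤ m := by omega
  rcases hcase with h | h | h
  · exact ⟨h, h⟩
  · subst h
    exact (crit_two hρ hρ1 a b ha hb ha0 hb0 σ τ hσ hτ h1 h2 h3).elim
  · exfalso
    have hc := cc_pos hρ hρ1
    set x' : Fin m → ℝ := fun i => ∑ j, τ j * ph (b j) * Ko ρ (a i) (b j) with hx'
    set y' : Fin m → ℝ := fun j => ∑ i, σ i * ph (a i) * Ko ρ (b j) (a i) with hy'
    have hP := crit_same hσ (x := x')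
      (fun i i' => crit_alt hρ hρ1 hn a b ha hb ha0 hb0 τ hτ h1 i i')
    have hQ := crit_same hτ (x := y')
      (fun i i' => crit_alt hρ hρ1 hm b a hb ha hb0 ha0 σ hσ h2 i i')
    have hsum : ∑ i, ph (a i) * (σ i * x' i) = ∑ j, ph (b j) * (τ j * y' j) := by
      simp only [hx', hy', Finset.mul_sum]
      rw [Finset.sum_comm]
      apply Finset.sum_congr rfl
      intro j _
      apply Finset.sum_congr rfl
      intro i _
      rw [Ko_symm ρ (b j) (a i)]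
      ring
    have hi0 : Fin m := ⟨0, hm⟩
    -- all are positive
    have hPpos : ∀ i, 0 < σ i * x' i := by
      by_contra hcon
      push Not at hcon
      obtain ⟨i, hi⟩ := hcon
      have hi' : σ i * x' i < 0 := by
        rcases hi.lt_or_eq with h4 | h4
        · exact h4
        · have h5 := hP i i
          rw [h4] at h5
          norm_num at h5
      have hneg : ∀ l, σ l * x' l < 0 := by
        intro l
        have h5 := hP i l
        by_contra h6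
        push Not at h6
        have h7 := mul_nonpos_of_nonpos_of_nonneg hi'.le h6
        linarith
      have h4 := h3 (fun l => if l = ⟨0, by omega⟩ then 1 else if l = ⟨1, by omega⟩ then -1 else 0)
        (fun _ => 0) (by
          rw [Finset.sum_eq_add (⟨0, by omega⟩ : Fin m) ⟨1, by omega⟩ (by simp)]
          · simp
          · intro c _ hc
            rw [if_neg hc.1, if_neg hc.2]
          · simp
          · simp) (by simp)
      simp only [mul_zero, zero_mul, Finset.sum_const_zero, ne_eq, OfNat.ofNat_ne_zero,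
        not_false_eq_true, zero_pow, add_zero] at h4
      have h5 : ∑ l : Fin m, ρ * (σ l * ∑ j, τ j * ph (b j) * Ko ρ (a l) (b j)) / ph (a l) *
          (if l = ⟨0, by omega⟩ then (1 : ℝ) else if l = ⟨1, by omega⟩ then -1 else 0) ^ 2 < 0 := by
        apply Finset.sum_neg'
        · intro l _
          apply mul_nonpos_of_nonpos_of_nonneg _ (sq_nonneg _)
          exact (div_neg_of_neg_of_pos (mul_neg_of_pos_of_neg hρ (hneg l)) (ph_pos _)).le
        · refine ⟨⟨0, by omega⟩, Finset.mem_univ _, ?_⟩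
          rw [if_pos rfl, one_pow, mul_one]
          exact div_neg_of_neg_of_pos (mul_neg_of_pos_of_neg hρ (hneg _)) (ph_pos _)
      linarith
    have hQpos : ∀ j, 0 < τ j * y' j := by
      have hS : 0 < ∑ j, ph (b j) * (τ j * y' j) := by
        rw [← hsum]
        exact Finset.sum_pos (fun i _ => mul_pos (ph_pos _) (hPpos i)) ⟨hi0, Finset.mem_univ _⟩
      obtain ⟨j0, -, hj0⟩ : ∃ j ∈ Finset.univ, 0 < ph (b j) * (τ j * y' j) := by
        by_contra hcon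
        push Not at hcon
        exact absurd hS (not_lt.2 (Finset.sum_nonpos hcon))
      have hj1 : 0 < τ j0 * y' j0 := (mul_pos_iff_of_pos_left (ph_pos _)).1 hj0
      intro j
      exact (mul_pos_iff_of_pos_left hj1).1 (hQ j0 j)
    obtain ⟨α, β, hα, hβ, hlt⟩ := lin_pos m h ρ hρ hρ1 (fun i => ρ / cc ρ ^ 2 * a i) b
      (fun i j hij => mul_lt_mul_of_pos_left (ha hij) (by positivity))
      (fun i => mul_pos (by positivity) (ha0 i)) hb hb0 (fun i => crit_r ρ (a i))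
      (fun j => crit_s ρ (b j)) (fun i => crit_r_pos hρ hρ1 _) (fun j => crit_s_pos _ _)
      (fun i => ρ * (σ i * x' i) / ph (a i)) (fun j => ρ * (τ j * y' j) / ph (b j))
      (fun i => σ i * ph (a i)) (fun j => τ j * ph (b j))
      (fun i => div_pos (mul_pos hρ (hPpos i)) (ph_pos _))
      (fun j => div_pos (mul_pos hρ (hQpos j)) (ph_pos _))
      (fun i i' => by
        have e : (-1 : ℝ) ^ (i.val + i'.val) * (σ i * ph (a i) * (σ i' * ph (a i'))) =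
            ((-1 : ℝ) ^ (i.val + i'.val) * (-1 : ℝ) ^ (i.val + i'.val)) * (ph (a i) * ph (a i')) := by
          rw [← hσ i i']
          ring
        rw [e, ← mul_pow]
        norm_num
        exact mul_pos (ph_pos _) (ph_pos _))
      (fun i i' => by
        have e : (-1 : ℝ) ^ (i.val + i'.val) * (τ i * ph (b i) * (τ i' * ph (b i'))) =
            ((-1 : ℝ) ^ (i.val + i'.val) * (-1 : ℝ) ^ (i.val + i'.val)) * (ph (b i) * ph (b i')) := by
          rw [← hτ i i']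
          ring
        rw [e, ← mul_pow]
        norm_num
        exact mul_pos (ph_pos _) (ph_pos _))
      (fun i => by
        have e1 : ∑ j, crit_r ρ (a i) * crit_s ρ (b j) * Real.sinh (ρ / cc ρ ^ 2 * a i * b j) *
            (τ j * ph (b j)) = x' i := by
          rw [hx']
          apply Finset.sum_congr rfl
          intro j _
          rw [crit_Ko]
          ring
        rw [e1]
        have := (ph_pos (a i)).ne'
        have hs := crit_sq hσ i
        field_simp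
        linear_combination (-(x' i)) * hs)
      (fun j => by
        have e1 : ∑ i, crit_r ρ (a i) * crit_s ρ (b j) * Real.sinh (ρ / cc ρ ^ 2 * a i * b j) *
            (σ i * ph (a i)) = y' j := by
          rw [hy']
          apply Finset.sum_congr rfl
          intro i _
          rw [Ko_symm, crit_Ko]
          ring
        rw [e1]
        have := (ph_pos (b j)).ne'
        have hs := crit_sq hτ j
        field_simp
        linear_combination (-(y' j)) * hs)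
    have h4 := h3 α β hα hβ
    simp only [crit_Ke] at h4
    exact absurd h4 (not_le.2 hlt)

end Pool.Agent.H.MP_eff680_pr.D1
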