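import Mathlib

/-! Dimension one of MP_eff680_pr: basic functions. -/

open MeasureTheory Set

namespace Pool.Agent.H.MP_eff680_pr.D1

/-- `e^{-x²/2}`. -/
noncomputable def ph (x : ℝ) : ℝ := Real.exp (-x ^ 2 / 2)

/-- `∫_0^x e^{-r²/2} dr`. -/
noncomputable def W (x : ℝ) : ℝ := ∫ r in (0 : ℝ)..x, ph r

/-- `√(2/π)`, so that `κ ph` is the density of `|N|` on `[0, ∞)`. -/
noncomputable def kap : ℝ := √(2 / Real.pi)

/-- `√(1 - ρ²)`. -/
noncomputable def cc (ρ : ℝ) : ℝ := √(1 - ρ ^ 2)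

/-- `G(s, t) = P(|y| ≤ t | x = s)`. -/
noncomputable def G (ρ s t : ℝ) : ℝ :=
  kap / 2 * (W ((t - ρ * s) / cc ρ) + W ((t + ρ * s) / cc ρ))

/-- The even kernel. -/
noncomputable def Ke (ρ s t : ℝ) : ℝ :=
  1 / cc ρ * Real.exp (-(ρ ^ 2 * (s ^ 2 + t ^ 2)) / (2 * cc ρ ^ 2))
    * Real.cosh (ρ * s * t / cc ρ ^ 2)

/-- The odd kernel. -/
noncomputable def Ko (ρ s t : ℝ) : ℝ :=
  1 / cc ρ * Real.exp (-(ρ ^ 2 * (s ^ 2 + t ^ 2)) / (2 * cc ρ ^ 2))
    * Real.sinh (ρ * s * t / cc ρ ^ 2)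

/-- `F(s, t) = P(|x| ≤ s, |y| ≤ t)`. -/
noncomputable def F (ρ s t : ℝ) : ℝ := ∫ x in (0 : ℝ)..s, kap * ph x * G ρ x t

/-- The inverse function of `s ↦ κ W(s)`. -/
noncomputable def qt (u : ℝ) : ℝ := Function.invFun (fun s : ℝ => kap * W s) u

lemma ph_pos (x : ℝ) : 0 < ph x := Real.exp_pos _

lemma ph_neg (x : ℝ) : ph (-x) = ph x := by unfold ph; rw [neg_sq]

lemma ph_continuous : Continuous ph := by unfold ph; fun_prop

lemma kap_pos : 0 < kap := by unfold kap; positivity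

lemma cc_pos {ρ : ℝ} (hρ : 0 < ρ) (hρ1 : ρ < 1) : 0 < cc ρ := by
  unfold cc; exact Real.sqrt_pos.2 (by nlinarith)

lemma cc_sq {ρ : ℝ} (hρ : 0 < ρ) (hρ1 : ρ < 1) : cc ρ ^ 2 = 1 - ρ ^ 2 := by
  unfold cc; exact Real.sq_sqrt (by nlinarith)

lemma W_hasDerivAt (x : ℝ) : HasDerivAt W (ph x) x :=
  intervalIntegral.integral_hasDerivAt_right (ph_continuous.intervalIntegrable _ _)
    (ph_continuous.stronglyMeasurableAtFilter _ _) ph_continuous.continuousAt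

lemma W_hasStrictDerivAt (x : ℝ) : HasStrictDerivAt W (ph x) x :=
  intervalIntegral.integral_hasStrictDerivAt_right (ph_continuous.intervalIntegrable _ _)
    (ph_continuous.stronglyMeasurableAtFilter _ _) ph_continuous.continuousAt

lemma W_continuous : Continuous W :=
  continuous_iff_continuousAt.2 fun x => (W_hasDerivAt x).continuousAt

lemma W_zero : W 0 = 0 := by unfold W; simp

lemma W_neg (x : ℝ) : W (-x) = -W x := by
  unfold W
  have := intervalIntegral.integral_comp_neg (f := ph) (a := 0) (b := x)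
  simp only [neg_zero] at this
  rw [intervalIntegral.integral_symm, ← this]
  congr 1
  exact intervalIntegral.integral_congr fun r _ => ph_neg r

lemma W_strictMono : StrictMono W :=
  strictMono_of_deriv_pos fun x => by rw [(W_hasDerivAt x).deriv]; exact ph_pos x

lemma W_pos {x : ℝ} (hx : 0 < x) : 0 < W x := by
  have := W_strictMono hx; rwa [W_zero] at this

lemma Ke_symm (ρ s t : ℝ) : Ke ρ s t = Ke ρ t s := by
  unfold Ke; rw [add_comm (s ^ 2), mul_right_comm ρ s t]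

lemma Ko_symm (ρ s t : ℝ) : Ko ρ s t = Ko ρ t s := by
  unfold Ko; rw [add_comm (s ^ 2), mul_right_comm ρ s t]

/-- `ph((t - ρ s)/c) + ph((t + ρ s)/c) = 2 c ph(t) Ke(s, t)`. -/
lemma ph_add {ρ : ℝ} (hρ : 0 < ρ) (hρ1 : ρ < 1) (s t : ℝ) :
    ph ((t - ρ * s) / cc ρ) + ph ((t + ρ * s) / cc ρ) = 2 * cc ρ * (ph t * Ke ρ s t) := by
  have hc := cc_pos hρ hρ1
  have hc2 := cc_sq hρ hρ1
  have e1 : ph ((t - ρ * s) / cc ρ) = ph t *
      Real.exp (-(ρ ^ 2 * (s ^ 2 + t ^ 2)) / (2 * cc ρ ^ 2)) * Real.exp (ρ * s * t / cc ρ ^ 2) := by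
    unfold ph
    rw [← Real.exp_add, ← Real.exp_add]
    congr 1
    rw [div_pow, hc2]
    have : (1 - ρ ^ 2) ≠ 0 := by nlinarith
    field_simp
    ring
  have e2 : ph ((t + ρ * s) / cc ρ) = ph t *
      Real.exp (-(ρ ^ 2 * (s ^ 2 + t ^ 2)) / (2 * cc ρ ^ 2)) *
        Real.exp (-(ρ * s * t / cc ρ ^ 2)) := by
    unfold ph
    rw [← Real.exp_add, ← Real.exp_add]
    congr 1
    rw [div_pow, hc2]
    have : (1 - ρ ^ 2) ≠ 0 := by nlinarith
    field_simp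
    ring
  rw [e1, e2, Ke, Real.cosh_eq]
  field_simp

/-- `ph((t - ρ s)/c) - ph((t + ρ s)/c) = 2 c ph(t) Ko(s, t)`. -/
lemma ph_sub {ρ : ℝ} (hρ : 0 < ρ) (hρ1 : ρ < 1) (s t : ℝ) :
    ph ((t - ρ * s) / cc ρ) - ph ((t + ρ * s) / cc ρ) = 2 * cc ρ * (ph t * Ko ρ s t) := by
  have hc := cc_pos hρ hρ1
  have hc2 := cc_sq hρ hρ1
  have e1 : ph ((t - ρ * s) / cc ρ) = ph t *
      Real.exp (-(ρ ^ 2 * (s ^ 2 + t ^ 2)) / (2 * cc ρ ^ 2)) * Real.exp (ρ * s * t / cc ρ ^ 2) := by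
    unfold ph
    rw [← Real.exp_add, ← Real.exp_add]
    congr 1
    rw [div_pow, hc2]
    have : (1 - ρ ^ 2) ≠ 0 := by nlinarith
    field_simp
    ring
  have e2 : ph ((t + ρ * s) / cc ρ) = ph t *
      Real.exp (-(ρ ^ 2 * (s ^ 2 + t ^ 2)) / (2 * cc ρ ^ 2)) *
        Real.exp (-(ρ * s * t / cc ρ ^ 2)) := by
    unfold ph
    rw [← Real.exp_add, ← Real.exp_add]
    congr 1
    rw [div_pow, hc2]
    have : (1 - ρ ^ 2) ≠ 0 := by nlinarith
    field_simp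
    ring
  rw [e1, e2, Ko, Real.sinh_eq]
  field_simp

/-- `G` along a differentiable path. -/
lemma G_hasDerivAt {ρ : ℝ} (hρ : 0 < ρ) (hρ1 : ρ < 1) {f g : ℝ → ℝ} {f' g' x : ℝ}
    (hf : HasDerivAt f f' x) (hg : HasDerivAt g g' x) :
    HasDerivAt (fun y => G ρ (f y) (g y))
      (kap * ph (g x) * (Ke ρ (f x) (g x) * g' - ρ * Ko ρ (f x) (g x) * f')) x := by
  have hc := cc_pos hρ hρ1
  have h1 : HasDerivAt (fun y => W ((g y - ρ * f y) / cc ρ))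
      (ph ((g x - ρ * f x) / cc ρ) * ((g' - ρ * f') / cc ρ)) x :=
    (W_hasDerivAt _).comp x ((hg.sub (hf.const_mul ρ)).div_const _)
  have h2 : HasDerivAt (fun y => W ((g y + ρ * f y) / cc ρ))
      (ph ((g x + ρ * f x) / cc ρ) * ((g' + ρ * f') / cc ρ)) x :=
    (W_hasDerivAt _).comp x ((hg.add (hf.const_mul ρ)).div_const _)
  refine ((h1.add h2).const_mul (kap / 2)).congr_deriv ?_
  have e1 := ph_add hρ hρ1 (f x) (g x)
  have e2 := ph_sub hρ hρ1 (f x) (g x)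
  have e3 : ph ((g x - ρ * f x) / cc ρ) = cc ρ * (ph (g x) * Ke ρ (f x) (g x))
      + cc ρ * (ph (g x) * Ko ρ (f x) (g x)) := by linarith
  have e4 : ph ((g x + ρ * f x) / cc ρ) = cc ρ * (ph (g x) * Ke ρ (f x) (g x))
      - cc ρ * (ph (g x) * Ko ρ (f x) (g x)) := by linarith
  rw [e3, e4]
  field_simp
  ring

end Pool.Agent.H.MP_eff680_pr.D1
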