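import Pool.Agent.H.MP_eff680_pr.D1.Euclid

/-! The cases `ρ = 0` and `ρ = 1` (every dimension) and the combined statement for dimension one. -/

open MeasureTheory ProbabilityTheory Set Filter Metric
open scoped Topology RealInnerProductSpace
open Pool.Agent.H.MP_eff680_pr.helper91

namespace Pool.Agent.H.MP_eff680_pr.D1

variable {n : ℕ}

lemma pairProb_zero (A B : Set (EuclideanSpace ℝ (Fin n))) :
    pairProb 0 A B = (gaussian n).real A * (gaussian n).real B := by
  unfold pairProb
  have : {p : EuclideanSpace ℝ (Fin n) × EuclideanSpace ℝ (Fin n) |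
      p.1 ∈ A ∧ (0 : ℝ) • p.1 + √(1 - 0 ^ 2) • p.2 ∈ B} = A ×ˢ B := by
    ext p; simp
  rw [this, measureReal_prod_prod]

lemma pairProb_one (A B : Set (EuclideanSpace ℝ (Fin n))) :
    pairProb 1 A B = (gaussian n).real (A ∩ B) := by
  unfold pairProb
  have : {p : EuclideanSpace ℝ (Fin n) × EuclideanSpace ℝ (Fin n) |
      p.1 ∈ A ∧ (1 : ℝ) • p.1 + √(1 - 1 ^ 2) • p.2 ∈ B} = (A ∩ B) ×ˢ univ := by
    ext p; simp
  rw [this, measureReal_prod_prod, probReal_univ, mul_one]

lemma meas_ball (r : ℝ) : MeasurableSet (closedBall (0 : EuclideanSpace ℝ (Fin n)) r) :=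
  isClosed_closedBall.measurableSet

lemma neg_ball_compl (r : ℝ) : -(closedBall (0 : EuclideanSpace ℝ (Fin n)) r)ᶜ
    = (closedBall 0 r)ᶜ := by
  rw [compl_neg, neg_ball]

theorem rho_zero {μ ν : ℝ} {A B : Set (EuclideanSpace ℝ (Fin n))} (hA : MeasurableSet A)
    (hB : MeasurableSet B) (hs : -A = A) (hAμ : (gaussian n).real A = μ)
    (hBν : (gaussian n).real B = ν) : minProb n 0 μ ν = pairProb 0 A B := by
  refine min_eq (t := μ * ν) ?_ hA hB hs hAμ hBν ?_
  · intro A' B' _ _ _ h1 h2
    rw [pairProb_zero, h1, h2]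
  · rw [pairProb_zero, hAμ, hBν]

theorem inter_le {μ ν : ℝ} {r R : ℝ} (hr : (gaussian n).real (closedBall 0 r) = μ)
    (hR : (gaussian n).real (closedBall 0 R)ᶜ = ν) :
    (gaussian n).real (closedBall 0 r ∩ (closedBall 0 R)ᶜ) ≤ max 0 (μ + ν - 1) := by
  rcases le_total r R with h | h
  · have : closedBall (0 : EuclideanSpace ℝ (Fin n)) r ∩ (closedBall 0 R)ᶜ = ∅ := by
      ext x
      simp only [mem_inter_iff, mem_compl_iff, mem_closedBall_zero_iff, mem_empty_iff_false,
        iff_false, not_and, not_not]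
      exact fun h1 => h1.trans h
    rw [this]; simp
  · refine le_trans (le_of_eq ?_) (le_max_right _ _)
    have e1 := measureReal_inter_add_diff (μ := gaussian n) (s := closedBall 0 r) (meas_ball R)
    have e2 : closedBall (0 : EuclideanSpace ℝ (Fin n)) r ∩ closedBall 0 R = closedBall 0 R :=
      inter_eq_right.2 (closedBall_subset_closedBall h)
    have e3 : (closedBall (0 : EuclideanSpace ℝ (Fin n)) r) \ closedBall 0 R
        = closedBall 0 r ∩ (closedBall 0 R)ᶜ := rfl
    have e4 := probReal_compl_eq_one_sub (μ := gaussian n) (meas_ball R)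
    rw [e2, e3, hr] at e1
    linarith

lemma inter_ge {μ ν : ℝ} {A B : Set (EuclideanSpace ℝ (Fin n))} (hB : MeasurableSet B)
    (hAμ : (gaussian n).real A = μ) (hBν : (gaussian n).real B = ν) :
    max 0 (μ + ν - 1) ≤ (gaussian n).real (A ∩ B) := by
  refine max_le measureReal_nonneg ?_
  have e1 := measureReal_inter_add_diff (μ := gaussian n) (s := A) hB
  have e2 : (gaussian n).real (A \ B) ≤ (gaussian n).real Bᶜ :=
    measureReal_mono (fun x hx => hx.2)
  have e3 := probReal_compl_eq_one_sub (μ := gaussian n) hB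
  linarith

/-- The exact value, in dimension one for all `ρ`, in all dimensions for `ρ = 0, 1`. -/
theorem value (ρ : ℝ) (hρ : 0 ≤ ρ) (hρ1 : ρ ≤ 1) (h : n = 1 ∨ ρ = 0 ∨ ρ = 1)
    {μ ν : ℝ} (hμ : μ ∈ Ioo (0 : ℝ) 1) (hν : ν ∈ Ioo (0 : ℝ) 1) {r R : ℝ}
    (hr : (gaussian n).real (closedBall 0 r) = max μ ν)
    (hR : (gaussian n).real (closedBall 0 R)ᶜ = min μ ν) :
    minProb n ρ μ ν = pairProb (n := n) ρ (closedBall 0 r) (closedBall 0 R)ᶜ ∧
      minProb n ρ μ ν = pairProb (n := n) ρ (closedBall 0 R)ᶜ (closedBall 0 r) := by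
  have hρ0 : ρ = 0 → minProb n ρ μ ν = pairProb (n := n) ρ (closedBall 0 r) (closedBall 0 R)ᶜ ∧
      minProb n ρ μ ν = pairProb (n := n) ρ (closedBall 0 R)ᶜ (closedBall 0 r) := by
    rintro rfl
    rw [pairProb_zero, pairProb_zero, hr, hR]
    rcases le_total μ ν with h1 | h1
    · rw [max_eq_right h1, min_eq_left h1]
      rw [max_eq_right h1] at hr
      rw [min_eq_left h1] at hR
      rw [rho_zero (meas_ball R).compl (meas_ball r) (neg_ball_compl R) hR hr, pairProb_zero, hr,
        hR, mul_comm ν μ]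
      exact ⟨rfl, rfl⟩
    · rw [max_eq_left h1, min_eq_right h1]
      rw [max_eq_left h1] at hr
      rw [min_eq_right h1] at hR
      rw [rho_zero (meas_ball r) (meas_ball R).compl (neg_ball r) hr hR, pairProb_zero, hr,
        hR, mul_comm ν μ]
      exact ⟨rfl, rfl⟩
  have hρ1' : ρ = 1 → minProb n ρ μ ν = pairProb (n := n) ρ (closedBall 0 r) (closedBall 0 R)ᶜ ∧
      minProb n ρ μ ν = pairProb (n := n) ρ (closedBall 0 R)ᶜ (closedBall 0 r) := by
    rintro rfl
    have e1 := inter_le hr hR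
    have e2 : pairProb (n := n) 1 (closedBall 0 R)ᶜ (closedBall 0 r)
        = pairProb (n := n) 1 (closedBall 0 r) (closedBall 0 R)ᶜ := by
      rw [pairProb_one, pairProb_one, inter_comm]
    rw [e2]
    have e3 : max μ ν + min μ ν = μ + ν := max_add_min μ ν
    rw [e3] at e1
    rcases le_total μ ν with h1 | h1
    · rw [max_eq_right h1] at hr
      rw [min_eq_left h1] at hR
      have := min_eq (ρ := 1) (t := max 0 (μ + ν - 1)) (fun A B _ hB _ hAμ hBν => by
        rw [pairProb_one]; exact inter_ge hB hAμ hBν) (meas_ball R).compl (meas_ball r)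
        (neg_ball_compl R) hR hr (by rw [e2, pairProb_one]; exact e1)
      rw [e2] at this
      exact ⟨this, this⟩
    · rw [max_eq_left h1] at hr
      rw [min_eq_right h1] at hR
      have := min_eq (ρ := 1) (t := max 0 (μ + ν - 1)) (fun A B _ hB _ hAμ hBν => by
        rw [pairProb_one]; exact inter_ge hB hAμ hBν) (meas_ball r) (meas_ball R).compl
        (neg_ball r) hr hR (by rw [pairProb_one]; exact e1)
      exact ⟨this, this⟩
  by_cases h0 : ρ = 0
  · exact hρ0 h0
  by_cases h1 : ρ = 1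
  · exact hρ1' h1
  have hn : n = 1 := by tauto
  subst hn
  have hρ' : 0 < ρ := lt_of_le_of_ne hρ (Ne.symm h0)
  have hρ1'' : ρ < 1 := lt_of_le_of_ne hρ1 h1
  -- both pairs have the same probability
  have key : pairProb (n := 1) ρ (closedBall 0 R)ᶜ (closedBall 0 r)
      = pairProb (n := 1) ρ (closedBall 0 r) (closedBall 0 R)ᶜ := by
    have hM : 0 < max μ ν := lt_max_of_lt_left hμ.1
    have hM1 : max μ ν < 1 := max_lt hμ.2 hν.2
    have hm : 0 < min μ ν := lt_min hμ.1 hν.1
    have hm1 : min μ ν < 1 := min_lt_of_left_lt hμ.2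
    have hR' : (gaussian 1).real (closedBall 0 R) = 1 - min μ ν := by
      have := probReal_compl_eq_one_sub (μ := gaussian 1) (meas_ball R)
      linarith
    rw [ball_co, real_co measurableSet_Icc] at hr hR'
    obtain ⟨r0, rq⟩ := radius hM hM1 hr
    obtain ⟨R0, Rq⟩ := radius (by linarith) (by linarith) hR'
    rw [ball_co, ball_co, ← preimage_compl,
      pairProb_co ρ measurableSet_Icc.compl measurableSet_Icc,
      pairProb_co ρ measurableSet_Icc measurableSet_Icc.compl, pr_compl_Icc hρ' hρ1'' R0 r0,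
      pr_Icc_compl hρ' hρ1'' r0 R0, F_symm hρ' hρ1'']
  rw [key]
  rcases le_total μ ν with h2 | h2
  · rw [max_eq_right h2] at hr
    rw [min_eq_left h2] at hR
    have := dim_one_le hρ' hρ1'' hμ hν h2 hR hr
    rw [key] at this
    exact ⟨this, this⟩
  · rw [max_eq_left h2] at hr
    rw [min_eq_right h2] at hR
    have := dim_one_ge hρ' hρ1'' hμ hν h2 hr hR
    exact ⟨this, this⟩

end Pool.Agent.H.MP_eff680_pr.D1
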