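import Pool.Agent.H.MP_eff680_pr.D1.Line
import Pool.Agent.H.MP_eff680_pr.helper91.Basic

/-! Transfer to `EuclideanSpace ℝ (Fin 1)`, and the exact value in dimension one. -/

open MeasureTheory ProbabilityTheory Set Filter Metric
open scoped Topology RealInnerProductSpace
open Pool.Agent.H.MP_eff680_pr.helper91

namespace Pool.Agent.H.MP_eff680_pr.D1

/-- The coordinate. -/
noncomputable def co (x : EuclideanSpace ℝ (Fin 1)) : ℝ := x 0

lemma co_measurable : Measurable co := by unfold co; fun_prop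

lemma co_map : (gaussian 1).map co = gaussianReal 0 1 := by
  have h := law_inner (E := EuclideanSpace ℝ (Fin 1)) (EuclideanSpace.single 0 1) (by simp)
  rw [← h]
  congr 1
  ext x
  simp [co, EuclideanSpace.inner_single_left]

/-- The inverse of the coordinate. -/
noncomputable def ico (t : ℝ) : EuclideanSpace ℝ (Fin 1) := EuclideanSpace.single 0 t

lemma ico_co (x : EuclideanSpace ℝ (Fin 1)) : ico (co x) = x := by
  ext i
  have : i = 0 := Subsingleton.elim _ _
  subst this
  simp [ico, co]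

lemma co_ico (t : ℝ) : co (ico t) = t := by simp [ico, co]

lemma ico_measurable : Measurable ico := by
  unfold ico
  have : (fun t : ℝ => (EuclideanSpace.single 0 t : EuclideanSpace ℝ (Fin 1)))
      = fun t => t • EuclideanSpace.single 0 1 := by
    ext t i
    have : i = 0 := Subsingleton.elim _ _
    subst this
    simp
  rw [this]
  fun_prop

lemma co_neg (x : EuclideanSpace ℝ (Fin 1)) : co (-x) = -co x := by simp [co]

lemma co_comb (a b : ℝ) (x y : EuclideanSpace ℝ (Fin 1)) :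
    co (a • x + b • y) = a * co x + b * co y := by simp [co]

lemma real_co {A : Set ℝ} (hA : MeasurableSet A) :
    (gaussian 1).real (co ⁻¹' A) = (gaussianReal 0 1).real A := by
  rw [← co_map, measureReal_def, measureReal_def, Measure.map_apply co_measurable hA]

lemma pairProb_co (ρ : ℝ) {A B : Set ℝ} (hA : MeasurableSet A) (hB : MeasurableSet B) :
    pairProb (n := 1) ρ (co ⁻¹' A) (co ⁻¹' B) = pr ρ A B := by
  unfold pairProb pr
  have h : ((gaussian 1).prod (gaussian 1)).map (Prod.map co co)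
      = (gaussianReal 0 1).prod (gaussianReal 0 1) := by
    rw [← Measure.map_prod_map _ _ co_measurable co_measurable, co_map]
  rw [← h, measureReal_def, measureReal_def,
    Measure.map_apply (co_measurable.prodMap co_measurable) (meas_pr ρ hA hB)]
  congr 2

lemma preimage_ico (A : Set (EuclideanSpace ℝ (Fin 1))) : co ⁻¹' (ico ⁻¹' A) = A := by
  ext x
  simp only [mem_preimage, ico_co]

lemma ball_co (r : ℝ) : closedBall (0 : EuclideanSpace ℝ (Fin 1)) r = co ⁻¹' (Icc (-r) r) := by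
  ext x
  rw [mem_closedBall_zero_iff, mem_preimage, mem_Icc, ← abs_le]
  have : ‖x‖ = |co x| := by
    rw [EuclideanSpace.norm_eq]
    simp [co, Real.sqrt_sq_eq_abs]
  rw [this]

/-- Lower bound in `EuclideanSpace ℝ (Fin 1)`. -/
lemma pairProb_ge {ρ : ℝ} (hρ : 0 < ρ) (hρ1 : ρ < 1) {μ ν : ℝ} (hμ : μ ∈ Ioo (0 : ℝ) 1)
    (hν : ν ∈ Ioo (0 : ℝ) 1) {A B : Set (EuclideanSpace ℝ (Fin 1))} (hA : MeasurableSet A)
    (hB : MeasurableSet B) (hs : -A = A) (hAμ : (gaussian 1).real A = μ)
    (hBν : (gaussian 1).real B = ν) :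
    max μ ν - F ρ (qt (max μ ν)) (qt (1 - min μ ν)) ≤ pairProb (n := 1) ρ A B := by
  have hA' := ico_measurable hA
  have hB' := ico_measurable hB
  rw [← preimage_ico A, ← preimage_ico B, pairProb_co ρ hA' hB']
  refine pr_ge hρ hρ1 hμ hν hA' hB' ?_ ?_ ?_
  · ext t
    simp only [Set.mem_neg, mem_preimage]
    have : ico (-t) = -ico t := by
      have h := ico_co (-ico t)
      rw [co_neg, co_ico] at h
      exact h
    rw [this]
    conv_rhs => rw [← hs]
    rfl
  · rw [← real_co hA', preimage_ico, hAμ]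
  · rw [← real_co hB', preimage_ico, hBν]

lemma min_eq {n : ℕ} {ρ μ ν t : ℝ}
    (hlow : ∀ A B : Set (EuclideanSpace ℝ (Fin n)), MeasurableSet A → MeasurableSet B → -A = A →
      (gaussian n).real A = μ → (gaussian n).real B = ν → t ≤ pairProb ρ A B)
    {A B : Set (EuclideanSpace ℝ (Fin n))} (hA : MeasurableSet A) (hB : MeasurableSet B)
    (hs : -A = A) (hAμ : (gaussian n).real A = μ) (hBν : (gaussian n).real B = ν)
    (ht : pairProb ρ A B ≤ t) : minProb n ρ μ ν = pairProb ρ A B := by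
  apply le_antisymm
  · exact csInf_le (bdd ρ μ ν) ⟨A, B, hA, hB, hs, hAμ, hBν, rfl⟩
  · refine le_csInf ⟨_, A, B, hA, hB, hs, hAμ, hBν, rfl⟩ ?_
    rintro _ ⟨A', B', hA', hB', hs', hAμ', hBν', rfl⟩
    exact ht.trans (hlow A' B' hA' hB' hs' hAμ' hBν')

lemma neg_ball {n : ℕ} (r : ℝ) : -(closedBall (0 : EuclideanSpace ℝ (Fin n)) r)
    = closedBall 0 r := by
  ext x
  simp

/-- Dimension one, `ν ≤ μ`: the interval and the complement of an interval. -/
theorem dim_one_ge {ρ : ℝ} (hρ : 0 < ρ) (hρ1 : ρ < 1) {μ ν : ℝ} (hμ : μ ∈ Ioo (0 : ℝ) 1)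
    (hν : ν ∈ Ioo (0 : ℝ) 1) (h : ν ≤ μ) {r R : ℝ}
    (hr : (gaussian 1).real (closedBall 0 r) = μ) (hR : (gaussian 1).real (closedBall 0 R)ᶜ = ν) :
    minProb 1 ρ μ ν = pairProb (n := 1) ρ (closedBall 0 r) (closedBall 0 R)ᶜ := by
  refine min_eq (fun A B hA hB hs hAμ hBν => pairProb_ge hρ hρ1 hμ hν hA hB hs hAμ hBν)
    isClosed_closedBall.measurableSet isClosed_closedBall.measurableSet.compl (neg_ball r) hr hR ?_
  have hR' : (gaussian 1).real (closedBall 0 R) = 1 - ν := by
    have := probReal_compl_eq_one_sub (μ := gaussian 1)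
      (isClosed_closedBall (x := (0 : EuclideanSpace ℝ (Fin 1))) (ε := R)).measurableSet
    linarith
  rw [ball_co, real_co measurableSet_Icc] at hr hR'
  obtain ⟨r0, rq⟩ := radius hμ.1 hμ.2 hr
  obtain ⟨R0, Rq⟩ := radius (by linarith [hν.2]) (by linarith [hν.1]) hR'
  rw [ball_co, ball_co, ← preimage_compl, pairProb_co ρ measurableSet_Icc measurableSet_Icc.compl,
    pr_Icc_compl hρ hρ1 r0 R0, hr, max_eq_left h, min_eq_right h, rq, Rq]

/-- Dimension one, `μ ≤ ν`: the complement of an interval and an interval. -/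
theorem dim_one_le {ρ : ℝ} (hρ : 0 < ρ) (hρ1 : ρ < 1) {μ ν : ℝ} (hμ : μ ∈ Ioo (0 : ℝ) 1)
    (hν : ν ∈ Ioo (0 : ℝ) 1) (h : μ ≤ ν) {r R : ℝ}
    (hr : (gaussian 1).real (closedBall 0 r)ᶜ = μ) (hR : (gaussian 1).real (closedBall 0 R) = ν) :
    minProb 1 ρ μ ν = pairProb (n := 1) ρ (closedBall 0 r)ᶜ (closedBall 0 R) := by
  refine min_eq (fun A B hA hB hs hAμ hBν => pairProb_ge hρ hρ1 hμ hν hA hB hs hAμ hBν)
    isClosed_closedBall.measurableSet.compl isClosed_closedBall.measurableSet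
    (by rw [compl_neg, neg_ball]) hr hR ?_
  have hr' : (gaussian 1).real (closedBall 0 r) = 1 - μ := by
    have := probReal_compl_eq_one_sub (μ := gaussian 1)
      (isClosed_closedBall (x := (0 : EuclideanSpace ℝ (Fin 1))) (ε := r)).measurableSet
    linarith
  rw [ball_co, real_co measurableSet_Icc] at hr' hR
  obtain ⟨r0, rq⟩ := radius (by linarith [hμ.2]) (by linarith [hμ.1]) hr'
  obtain ⟨R0, Rq⟩ := radius hν.1 hν.2 hR
  rw [ball_co, ball_co, ← preimage_compl, pairProb_co ρ measurableSet_Icc.compl measurableSet_Icc,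
    pr_compl_Icc hρ hρ1 r0 R0, hR, max_eq_right h, min_eq_left h, rq, Rq, F_symm hρ hρ1]

end Pool.Agent.H.MP_eff680_pr.D1
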