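import Mathlib

/-! Zeros of real exponential sums. -/

open Set

namespace Pool.Agent.H.MP_eff680_pr.D1

theorem expsum_hasDeriv {m : ℕ} (γ : Fin m → ℝ) (c : Fin m → ℝ) (t : ℝ) :
    HasDerivAt (fun t => ∑ l, c l * Real.exp (γ l * t))
      (∑ l, (c l * γ l) * Real.exp (γ l * t)) t := by
  have h : ∀ l ∈ (Finset.univ : Finset (Fin m)), HasDerivAt (fun t => c l * Real.exp (γ l * t))
      ((c l * γ l) * Real.exp (γ l * t)) t := by
    intro l _
    have h1 : HasDerivAt (fun t : ℝ => γ l * t) (γ l) t := by
      simpa using (hasDerivAt_id t).const_mul (γ l)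
    exact ((h1.exp).const_mul (c l)).congr_deriv (by ring)
  exact HasDerivAt.fun_sum h

theorem expsum_rolle {f f' : ℝ → ℝ} (hf : ∀ t, HasDerivAt f (f' t) t) {m : ℕ} (Z : Finset ℝ)
    (hcard : Z.card = m + 1) (hZ : ∀ t ∈ Z, f t = 0) :
    ∃ W : Finset ℝ, W.card = m ∧ ∀ t ∈ W, f' t = 0 := by
  have hz : ∀ i, Z.orderEmbOfFin hcard i ∈ Z := fun i => Z.orderEmbOfFin_mem hcard i
  have hmz : StrictMono (Z.orderEmbOfFin hcard) := (Z.orderEmbOfFin hcard).strictMono
  generalize (Z.orderEmbOfFin hcard : Fin (m + 1) → ℝ) = z at hz hmz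
  have hlt : ∀ i : Fin m, z i.castSucc < z i.succ := fun i => hmz Fin.castSucc_lt_succ
  have hex : ∀ i : Fin m, ∃ w ∈ Ioo (z i.castSucc) (z i.succ), f' w = 0 := by
    intro i
    exact exists_hasDerivAt_eq_zero (hlt i)
      (fun x _ => (hf x).continuousAt.continuousWithinAt)
      (by rw [hZ _ (hz _), hZ _ (hz _)]) (fun x _ => hf x)
  choose w hw hw0 using hex
  have hmono : StrictMono w := by
    intro i j hij
    have hle : i.succ ≤ j.castSucc := by
      rw [Fin.le_def]
      simpa using hij
    exact ((hw i).2.trans_le (hmz.monotone hle)).trans (hw j).1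
  refine ⟨Finset.univ.image w, ?_, ?_⟩
  · rw [Finset.card_image_of_injective _ hmono.injective, Finset.card_univ, Fintype.card_fin]
  · intro t ht
    obtain ⟨i, _, rfl⟩ := Finset.mem_image.mp ht
    exact hw0 i

/-- the sum without the term `p` after division by `exp (β p * t)` and differentiation -/
theorem expsum_step {n : ℕ} (β : Fin (n + 2) → ℝ) (c : Fin (n + 2) → ℝ) (p : Fin (n + 2))
    {m : ℕ} (Z : Finset ℝ) (hcard : Z.card = m + 1)
    (hZ : ∀ t ∈ Z, ∑ l, c l * Real.exp (β l * t) = 0) :
    ∃ W : Finset ℝ, W.card = m ∧ ∀ t ∈ W,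
      ∑ l, (c (p.succAbove l) * (β (p.succAbove l) - β p)) *
        Real.exp ((β (p.succAbove l) - β p) * t) = 0 := by
  obtain ⟨W, hW, hW0⟩ := expsum_rolle (f := fun t => ∑ l, c l * Real.exp ((β l - β p) * t))
    (fun t => expsum_hasDeriv (fun l => β l - β p) c t) Z hcard (by
      intro t ht
      have h1 : ∀ l, c l * Real.exp ((β l - β p) * t) =
          (c l * Real.exp (β l * t)) * Real.exp (-(β p * t)) := by
        intro l
        rw [mul_assoc, ← Real.exp_add]
        congr 2
        ring
      simp only [h1]
      rw [← Finset.sum_mul, hZ t ht, zero_mul])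
  refine ⟨W, hW, fun t ht => ?_⟩
  have h2 := hW0 t ht
  rw [Fin.sum_univ_succAbove _ p] at h2
  simpa using h2

/-- if only the coefficient of `p` is nonzero, there are no zeros -/
theorem expsum_one {n : ℕ} (β : Fin (n + 2) → ℝ) (c : Fin (n + 2) → ℝ) (hc : c ≠ 0)
    (p : Fin (n + 2)) (h : ∀ l, c (p.succAbove l) = 0) (t : ℝ) :
    ∑ l, c l * Real.exp (β l * t) ≠ 0 := by
  rw [Fin.sum_univ_succAbove _ p]
  simp only [h, zero_mul, Finset.sum_const_zero, add_zero]
  apply mul_ne_zero _ (Real.exp_pos _).ne'
  intro h0
  apply hc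
  funext l
  rcases Fin.eq_self_or_eq_succAbove p l with rfl | ⟨j, rfl⟩
  · exact h0
  · exact h j

/-- A nonzero real exponential sum with `n + 1` terms has at most `n` real zeros, and if it has exactly `n`
distinct zeros then consecutive coefficients have opposite signs.

Proof. Induction on `n`; `n = 0` is clear. Step `n + 1`: suppose `f t = Σ c_l e^{β_l t}` vanishes on the finite
set `Z`. (1) `f t e^{-β_0 t}` has derivative `e^{-β_0 t}`-multiple of the exponential sum with exponents
`β_1 < ... ` and coefficients `c_l (β_l - β_0)`; if these are not all zero, the induction hypothesis bounds the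
number of its zeros by `n` (so the zero set is finite), and by Rolle `Z` interleaves with that zero set
(`Finset.card_le_of_interleaved`), so `Z.card ≤ n + 1`; if they are all zero then `f = c_0 e^{β_0 t}` has no
zero. (2) If `Z.card = n + 1` the derivative has exactly `n` zeros (take a finset of zeros in the gaps), so
the coefficients `c_l (β_l - β_0)`, `l ≥ 1` alternate, hence `c_l c_{l+1} < 0` for `l ≥ 1`. The same with
`β_{last}` instead of `β_0` gives `c_l c_{l+1} < 0` for `l + 1 < last`. If there are at least three terms these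
cover everything; for two terms, `c_0 e^{β_0 t} + c_1 e^{β_1 t} = 0` gives `c_0 c_1 < 0` directly. -/
theorem expSum_zeros (n : ℕ) (β : Fin (n + 1) → ℝ) (hβ : StrictMono β) (c : Fin (n + 1) → ℝ)
    (hc : c ≠ 0) (Z : Finset ℝ) (hZ : ∀ t ∈ Z, ∑ l, c l * Real.exp (β l * t) = 0) :
    Z.card ≤ n ∧ (Z.card = n → ∀ l : Fin n, c l.castSucc * c l.succ < 0) := by
  induction n generalizing Z with
  | zero =>
    refine ⟨?_, fun _ l => l.elim0⟩
    by_contra hcon
    have hne : Z.Nonempty := by
      rw [← Finset.card_pos]; omega
    obtain ⟨t, ht⟩ := hne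
    have h1 := hZ t ht
    rw [Fin.sum_univ_one] at h1
    apply hc
    funext l
    have hl : l = 0 := Fin.ext (by have := l.isLt; simp only [Fin.val_zero]; omega)
    rw [hl]
    exact (mul_eq_zero.mp h1).resolve_right (Real.exp_pos _).ne'
  | succ n ih =>
    have hmain : ∀ p : Fin (n + 2), ∀ m : ℕ, Z.card = m + 1 → m ≤ n ∧ (m = n → ∀ l : Fin n,
        (c (p.succAbove l.castSucc) * (β (p.succAbove l.castSucc) - β p)) *
          (c (p.succAbove l.succ) * (β (p.succAbove l.succ) - β p)) < 0) := by
      intro p m hm
      obtain ⟨W, hW, hW0⟩ := expsum_step β c p Z hm hZ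
      have hcne : (fun l => c (p.succAbove l) * (β (p.succAbove l) - β p)) ≠ 0 := by
        intro h0
        have hne : Z.Nonempty := by
          rw [← Finset.card_pos]; omega
        obtain ⟨t, ht⟩ := hne
        refine expsum_one β c hc p (fun l => ?_) t (hZ t ht)
        have h1 := congrFun h0 l
        refine (mul_eq_zero.mp h1).resolve_right (sub_ne_zero.mpr ?_)
        exact fun h => (Fin.succAbove_ne p l) (hβ.injective h)
      have hmono : StrictMono (fun l => β (p.succAbove l) - β p) := by
        intro i j hij
        exact sub_lt_sub_right (hβ (Fin.strictMono_succAbove p hij)) _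
      obtain ⟨h1, h2⟩ := ih (fun l => β (p.succAbove l) - β p) hmono _ hcne W hW0
      rw [hW] at h1 h2
      exact ⟨h1, h2⟩
    rcases Nat.eq_zero_or_pos Z.card with hz | hz
    · refine ⟨by omega, fun h => by omega⟩
    · obtain ⟨m, hm⟩ : ∃ m, Z.card = m + 1 := ⟨Z.card - 1, by omega⟩
      refine ⟨by have := (hmain 0 m hm).1; omega, fun hcard => ?_⟩
      have hmn : m = n := by omega
      have hfirst := (hmain 0 m hm).2 hmn
      have hlast := (hmain (Fin.last (n + 1)) m hm).2 hmn
      intro l
      refine Fin.cases ?_ (fun l' => ?_) l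
      · -- first pair
        rcases Nat.eq_zero_or_pos n with hn | hn
        · subst hn
          have hne : Z.Nonempty := by
            rw [← Finset.card_pos]; omega
          obtain ⟨t, ht⟩ := hne
          have h1 := hZ t ht
          rw [Fin.sum_univ_two] at h1
          have e0 := Real.exp_pos (β 0 * t)
          have e1 := Real.exp_pos (β 1 * t)
          have hc0 : c 0 ≠ 0 := by
            intro h0
            rw [h0, zero_mul, zero_add] at h1
            have h3 := (mul_eq_zero.mp h1).resolve_right e1.ne'
            apply hc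
            funext j
            fin_cases j
            · exact h0
            · exact h3
          show c 0 * c 1 < 0
          have h4 : c 0 * c 1 * Real.exp (β 1 * t) = - (c 0 * c 0 * Real.exp (β 0 * t)) := by
            linear_combination c 0 * h1
          have h5 : 0 < c 0 * c 0 * Real.exp (β 0 * t) := mul_pos (mul_self_pos.mpr hc0) e0
          by_contra hcon
          push Not at hcon
          have := mul_nonneg hcon e1.le
          linarith
        · obtain ⟨n', rfl⟩ : ∃ n', n = n' + 1 := ⟨n - 1, by omega⟩
          have h1 := hlast 0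
          have h2 : ∀ j : Fin (n' + 2), β (Fin.castSucc j) - β (Fin.last (n' + 1 + 1)) < 0 := by
            intro j
            exact sub_neg.mpr (hβ (Fin.castSucc_lt_last j))
          simp only [Fin.succAbove_last] at h1
          have h3 := mul_pos_of_neg_of_neg (h2 (Fin.castSucc 0)) (h2 (Fin.succ 0))
          have h4 : (Fin.castSucc (0 : Fin (n' + 1 + 1))) = Fin.castSucc (Fin.castSucc 0) := rfl
          have h5 : (Fin.succ (0 : Fin (n' + 1 + 1))) = Fin.castSucc (Fin.succ 0) := rfl
          rw [h4, h5]
          by_contra hcon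
          push Not at hcon
          have := mul_nonneg hcon h3.le
          nlinarith [h1, this]
      · have h1 := hfirst l'
        simp only [Fin.succAbove_zero] at h1
        have h2 : ∀ j : Fin (n + 1), 0 < β (Fin.succ j) - β 0 := by
          intro j
          exact sub_pos.mpr (hβ (Fin.succ_pos j))
        have h3 := mul_pos (h2 (Fin.castSucc l')) (h2 (Fin.succ l'))
        rw [← Fin.succ_castSucc]
        by_contra hcon
        push Not at hcon
        have := mul_nonneg hcon h3.le
        nlinarith [h1, this]

end Pool.Agent.H.MP_eff680_pr.D1
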