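import Pool.Agent.H.MP_eff680_pr.D1.Star

/-! Two boundary points on each side. -/

open MeasureTheory Set

namespace Pool.Agent.H.MP_eff680_pr.D1

/-- The two differences of odd kernels and of even kernels in terms of `Psi` and its derivatives. -/
lemma half_args {c ρ a1 a2 b1 b2 : ℝ} (hc : 0 < c) :
    Psi ((b1 + b2) / (2 * c)) (ρ * (a1 + a2) / (2 * c)) (ρ * (a2 - a1) / (2 * c))
        ((b2 - b1) / (2 * c))
      = (W ((b2 - ρ * a2) / c) + W ((b2 + ρ * a2) / c) - W ((b1 - ρ * a2) / c)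
          - W ((b1 + ρ * a2) / c))
        - (W ((b2 - ρ * a1) / c) + W ((b2 + ρ * a1) / c) - W ((b1 - ρ * a1) / c)
          - W ((b1 + ρ * a1) / c)) ∧
    Pt ((b1 + b2) / (2 * c)) (ρ * (a1 + a2) / (2 * c)) (ρ * (a2 - a1) / (2 * c))
        ((b2 - b1) / (2 * c))
      = ((ph ((b1 - ρ * a2) / c) - ph ((b1 + ρ * a2) / c))
          - (ph ((b2 - ρ * a2) / c) - ph ((b2 + ρ * a2) / c)))
        - ((ph ((b1 - ρ * a1) / c) - ph ((b1 + ρ * a1) / c))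
          - (ph ((b2 - ρ * a1) / c) - ph ((b2 + ρ * a1) / c))) ∧
    Pt ((b1 + b2) / (2 * c)) (ρ * (a2 - a1) / (2 * c)) (ρ * (a1 + a2) / (2 * c))
        ((b2 - b1) / (2 * c))
      = ((ph ((b1 - ρ * a2) / c) - ph ((b1 + ρ * a2) / c))
          - (ph ((b2 - ρ * a2) / c) - ph ((b2 + ρ * a2) / c)))
        + ((ph ((b1 - ρ * a1) / c) - ph ((b1 + ρ * a1) / c))
          - (ph ((b2 - ρ * a1) / c) - ph ((b2 + ρ * a1) / c))) ∧
    Pt ((b1 + b2) / (2 * c)) ((b2 - b1) / (2 * c)) (ρ * (a1 + a2) / (2 * c))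
        (ρ * (a2 - a1) / (2 * c))
      = ((ph ((b2 - ρ * a2) / c) + ph ((b2 + ρ * a2) / c))
          - (ph ((b2 - ρ * a1) / c) + ph ((b2 + ρ * a1) / c)))
        + ((ph ((b1 - ρ * a2) / c) + ph ((b1 + ρ * a2) / c))
          - (ph ((b1 - ρ * a1) / c) + ph ((b1 + ρ * a1) / c))) ∧
    PN ((b1 + b2) / (2 * c)) (ρ * (a1 + a2) / (2 * c)) (ρ * (a2 - a1) / (2 * c))
        ((b2 - b1) / (2 * c))
      = ((ph ((b2 - ρ * a2) / c) + ph ((b2 + ρ * a2) / c))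
          - (ph ((b2 - ρ * a1) / c) + ph ((b2 + ρ * a1) / c)))
        - ((ph ((b1 - ρ * a2) / c) + ph ((b1 + ρ * a2) / c))
          - (ph ((b1 - ρ * a1) / c) + ph ((b1 + ρ * a1) / c))) := by
  obtain ⟨N, hN⟩ : ∃ N, N = (b1 + b2) / (2 * c) := ⟨_, rfl⟩
  obtain ⟨t, ht⟩ : ∃ t, t = ρ * (a1 + a2) / (2 * c) := ⟨_, rfl⟩
  obtain ⟨a, ha⟩ : ∃ a, a = ρ * (a2 - a1) / (2 * c) := ⟨_, rfl⟩
  obtain ⟨b, hb⟩ : ∃ b, b = (b2 - b1) / (2 * c) := ⟨_, rfl⟩
  rw [← hN, ← ht, ← ha, ← hb]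
  have e1 : (b2 - ρ * a2) / c = N - t - a + b := by rw [hN, ht, ha, hb]; field_simp; ring
  have e2 : (b2 + ρ * a2) / c = N + t + a + b := by rw [hN, ht, ha, hb]; field_simp; ring
  have e3 : (b1 - ρ * a2) / c = N - t - a - b := by rw [hN, ht, ha, hb]; field_simp; ring
  have e4 : (b1 + ρ * a2) / c = N + t + a - b := by rw [hN, ht, ha, hb]; field_simp; ring
  have e5 : (b2 - ρ * a1) / c = N - t + a + b := by rw [hN, ht, ha, hb]; field_simp; ring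
  have e6 : (b2 + ρ * a1) / c = N + t - a + b := by rw [hN, ht, ha, hb]; field_simp; ring
  have e7 : (b1 - ρ * a1) / c = N - t + a - b := by rw [hN, ht, ha, hb]; field_simp; ring
  have e8 : (b1 + ρ * a1) / c = N + t - a - b := by rw [hN, ht, ha, hb]; field_simp; ring
  rw [e1, e2, e3, e4, e5, e6, e7, e8]
  refine ⟨?_, ?_, ?_, ?_, ?_⟩
  · unfold Psi; ring
  · unfold Pt; ring
  · unfold Pt
    rw [show N + a + t + b = N + t + a + b by ring, show N + a + t - b = N + t + a - b by ring,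
      show N + a - t + b = N - t + a + b by ring, show N - a + t + b = N + t - a + b by ring,
      show N + a - t - b = N - t + a - b by ring, show N - a + t - b = N + t - a - b by ring,
      show N - a - t + b = N - t - a + b by ring, show N - a - t - b = N - t - a - b by ring]
    ring
  · unfold Pt
    rw [show N + b + t + a = N + t + a + b by ring, show N + b + t - a = N + t - a + b by ring,
      show N + b - t + a = N - t + a + b by ring, show N - b + t + a = N + t + a - b by ring,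
      show N + b - t - a = N - t - a + b by ring, show N - b + t - a = N + t - a - b by ring,
      show N - b - t + a = N - t + a - b by ring, show N - b - t - a = N - t - a - b by ring]
    ring
  · unfold PN; ring

/-- The final arithmetic. -/
lemma half_arith {c A B C P o1 o2 k1 k2 α1 α2 β1 β2 : ℝ} (hc : 0 < c) (hA : 0 < A) (hB : 0 < B)
    (hC : 0 < C) (hP : A + B + C ≤ P) (hα1 : 0 < α1) (hα : α1 < α2) (hβ1 : 0 < β1) (hβ : β1 < β2)
    (h1 : -A = 2 * c * (o2 - o1)) (h2 : -B = 2 * c * (o2 + o1))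
    (h3 : -C = 2 * c * (k2 + k1)) (h4 : P = 2 * c * (k2 - k1)) :
    0 < o1 * α1 - o2 * α2 ∧
      (β1 + β2) * (o1 * α1 - o2 * α2) ≤ (α1 + α2) * (k2 * β2 - k1 * β1) := by
  have f1 : 4 * c * (o1 * α1 - o2 * α2) = A * (α1 + α2) + B * (α2 - α1) := by
    have ho1 : 4 * c * o1 = A - B := by linarith
    have ho2 : 4 * c * o2 = -(A + B) := by linarith
    linear_combination α1 * ho1 - α2 * ho2
  have f2 : 4 * c * (k2 * β2 - k1 * β1) = P * (β1 + β2) - C * (β2 - β1) := by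
    have hk1 : 4 * c * k1 = -C - P := by linarith
    have hk2 : 4 * c * k2 = P - C := by linarith
    linear_combination β2 * hk2 - β1 * hk1
  have g1 : 0 < A * (α1 + α2) + B * (α2 - α1) := by
    have := mul_pos hA (by linarith : 0 < α1 + α2)
    have := mul_pos hB (by linarith : 0 < α2 - α1)
    linarith
  have g2 : A * (α1 + α2) + B * (α2 - α1) ≤ (A + B) * (α1 + α2) := by
    nlinarith [mul_pos hB hα1]
  have g3 : (A + B) * (β1 + β2) ≤ P * (β1 + β2) - C * (β2 - β1) := by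
    nlinarith [mul_le_mul_of_nonneg_right hP (by linarith : 0 ≤ β1 + β2), mul_pos hC hβ1]
  refine ⟨?_, ?_⟩
  · by_contra hcon
    push Not at hcon
    nlinarith [mul_nonneg (by linarith : 0 ≤ 4 * c) (by linarith : 0 ≤ -(o1 * α1 - o2 * α2))]
  · have h5 : 4 * c * ((β1 + β2) * (o1 * α1 - o2 * α2))
        ≤ 4 * c * ((α1 + α2) * (k2 * β2 - k1 * β1)) := by
      calc 4 * c * ((β1 + β2) * (o1 * α1 - o2 * α2))
          = (β1 + β2) * (4 * c * (o1 * α1 - o2 * α2)) := by ring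
        _ ≤ (β1 + β2) * ((A + B) * (α1 + α2)) := by
            rw [f1]; exact mul_le_mul_of_nonneg_left g2 (by linarith)
        _ = (α1 + α2) * ((A + B) * (β1 + β2)) := by ring
        _ ≤ (α1 + α2) * (4 * c * (k2 * β2 - k1 * β1)) := by
            rw [f2]; exact mul_le_mul_of_nonneg_left g3 (by linarith)
        _ = 4 * c * ((α1 + α2) * (k2 * β2 - k1 * β1)) := by ring
    exact le_of_mul_le_mul_left h5 (by linarith)

lemma half_ph_lt {x y : ℝ} (hx : 0 < x) (hxy : x < y) : ph y < ph x := by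
  unfold ph
  exact Real.exp_lt_exp.2 (by nlinarith)

/-- If the first order condition holds at `a1 < a2` then the second derivatives compare.

Proof. Let `c = cc ρ`, `N = (b1 + b2)/(2c)`, `b = (b2 - b1)/(2c)`, `t = ρ (a1 + a2)/(2c)`,
`a = ρ (a2 - a1)/(2c)`; so `b2/c = N + b`, `b1/c = N - b`, `ρ a2/c = t + a`, `ρ a1/c = t - a`, all positive.
With `g s = W ((b2 - ρ s)/c) + W ((b2 + ρ s)/c) - W ((b1 - ρ s)/c) - W ((b1 + ρ s)/c)` the hypothesis `h` says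
`g a1 = g a2` (`G ρ s b2 - G ρ s b1 = kap/2 * g s`), and `g a2 - g a1 = Psi N t a b` (definitions). So
`Psi N t a b = 0`, and `Pt_neg`, `star` give (with `Psi_swap_ta`, `Psi_swap_ab`) for
`A = -Pt N t a b`, `B = -Pt N a t b`, `C = -Pt N b t a`: `A, B, C > 0` and `PN N t a b ≥ A + B + C`.
`2 c * ph (b_j) * Ko ρ s b_j = ph ((b_j - ρ s)/c) - ph ((b_j + ρ s)/c)` (`ph_sub`); so
`2c (ph b1 * Ko ρ s b1 - ph b2 * Ko ρ s b2) = g1 s` with
`g1 s = ph ((b1 - ρ s)/c) - ph ((b1 + ρ s)/c) - ph ((b2 - ρ s)/c) + ph ((b2 + ρ s)/c)` and, grouping terms,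
`g1 a2 = (Pt N a t b + Pt N t a b)/2`, `g1 a1 = (Pt N a t b - Pt N t a b)/2`. Hence the first expression is
`P = (1/(2c)) (g1 a1 / ph a1 - g1 a2 / ph a2)
   = (1/(4c)) (A (1/ph a1 + 1/ph a2) + B (1/ph a2 - 1/ph a1))`, positive since `ph a2 < ph a1`.
Also `2 c ph (b_j) Ke ρ s b_j = X_j s = ph ((b_j - ρ s)/c) + ph ((b_j + ρ s)/c)` (`ph_add`), and
`X_2 a2 - X_2 a1 = (PN + Pt N b t a)/2`, `X_1 a2 - X_1 a1 = (Pt N b t a - PN)/2`, so
`D = Ke11 - Ke12 - Ke21 + Ke22 = (1/(4c)) (PN (1/ph b1 + 1/ph b2) - C (1/ph b2 - 1/ph b1))`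
`≥ (1/(4c)) (1/ph b1 + 1/ph b2) (A + B)` as `0 < 1/ph b2 - 1/ph b1 < 1/ph b1 + 1/ph b2`; and
`P ≤ (1/(4c)) (1/ph a1 + 1/ph a2) (A + B)`. -/
theorem half {ρ : ℝ} (hρ : 0 < ρ) (hρ1 : ρ < 1) {a1 a2 b1 b2 : ℝ} (ha1 : 0 < a1) (ha : a1 < a2)
    (hb1 : 0 < b1) (hb : b1 < b2) (h : G ρ a1 b1 - G ρ a1 b2 = G ρ a2 b1 - G ρ a2 b2) :
    0 < (ph b1 * Ko ρ a1 b1 - ph b2 * Ko ρ a1 b2) / ph a1
        - (ph b1 * Ko ρ a2 b1 - ph b2 * Ko ρ a2 b2) / ph a2 ∧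
    (1 / ph b1 + 1 / ph b2) *
      ((ph b1 * Ko ρ a1 b1 - ph b2 * Ko ρ a1 b2) / ph a1
        - (ph b1 * Ko ρ a2 b1 - ph b2 * Ko ρ a2 b2) / ph a2)
      ≤ (1 / ph a1 + 1 / ph a2) * (Ke ρ a1 b1 - Ke ρ a1 b2 - Ke ρ a2 b1 + Ke ρ a2 b2) := by
  have hc := cc_pos hρ hρ1
  obtain ⟨c, hcdef⟩ : ∃ c, c = cc ρ := ⟨_, rfl⟩
  obtain ⟨q1, q2, q3, q4, q5⟩ := half_args (c := cc ρ) (ρ := ρ) (a1 := a1) (a2 := a2) (b1 := b1)
    (b2 := b2) hc
  obtain ⟨N, hN⟩ : ∃ N, N = (b1 + b2) / (2 * cc ρ) := ⟨_, rfl⟩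
  obtain ⟨t, ht⟩ : ∃ t, t = ρ * (a1 + a2) / (2 * cc ρ) := ⟨_, rfl⟩
  obtain ⟨a, haa⟩ : ∃ a, a = ρ * (a2 - a1) / (2 * cc ρ) := ⟨_, rfl⟩
  obtain ⟨b, hbb⟩ : ∃ b, b = (b2 - b1) / (2 * cc ρ) := ⟨_, rfl⟩
  rw [← hN, ← ht, ← haa, ← hbb] at q1 q2 q3 q4 q5
  have hN0 : 0 < N := by rw [hN]; exact div_pos (by linarith) (by linarith)
  have ht0 : 0 < t := by rw [ht]; exact div_pos (mul_pos hρ (by linarith)) (by linarith)
  have ha0 : 0 < a := by rw [haa]; exact div_pos (mul_pos hρ (by linarith)) (by linarith)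
  have hb0 : 0 < b := by rw [hbb]; exact div_pos (by linarith) (by linarith)
  have hPsi : Psi N t a b = 0 := by
    rw [q1]
    unfold G at h
    have hk := kap_pos
    have h' : kap / 2 * ((W ((b2 - ρ * a2) / cc ρ) + W ((b2 + ρ * a2) / cc ρ)
        - W ((b1 - ρ * a2) / cc ρ) - W ((b1 + ρ * a2) / cc ρ))
        - (W ((b2 - ρ * a1) / cc ρ) + W ((b2 + ρ * a1) / cc ρ) - W ((b1 - ρ * a1) / cc ρ)
          - W ((b1 + ρ * a1) / cc ρ))) = 0 := by linear_combination h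
    rcases mul_eq_zero.1 h' with h'' | h''
    · linarith
    · exact h''
  have hPsi2 : Psi N a t b = 0 := by rw [Psi_swap_ta]; exact hPsi
  have hPsi3 : Psi N b t a = 0 := by rw [Psi_swap_ta, Psi_swap_ab]; exact hPsi
  have n1 := Pt_neg hN0 ht0 ha0 hb0 hPsi
  have n2 := Pt_neg hN0 ha0 ht0 hb0 hPsi2
  have n3 := Pt_neg hN0 hb0 ht0 ha0 hPsi3
  have n4 := star hN0 ht0 ha0 hb0 hPsi
  have s11 := ph_sub hρ hρ1 a1 b1
  have s12 := ph_sub hρ hρ1 a1 b2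
  have s21 := ph_sub hρ hρ1 a2 b1
  have s22 := ph_sub hρ hρ1 a2 b2
  have d11 := ph_add hρ hρ1 a1 b1
  have d12 := ph_add hρ hρ1 a1 b2
  have d21 := ph_add hρ hρ1 a2 b1
  have d22 := ph_add hρ hρ1 a2 b2
  have pa1 := ph_pos a1
  have pa2 := ph_pos a2
  have pb1 := ph_pos b1
  have pb2 := ph_pos b2
  have key := half_arith (c := cc ρ) (A := -Pt N t a b) (B := -Pt N a t b) (C := -Pt N b t a)
    (P := PN N t a b)
    (o1 := ph b1 * Ko ρ a1 b1 - ph b2 * Ko ρ a1 b2)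
    (o2 := ph b1 * Ko ρ a2 b1 - ph b2 * Ko ρ a2 b2)
    (k1 := ph b1 * Ke ρ a2 b1 - ph b1 * Ke ρ a1 b1)
    (k2 := ph b2 * Ke ρ a2 b2 - ph b2 * Ke ρ a1 b2)
    (α1 := 1 / ph a1) (α2 := 1 / ph a2) (β1 := 1 / ph b1) (β2 := 1 / ph b2)
    hc (by linarith) (by linarith) (by linarith) (by linarith)
    (by positivity) (one_div_lt_one_div_of_lt pa2 (half_ph_lt ha1 ha))
    (by positivity) (one_div_lt_one_div_of_lt pb2 (half_ph_lt hb1 hb))
    (by rw [q2, s11, s12, s21, s22]; ring) (by rw [q3, s11, s12, s21, s22]; ring)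
    (by rw [q4, d11, d12, d21, d22]; ring) (by rw [q5, d11, d12, d21, d22]; ring)
  have r1 : (ph b1 * Ko ρ a1 b1 - ph b2 * Ko ρ a1 b2) / ph a1
        - (ph b1 * Ko ρ a2 b1 - ph b2 * Ko ρ a2 b2) / ph a2
      = (ph b1 * Ko ρ a1 b1 - ph b2 * Ko ρ a1 b2) * (1 / ph a1)
        - (ph b1 * Ko ρ a2 b1 - ph b2 * Ko ρ a2 b2) * (1 / ph a2) := by ring
  have r2 : Ke ρ a1 b1 - Ke ρ a1 b2 - Ke ρ a2 b1 + Ke ρ a2 b2
      = (ph b2 * Ke ρ a2 b2 - ph b2 * Ke ρ a1 b2) * (1 / ph b2)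
        - (ph b1 * Ke ρ a2 b1 - ph b1 * Ke ρ a1 b1) * (1 / ph b1) := by
    field_simp
    ring
  rw [r1, r2]
  exact key

end Pool.Agent.H.MP_eff680_pr.D1
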