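import Pool.Agent.H.MP_eff680_pr.D1.Main

/-! The exact value on the real line. -/

open MeasureTheory ProbabilityTheory Set Filter
open scoped Topology

namespace Pool.Agent.H.MP_eff680_pr.D1

lemma kap_qt {u : ℝ} (hu : 0 < u) (hu1 : u < 1) : kap * W (qt u) = u :=
  kapW_qt (by linarith) hu1

lemma measurable_comb (ρ : ℝ) : Measurable fun p : ℝ × ℝ => ρ * p.1 + cc ρ * p.2 := by fun_prop

lemma meas_pr {A B : Set ℝ} (ρ : ℝ) (hA : MeasurableSet A) (hB : MeasurableSet B) :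
    MeasurableSet {p : ℝ × ℝ | p.1 ∈ A ∧ ρ * p.1 + cc ρ * p.2 ∈ B} :=
  (measurable_fst hA).inter (measurable_comb ρ hB)

lemma lam_preimage_qt (A : Set ℝ) (hA : MeasurableSet A) (hs : -A = A) :
    lam.real (qt ⁻¹' A) = (gaussianReal 0 1).real A := by
  rw [← map_Th, measureReal_def, measureReal_def,
    Measure.map_apply Th_measurable (qt_measurable hA)]
  congr 2
  ext x
  simp only [mem_preimage, qt_Th]
  rcases abs_choice x with h | h
  · rw [h]
  · rw [h]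
    conv_rhs => rw [← hs]
    rfl

lemma mem_abs {A : Set ℝ} (hs : -A = A) (x : ℝ) : |x| ∈ A ↔ x ∈ A := by
  rcases abs_choice x with h | h
  · rw [h]
  · rw [h]
    conv_rhs => rw [← hs]
    rfl

lemma jl_real (ρ : ℝ) {A B : Set ℝ} (hA : MeasurableSet A) (hB : MeasurableSet B) (hs : -A = A)
    (hs' : -B = B) : (jl ρ).real ((qt ⁻¹' A) ×ˢ (qt ⁻¹' B)) = pr ρ A B := by
  have hm : Measurable fun p : ℝ × ℝ => (Th p.1, Th (ρ * p.1 + cc ρ * p.2)) :=
    (Th_measurable.comp measurable_fst).prodMk (Th_measurable.comp (measurable_comb ρ))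
  unfold jl pr
  rw [measureReal_def, measureReal_def,
    Measure.map_apply hm ((qt_measurable hA).prod (qt_measurable hB))]
  congr 2
  ext p
  simp only [mem_preimage, mem_prod, qt_Th, mem_ofPred_eq]
  rw [mem_abs hs, mem_abs hs']

lemma pr_compl_left {ρ : ℝ} (hρ : 0 < ρ) (hρ1 : ρ < 1) {A B : Set ℝ} (hA : MeasurableSet A)
    (hB : MeasurableSet B) (hs' : -B = B) :
    pr ρ A B + pr ρ Aᶜ B = (gaussianReal 0 1).real B := by
  have h1 : pr ρ univ B = (gaussianReal 0 1).real B := by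
    rw [← jl_real ρ MeasurableSet.univ hB (by simp) hs', preimage_univ,
      ← lam_preimage_qt B hB hs', ← (unif_jl hρ hρ1).snd, measureReal_def, measureReal_def,
      Measure.map_apply measurable_snd (qt_measurable hB), univ_prod]
  rw [← h1]
  unfold pr
  rw [← measureReal_union]
  · congr 1
    ext p
    simp only [mem_union, mem_ofPred_eq, mem_compl_iff, mem_univ, true_and]
    tauto
  · rw [Set.disjoint_left]
    rintro p ⟨h1, _⟩ ⟨h2, _⟩
    exact h2 h1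
  · exact meas_pr ρ hA.compl hB

lemma pr_compl_right {ρ : ℝ} {A B : Set ℝ} (hA : MeasurableSet A)
    (hB : MeasurableSet B) :
    pr ρ A B + pr ρ A Bᶜ = (gaussianReal 0 1).real A := by
  have h1 : ((gaussianReal 0 1).prod (gaussianReal 0 1)).real (Prod.fst ⁻¹' A : Set (ℝ × ℝ))
      = (gaussianReal 0 1).real A := by
    have e : (Prod.fst ⁻¹' A : Set (ℝ × ℝ)) = A ×ˢ univ := by ext p; simp
    rw [e, measureReal_prod_prod, probReal_univ, mul_one]
  rw [← h1]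
  unfold pr
  rw [← measureReal_union]
  · congr 1
    ext p
    simp only [mem_union, mem_ofPred_eq, mem_compl_iff, mem_preimage]
    tauto
  · rw [Set.disjoint_left]
    rintro p ⟨_, h1⟩ ⟨_, h2⟩
    exact h2 h1
  · exact meas_pr ρ hA hB.compl

/-- The lower bound. -/
theorem pr_ge {ρ : ℝ} (hρ : 0 < ρ) (hρ1 : ρ < 1) {μ ν : ℝ} (hμ : μ ∈ Ioo (0 : ℝ) 1)
    (hν : ν ∈ Ioo (0 : ℝ) 1) {A B : Set ℝ} (hA : MeasurableSet A) (hB : MeasurableSet B)
    (hs : -A = A) (hAμ : (gaussianReal 0 1).real A = μ) (hBν : (gaussianReal 0 1).real B = ν) :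
    max μ ν - F ρ (qt (max μ ν)) (qt (1 - min μ ν)) ≤ pr ρ A B := by
  obtain ⟨B', hB', hs', hBB', hle⟩ := symmetrize ρ A B hA hB hs
  refine le_trans ?_ hle
  have hsc : -Aᶜ = Aᶜ := by rw [compl_neg, hs]
  have e1 := pr_compl_left hρ hρ1 hA hB' hs'
  have e2 := jl_real ρ hA.compl hB' hsc hs'
  have hAc : (gaussianReal 0 1).real Aᶜ = 1 - μ := by
    rw [probReal_compl_eq_one_sub hA, hAμ]
  have hμ' : (1 - μ) ∈ Ioo (0 : ℝ) 1 := ⟨by linarith [hμ.2], by linarith [hμ.1]⟩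
  have hν' : (1 - ν) ∈ Ioo (0 : ℝ) 1 := ⟨by linarith [hν.2], by linarith [hν.1]⟩
  have e3 := opt_jl hρ hρ1 (1 - μ) ν hμ' hν (qt ⁻¹' Aᶜ) (qt ⁻¹' B') (qt_measurable hA.compl)
    (qt_measurable hB') (by rw [lam_preimage_qt _ hA.compl hsc, hAc])
    (by rw [lam_preimage_qt _ hB' hs', hBB', hBν])
  rw [e2, sub_sub_cancel] at e3
  rw [hBB', hBν] at e1
  rcases le_total ν μ with h | h
  · rw [max_eq_left h, min_eq_right h]
    have e4 := DD_nonpos hρ hρ1 hμ hν' (by linarith)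
    unfold DD at e4
    rw [sub_sub_cancel] at e4
    have e5 : max (HH (jl ρ) (1 - μ) ν) (1 - μ + ν - 1 + HH (jl ρ) μ (1 - ν))
        ≤ ν - μ + HH (jl ρ) μ (1 - ν) := max_le (by linarith) (by linarith)
    rw [← HH_jl hρ hρ1 hμ.1 hμ.2 hν'.1 hν'.2]
    linarith
  · rw [max_eq_right h, min_eq_left h]
    have e4 := DD_nonpos hρ hρ1 hμ' hν (by linarith)
    unfold DD at e4
    rw [sub_sub_cancel] at e4
    have e5 : max (HH (jl ρ) (1 - μ) ν) (1 - μ + ν - 1 + HH (jl ρ) μ (1 - ν))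
        ≤ HH (jl ρ) (1 - μ) ν := max_le le_rfl (by linarith)
    rw [F_symm hρ hρ1, ← HH_jl hρ hρ1 hμ'.1 hμ'.2 hν.1 hν.2]
    linarith

lemma neg_Icc_self (r : ℝ) : -(Icc (-r) r) = Icc (-r) r := by
  ext x
  simp only [Set.mem_neg, mem_Icc]
  constructor
  · rintro ⟨h1, h2⟩; exact ⟨by linarith, by linarith⟩
  · rintro ⟨h1, h2⟩; exact ⟨by linarith, by linarith⟩

/-- The value of `pr` at two intervals. -/
lemma pr_Icc {ρ : ℝ} (hρ : 0 < ρ) (hρ1 : ρ < 1) {s t : ℝ} (hs : 0 < s) (ht : 0 < t) :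
    pr ρ (Icc (-s) s) (Icc (-t) t) = F ρ s t := by
  have h1 : ∀ r : ℝ, 0 < r → qt ⁻¹' (Icc (-r) r) =ᵐ[lam] Iic (kap * W r) := by
    intro r hr
    have h0 : ∀ᵐ θ ∂lam, θ ∈ Ioo (0 : ℝ) 1 := by
      have : lam (Ioo (0 : ℝ) 1)ᶜ = 0 := by
        unfold lam
        rw [Measure.restrict_apply measurableSet_Ioo.compl]
        have : (Ioo (0 : ℝ) 1)ᶜ ∩ Icc 0 1 ⊆ {0, 1} := by
          rintro x ⟨h1, h2⟩
          by_contra h3
          simp only [mem_insert_iff, mem_singleton_iff, not_or] at h3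
          exact h1 ⟨lt_of_le_of_ne h2.1 (Ne.symm h3.1), lt_of_le_of_ne h2.2 h3.2⟩
        exact measure_mono_null this ((Set.toFinite {(0 : ℝ), 1}).measure_zero volume)
      exact this
    filter_upwards [h0] with θ hθ
    have hθ' : θ ∈ Ioo (-1 : ℝ) 1 := ⟨by linarith [hθ.1], hθ.2⟩
    have hr1 : kap * W r ∈ Ioo (-1 : ℝ) 1 :=
      ⟨by have := mul_pos kap_pos (W_pos hr); linarith, kapW_lt r⟩
    have hq := qt_pos hθ.1 hθ.2
    have hiff : qt θ ≤ r ↔ θ ≤ kap * W r := by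
      rw [← qt_strictMonoOn.le_iff_le hθ' hr1, qt_kapW]
    refine propext ?_
    show qt θ ∈ Icc (-r) r ↔ θ ∈ Iic (kap * W r)
    rw [mem_Icc, mem_Iic, ← hiff]
    exact ⟨fun h => h.2, fun h => ⟨by linarith, h⟩⟩
  have hsym : ∀ r : ℝ, -(Icc (-r) r) = Icc (-r) r := fun r => neg_Icc_self r
  have hs1 : 0 < kap * W s := mul_pos kap_pos (W_pos hs)
  have ht1 : 0 < kap * W t := mul_pos kap_pos (W_pos ht)
  rw [← jl_real ρ measurableSet_Icc measurableSet_Icc (hsym s) (hsym t),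
    real_congr (unif_jl hρ hρ1) (h1 s hs) (h1 t ht)]
  have := HH_jl hρ hρ1 hs1 (kapW_lt s) ht1 (kapW_lt t)
  rw [qt_kapW, qt_kapW] at this
  exact this

/-- `F` in terms of the probability of (interval, complement of an interval). -/
lemma pr_Icc_compl {ρ : ℝ} (hρ : 0 < ρ) (hρ1 : ρ < 1) {s t : ℝ} (hs : 0 < s) (ht : 0 < t) :
    pr ρ (Icc (-s) s) (Icc (-t) t)ᶜ = (gaussianReal 0 1).real (Icc (-s) s) - F ρ s t := by
  have := pr_compl_right (ρ := ρ) (A := Icc (-s) s) (B := Icc (-t) t) measurableSet_Icc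
    measurableSet_Icc
  rw [pr_Icc hρ hρ1 hs ht] at this
  linarith

lemma pr_compl_Icc {ρ : ℝ} (hρ : 0 < ρ) (hρ1 : ρ < 1) {s t : ℝ} (hs : 0 < s) (ht : 0 < t) :
    pr ρ (Icc (-s) s)ᶜ (Icc (-t) t) = (gaussianReal 0 1).real (Icc (-t) t) - F ρ s t := by
  have := pr_compl_left hρ hρ1 (A := Icc (-s) s) (B := Icc (-t) t) measurableSet_Icc
    measurableSet_Icc (neg_Icc_self t)
  rw [pr_Icc hρ hρ1 hs ht] at this
  linarith

lemma radius {s u : ℝ} (hu : 0 < u) (hu1 : u < 1)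
    (h : (gaussianReal 0 1).real (Icc (-s) s) = u) : 0 < s ∧ qt u = s := by
  have hs : 0 < s := by
    by_contra hs
    have hs : s ≤ 0 := not_lt.1 hs
    have : (gaussianReal 0 1).real (Icc (-s) s) = 0 := by
      rcases hs.lt_or_eq with h0 | h0
      · rw [Icc_eq_empty (by linarith)]; simp
      · have := gaussian_Icc (s := s) h0.ge
        rw [this, h0, W_zero, mul_zero]
    linarith
  refine ⟨hs, ?_⟩
  rw [gaussian_Icc hs.le] at h
  rw [← h, qt_kapW]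

end Pool.Agent.H.MP_eff680_pr.D1
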