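import Mathlib

/-! Finite unions of intervals, given by the sign of a product. -/

open MeasureTheory Set

namespace Pool.Agent.H.MP_eff680_pr.D1

/-- Lebesgue measure on `[0, 1]`. -/
noncomputable def lam : Measure ℝ := volume.restrict (Icc 0 1)

instance : IsProbabilityMeasure lam := ⟨by simp [lam]⟩

/-- `{θ : ∏_{v ∈ L} (θ - v) > 0}`. -/
def cset (L : List ℝ) : Set ℝ := {θ | 0 < (L.map fun v => θ - v).prod}

/-- Both marginals are uniform on `[0, 1]`. -/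
structure Unif (κ : Measure (ℝ × ℝ)) : Prop where
  fst : κ.map Prod.fst = lam
  snd : κ.map Prod.snd = lam

/-- `κ(Iic u × Iic w)`. -/
noncomputable def HH (κ : Measure (ℝ × ℝ)) (u w : ℝ) : ℝ := κ.real (Iic u ×ˢ Iic w)

/-- `Σ_i Σ_j σ_i τ_j H(u_i, w_j)`. -/
noncomputable def sumH (κ : Measure (ℝ × ℝ)) {m n : ℕ} (σ : Fin m → ℝ) (τ : Fin n → ℝ)
    (u : Fin m → ℝ) (w : Fin n → ℝ) : ℝ := ∑ i, ∑ j, σ i * τ j * HH κ (u i) (w j)

end Pool.Agent.H.MP_eff680_pr.D1
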