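import Pool.Agent.H.MP_eff680_pr.D1.Calc
import Pool.Agent.H.MP_eff680_pr.D1.OptDefs

/-! The joint law of `(Θ(x), Θ(y))`. -/

open MeasureTheory ProbabilityTheory Set

namespace Pool.Agent.H.MP_eff680_pr.D1

/-- `Θ(x) = P(|N| ≤ |x|)`. -/
noncomputable def Th (x : ℝ) : ℝ := kap * W |x|

/-- The joint law of `(Θ(x), Θ(y))`, `y = ρ x + √(1 - ρ²) z`. -/
noncomputable def jl (ρ : ℝ) : Measure (ℝ × ℝ) :=
  ((gaussianReal 0 1).prod (gaussianReal 0 1)).map
    (fun p : ℝ × ℝ => (Th p.1, Th (ρ * p.1 + cc ρ * p.2)))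

theorem Th_measurable : Measurable Th :=
  ((W_continuous.comp continuous_abs).measurable).const_mul kap

/-- `qt (Th x) = |x|`. -/
theorem qt_Th (x : ℝ) : qt (Th x) = |x| := qt_kapW |x|

theorem meas_pdf (x : ℝ) : gaussianPDFReal 0 1 x = kap / 2 * ph x := by
  unfold gaussianPDFReal kap ph
  have h1 : (√(2 * Real.pi * ((1 : NNReal) : ℝ)))⁻¹ = √(2 / Real.pi) / 2 := by
    have hpi := Real.pi_pos
    rw [NNReal.coe_one, mul_one, inv_eq_one_div, div_eq_div_iff (by positivity) (by positivity),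
      one_mul, ← Real.sqrt_mul (by positivity)]
    have : 2 / Real.pi * (2 * Real.pi) = 2 ^ 2 := by field_simp
    rw [this, Real.sqrt_sq (by norm_num)]
  rw [h1]
  congr 2
  simp

theorem meas_Icc {a b : ℝ} (hab : a ≤ b) :
    (gaussianReal 0 1).real (Icc a b) = kap / 2 * (W b - W a) := by
  have h1 : W b - W a = ∫ x in a..b, ph x := by
    unfold W
    exact intervalIntegral.integral_interval_sub_left (ph_continuous.intervalIntegrable _ _)
      (ph_continuous.intervalIntegrable _ _)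
  have h2 : ∫ x in Icc a b, gaussianPDFReal 0 1 x = kap / 2 * (W b - W a) := by
    rw [h1, intervalIntegral.integral_of_le hab, integral_Icc_eq_integral_Ioc,
      ← integral_const_mul]
    exact integral_congr_ae (ae_of_all _ fun x => meas_pdf x)
  rw [Measure.real, gaussianReal_apply_eq_integral 0 one_ne_zero, h2, ENNReal.toReal_ofReal]
  have := W_strictMono.monotone hab
  have := kap_pos
  apply mul_nonneg <;> linarith

/-- `P(|N| ≤ s) = kap * W s` for `s ≥ 0`. -/
theorem gaussian_Icc {s : ℝ} (hs : 0 ≤ s) :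
    (gaussianReal 0 1).real (Icc (-s) s) = kap * W s := by
  rw [meas_Icc (by linarith), W_neg]; ring

theorem meas_qt_zero : qt 0 = 0 := by
  have := qt_kapW 0
  rwa [W_zero, mul_zero] at this

theorem meas_qt_nonneg {u : ℝ} (hu : 0 ≤ u) (hu1 : u < 1) : 0 ≤ qt u := by
  rcases hu.eq_or_lt with h | h
  · rw [← h, meas_qt_zero]
  · exact (qt_pos h hu1).le

theorem meas_Th_le {u : ℝ} (hu : 0 ≤ u) (hu1 : u < 1) (x : ℝ) : Th x ≤ u ↔ |x| ≤ qt u := by
  unfold Th
  constructor
  · intro h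
    rw [← kapW_qt (by linarith : -1 < u) hu1] at h
    exact W_strictMono.le_iff_le.mp (le_of_mul_le_mul_left h kap_pos)
  · intro h
    rw [← kapW_qt (by linarith : -1 < u) hu1]
    exact mul_le_mul_of_nonneg_left (W_strictMono.monotone h) kap_pos.le

/-- `Θ(N)` is uniform on `[0, 1]`: `P(Θ(N) ≤ u) = u` for `0 < u < 1`. -/
theorem map_Th : (gaussianReal 0 1).map Th = lam := by
  have : IsProbabilityMeasure ((gaussianReal 0 1).map Th) :=
    Measure.isProbabilityMeasure_map Th_measurable.aemeasurable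
  apply Measure.ext_of_Iic
  intro a
  rw [Measure.map_apply Th_measurable measurableSet_Iic, lam, Measure.restrict_apply
    measurableSet_Iic]
  rcases lt_or_ge a 0 with ha | ha
  · have h1 : Th ⁻¹' Iic a = ∅ := by
      ext x
      simp only [mem_preimage, mem_Iic, mem_empty_iff_false, iff_false, not_le]
      have h2 : 0 ≤ W |x| := by
        have := W_strictMono.monotone (abs_nonneg x)
        rwa [W_zero] at this
      exact ha.trans_le (mul_nonneg kap_pos.le h2)
    have h2 : Iic a ∩ Icc (0 : ℝ) 1 = ∅ := by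
      ext x
      simp only [mem_inter_iff, mem_Iic, mem_Icc, mem_empty_iff_false, iff_false]
      rintro ⟨h1, h2, -⟩; linarith
    rw [h1, h2, measure_empty, measure_empty]
  rcases lt_or_ge a 1 with ha1 | ha1
  · have h1 : Th ⁻¹' Iic a = Icc (-qt a) (qt a) := by
      ext x
      simp only [mem_preimage, mem_Iic, mem_Icc]
      rw [meas_Th_le ha ha1, abs_le]
    have h2 : Iic a ∩ Icc (0 : ℝ) 1 = Icc 0 a := by
      ext x
      simp only [mem_inter_iff, mem_Iic, mem_Icc]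
      constructor
      · rintro ⟨h1, h2, h3⟩; exact ⟨h2, h1⟩
      · rintro ⟨h1, h2⟩; exact ⟨h2, h1, by linarith⟩
    rw [h1, h2, Real.volume_Icc, sub_zero]
    have h3 := gaussian_Icc (meas_qt_nonneg ha ha1)
    rw [kapW_qt (by linarith) ha1] at h3
    have h4 : (gaussianReal 0 1) (Icc (-qt a) (qt a)) =
        ENNReal.ofReal ((gaussianReal 0 1).real (Icc (-qt a) (qt a))) := (ofReal_measureReal).symm
    rw [h4, h3]
  · have h1 : Th ⁻¹' Iic a = univ := by
      ext x
      simp only [mem_preimage, mem_Iic, mem_univ, iff_true]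
      exact (kapW_lt |x|).le.trans ha1
    have h2 : Iic a ∩ Icc (0 : ℝ) 1 = Icc 0 1 := by
      ext x
      simp only [mem_inter_iff, mem_Iic, mem_Icc]
      constructor
      · rintro ⟨h1, h2⟩; exact h2
      · intro h; exact ⟨by linarith [h.2], h⟩
    rw [h1, h2, measure_univ, Real.volume_Icc]; simp

theorem meas_y_measurable (ρ : ℝ) : Measurable (fun p : ℝ × ℝ => ρ * p.1 + cc ρ * p.2) := by
  fun_prop

theorem meas_pair_measurable (ρ : ℝ) :
    Measurable (fun p : ℝ × ℝ => (Th p.1, Th (ρ * p.1 + cc ρ * p.2))) :=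
  (Th_measurable.comp measurable_fst).prodMk (Th_measurable.comp (meas_y_measurable ρ))

theorem meas_map_y {ρ : ℝ} (hρ : 0 < ρ) (hρ1 : ρ < 1) :
    ((gaussianReal 0 1).prod (gaussianReal 0 1)).map
      (fun p : ℝ × ℝ => ρ * p.1 + cc ρ * p.2) = gaussianReal 0 1 := by
  have h1 := gaussianReal_map_const_mul (μ := 0) (v := 1) ρ
  have h2 := gaussianReal_map_const_mul (μ := 0) (v := 1) (cc ρ)
  have h3 := gaussianReal_conv_gaussianReal (m₁ := 0) (m₂ := 0)
    (v₁ := .mk (ρ ^ 2) (sq_nonneg _) * 1) (v₂ := .mk (cc ρ ^ 2) (sq_nonneg _) * 1)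
  rw [mul_zero] at h1 h2
  rw [← h1, ← h2] at h3
  have h4 : (.mk (ρ ^ 2) (sq_nonneg _) * 1 + .mk (cc ρ ^ 2) (sq_nonneg _) * 1 : NNReal) = 1 := by
    rw [← NNReal.coe_inj]
    push_cast
    show ρ ^ 2 * 1 + cc ρ ^ 2 * 1 = 1
    rw [cc_sq hρ hρ1]; ring
  rw [h4, add_zero] at h3
  have h5 := Measure.map_prod_map (gaussianReal 0 1) (gaussianReal 0 1)
    (f := fun x : ℝ => ρ * x) (g := fun x : ℝ => cc ρ * x) (by fun_prop) (by fun_prop)
  rw [Measure.conv, h5, Measure.map_map (by fun_prop) (by fun_prop)] at h3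
  exact h3

/-- Both marginals are uniform (`ρ x + √(1 - ρ²) z` is standard normal). -/
theorem unif_jl {ρ : ℝ} (hρ : 0 < ρ) (hρ1 : ρ < 1) : Unif (jl ρ) := by
  constructor
  · rw [jl, Measure.map_map measurable_fst (meas_pair_measurable ρ)]
    have h1 : (Prod.fst ∘ fun p : ℝ × ℝ => (Th p.1, Th (ρ * p.1 + cc ρ * p.2))) =
        Th ∘ Prod.fst := rfl
    rw [h1, ← Measure.map_map Th_measurable measurable_fst, Measure.map_fst_prod, measure_univ,
      one_smul, map_Th]
  · rw [jl, Measure.map_map measurable_snd (meas_pair_measurable ρ)]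
    have h1 : (Prod.snd ∘ fun p : ℝ × ℝ => (Th p.1, Th (ρ * p.1 + cc ρ * p.2))) =
        Th ∘ (fun p : ℝ × ℝ => ρ * p.1 + cc ρ * p.2) := rfl
    rw [h1, ← Measure.map_map Th_measurable (meas_y_measurable ρ), meas_map_y hρ hρ1, map_Th]

instance meas_prob (ρ : ℝ) : IsProbabilityMeasure (jl ρ) :=
  Measure.isProbabilityMeasure_map (meas_pair_measurable ρ).aemeasurable

theorem meas_G_continuous (ρ t : ℝ) : Continuous (fun x => G ρ x t) := by
  unfold G
  have := W_continuous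
  fun_prop

theorem meas_G_even (ρ x t : ℝ) : G ρ (-x) t = G ρ x t := by
  unfold G
  have e1 : t - ρ * (-x) = t + ρ * x := by ring
  have e2 : t + ρ * (-x) = t - ρ * x := by ring
  rw [e1, e2, add_comm]

theorem meas_G_nonneg {ρ : ℝ} (hρ : 0 < ρ) (hρ1 : ρ < 1) (x : ℝ) {t : ℝ} (ht : 0 ≤ t) :
    0 ≤ G ρ x t := by
  unfold G
  have hc := cc_pos hρ hρ1
  have h1 : W (-((t + ρ * x) / cc ρ)) ≤ W ((t - ρ * x) / cc ρ) := by
    apply W_strictMono.monotone
    rw [← neg_div]
    apply div_le_div_of_nonneg_right _ hc.le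
    linarith
  rw [W_neg] at h1
  have := kap_pos
  apply mul_nonneg
  · linarith
  · linarith

/-- slices -/
theorem meas_slice {ρ : ℝ} (hρ : 0 < ρ) (hρ1 : ρ < 1) (x : ℝ) {t : ℝ} (ht : 0 ≤ t) :
    (gaussianReal 0 1) {z | |ρ * x + cc ρ * z| ≤ t} = ENNReal.ofReal (G ρ x t) := by
  have hc := cc_pos hρ hρ1
  have h1 : {z | |ρ * x + cc ρ * z| ≤ t} = Icc (-((t + ρ * x) / cc ρ)) ((t - ρ * x) / cc ρ) := by
    ext z
    simp only [mem_ofPred_eq, mem_Icc]
    rw [abs_le, ← neg_div, div_le_iff₀ hc, le_div_iff₀ hc]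
    constructor
    · rintro ⟨h1, h2⟩; constructor <;> linarith
    · rintro ⟨h1, h2⟩; constructor <;> linarith
  have h2 := meas_Icc (a := -((t + ρ * x) / cc ρ)) (b := (t - ρ * x) / cc ρ) (by
    rw [← neg_div]
    apply div_le_div_of_nonneg_right _ hc.le
    linarith)
  rw [W_neg, sub_neg_eq_add] at h2
  rw [h1, G, ← h2, ofReal_measureReal]

theorem meas_integral {ρ : ℝ} {s t : ℝ} (hs : 0 ≤ s) :
    ∫ x in Icc (-s) s, G ρ x t ∂(gaussianReal 0 1) = F ρ s t := by
  rw [← integral_indicator measurableSet_Icc, integral_gaussianReal_eq_integral_smul one_ne_zero]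
  have h1 : ∀ x, gaussianPDFReal 0 1 x • (Icc (-s) s).indicator (fun x => G ρ x t) x =
      (Icc (-s) s).indicator (fun x => kap / 2 * ph x * G ρ x t) x := by
    intro x
    by_cases hx : x ∈ Icc (-s) s
    · rw [indicator_of_mem hx, indicator_of_mem hx, meas_pdf]; rfl
    · rw [indicator_of_notMem hx, indicator_of_notMem hx, smul_zero]
  simp_rw [h1]
  rw [integral_indicator measurableSet_Icc, integral_Icc_eq_integral_Ioc,
    ← intervalIntegral.integral_of_le (by linarith)]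
  have hcont : Continuous (fun x => kap / 2 * ph x * G ρ x t) :=
    (continuous_const.mul ph_continuous).mul (meas_G_continuous ρ t)
  rw [← intervalIntegral.integral_add_adjacent_intervals (b := 0)
    (hcont.intervalIntegrable _ _) (hcont.intervalIntegrable _ _)]
  have h2 : ∫ x in (-s)..0, kap / 2 * ph x * G ρ x t = ∫ x in (0 : ℝ)..s,
      kap / 2 * ph x * G ρ x t := by
    have := intervalIntegral.integral_comp_neg (f := fun x => kap / 2 * ph x * G ρ x t)
      (a := 0) (b := s)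
    rw [neg_zero] at this
    rw [← this]
    apply intervalIntegral.integral_congr
    intro x _
    simp only
    rw [ph_neg, meas_G_even]
  rw [h2, F, ← two_mul, ← intervalIntegral.integral_const_mul]
  apply intervalIntegral.integral_congr
  intro x _
  simp only
  ring

/-- `P(Θ(x) ≤ u, Θ(y) ≤ w) = F(qt u, qt w)`.

Proof. `Θ(x) ≤ u` iff `|x| ≤ qt u`. By Fubini the left side is
`∫_{|x| ≤ s} P(|ρ x + c z| ≤ t) dγ(x)`, `s = qt u`, `t = qt w`, and
`P(|ρ x + c z| ≤ t) = P((-t - ρ x)/c ≤ z ≤ (t - ρ x)/c) = G ρ x t` (even in `x`), and the density of `x` is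
`kap/2 * ph`. -/
theorem HH_jl {ρ : ℝ} (hρ : 0 < ρ) (hρ1 : ρ < 1) {u w : ℝ} (hu : 0 < u) (hu1 : u < 1)
    (hw : 0 < w) (hw1 : w < 1) : HH (jl ρ) u w = F ρ (qt u) (qt w) := by
  have hs := (qt_pos hu hu1).le
  have ht := (qt_pos hw hw1).le
  have hS : MeasurableSet (Iic u ×ˢ Iic w : Set (ℝ × ℝ)) := measurableSet_Iic.prod measurableSet_Iic
  have hG0 := meas_G_nonneg hρ hρ1 (t := qt w)
  have h1 : (jl ρ) (Iic u ×ˢ Iic w) =
      ∫⁻ x in Icc (-qt u) (qt u), ENNReal.ofReal (G ρ x (qt w)) ∂(gaussianReal 0 1) := by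
    rw [jl, Measure.map_apply (meas_pair_measurable ρ) hS,
      Measure.prod_apply (meas_pair_measurable ρ hS), ← lintegral_indicator measurableSet_Icc]
    apply lintegral_congr
    intro x
    by_cases hx : x ∈ Icc (-qt u) (qt u)
    · rw [indicator_of_mem hx, ← meas_slice hρ hρ1 x ht]
      congr 1
      ext z
      simp only [mem_preimage, mem_prod, mem_Iic, mem_ofPred_eq]
      rw [meas_Th_le hu.le hu1, meas_Th_le hw.le hw1]
      exact ⟨fun h => h.2, fun h => ⟨abs_le.mpr hx, h⟩⟩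
    · rw [indicator_of_notMem hx]
      have : (Prod.mk x ⁻¹' ((fun p : ℝ × ℝ => (Th p.1, Th (ρ * p.1 + cc ρ * p.2))) ⁻¹'
          Iic u ×ˢ Iic w)) = ∅ := by
        ext z
        simp only [mem_preimage, mem_prod, mem_Iic, mem_empty_iff_false, iff_false]
        rw [meas_Th_le hu.le hu1]
        rintro ⟨h, -⟩
        exact hx (abs_le.mp h)
      rw [this, measure_empty]
  have hcomp : IsCompact (Icc (-qt u) (qt u)) := isCompact_Icc
  have hint : IntegrableOn (fun x => G ρ x (qt w)) (Icc (-qt u) (qt u)) (gaussianReal 0 1) :=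
    (meas_G_continuous ρ (qt w)).continuousOn.integrableOn_compact hcomp
  rw [HH, Measure.real, h1, ← ofReal_integral_eq_lintegral_ofReal hint
    (ae_of_all _ fun x => hG0 x ht), ENNReal.toReal_ofReal (integral_nonneg fun x => hG0 x ht),
    meas_integral hs]

theorem meas_HH_lower {ρ : ℝ} (hρ : 0 < ρ) (hρ1 : ρ < 1) {b w : ℝ} (hb : 0 < b) (hb1 : b < 1)
    (hw : 0 < w) (hw1 : w < 1) : w - (1 - b) ≤ HH (jl ρ) b w := by
  have hU := unif_jl hρ hρ1
  have h1 : (jl ρ).real (univ ×ˢ Iic w) = w := by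
    have : (univ ×ˢ Iic w : Set (ℝ × ℝ)) = Prod.snd ⁻¹' Iic w := by ext p; simp
    rw [this, ← map_measureReal_apply measurable_snd measurableSet_Iic, hU.snd, lam,
      measureReal_restrict_apply measurableSet_Iic]
    have h2 : Iic w ∩ Icc (0 : ℝ) 1 = Icc 0 w := by
      ext x
      simp only [mem_inter_iff, mem_Iic, mem_Icc]
      constructor
      · rintro ⟨h1, h2, h3⟩; exact ⟨h2, h1⟩
      · rintro ⟨h1, h2⟩; exact ⟨h2, h1, by linarith⟩
    rw [h2, Real.volume_real_Icc_of_le hw.le, sub_zero]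
  have h2 : (jl ρ).real (Ioi b ×ˢ univ) = 1 - b := by
    have : (Ioi b ×ˢ univ : Set (ℝ × ℝ)) = Prod.fst ⁻¹' Ioi b := by ext p; simp
    rw [this, ← map_measureReal_apply measurable_fst measurableSet_Ioi, hU.fst, lam,
      measureReal_restrict_apply measurableSet_Ioi]
    have h2 : Ioi b ∩ Icc (0 : ℝ) 1 = Ioc b 1 := by
      ext x
      simp only [mem_inter_iff, mem_Ioi, mem_Icc, mem_Ioc]
      constructor
      · rintro ⟨h1, h2, h3⟩; exact ⟨h1, h3⟩
      · rintro ⟨h1, h2⟩; exact ⟨h1, by linarith, h2⟩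
    rw [h2, Real.volume_real_Ioc_of_le hb1.le]
  have h3 : (univ ×ˢ Iic w : Set (ℝ × ℝ)) ⊆ (Iic b ×ˢ Iic w) ∪ (Ioi b ×ˢ univ) := by
    rintro ⟨x, y⟩ ⟨-, hy⟩
    rcases le_or_gt x b with h | h
    · left; exact ⟨h, hy⟩
    · right; exact ⟨h, mem_univ _⟩
  have h4 := (measureReal_mono (μ := jl ρ) h3).trans (measureReal_union_le _ _)
  rw [h1, h2] at h4
  unfold HH
  linarith

theorem meas_Ko_nonneg {ρ : ℝ} (hρ : 0 < ρ) (hρ1 : ρ < 1) {s t : ℝ} (hs : 0 ≤ s) (ht : 0 ≤ t) :
    0 ≤ Ko ρ s t := by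
  unfold Ko
  have hc := cc_pos hρ hρ1
  have : 0 ≤ Real.sinh (ρ * s * t / cc ρ ^ 2) := Real.sinh_nonneg_iff.mpr (by positivity)
  positivity

theorem meas_G_anti {ρ : ℝ} (hρ : 0 < ρ) (hρ1 : ρ < 1) {t : ℝ} (ht : 0 ≤ t) :
    AntitoneOn (fun s => G ρ s t) (Ici 0) := by
  apply antitoneOn_of_deriv_nonpos (convex_Ici 0) (meas_G_continuous ρ t).continuousOn
  · intro s _
    exact (G_hasDerivAt hρ hρ1 (hasDerivAt_id s) (hasDerivAt_const s t)).differentiableAt
      |>.differentiableWithinAt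
  · intro s hs
    rw [interior_Ici] at hs
    have h := (G_hasDerivAt hρ hρ1 (hasDerivAt_id s) (hasDerivAt_const s t)).deriv
    have h' : deriv (fun s => G ρ s t) s =
      kap * ph t * (Ke ρ s t * 0 - ρ * Ko ρ s t * 1) := h
    rw [h']
    have h1 := meas_Ko_nonneg hρ hρ1 (le_of_lt hs) ht
    have h2 := kap_pos
    have h3 := ph_pos t
    have h4 : 0 ≤ kap * ph t * (ρ * Ko ρ s t) := by positivity
    linarith [h4, show kap * ph t * (Ke ρ s t * 0 - ρ * Ko ρ s t * 1) =
      -(kap * ph t * (ρ * Ko ρ s t)) by ring]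

/-- Positive quadrant dependence.

Proof. `f u = F ρ (qt u) (qt w)` on `(0, 1)` has derivative `G ρ (qt u) (qt w)`, which is decreasing in `u`
(`G_hasDerivAt`: `∂G/∂s = - ρ kap ph t Ko ≤ 0` for `s, t > 0`), so `HH (jl ρ) · w` is concave on `[0, 1]` with
values `0` at `0` and `w` at `1`; so it is `≥ u w`. -/
theorem pqd {ρ : ℝ} (hρ : 0 < ρ) (hρ1 : ρ < 1) {u w : ℝ} (hu : 0 < u) (hu1 : u < 1)
    (hw : 0 < w) (hw1 : w < 1) : u * w ≤ HH (jl ρ) u w := by
  have ht := (qt_pos hw hw1).le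
  set t := qt w with htd
  have hder : ∀ v ∈ Ioo (0 : ℝ) 1, HasDerivAt (fun v => F ρ (qt v) t) (G ρ (qt v) t) v := by
    intro v hv
    have h1 := F_hasDerivAt hρ hρ1 (qt_hasDerivAt (by linarith [hv.1]) hv.2)
      (hasDerivAt_const v t)
    refine h1.congr_deriv ?_
    have h2 := kap_pos
    have h3 := ph_pos (qt v)
    field_simp
    ring
  have hconc : ConcaveOn ℝ (Ioo (0 : ℝ) 1) (fun v => F ρ (qt v) t) := by
    apply AntitoneOn.concaveOn_of_deriv (convex_Ioo 0 1)
    · intro v hv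
      exact (hder v hv).continuousAt.continuousWithinAt
    · intro v hv
      rw [interior_Ioo] at hv
      exact (hder v hv).differentiableAt.differentiableWithinAt
    · rw [interior_Ioo]
      intro a ha b hb hab
      rw [(hder a ha).deriv, (hder b hb).deriv]
      apply meas_G_anti hρ hρ1 ht (meas_qt_nonneg ha.1.le ha.2) (meas_qt_nonneg hb.1.le hb.2)
      exact qt_strictMonoOn.monotoneOn ⟨by linarith [ha.1], ha.2⟩ ⟨by linarith [hb.1], hb.2⟩ hab
  have hf0 : ∀ v ∈ Ioo (0 : ℝ) 1, F ρ (qt v) t = HH (jl ρ) v w := by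
    intro v hv
    rw [HH_jl hρ hρ1 hv.1 hv.2 hw hw1]
  have key : ∀ e : ℝ, 0 < e → e < u → e < 1 - u → (u - e) / (1 - 2 * e) * (w - e) ≤
      HH (jl ρ) u w := by
    intro e he heu heu'
    have hd : 0 < 1 - 2 * e := by linarith
    have hea : e ∈ Ioo (0 : ℝ) 1 := ⟨he, by linarith⟩
    have heb : 1 - e ∈ Ioo (0 : ℝ) 1 := ⟨by linarith, by linarith⟩
    have ha1 : 0 ≤ (1 - e - u) / (1 - 2 * e) := div_nonneg (by linarith) hd.le
    have ha2 : 0 ≤ (u - e) / (1 - 2 * e) := div_nonneg (by linarith) hd.le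
    have ha3 : (1 - e - u) / (1 - 2 * e) + (u - e) / (1 - 2 * e) = 1 := by
      rw [← add_div, div_eq_one_iff_eq hd.ne']; ring
    have h1 := hconc.2 hea heb ha1 ha2 ha3
    have h2 : ((1 - e - u) / (1 - 2 * e)) • e + ((u - e) / (1 - 2 * e)) • (1 - e) = u := by
      simp only [smul_eq_mul]
      rw [div_mul_eq_mul_div, div_mul_eq_mul_div, ← add_div, div_eq_iff hd.ne']
      ring
    rw [h2] at h1
    simp only [smul_eq_mul] at h1
    rw [hf0 e hea, hf0 (1 - e) heb, hf0 u ⟨hu, hu1⟩] at h1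
    have h3 : 0 ≤ HH (jl ρ) e w := measureReal_nonneg
    have h4 := meas_HH_lower hρ hρ1 heb.1 heb.2 hw hw1
    have h5 : 0 ≤ (1 - e - u) / (1 - 2 * e) * HH (jl ρ) e w :=
      mul_nonneg (div_nonneg (by linarith) hd.le) h3
    have h6 : (u - e) / (1 - 2 * e) * (w - e) ≤ (u - e) / (1 - 2 * e) * HH (jl ρ) (1 - e) w :=
      mul_le_mul_of_nonneg_left (by linarith) (div_nonneg (by linarith) hd.le)
    linarith
  have hlim : Filter.Tendsto (fun e : ℝ => (u - e) / (1 - 2 * e) * (w - e))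
      (nhdsWithin 0 (Ioi 0)) (nhds ((u - 0) / (1 - 2 * 0) * (w - 0))) := by
    apply Filter.Tendsto.mono_left _ nhdsWithin_le_nhds
    apply ContinuousAt.tendsto
    apply ContinuousAt.mul
    · apply ContinuousAt.div
      · fun_prop
      · fun_prop
      · norm_num
    · fun_prop
  have h0 : (u - 0) / (1 - 2 * 0) * (w - 0) = u * w := by ring
  rw [h0] at hlim
  refine le_of_tendsto hlim ?_
  have h1 : Ioo (0 : ℝ) (min u (1 - u)) ∈ nhdsWithin (0 : ℝ) (Ioi 0) :=
    Ioo_mem_nhdsGT (lt_min hu (by linarith))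
  filter_upwards [h1] with e he
  exact key e he.1 (he.2.trans_le (min_le_left _ _)) (he.2.trans_le (min_le_right _ _))

end Pool.Agent.H.MP_eff680_pr.D1
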