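import Pool.Agent.H.MP_eff680_pr.D1.OptBasic

/-! A maximiser among pairs of sets with a bounded number of boundary points. -/

open MeasureTheory Set

namespace Pool.Agent.H.MP_eff680_pr.D1

theorem omx_pad_zero (n : ℕ) (L : List ℝ) :
    cset (List.replicate n 0 ++ L) =ᵐ[lam] cset L := by
  induction n with
  | zero => exact Filter.EventuallyEq.rfl
  | succ n ih =>
    have h : List.replicate (n + 1) (0 : ℝ) ++ L = 0 :: (List.replicate n 0 ++ L) := by
      rw [List.replicate_succ, List.cons_append]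
    rw [h]
    exact (cset_zero _).trans ih

theorem omx_exists_ofFn_eq {M : ℕ} (K : List ℝ) (h : K.length = M) :
    ∃ u : Fin M → ℝ, List.ofFn u = K := by
  subst h
  exact ⟨K.get, List.ofFn_get K⟩

theorem omx_exists_pad (M : ℕ) (L : List ℝ) (hL : ∀ v ∈ L, v ∈ Icc (0 : ℝ) 1) (hM : L.length ≤ M) :
    ∃ u : Fin M → ℝ, (∀ i, u i ∈ Icc (0 : ℝ) 1) ∧ cset (List.ofFn u) =ᵐ[lam] cset L := by
  have hlen : (List.replicate (M - L.length) (0 : ℝ) ++ L).length = M := by
    rw [List.length_append, List.length_replicate]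
    omega
  obtain ⟨u, hu⟩ := omx_exists_ofFn_eq _ hlen
  refine ⟨u, fun i => ?_, ?_⟩
  · have hmem : u i ∈ List.ofFn u := by
      rw [List.mem_ofFn]
      exact ⟨i, rfl⟩
    rw [hu, List.mem_append] at hmem
    rcases hmem with h | h
    · rw [List.eq_of_mem_replicate h]
      exact ⟨le_refl _, zero_le_one⟩
    · exact hL _ h
  · rw [hu]
    exact omx_pad_zero _ L

theorem omx_lamReal_congr {S T : Set ℝ} (h : S =ᵐ[lam] T) : lam.real S = lam.real T :=
  measureReal_congr h

theorem omx_abs_lam_sub_le (S T : Set ℝ) (_ : MeasurableSet S) (_ : MeasurableSet T) :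
    |lam.real S - lam.real T| ≤ lam.real (symmDiff S T) := by
  have h1 : lam.real S ≤ lam.real T + lam.real (symmDiff S T) := by
    refine le_trans (measureReal_mono ?_) (measureReal_union_le _ _)
    intro x hx
    by_cases hxT : x ∈ T
    · exact Or.inl hxT
    · exact Or.inr (Or.inl ⟨hx, hxT⟩)
  have h2 : lam.real T ≤ lam.real S + lam.real (symmDiff S T) := by
    refine le_trans (measureReal_mono ?_) (measureReal_union_le _ _)
    intro x hx
    by_cases hxS : x ∈ S
    · exact Or.inl hxS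
    · exact Or.inr (Or.inr ⟨hx, hxS⟩)
  rw [abs_le]
  constructor <;> linarith

theorem omx_continuous_of_le_sum {M : ℕ} (f : (Fin M → ℝ) × (Fin M → ℝ) → ℝ)
    (hf : ∀ p q, |f p - f q| ≤ ∑ i, |p.1 i - q.1 i| + ∑ i, |p.2 i - q.2 i|) :
    Continuous f := by
  rw [continuous_iff_continuousAt]
  intro q
  rw [ContinuousAt, tendsto_iff_norm_sub_tendsto_zero]
  refine squeeze_zero (fun _ => norm_nonneg _) (fun p => hf p q) ?_
  have hc : Continuous fun p : (Fin M → ℝ) × (Fin M → ℝ) =>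
      ∑ i, |p.1 i - q.1 i| + ∑ i, |p.2 i - q.2 i| := by fun_prop
  have h := hc.tendsto q
  simpa using h

/-- Existence of a maximiser in the class of lists of length at most `M`.

Proof. The set of `(u, w) : (Fin M → ℝ) × (Fin M → ℝ)` with values in `[0, 1]`,
`lam (cset (ofFn u)) = μ`, `lam (cset (ofFn w)) = ν` is compact (the two functions are continuous by
`lam_symmDiff_cset_le`), nonempty by padding `L`, `L'` with zeros (`cset_zero`, `cset_perm`), and
`κ(cset (ofFn u) × cset (ofFn w))` is continuous on it (`abs_sub_le`). Take the maximum; every pair of lists of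
length `≤ M` is dominated, again by padding with zeros. -/
theorem exists_max {κ : Measure (ℝ × ℝ)} (h : Unif κ) (M : ℕ) (μ ν : ℝ) (L L' : List ℝ)
    (hL : ∀ v ∈ L, v ∈ Icc (0 : ℝ) 1) (hL' : ∀ v ∈ L', v ∈ Icc (0 : ℝ) 1)
    (hM : L.length ≤ M) (hM' : L'.length ≤ M) (hμ : lam.real (cset L) = μ)
    (hν : lam.real (cset L') = ν) :
    ∃ A B : List ℝ, (∀ v ∈ A, v ∈ Icc (0 : ℝ) 1) ∧ (∀ v ∈ B, v ∈ Icc (0 : ℝ) 1) ∧
      A.length ≤ M ∧ B.length ≤ M ∧ lam.real (cset A) = μ ∧ lam.real (cset B) = ν ∧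
      ∀ A' B' : List ℝ, (∀ v ∈ A', v ∈ Icc (0 : ℝ) 1) → (∀ v ∈ B', v ∈ Icc (0 : ℝ) 1) →
        A'.length ≤ M → B'.length ≤ M → lam.real (cset A') = μ → lam.real (cset B') = ν →
        κ.real (cset A' ×ˢ cset B') ≤ κ.real (cset A ×ˢ cset B) := by
  -- the three continuous functions
  have hc1 : Continuous fun p : (Fin M → ℝ) × (Fin M → ℝ) => lam.real (cset (List.ofFn p.1)) := by
    refine omx_continuous_of_le_sum _ fun p q => ?_
    have h1 := omx_abs_lam_sub_le _ _ (measurableSet_cset (List.ofFn p.1))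
      (measurableSet_cset (List.ofFn q.1))
    have h2 := lam_symmDiff_cset_le p.1 q.1
    have h3 : 0 ≤ ∑ i, |p.2 i - q.2 i| := Finset.sum_nonneg fun i _ => abs_nonneg _
    linarith
  have hc2 : Continuous fun p : (Fin M → ℝ) × (Fin M → ℝ) => lam.real (cset (List.ofFn p.2)) := by
    refine omx_continuous_of_le_sum _ fun p q => ?_
    have h1 := omx_abs_lam_sub_le _ _ (measurableSet_cset (List.ofFn p.2))
      (measurableSet_cset (List.ofFn q.2))
    have h2 := lam_symmDiff_cset_le p.2 q.2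
    have h3 : 0 ≤ ∑ i, |p.1 i - q.1 i| := Finset.sum_nonneg fun i _ => abs_nonneg _
    linarith
  have hc3 : Continuous fun p : (Fin M → ℝ) × (Fin M → ℝ) =>
      κ.real (cset (List.ofFn p.1) ×ˢ cset (List.ofFn p.2)) := by
    refine omx_continuous_of_le_sum _ fun p q => ?_
    have h1 := abs_sub_le h (measurableSet_cset (List.ofFn p.1))
      (measurableSet_cset (List.ofFn q.1)) (measurableSet_cset (List.ofFn p.2))
      (measurableSet_cset (List.ofFn q.2))
    have h2 := lam_symmDiff_cset_le p.1 q.1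
    have h3 := lam_symmDiff_cset_le p.2 q.2
    exact h1.trans (add_le_add h2 h3)
  -- the compact set
  have hbox : IsCompact ((Set.univ.pi fun _ : Fin M => Icc (0 : ℝ) 1) ×ˢ
      (Set.univ.pi fun _ : Fin M => Icc (0 : ℝ) 1)) :=
    (isCompact_univ_pi fun _ => isCompact_Icc).prod (isCompact_univ_pi fun _ => isCompact_Icc)
  have hcl1 : IsClosed {p : (Fin M → ℝ) × (Fin M → ℝ) | lam.real (cset (List.ofFn p.1)) = μ} :=
    isClosed_eq hc1 continuous_const
  have hcl2 : IsClosed {p : (Fin M → ℝ) × (Fin M → ℝ) | lam.real (cset (List.ofFn p.2)) = ν} :=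
    isClosed_eq hc2 continuous_const
  have hcpt := (hbox.inter_right hcl1).inter_right hcl2
  obtain ⟨u0, hu0, hu0'⟩ := omx_exists_pad M L hL hM
  obtain ⟨w0, hw0, hw0'⟩ := omx_exists_pad M L' hL' hM'
  obtain ⟨p, hp, hmax⟩ := hcpt.exists_isMaxOn
    ⟨(u0, w0), ⟨⟨⟨fun i _ => hu0 i, fun i _ => hw0 i⟩,
      (omx_lamReal_congr hu0').trans hμ⟩, (omx_lamReal_congr hw0').trans hν⟩⟩ hc3.continuousOn
  obtain ⟨⟨⟨hp1, hp2⟩, hpμ⟩, hpν⟩ := hp
  refine ⟨List.ofFn p.1, List.ofFn p.2, ?_, ?_, ?_, ?_, hpμ, hpν, ?_⟩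
  · intro v hv
    rw [List.mem_ofFn] at hv
    obtain ⟨i, rfl⟩ := hv
    exact hp1 i trivial
  · intro v hv
    rw [List.mem_ofFn] at hv
    obtain ⟨i, rfl⟩ := hv
    exact hp2 i trivial
  · rw [List.length_ofFn]
  · rw [List.length_ofFn]
  · intro A' B' hA' hB' hAM hBM hAμ hBν
    obtain ⟨u, hu, hu'⟩ := omx_exists_pad M A' hA' hAM
    obtain ⟨w, hw, hw'⟩ := omx_exists_pad M B' hB' hBM
    have hmem : κ.real (cset (List.ofFn u) ×ˢ cset (List.ofFn w)) ≤
        κ.real (cset (List.ofFn p.1) ×ˢ cset (List.ofFn p.2)) :=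
      hmax (show (u, w) ∈ _ from ⟨⟨⟨fun i _ => hu i, fun i _ => hw i⟩,
        (omx_lamReal_congr hu').trans hAμ⟩, (omx_lamReal_congr hw').trans hBν⟩)
    rwa [real_congr h hu' hw'] at hmem

end Pool.Agent.H.MP_eff680_pr.D1
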