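import Pool.Agent.H.MP_eff680_pr.D1.OptBasic

/-! Reduced form of `cset L` and the resulting formulas. -/

open MeasureTheory Set

namespace Pool.Agent.H.MP_eff680_pr.D1

/-- Reduced form: distinct interior points in increasing order, and possibly the point `1`.

Proof. Among all lists `L'` with values in `[0, 1]`, length at most `L.length` and `cset L' =ᵐ cset L` take one of
minimal length. By `cset_dup` (and `cset_perm`) it has no duplicates, by `cset_zero` it does not contain `0`.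
Sort it. -/
theorem reduced (L : List ℝ) (hL : ∀ v ∈ L, v ∈ Icc (0 : ℝ) 1) :
    ∃ (m : ℕ) (u : Fin m → ℝ) (e : List ℝ), StrictMono u ∧ (∀ i, 0 < u i ∧ u i < 1) ∧
      (e = [] ∨ e = [1]) ∧ m + e.length ≤ L.length ∧ cset (List.ofFn u ++ e) =ᵐ[lam] cset L := by
  classical
  have hex : ∃ n : ℕ, ∃ L' : List ℝ, L'.length = n ∧ n ≤ L.length ∧
      (∀ v ∈ L', v ∈ Icc (0 : ℝ) 1) ∧ cset L' =ᵐ[lam] cset L :=
    ⟨L.length, L, rfl, le_refl _, hL, Filter.EventuallyEq.rfl⟩
  obtain ⟨L', hlen, hle, hI, hae⟩ := Nat.find_spec hex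
  have hmin : ∀ L2 : List ℝ, L2.length < Nat.find hex → (∀ v ∈ L2, v ∈ Icc (0 : ℝ) 1) →
      ¬ cset L2 =ᵐ[lam] cset L := by
    intro L2 h2 h3 h4
    exact Nat.find_min hex h2 ⟨L2, rfl, (le_of_lt h2).trans hle, h3, h4⟩
  have hnd : L'.Nodup := by
    by_contra hn
    obtain ⟨v, hv⟩ := List.exists_duplicate_iff_not_nodup.2 hn
    have hc : 2 ≤ L'.count v := List.duplicate_iff_two_le_count.1 hv
    have hv1 : v ∈ L' := List.count_pos_iff.1 (by omega)
    have hv2 : v ∈ L'.erase v := by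
      apply List.count_pos_iff.1
      rw [List.count_erase_self]; omega
    have hp : L'.Perm (v :: v :: (L'.erase v).erase v) :=
      (List.perm_cons_erase hv1).trans ((List.perm_cons_erase hv2).cons v)
    have hl : ((L'.erase v).erase v).length < Nat.find hex := by
      have := hp.length_eq
      simp only [List.length_cons] at this
      omega
    refine hmin _ hl (fun w hw => hI w (List.mem_of_mem_erase (List.mem_of_mem_erase hw))) ?_
    have h1 := cset_dup v ((L'.erase v).erase v)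
    rw [← cset_perm hp] at h1
    exact h1.symm.trans hae
  have h0 : (0 : ℝ) ∉ L' := by
    intro h0
    have hp : L'.Perm (0 :: L'.erase 0) := List.perm_cons_erase h0
    have hl : (L'.erase 0).length < Nat.find hex := by
      have := hp.length_eq
      simp only [List.length_cons] at this
      omega
    refine hmin _ hl (fun w hw => hI w (List.mem_of_mem_erase hw)) ?_
    have h1 := cset_zero (L'.erase 0)
    rw [← cset_perm hp] at h1
    exact h1.symm.trans hae
  set s : Finset ℝ := L'.toFinset.filter (fun x => x ≠ 1) with hs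
  have hmem : ∀ a, a ∈ s ↔ a ∈ L' ∧ a ≠ 1 := by
    intro a; simp [hs]
  let u : Fin s.card → ℝ := fun i => s.orderEmbOfFin rfl i
  have hu : StrictMono u := (s.orderEmbOfFin rfl).strictMono
  have hus : ∀ i, u i ∈ s := fun i => s.orderEmbOfFin_mem rfl i
  have hsu : ∀ a ∈ s, ∃ i, u i = a := by
    intro a ha
    have : a ∈ Set.range (s.orderEmbOfFin rfl) := by
      rw [Finset.range_orderEmbOfFin]; exact ha
    exact this
  have hu1 : ∀ i, 0 < u i ∧ u i < 1 := by
    intro i
    obtain ⟨h1, h2⟩ := (hmem _).1 (hus i)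
    have h3 := hI _ h1
    refine ⟨lt_of_le_of_ne h3.1 ?_, lt_of_le_of_ne h3.2 h2⟩
    intro h4
    exact h0 (h4 ▸ h1)
  let e : List ℝ := if (1 : ℝ) ∈ L' then [1] else []
  have he : e = [] ∨ e = [1] := by
    by_cases h : (1 : ℝ) ∈ L'
    · right; simp [e, h]
    · left; simp [e, h]
  have hmeme : ∀ a, a ∈ e ↔ a = 1 ∧ (1 : ℝ) ∈ L' := by
    intro a
    by_cases h : (1 : ℝ) ∈ L'
    · simp [e, h]
    · simp [e, h]
  have hp : (List.ofFn u ++ e).Perm L' := by
    rw [List.perm_ext_iff_of_nodup]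
    · intro a
      rw [List.mem_append, List.mem_ofFn, hmeme]
      constructor
      · rintro (⟨i, rfl⟩ | ⟨rfl, h⟩)
        · exact ((hmem _).1 (hus i)).1
        · exact h
      · intro ha
        by_cases h1 : a = 1
        · right; exact ⟨h1, h1 ▸ ha⟩
        · left; exact hsu a ((hmem a).2 ⟨ha, h1⟩)
    · rw [List.nodup_append]
      refine ⟨List.nodup_ofFn.2 hu.injective, ?_, ?_⟩
      · rcases he with h | h <;> simp [h]
      · intro a ha b hb hab
        rw [List.mem_ofFn] at ha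
        obtain ⟨i, rfl⟩ := ha
        have hb1 := ((hmeme b).1 hb).1
        have := (hu1 i).2
        rw [hab, hb1] at this
        exact lt_irrefl _ this
    · exact hnd
  refine ⟨s.card, u, e, hu, hu1, he, ?_, ?_⟩
  · have := hp.length_eq
    simp only [List.length_append, List.length_ofFn] at this
    omega
  · rw [cset_perm hp]; exact hae

/-- The sign `σ_i` of the boundary point `u_i` (`m` points, `s = 1` if the set contains the points near `1`,
`s = -1` otherwise): `1_{cset} = s₀ + Σ σ_i 1_{θ ≤ u_i}`. -/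
noncomputable def sg (s : ℝ) {m : ℕ} (i : Fin m) : ℝ := -s * (-1) ^ (m - 1 - i.val)

lemma optrep_pow {m : ℕ} (i : Fin m) :
    (-1 : ℝ) ^ (m - 1 - i.val) = (-1) ^ (m - 1) * (-1) ^ i.val := by
  have hi := i.2
  have h1 : (-1 : ℝ) ^ (m - 1) = (-1) ^ (m - 1 - i.val) * (-1) ^ i.val := by
    rw [← pow_add]; congr 1; omega
  have h2 : (-1 : ℝ) ^ i.val * (-1) ^ i.val = 1 := by
    rw [← mul_pow]; simp
  rw [h1, mul_assoc, h2, mul_one]

theorem sg_mul {s : ℝ} (hs : s * s = 1) {m : ℕ} (i i' : Fin m) :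
    sg s i * sg s i' = (-1) ^ (i.val + i'.val) := by
  unfold sg
  rw [optrep_pow, optrep_pow, pow_add]
  have h2 : (-1 : ℝ) ^ (m - 1) * (-1) ^ (m - 1) = 1 := by
    rw [← mul_pow]; simp
  calc -s * ((-1) ^ (m - 1) * (-1) ^ i.val) * (-s * ((-1) ^ (m - 1) * (-1) ^ i'.val))
      = (s * s) * ((-1) ^ (m - 1) * (-1) ^ (m - 1)) * ((-1) ^ i.val * (-1) ^ i'.val) := by ring
    _ = _ := by rw [hs, h2]; ring

lemma optrep_sg_succ (s : ℝ) {m : ℕ} (i : Fin m) :
    sg s (i.succ : Fin (m + 1)) = sg s i := by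
  unfold sg
  congr 2
  rw [Fin.val_succ]; omega

lemma optrep_sg_zero (s : ℝ) (m : ℕ) : sg s (0 : Fin (m + 1)) = -s * (-1) ^ m := by
  unfold sg; simp

lemma optrep_sum_sg (m : ℕ) : ∑ i : Fin m, sg 1 i = ((-1) ^ m - 1) / 2 := by
  induction m with
  | zero => simp
  | succ m ih =>
    rw [Fin.sum_univ_succ, optrep_sg_zero]
    simp only [optrep_sg_succ]
    rw [ih, pow_succ]; ring

lemma optrep_key {m : ℕ} (u : Fin m → ℝ) (hu : StrictMono u) (θ : ℝ) (hθ : ∀ i, θ ≠ u i) :
    (∏ i, (θ - u i)) ≠ 0 ∧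
    (if 0 < ∏ i, (θ - u i) then (1 : ℝ) else 0)
      = 1 + ∑ i, sg 1 i * (if θ ≤ u i then 1 else 0) := by
  induction m with
  | zero => simp
  | succ m ih =>
    have hu' : StrictMono (fun i : Fin m => u i.succ) := by
      intro a b hab
      exact hu (Fin.succ_lt_succ_iff.2 hab)
    obtain ⟨hne, hv⟩ := ih (fun i => u i.succ) hu' (fun i => hθ i.succ)
    have h0 := hθ 0
    refine ⟨?_, ?_⟩
    · rw [Fin.prod_univ_succ]
      exact mul_ne_zero (sub_ne_zero.2 h0) hne
    · rw [Fin.prod_univ_succ, Fin.sum_univ_succ, optrep_sg_zero]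
      simp only [optrep_sg_succ]
      rcases lt_or_gt_of_ne h0 with h1 | h1
      · have hall : ∀ i : Fin m, θ ≤ u i.succ := fun i =>
          le_of_lt (h1.trans (hu (Fin.succ_pos i)))
        have hs : ∑ i : Fin m, sg 1 i * (if θ ≤ u i.succ then (1 : ℝ) else 0)
            = ((-1) ^ m - 1) / 2 := by
          rw [← optrep_sum_sg m]
          refine Finset.sum_congr rfl fun i _ => ?_
          rw [if_pos (hall i), mul_one]
        rw [hs] at hv ⊢
        rw [if_pos (le_of_lt h1)]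
        have hneg : θ - u 0 < 0 := sub_neg.2 h1
        by_cases hp : 0 < ∏ i : Fin m, (θ - u i.succ)
        · rw [if_pos hp] at hv
          rw [if_neg (not_lt.2 (le_of_lt (mul_neg_of_neg_of_pos hneg hp)))]
          linarith
        · rw [if_neg hp] at hv
          have hp' : ∏ i : Fin m, (θ - u i.succ) < 0 := lt_of_le_of_ne (not_lt.1 hp) hne
          rw [if_pos (mul_pos_of_neg_of_neg hneg hp')]
          linarith
      · have hpos : 0 < θ - u 0 := sub_pos.2 h1
        rw [if_neg (not_le.2 h1), mul_zero, zero_add, ← hv]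
        by_cases hp : 0 < ∏ i : Fin m, (θ - u i.succ)
        · rw [if_pos hp, if_pos (mul_pos hpos hp)]
        · rw [if_neg hp, if_neg]
          intro h3
          exact hp ((mul_pos_iff_of_pos_left hpos).1 h3)

lemma optrep_sg_neg {m : ℕ} (i : Fin m) : sg (-1) i = -sg 1 i := by
  unfold sg; ring

instance optrep_null : NullSingletonClass lam := by unfold lam; infer_instance

lemma optrep_ae_lt_one : ∀ᵐ θ ∂lam, θ < 1 := by
  have h1 : ∀ᵐ θ ∂lam, θ ∈ Icc (0 : ℝ) 1 := by
    unfold lam; exact ae_restrict_mem measurableSet_Icc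
  have h2 : ∀ᵐ θ ∂lam, θ ≠ (1 : ℝ) := by
    rw [ae_iff]
    simp
  filter_upwards [h1, h2] with θ h1 h2
  exact lt_of_le_of_ne h1.2 h2

/-- The indicator of a reduced set: with `s = 1`, `s₀ = 1` if `e = []` and `s = -1`, `s₀ = 0` if `e = [1]`.

Proof. For `θ ∈ (0, 1)` different from all `u_i`, with `N` the number of `i` with `θ < u_i`, the sign of the product
over `ofFn u` is `(-1)^N`, and `Σ_{i : θ ≤ u_i} σ_i = -s (1 - 1 + 1 ...)` (`N` terms), which is `0` for even `N` and
`-s` for odd `N`. -/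
theorem indicator_cset {m : ℕ} (u : Fin m → ℝ) (hu : StrictMono u) (e : List ℝ) (s s0 : ℝ)
    (he : (e = [] ∧ s = 1 ∧ s0 = 1) ∨ (e = [1] ∧ s = -1 ∧ s0 = 0)) :
    (fun θ => (cset (List.ofFn u ++ e)).indicator (fun _ => (1 : ℝ)) θ) =ᵐ[lam]
      fun θ => s0 + ∑ i, sg s i * (Iic (u i)).indicator (fun _ => (1 : ℝ)) θ := by
  have h2 : ∀ᵐ θ ∂lam, ∀ i, θ ≠ u i := by
    rw [ae_all_iff]
    intro i
    rw [ae_iff]
    simp
  filter_upwards [optrep_ae_lt_one, h2] with θ h1 h2
  obtain ⟨hne, hv⟩ := optrep_key u hu θ h2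
  have hprod : ((List.ofFn u).map fun v => θ - v).prod = ∏ i, (θ - u i) := by
    rw [List.map_ofFn, List.prod_ofFn]; rfl
  have hI : ∀ i, (Iic (u i)).indicator (fun _ => (1 : ℝ)) θ = if θ ≤ u i then 1 else 0 := by
    intro i
    simp [Set.indicator_apply]
  simp only [hI]
  classical
  rcases he with ⟨rfl, rfl, rfl⟩ | ⟨rfl, rfl, rfl⟩
  · rw [← hv, Set.indicator_apply]
    congr 1
    simp only [cset, List.append_nil, mem_ofPred_eq, hprod]
  · have h3 : θ ∈ cset (List.ofFn u ++ [1]) ↔ ¬ 0 < ∏ i, (θ - u i) := by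
      simp only [cset, List.map_append, List.prod_append, hprod, List.map_cons, List.map_nil,
        List.prod_cons, List.prod_nil, mul_one, mem_ofPred_eq]
      constructor
      · intro h4 h5
        nlinarith
      · intro h4
        have h5 : ∏ i, (θ - u i) < 0 := lt_of_le_of_ne (not_lt.1 h4) hne
        exact mul_pos_of_neg_of_neg h5 (by linarith)
    have h6 : ∑ i, sg (-1) i * (if θ ≤ u i then (1 : ℝ) else 0)
        = -∑ i, sg 1 i * (if θ ≤ u i then (1 : ℝ) else 0) := by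
      rw [← Finset.sum_neg_distrib]
      refine Finset.sum_congr rfl fun i _ => ?_
      rw [optrep_sg_neg]; ring
    rw [h6, Set.indicator_apply]
    by_cases hp : 0 < ∏ i, (θ - u i)
    · rw [if_neg (by rw [h3]; exact not_not.2 hp)]
      rw [if_pos hp] at hv
      linarith
    · rw [if_pos (h3.2 hp)]
      rw [if_neg hp] at hv
      linarith

lemma optrep_lam_Iic {v : ℝ} (h0 : 0 < v) (h1 : v < 1) : lam.real (Iic v) = v := by
  unfold lam
  rw [measureReal_restrict_apply measurableSet_Iic]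
  have : Iic v ∩ Icc (0 : ℝ) 1 = Icc 0 v := by
    ext θ
    simp only [mem_inter_iff, mem_Iic, mem_Icc]
    constructor
    · rintro ⟨h2, h3, _⟩; exact ⟨h3, h2⟩
    · rintro ⟨h2, h3⟩; exact ⟨h3, h2, by linarith⟩
  rw [this, Real.volume_real_Icc_of_le h0.le, sub_zero]

lemma optrep_integrable {α : Type} [MeasurableSpace α] (μ : Measure α) [IsFiniteMeasure μ]
    {S : Set α} (hS : MeasurableSet S) : Integrable (S.indicator (fun _ => (1 : ℝ))) μ :=
  (integrable_const (1 : ℝ)).indicator hS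

lemma optrep_integral {α : Type} [MeasurableSpace α] (μ : Measure α)
    {S : Set α} (hS : MeasurableSet S) : ∫ x, S.indicator (fun _ => (1 : ℝ)) x ∂μ = μ.real S := by
  rw [integral_indicator_const _ hS]; simp

/-- Measure of a reduced set. -/
theorem lam_cset {m : ℕ} (u : Fin m → ℝ) (hu : StrictMono u) (hu0 : ∀ i, 0 < u i ∧ u i < 1)
    (e : List ℝ) (s s0 : ℝ)
    (he : (e = [] ∧ s = 1 ∧ s0 = 1) ∨ (e = [1] ∧ s = -1 ∧ s0 = 0)) :
    lam.real (cset (List.ofFn u ++ e)) = s0 + ∑ i, sg s i * u i := by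
  rw [← optrep_integral lam (measurableSet_cset _),
    integral_congr_ae (indicator_cset u hu e s s0 he), integral_add, integral_finsetSum]
  · simp only [integral_const_mul]
    congr 1
    · simp
    · refine Finset.sum_congr rfl fun i _ => ?_
      rw [optrep_integral lam measurableSet_Iic, optrep_lam_Iic (hu0 i).1 (hu0 i).2]
  · intro i _
    exact (optrep_integrable lam measurableSet_Iic).const_mul _
  · exact integrable_const _
  · refine integrable_finsetSum _ fun i _ => ?_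
    exact (optrep_integrable lam measurableSet_Iic).const_mul _

/-- The functional on reduced sets (integrate the product of the two indicator formulas against `κ`; the marginals
are uniform). -/
theorem J_cset {κ : Measure (ℝ × ℝ)} (h : Unif κ) {m n : ℕ} (u : Fin m → ℝ) (w : Fin n → ℝ)
    (hu : StrictMono u) (hw : StrictMono w) (hu0 : ∀ i, 0 < u i ∧ u i < 1)
    (hw0 : ∀ j, 0 < w j ∧ w j < 1) (e e' : List ℝ) (s s0 t t0 : ℝ)
    (he : (e = [] ∧ s = 1 ∧ s0 = 1) ∨ (e = [1] ∧ s = -1 ∧ s0 = 0))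
    (he' : (e' = [] ∧ t = 1 ∧ t0 = 1) ∨ (e' = [1] ∧ t = -1 ∧ t0 = 0)) :
    κ.real (cset (List.ofFn u ++ e) ×ˢ cset (List.ofFn w ++ e')) =
      s0 * t0 + s0 * ∑ j, sg t j * w j + t0 * ∑ i, sg s i * u i
        + sumH κ (fun i => sg s i) (fun j => sg t j) u w := by
  have hprob := unif_prob h
  have hfst : ∀ᵐ p ∂κ, (cset (List.ofFn u ++ e)).indicator (fun _ => (1 : ℝ)) p.1
      = s0 + ∑ i, sg s i * (Iic (u i)).indicator (fun _ => (1 : ℝ)) p.1 := by
    have h1 := indicator_cset u hu e s s0 he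
    rw [← h.fst] at h1
    exact ae_of_ae_map measurable_fst.aemeasurable h1
  have hsnd : ∀ᵐ p ∂κ, (cset (List.ofFn w ++ e')).indicator (fun _ => (1 : ℝ)) p.2
      = t0 + ∑ j, sg t j * (Iic (w j)).indicator (fun _ => (1 : ℝ)) p.2 := by
    have h1 := indicator_cset w hw e' t t0 he'
    rw [← h.snd] at h1
    exact ae_of_ae_map measurable_snd.aemeasurable h1
  have hmu : ∀ i, MeasurableSet (Prod.fst ⁻¹' (Iic (u i)) : Set (ℝ × ℝ)) := fun i =>
    measurable_fst measurableSet_Iic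
  have hmw : ∀ j, MeasurableSet (Prod.snd ⁻¹' (Iic (w j)) : Set (ℝ × ℝ)) := fun j =>
    measurable_snd measurableSet_Iic
  have hmm : ∀ i j, MeasurableSet ((Iic (u i)) ×ˢ (Iic (w j)) : Set (ℝ × ℝ)) := fun i j =>
    measurableSet_Iic.prod measurableSet_Iic
  have hpt : ∀ᵐ p ∂κ, (cset (List.ofFn u ++ e) ×ˢ cset (List.ofFn w ++ e')).indicator
      (fun _ => (1 : ℝ)) p = s0 * t0
        + s0 * ∑ j, sg t j * (Prod.snd ⁻¹' (Iic (w j)) : Set (ℝ × ℝ)).indicator (fun _ => (1 : ℝ)) p
        + t0 * ∑ i, sg s i * (Prod.fst ⁻¹' (Iic (u i)) : Set (ℝ × ℝ)).indicator (fun _ => (1 : ℝ)) p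
        + ∑ i, ∑ j, sg s i * sg t j *
          ((Iic (u i)) ×ˢ (Iic (w j)) : Set (ℝ × ℝ)).indicator (fun _ => (1 : ℝ)) p := by
    filter_upwards [hfst, hsnd] with p h1 h2
    have hsplit : ∀ (S T : Set ℝ), (S ×ˢ T).indicator (fun _ => (1 : ℝ)) p
        = S.indicator (fun _ => (1 : ℝ)) p.1 * T.indicator (fun _ => (1 : ℝ)) p.2 := by
      intro S T
      by_cases hS : p.1 ∈ S <;> by_cases hT : p.2 ∈ T <;>
        simp [hS, hT, Set.mem_prod]
    have hf : ∀ S : Set ℝ, (Prod.fst ⁻¹' S : Set (ℝ × ℝ)).indicator (fun _ => (1 : ℝ)) p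
        = S.indicator (fun _ => (1 : ℝ)) p.1 := fun S => rfl
    have hg : ∀ S : Set ℝ, (Prod.snd ⁻¹' S : Set (ℝ × ℝ)).indicator (fun _ => (1 : ℝ)) p
        = S.indicator (fun _ => (1 : ℝ)) p.2 := fun S => rfl
    simp only [hsplit, hf, hg]
    rw [h1, h2]
    have h3 : ∑ i, ∑ j, sg s i * sg t j *
        ((Iic (u i)).indicator (fun _ => (1 : ℝ)) p.1 * (Iic (w j)).indicator (fun _ => (1 : ℝ)) p.2)
        = (∑ i, sg s i * (Iic (u i)).indicator (fun _ => (1 : ℝ)) p.1)
          * ∑ j, sg t j * (Iic (w j)).indicator (fun _ => (1 : ℝ)) p.2 := by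
      rw [Finset.sum_mul_sum]
      refine Finset.sum_congr rfl fun i _ => Finset.sum_congr rfl fun j _ => ?_
      ring
    rw [h3]; ring
  have hS : MeasurableSet (cset (List.ofFn u ++ e) ×ˢ cset (List.ofFn w ++ e')) :=
    (measurableSet_cset _).prod (measurableSet_cset _)
  have hru : ∀ i, κ.real (Prod.fst ⁻¹' (Iic (u i))) = u i := by
    intro i
    have h1 := map_measureReal_apply (μ := κ) measurable_fst (measurableSet_Iic (a := u i))
    rw [← h1, h.fst]
    exact optrep_lam_Iic (hu0 i).1 (hu0 i).2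
  have hrw : ∀ j, κ.real (Prod.snd ⁻¹' (Iic (w j))) = w j := by
    intro j
    have h1 := map_measureReal_apply (μ := κ) measurable_snd (measurableSet_Iic (a := w j))
    rw [← h1, h.snd]
    exact optrep_lam_Iic (hw0 j).1 (hw0 j).2
  have i1 : Integrable (fun p => ∑ j, sg t j *
      (Prod.snd ⁻¹' (Iic (w j)) : Set (ℝ × ℝ)).indicator (fun _ => (1 : ℝ)) p) κ :=
    integrable_finsetSum _ fun j _ => (optrep_integrable κ (hmw j)).const_mul _
  have i2 : Integrable (fun p => ∑ i, sg s i *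
      (Prod.fst ⁻¹' (Iic (u i)) : Set (ℝ × ℝ)).indicator (fun _ => (1 : ℝ)) p) κ :=
    integrable_finsetSum _ fun i _ => (optrep_integrable κ (hmu i)).const_mul _
  have i3 : Integrable (fun p => ∑ i, ∑ j, sg s i * sg t j *
      ((Iic (u i)) ×ˢ (Iic (w j)) : Set (ℝ × ℝ)).indicator (fun _ => (1 : ℝ)) p) κ :=
    integrable_finsetSum _ fun i _ => integrable_finsetSum _ fun j _ =>
      (optrep_integrable κ (hmm i j)).const_mul _
  have v1 : ∫ p, ∑ j, sg t j *
      (Prod.snd ⁻¹' (Iic (w j)) : Set (ℝ × ℝ)).indicator (fun _ => (1 : ℝ)) p ∂κ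
      = ∑ j, sg t j * w j := by
    rw [integral_finsetSum _ fun j _ => (optrep_integrable κ (hmw j)).const_mul _]
    refine Finset.sum_congr rfl fun j _ => ?_
    rw [integral_const_mul, optrep_integral κ (hmw j), hrw]
  have v2 : ∫ p, ∑ i, sg s i *
      (Prod.fst ⁻¹' (Iic (u i)) : Set (ℝ × ℝ)).indicator (fun _ => (1 : ℝ)) p ∂κ
      = ∑ i, sg s i * u i := by
    rw [integral_finsetSum _ fun i _ => (optrep_integrable κ (hmu i)).const_mul _]
    refine Finset.sum_congr rfl fun i _ => ?_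
    rw [integral_const_mul, optrep_integral κ (hmu i), hru]
  have v3 : ∫ p, ∑ i, ∑ j, sg s i * sg t j *
      ((Iic (u i)) ×ˢ (Iic (w j)) : Set (ℝ × ℝ)).indicator (fun _ => (1 : ℝ)) p ∂κ
      = sumH κ (fun i => sg s i) (fun j => sg t j) u w := by
    rw [integral_finsetSum _ fun i _ => integrable_finsetSum _ fun j _ =>
      (optrep_integrable κ (hmm i j)).const_mul _]
    unfold sumH
    refine Finset.sum_congr rfl fun i _ => ?_
    rw [integral_finsetSum _ fun j _ => (optrep_integrable κ (hmm i j)).const_mul _]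
    refine Finset.sum_congr rfl fun j _ => ?_
    rw [integral_const_mul, optrep_integral κ (hmm i j)]
    rfl
  have j1 : Integrable (fun p => s0 * ∑ j, sg t j *
      (Prod.snd ⁻¹' (Iic (w j)) : Set (ℝ × ℝ)).indicator (fun _ => (1 : ℝ)) p) κ := i1.const_mul _
  have j2 : Integrable (fun p => t0 * ∑ i, sg s i *
      (Prod.fst ⁻¹' (Iic (u i)) : Set (ℝ × ℝ)).indicator (fun _ => (1 : ℝ)) p) κ := i2.const_mul _
  have k1 : Integrable (fun p => s0 * t0 + s0 * ∑ j, sg t j *
      (Prod.snd ⁻¹' (Iic (w j)) : Set (ℝ × ℝ)).indicator (fun _ => (1 : ℝ)) p) κ :=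
    (integrable_const _).add j1
  have k2 : Integrable (fun p => s0 * t0 + s0 * ∑ j, sg t j *
      (Prod.snd ⁻¹' (Iic (w j)) : Set (ℝ × ℝ)).indicator (fun _ => (1 : ℝ)) p
      + t0 * ∑ i, sg s i *
      (Prod.fst ⁻¹' (Iic (u i)) : Set (ℝ × ℝ)).indicator (fun _ => (1 : ℝ)) p) κ := k1.add j2
  rw [← optrep_integral κ hS, integral_congr_ae hpt]
  refine (integral_add k2 i3).trans ?_
  rw [v3]
  congr 1
  refine (integral_add k1 j2).trans ?_
  rw [integral_const_mul, v2]
  congr 1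
  refine (integral_add (integrable_const _) j1).trans ?_
  have v4 : ∫ p, s0 * ∑ j, sg t j *
      (Prod.snd ⁻¹' (Iic (w j)) : Set (ℝ × ℝ)).indicator (fun _ => (1 : ℝ)) p ∂κ
      = s0 * ∑ j, sg t j * w j := by rw [integral_const_mul, v1]
  rw [v4]
  simp

end Pool.Agent.H.MP_eff680_pr.D1
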