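import Pool.Agent.H.MP_eff680_pr.D1.OptApprox
import Pool.Agent.H.MP_eff680_pr.D1.OptMax
import Pool.Agent.H.MP_eff680_pr.D1.OptRep

/-! The abstract optimisation theorem. -/

open MeasureTheory Set

namespace Pool.Agent.H.MP_eff680_pr.D1

theorem opt_ev {m : ℕ} (u : Fin m → ℝ) (hu : StrictMono u) (hu0 : ∀ i, 0 < u i ∧ u i < 1)
    (c : Fin m → ℝ) : ∀ᶠ x in nhds (0 : ℝ), StrictMono (fun i => u i + x * c i) ∧
      ∀ i, 0 < u i + x * c i ∧ u i + x * c i < 1 := by
  have hc : ∀ i, Continuous (fun x : ℝ => u i + x * c i) := fun i => by fun_prop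
  have h1 : ∀ᶠ x in nhds (0 : ℝ), ∀ i j : Fin m, i < j → u i + x * c i < u j + x * c j := by
    refine Filter.eventually_all.2 fun i => Filter.eventually_all.2 fun j => ?_
    by_cases hij : i < j
    · have h2 : ∀ᶠ x in nhds (0 : ℝ), u i + x * c i < u j + x * c j := by
        apply (hc i).continuousAt.eventually_lt (hc j).continuousAt
        simpa using hu hij
      exact h2.mono fun x hx _ => hx
    · exact Filter.Eventually.of_forall fun x h => (hij h).elim
  have h3 : ∀ᶠ x in nhds (0 : ℝ), ∀ i : Fin m, 0 < u i + x * c i ∧ u i + x * c i < 1 := by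
    refine Filter.eventually_all.2 fun i => ?_
    have h4 : ∀ᶠ x in nhds (0 : ℝ), 0 < u i + x * c i := by
      apply continuousAt_const.eventually_lt (hc i).continuousAt
      simpa using (hu0 i).1
    have h5 : ∀ᶠ x in nhds (0 : ℝ), u i + x * c i < 1 := by
      apply (hc i).continuousAt.eventually_lt continuousAt_const
      simpa using (hu0 i).2
    exact h4.and h5
  filter_upwards [h1, h3] with x hx hx'
  exact ⟨fun i j hij => hx i j hij, hx'⟩

theorem opt_sum {m : ℕ} {s : ℝ} (hs : s * s = 1) (u α : Fin m → ℝ) (hα : ∑ i, α i = 0) (x : ℝ) :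
    ∑ i, sg s i * (u i + x * (sg s i * α i)) = ∑ i, sg s i * u i := by
  have h1 : ∀ i : Fin m, sg s i * (u i + x * (sg s i * α i)) = sg s i * u i + x * α i := by
    intro i
    have h2 : sg s i * sg s i = 1 := by
      rw [sg_mul hs, ← two_mul, pow_mul]
      simp
    linear_combination (x * α i) * h2
  rw [Finset.sum_congr rfl fun i _ => h1 i, Finset.sum_add_distrib, ← Finset.mul_sum, hα]
  simp

theorem opt_mem {m : ℕ} {u : Fin m → ℝ} (hu0 : ∀ i, 0 < u i ∧ u i < 1) {e : List ℝ}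
    (he : e = [] ∨ e = [1]) : ∀ v ∈ List.ofFn u ++ e, v ∈ Icc (0 : ℝ) 1 := by
  intro v hv
  rw [List.mem_append] at hv
  rcases hv with hv | hv
  · rw [List.mem_ofFn'] at hv
    obtain ⟨i, rfl⟩ := hv
    exact ⟨(hu0 i).1.le, (hu0 i).2.le⟩
  · rcases he with rfl | rfl
    · simp at hv
    · simp at hv
      rw [hv]; exact ⟨zero_le_one, le_refl _⟩

theorem opt_sign {e : List ℝ} (he : e = [] ∨ e = [1]) : ∃ s s0 : ℝ, s * s = 1 ∧
    ((e = [] ∧ s = 1 ∧ s0 = 1) ∨ (e = [1] ∧ s = -1 ∧ s0 = 0)) := by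
  rcases he with h | h
  · exact ⟨1, 1, by norm_num, Or.inl ⟨h, rfl, rfl⟩⟩
  · exact ⟨-1, 0, by norm_num, Or.inr ⟨h, rfl, rfl⟩⟩

/-- The optimisation theorem for lists.

Proof. Take the maximiser `(A, B)` of `exists_max` for `M = max L.length L'.length`, and reduced forms `(m, u, e)`,
`(n, w, e')` of `A`, `B`. `m, n > 0` since `μ, ν ∈ (0, 1)` (for `m = 0` the measure is `0` or `1`, `lam_cset`). For `α`, `β`
with `Σ = 0` and small `x`, `u + x σ α` and `w + x τ β` are still strictly increasing in `(0, 1)`, and have the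
same measures by `lam_cset` (`σ_i² = 1`); comparing with the maximum (`exists_max`, lengths `≤ M`) and using
`J_cset` for both, `x ↦ sumH κ σ τ (u + x σ α) (w + x τ β)` has a local maximum at `0`. So `hcrit` gives
`m = n = 1`, and the value is, by `lam_cset` and `J_cset`, one of `H(μ, ν)`, `μ + ν - 1 + H(1 - μ, 1 - ν)`,
`ν - H(1 - μ, ν) ≤ μ ν ≤ H(μ, ν)`, `μ - H(μ, 1 - ν) ≤ μ ν ≤ H(μ, ν)` (by `hpqd`). -/
theorem opt_list {κ : Measure (ℝ × ℝ)} (h : Unif κ)
    (hcrit : ∀ (m n : ℕ), 0 < m → 0 < n → ∀ (u : Fin m → ℝ) (w : Fin n → ℝ),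
      StrictMono u → StrictMono w → (∀ i, 0 < u i ∧ u i < 1) → (∀ j, 0 < w j ∧ w j < 1) →
      ∀ (σ : Fin m → ℝ) (τ : Fin n → ℝ), (∀ i i', σ i * σ i' = (-1) ^ (i.val + i'.val)) →
      (∀ j j', τ j * τ j' = (-1) ^ (j.val + j'.val)) →
      (∀ (α : Fin m → ℝ) (β : Fin n → ℝ), ∑ i, α i = 0 → ∑ j, β j = 0 →
        IsLocalMax (fun x : ℝ => sumH κ σ τ (fun i => u i + x * (σ i * α i))
          (fun j => w j + x * (τ j * β j))) 0) → m = 1 ∧ n = 1)
    (hpqd : ∀ u ∈ Ioo (0 : ℝ) 1, ∀ w ∈ Ioo (0 : ℝ) 1, u * w ≤ HH κ u w)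
    (μ ν : ℝ) (hμ : μ ∈ Ioo (0 : ℝ) 1) (hν : ν ∈ Ioo (0 : ℝ) 1) (L L' : List ℝ)
    (hL : ∀ v ∈ L, v ∈ Icc (0 : ℝ) 1) (hL' : ∀ v ∈ L', v ∈ Icc (0 : ℝ) 1)
    (hLμ : lam.real (cset L) = μ) (hLν : lam.real (cset L') = ν) :
    κ.real (cset L ×ˢ cset L') ≤ max (HH κ μ ν) (μ + ν - 1 + HH κ (1 - μ) (1 - ν)) := by
  obtain ⟨A, B, hA, hB, hAM, hBM, hAμ, hBν, hmax⟩ := exists_max h (max L.length L'.length) μ ν L L'
    hL hL' (le_max_left _ _) (le_max_right _ _) hLμ hLν
  refine (hmax L L' hL hL' (le_max_left _ _) (le_max_right _ _) hLμ hLν).trans ?_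
  obtain ⟨m, u, e, hu, hu0, he, hlen, hcs⟩ := reduced A hA
  obtain ⟨n, w, e', hw, hw0, he', hlen', hcs'⟩ := reduced B hB
  obtain ⟨s, s0, hs, hes⟩ := opt_sign he
  obtain ⟨t, t0, ht, het⟩ := opt_sign he'
  have hlamA : s0 + ∑ i, sg s i * u i = μ := by
    rw [← lam_cset u hu hu0 e s s0 hes, ← hAμ]
    exact measureReal_congr hcs
  have hlamB : t0 + ∑ j, sg t j * w j = ν := by
    rw [← lam_cset w hw hw0 e' t t0 het, ← hBν]
    exact measureReal_congr hcs'
  have hK : κ.real (cset A ×ˢ cset B) = s0 * t0 + s0 * ∑ j, sg t j * w j + t0 * ∑ i, sg s i * u i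
        + sumH κ (fun i => sg s i) (fun j => sg t j) u w := by
    rw [← J_cset h u w hu hw hu0 hw0 e e' s s0 t t0 hes het]
    exact (real_congr h hcs hcs').symm
  have hs0 : s0 = 0 ∨ s0 = 1 := by
    rcases hes with ⟨_, _, h1⟩ | ⟨_, _, h1⟩ <;> simp [h1]
  have ht0 : t0 = 0 ∨ t0 = 1 := by
    rcases het with ⟨_, _, h1⟩ | ⟨_, _, h1⟩ <;> simp [h1]
  have hm : 0 < m := by
    rcases Nat.eq_zero_or_pos m with rfl | h1
    · exfalso
      simp at hlamA
      rcases hs0 with h2 | h2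
      · rw [h2] at hlamA; exact absurd hμ.1 (by rw [← hlamA]; exact lt_irrefl _)
      · rw [h2] at hlamA; exact absurd hμ.2 (by rw [← hlamA]; exact lt_irrefl _)
    · exact h1
  have hn : 0 < n := by
    rcases Nat.eq_zero_or_pos n with rfl | h1
    · exfalso
      simp at hlamB
      rcases ht0 with h2 | h2
      · rw [h2] at hlamB; exact absurd hν.1 (by rw [← hlamB]; exact lt_irrefl _)
      · rw [h2] at hlamB; exact absurd hν.2 (by rw [← hlamB]; exact lt_irrefl _)
    · exact h1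
  have hcr := hcrit m n hm hn u w hu hw hu0 hw0 (fun i => sg s i) (fun j => sg t j)
    (fun i i' => sg_mul hs i i') (fun j j' => sg_mul ht j j') (by
      intro α β hα hβ
      filter_upwards [opt_ev u hu hu0 (fun i => sg s i * α i), opt_ev w hw hw0
        (fun j => sg t j * β j)] with x hx hx'
      obtain ⟨hux, hux0⟩ := hx
      obtain ⟨hwx, hwx0⟩ := hx'
      have l1 : lam.real (cset (List.ofFn (fun i => u i + x * (sg s i * α i)) ++ e)) = μ := by
        rw [lam_cset _ hux hux0 e s s0 hes, opt_sum hs u α hα x, hlamA]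
      have l2 : lam.real (cset (List.ofFn (fun j => w j + x * (sg t j * β j)) ++ e')) = ν := by
        rw [lam_cset _ hwx hwx0 e' t t0 het, opt_sum ht w β hβ x, hlamB]
      have hle := hmax _ _ (opt_mem hux0 he) (opt_mem hwx0 he')
        (by rw [List.length_append, List.length_ofFn]; exact hlen.trans hAM)
        (by rw [List.length_append, List.length_ofFn]; exact hlen'.trans hBM) l1 l2
      rw [hK, J_cset h _ _ hux hwx hux0 hwx0 e e' s s0 t t0 hes het, opt_sum hs u α hα x,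
        opt_sum ht w β hβ x] at hle
      simp only [zero_mul, add_zero]
      linarith)
  obtain ⟨h1, h2⟩ := hcr
  subst h1
  subst h2
  have g1 : ∀ r : ℝ, sg r (0 : Fin 1) = -r := by intro r; simp [sg]
  rw [hK]
  simp only [sumH, Finset.univ_unique, Fin.default_eq_zero, Fin.isValue, Finset.sum_singleton,
    g1] at *
  rcases hes with ⟨_, rfl, rfl⟩ | ⟨_, rfl, rfl⟩ <;> rcases het with ⟨_, rfl, rfl⟩ | ⟨_, rfl, rfl⟩
  · have k1 : u 0 = 1 - μ := by linarith
    have k2 : w 0 = 1 - ν := by linarith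
    apply le_max_of_le_right
    rw [k1, k2]
    apply le_of_eq; ring
  · have k1 : u 0 = 1 - μ := by linarith
    have k2 : w 0 = ν := by linarith
    apply le_max_of_le_left
    have p1 := hpqd (1 - μ) ⟨by linarith [hμ.2], by linarith [hμ.1]⟩ ν hν
    have p2 := hpqd μ hμ ν hν
    rw [k1, k2]
    linarith
  · have k1 : u 0 = μ := by linarith
    have k2 : w 0 = 1 - ν := by linarith
    apply le_max_of_le_left
    have p1 := hpqd μ hμ (1 - ν) ⟨by linarith [hν.2], by linarith [hν.1]⟩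
    have p2 := hpqd μ hμ ν hν
    rw [k1, k2]
    linarith
  · have k1 : u 0 = μ := by linarith
    have k2 : w 0 = ν := by linarith
    apply le_max_of_le_left
    rw [k1, k2]
    apply le_of_eq; ring

theorem opt_abs (S T : Set ℝ) (hS : MeasurableSet S) (hT : MeasurableSet T) :
    |lam.real S - lam.real T| ≤ lam.real (symmDiff S T) := by
  have h1 : lam.real S ≤ lam.real T + lam.real (symmDiff S T) := by
    calc lam.real S ≤ lam.real (T ∪ symmDiff S T) := by
          apply measureReal_mono _ (measure_ne_top _ _)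
          intro x hx
          by_cases hxT : x ∈ T
          · exact Or.inl hxT
          · exact Or.inr (Or.inl ⟨hx, hxT⟩)
      _ ≤ _ := measureReal_union_le _ _
  have h2 : lam.real T ≤ lam.real S + lam.real (symmDiff S T) := by
    calc lam.real T ≤ lam.real (S ∪ symmDiff S T) := by
          apply measureReal_mono _ (measure_ne_top _ _)
          intro x hx
          by_cases hxS : x ∈ S
          · exact Or.inl hxS
          · exact Or.inr (Or.inr ⟨hx, hxS⟩)
      _ ≤ _ := measureReal_union_le _ _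
  rw [abs_le]
  constructor <;> linarith

/-- The optimisation theorem for Borel sets: approximate (`approx`, `abs_sub_le`, `HH_lipschitz`). -/
theorem opt {κ : Measure (ℝ × ℝ)} (h : Unif κ)
    (hcrit : ∀ (m n : ℕ), 0 < m → 0 < n → ∀ (u : Fin m → ℝ) (w : Fin n → ℝ),
      StrictMono u → StrictMono w → (∀ i, 0 < u i ∧ u i < 1) → (∀ j, 0 < w j ∧ w j < 1) →
      ∀ (σ : Fin m → ℝ) (τ : Fin n → ℝ), (∀ i i', σ i * σ i' = (-1) ^ (i.val + i'.val)) →
      (∀ j j', τ j * τ j' = (-1) ^ (j.val + j'.val)) →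
      (∀ (α : Fin m → ℝ) (β : Fin n → ℝ), ∑ i, α i = 0 → ∑ j, β j = 0 →
        IsLocalMax (fun x : ℝ => sumH κ σ τ (fun i => u i + x * (σ i * α i))
          (fun j => w j + x * (τ j * β j))) 0) → m = 1 ∧ n = 1)
    (hpqd : ∀ u ∈ Ioo (0 : ℝ) 1, ∀ w ∈ Ioo (0 : ℝ) 1, u * w ≤ HH κ u w)
    (μ ν : ℝ) (hμ : μ ∈ Ioo (0 : ℝ) 1) (hν : ν ∈ Ioo (0 : ℝ) 1) (S T : Set ℝ)
    (hS : MeasurableSet S) (hT : MeasurableSet T) (hSμ : lam.real S = μ) (hTν : lam.real T = ν) :
    κ.real (S ×ˢ T) ≤ max (HH κ μ ν) (μ + ν - 1 + HH κ (1 - μ) (1 - ν)) := by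
  apply le_of_forall_pos_le_add
  intro ε hε
  -- a small δ
  set δ := min (ε / 6) (min (min μ (1 - μ)) (min ν (1 - ν))) with hδ
  have hδ0 : 0 < δ := by
    apply lt_min (by linarith)
    apply lt_min
    · exact lt_min hμ.1 (by linarith [hμ.2])
    · exact lt_min hν.1 (by linarith [hν.2])
  have d1 : δ ≤ ε / 6 := min_le_left _ _
  have d2 : δ ≤ μ := (min_le_right _ _).trans ((min_le_left _ _).trans (min_le_left _ _))
  have d3 : δ ≤ 1 - μ := (min_le_right _ _).trans ((min_le_left _ _).trans (min_le_right _ _))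
  have d4 : δ ≤ ν := (min_le_right _ _).trans ((min_le_right _ _).trans (min_le_left _ _))
  have d5 : δ ≤ 1 - ν := (min_le_right _ _).trans ((min_le_right _ _).trans (min_le_right _ _))
  obtain ⟨L, hL, hLδ⟩ := approx S hS δ hδ0
  obtain ⟨L', hL', hLδ'⟩ := approx T hT δ hδ0
  have a1 := opt_abs S (cset L) hS (measurableSet_cset L)
  have a2 := opt_abs T (cset L') hT (measurableSet_cset L')
  have a3 := abs_sub_le h hS (measurableSet_cset L) hT (measurableSet_cset L')
  rw [hSμ] at a1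
  rw [hTν] at a2
  set μ' := lam.real (cset L) with hμ'
  set ν' := lam.real (cset L') with hν'
  have b1 : |μ - μ'| < δ := lt_of_le_of_lt a1 hLδ
  have b2 : |ν - ν'| < δ := lt_of_le_of_lt a2 hLδ'
  have c1 := abs_lt.1 b1
  have c2 := abs_lt.1 b2
  have key := opt_list h hcrit hpqd μ' ν' ⟨by linarith [c1.2], by linarith [c1.1]⟩
    ⟨by linarith [c2.2], by linarith [c2.1]⟩ L L' hL hL' rfl rfl
  have a3' := (abs_le.1 a3).2
  have l1 := HH_lipschitz h μ ν μ' ν'
  have l2 := HH_lipschitz h (1 - μ) (1 - ν) (1 - μ') (1 - ν')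
  have e1 : |1 - μ - (1 - μ')| = |μ - μ'| := by
    rw [show 1 - μ - (1 - μ') = -(μ - μ') by ring, abs_neg]
  have e2 : |1 - ν - (1 - ν')| = |ν - ν'| := by
    rw [show 1 - ν - (1 - ν') = -(ν - ν') by ring, abs_neg]
  rw [e1, e2] at l2
  have l1' := (abs_le.1 l1).1
  have l2' := (abs_le.1 l2).1
  have f1 : max (HH κ μ' ν') (μ' + ν' - 1 + HH κ (1 - μ') (1 - ν'))
      ≤ max (HH κ μ ν) (μ + ν - 1 + HH κ (1 - μ) (1 - ν)) + 4 * δ := by
    apply max_le
    · have := le_max_left (HH κ μ ν) (μ + ν - 1 + HH κ (1 - μ) (1 - ν))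
      linarith
    · have := le_max_right (HH κ μ ν) (μ + ν - 1 + HH κ (1 - μ) (1 - ν))
      linarith [c1.1, c2.1]
  linarith

end Pool.Agent.H.MP_eff680_pr.D1
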