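import Pool.Agent.H.MP_eff680_pr.D1.OptDefs

/-! Basic properties of the sets `cset L` and of measures with uniform marginals. -/

open MeasureTheory Set

namespace Pool.Agent.H.MP_eff680_pr.D1

theorem optbasic_measurable (L : List ℝ) :
    Measurable (fun θ : ℝ => (L.map fun v => θ - v).prod) := by
  induction L with
  | nil => simp
  | cons v L ih =>
    simp only [List.map_cons, List.prod_cons]
    exact (measurable_id.sub_const v).mul ih

theorem measurableSet_cset (L : List ℝ) : MeasurableSet (cset L) :=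
  measurableSet_lt measurable_const (optbasic_measurable L)

theorem cset_perm {L L' : List ℝ} (h : L.Perm L') : cset L = cset L' := by
  ext θ
  show 0 < (L.map fun v => θ - v).prod ↔ 0 < (L'.map fun v => θ - v).prod
  rw [(h.map (fun v => θ - v)).prod_eq]

theorem optbasic_ne (v : ℝ) : ∀ᵐ θ ∂lam, θ ≠ v := by
  have h : lam {v} = 0 := by
    unfold lam
    exact measure_singleton v
  exact measure_eq_zero_iff_ae_notMem.1 h

theorem optbasic_mem : ∀ᵐ θ ∂lam, θ ∈ Icc (0 : ℝ) 1 := ae_restrict_mem measurableSet_Icc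

theorem optbasic_prod_ne (L : List ℝ) : ∀ᵐ θ ∂lam, (L.map fun v => θ - v).prod ≠ 0 := by
  induction L with
  | nil => exact Filter.Eventually.of_forall fun θ => by simp
  | cons v L ih =>
    filter_upwards [ih, optbasic_ne v] with θ h1 h2
    rw [List.map_cons, List.prod_cons]
    exact mul_ne_zero (sub_ne_zero.2 h2) h1

/-- `(θ - v)² > 0` except at `θ = v`. -/
theorem cset_dup (v : ℝ) (L : List ℝ) : cset (v :: v :: L) =ᵐ[lam] cset L := by
  refine Filter.eventuallyEq_set.2 ?_
  filter_upwards [optbasic_ne v] with θ h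
  show 0 < ((v :: v :: L).map fun v => θ - v).prod ↔ 0 < (L.map fun v => θ - v).prod
  rw [List.map_cons, List.prod_cons, List.map_cons, List.prod_cons, ← mul_assoc]
  have h1 : 0 < (θ - v) * (θ - v) := mul_self_pos.2 (sub_ne_zero.2 h)
  exact mul_pos_iff_of_pos_left h1

/-- `θ > 0` almost everywhere. -/
theorem cset_zero (L : List ℝ) : cset (0 :: L) =ᵐ[lam] cset L := by
  refine Filter.eventuallyEq_set.2 ?_
  filter_upwards [optbasic_ne 0, optbasic_mem] with θ h h2
  show 0 < ((0 :: L).map fun v => θ - v).prod ↔ 0 < (L.map fun v => θ - v).prod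
  rw [List.map_cons, List.prod_cons, sub_zero]
  exact mul_pos_iff_of_pos_left (lt_of_le_of_ne h2.1 (Ne.symm h))

/-- `θ - 1 < 0` almost everywhere, and the product vanishes only at finitely many `θ`. -/
theorem cset_one (L : List ℝ) : cset (1 :: L) =ᵐ[lam] (cset L)ᶜ := by
  refine Filter.eventuallyEq_set.2 ?_
  filter_upwards [optbasic_ne 1, optbasic_mem, optbasic_prod_ne L] with θ h h2 h3
  show 0 < ((1 :: L).map fun v => θ - v).prod ↔ ¬ 0 < (L.map fun v => θ - v).prod
  rw [List.map_cons, List.prod_cons]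
  have h4 : θ - 1 < 0 := sub_neg.2 (lt_of_le_of_ne h2.2 h)
  constructor
  · intro h5 h6
    exact absurd h5 (not_lt.2 (mul_nonpos_of_nonpos_of_nonneg h4.le h6.le))
  · intro h5
    exact mul_pos_of_neg_of_neg h4 (lt_of_le_of_ne (not_lt.1 h5) h3)

theorem cset_append (L L' : List ℝ) :
    cset (1 :: (L ++ L')) =ᵐ[lam] symmDiff (cset L) (cset L') := by
  refine Filter.eventuallyEq_set.2 ?_
  filter_upwards [optbasic_ne 1, optbasic_mem, optbasic_prod_ne L, optbasic_prod_ne L'] with
    θ h h2 h3 h3'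
  refine Iff.trans ?_ (Set.mem_symmDiff (a := θ) (s := cset L) (t := cset L')).symm
  show 0 < ((1 :: (L ++ L')).map fun v => θ - v).prod ↔
    (0 < (L.map fun v => θ - v).prod ∧ ¬ 0 < (L'.map fun v => θ - v).prod) ∨
    (0 < (L'.map fun v => θ - v).prod ∧ ¬ 0 < (L.map fun v => θ - v).prod)
  rw [List.map_cons, List.prod_cons, List.map_append, List.prod_append]
  have h4 : θ - 1 < 0 := sub_neg.2 (lt_of_le_of_ne h2.2 h)
  generalize (L.map fun v => θ - v).prod = a at h3 ⊢
  generalize (L'.map fun v => θ - v).prod = b at h3' ⊢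
  constructor
  · intro h5
    have h6 : a * b < 0 := by
      by_contra h7
      exact absurd h5 (not_lt.2 (mul_nonpos_of_nonpos_of_nonneg h4.le (not_lt.1 h7)))
    rcases mul_neg_iff.1 h6 with h7 | h7
    · exact Or.inl ⟨h7.1, not_lt.2 h7.2.le⟩
    · exact Or.inr ⟨h7.2, not_lt.2 h7.1.le⟩
  · rintro (h5 | h5)
    · exact mul_pos_of_neg_of_neg h4
        (mul_neg_of_pos_of_neg h5.1 (lt_of_le_of_ne (not_lt.1 h5.2) h3'))
    · exact mul_pos_of_neg_of_neg h4
        (mul_neg_of_neg_of_pos (lt_of_le_of_ne (not_lt.1 h5.2) h3) h5.1)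

theorem optbasic_uIcc (a b : ℝ) : lam.real (uIcc a b) ≤ |a - b| := by
  have h1 : lam.real (uIcc a b) ≤ volume.real (uIcc a b) := by
    unfold lam Measure.real
    exact ENNReal.toReal_mono (by rw [Real.volume_interval]; exact ENNReal.ofReal_ne_top)
      (Measure.restrict_apply_le _ _)
  refine h1.trans (le_of_eq ?_)
  unfold Measure.real
  rw [Real.volume_interval, ENNReal.toReal_ofReal (abs_nonneg _), abs_sub_comm]

/-- If `θ` is not between `u i` and `u' i` for any `i` the two products have the same sign; so the symmetric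
difference is contained in `⋃ i, uIcc (u i) (u' i)`. -/
theorem lam_symmDiff_cset_le {M : ℕ} (u u' : Fin M → ℝ) :
    lam.real (symmDiff (cset (List.ofFn u)) (cset (List.ofFn u'))) ≤ ∑ i, |u i - u' i| := by
  have hsub : symmDiff (cset (List.ofFn u)) (cset (List.ofFn u')) ⊆ ⋃ i, uIcc (u i) (u' i) := by
    intro θ hθ
    by_contra hcon
    have hno : ∀ i, θ ∉ uIcc (u i) (u' i) := fun i hi => hcon (mem_iUnion.2 ⟨i, hi⟩)
    have hprod : 0 < (∏ i, (θ - u i)) * ∏ i, (θ - u' i) := by
      rw [← Finset.prod_mul_distrib]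
      apply Finset.prod_pos
      intro i _
      by_contra h1
      apply hno i
      rw [Set.mem_uIcc]
      rcases lt_trichotomy θ (u i) with h2 | h2 | h2
      · right
        refine ⟨?_, h2.le⟩
        by_contra h3
        exact h1 (mul_pos_of_neg_of_neg (sub_neg.2 h2) (sub_neg.2 (not_le.1 h3)))
      · rcases le_total θ (u' i) with h3 | h3
        · exact Or.inl ⟨h2.ge, h3⟩
        · exact Or.inr ⟨h3, h2.le⟩
      · left
        refine ⟨h2.le, ?_⟩
        by_contra h3
        exact h1 (mul_pos (sub_pos.2 h2) (sub_pos.2 (not_le.1 h3)))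
    rw [Set.mem_symmDiff] at hθ
    have e : ∀ w : Fin M → ℝ, (θ ∈ cset (List.ofFn w)) ↔ 0 < ∏ i, (θ - w i) := by
      intro w
      show 0 < ((List.ofFn w).map fun v => θ - v).prod ↔ _
      rw [List.map_ofFn, List.prod_ofFn]
      rfl
    rw [e, e] at hθ
    rcases hθ with ⟨h1, h2⟩ | ⟨h1, h2⟩
    · exact h2 ((mul_pos_iff_of_pos_left h1).1 hprod)
    · exact h2 ((mul_pos_iff_of_pos_right h1).1 hprod)
  calc lam.real (symmDiff (cset (List.ofFn u)) (cset (List.ofFn u')))
      ≤ lam.real (⋃ i, uIcc (u i) (u' i)) := measureReal_mono hsub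
    _ ≤ ∑ i, lam.real (uIcc (u i) (u' i)) := measureReal_iUnion_fintype_le _
    _ ≤ ∑ i, |u i - u' i| := Finset.sum_le_sum fun i _ => optbasic_uIcc _ _

theorem unif_prob {κ : Measure (ℝ × ℝ)} (h : Unif κ) : IsProbabilityMeasure κ := by
  constructor
  have h1 : (κ.map Prod.fst) univ = 1 := by rw [h.fst]; exact measure_univ
  rwa [Measure.map_apply measurable_fst MeasurableSet.univ, preimage_univ] at h1

theorem optbasic_fst {κ : Measure (ℝ × ℝ)} (h : Unif κ) : MeasurePreserving Prod.fst κ lam :=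
  ⟨measurable_fst, h.fst⟩

theorem optbasic_snd {κ : Measure (ℝ × ℝ)} (h : Unif κ) : MeasurePreserving Prod.snd κ lam :=
  ⟨measurable_snd, h.snd⟩

/-- `κ(S × T)` depends on `S`, `T` up to the measures of the symmetric differences. -/
theorem abs_sub_le {κ : Measure (ℝ × ℝ)} (h : Unif κ) {S S' T T' : Set ℝ} (hS : MeasurableSet S)
    (hS' : MeasurableSet S') (hT : MeasurableSet T) (hT' : MeasurableSet T') :
    |κ.real (S ×ˢ T) - κ.real (S' ×ˢ T')|
      ≤ lam.real (symmDiff S S') + lam.real (symmDiff T T') := by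
  have := unif_prob h
  have e1 : lam.real (symmDiff S S') = κ.real (Prod.fst ⁻¹' (symmDiff S S')) := by
    unfold Measure.real
    rw [(optbasic_fst h).measure_preimage (hS.symmDiff hS').nullMeasurableSet]
  have e2 : lam.real (symmDiff T T') = κ.real (Prod.snd ⁻¹' (symmDiff T T')) := by
    unfold Measure.real
    rw [(optbasic_snd h).measure_preimage (hT.symmDiff hT').nullMeasurableSet]
  have key : ∀ A A' B B' : Set ℝ, κ.real (A ×ˢ B) ≤ κ.real (A' ×ˢ B') +
      (κ.real (Prod.fst ⁻¹' (symmDiff A A')) + κ.real (Prod.snd ⁻¹' (symmDiff B B'))) := by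
    intro A A' B B'
    have hsub : A ×ˢ B ⊆ (A' ×ˢ B') ∪ ((Prod.fst ⁻¹' (symmDiff A A')) ∪
        (Prod.snd ⁻¹' (symmDiff B B'))) := by
      rintro ⟨x, y⟩ ⟨hx, hy⟩
      by_cases hx' : x ∈ A'
      · by_cases hy' : y ∈ B'
        · exact Or.inl ⟨hx', hy'⟩
        · exact Or.inr (Or.inr (Set.mem_symmDiff.2 (Or.inl ⟨hy, hy'⟩)))
      · exact Or.inr (Or.inl (Set.mem_symmDiff.2 (Or.inl ⟨hx, hx'⟩)))
    calc κ.real (A ×ˢ B) ≤ _ := measureReal_mono hsub
      _ ≤ _ := measureReal_union_le _ _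
      _ ≤ _ := by gcongr; exact measureReal_union_le _ _
  rw [e1, e2, abs_sub_le_iff]
  constructor
  · have := key S S' T T'
    linarith
  · have := key S' S T' T
    rw [symmDiff_comm S' S, symmDiff_comm T' T] at this
    linarith

theorem real_congr {κ : Measure (ℝ × ℝ)} (h : Unif κ) {S S' T T' : Set ℝ} (hS : S =ᵐ[lam] S')
    (hT : T =ᵐ[lam] T') : κ.real (S ×ˢ T) = κ.real (S' ×ˢ T') := by
  have h1 : Prod.fst ⁻¹' S =ᵐ[κ] Prod.fst ⁻¹' S' :=
    (optbasic_fst h).quasiMeasurePreserving.preimage_ae_eq hS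
  have h2 : Prod.snd ⁻¹' T =ᵐ[κ] Prod.snd ⁻¹' T' :=
    (optbasic_snd h).quasiMeasurePreserving.preimage_ae_eq hT
  have h3 : S ×ˢ T =ᵐ[κ] S' ×ˢ T' := by
    rw [Set.prod_eq, Set.prod_eq]
    exact h1.inter h2
  unfold Measure.real
  rw [measure_congr h3]

theorem optbasic_Iic (a b : ℝ) : lam.real (symmDiff (Iic a) (Iic b)) ≤ |a - b| := by
  refine le_trans (measureReal_mono ?_) (optbasic_uIcc a b)
  intro x hx
  rw [Set.mem_symmDiff] at hx
  rw [Set.mem_uIcc]
  rcases hx with ⟨h1, h2⟩ | ⟨h1, h2⟩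
  · exact Or.inr ⟨(not_le.1 h2).le, h1⟩
  · exact Or.inl ⟨(not_le.1 h2).le, h1⟩

theorem HH_lipschitz {κ : Measure (ℝ × ℝ)} (h : Unif κ) (u w u' w' : ℝ) :
    |HH κ u w - HH κ u' w'| ≤ |u - u'| + |w - w'| := by
  unfold HH
  refine (abs_sub_le h measurableSet_Iic measurableSet_Iic measurableSet_Iic
    measurableSet_Iic).trans ?_
  exact add_le_add (optbasic_Iic u u') (optbasic_Iic w w')

end Pool.Agent.H.MP_eff680_pr.D1
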