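import Pool.Agent.H.MP_eff680_pr.D1.Calc

/-! Dependence of `F` on `ρ`. -/

open MeasureTheory Set Filter
open scoped Topology

namespace Pool.Agent.H.MP_eff680_pr.D1

/-- the derivative of `G` in the first variable -/
noncomputable def selrho_dG (r x t : ℝ) : ℝ :=
  kap / 2 * (ph ((t - r * x) / cc r) * ((r * t - x) / cc r ^ 3)
    + ph ((t + r * x) / cc r) * ((r * t + x) / cc r ^ 3))

lemma selrho_cc_hasDerivAt {r : ℝ} (hr : 0 < r) (hr1 : r < 1) :
    HasDerivAt cc (-r / cc r) r := by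
  have hpos : (1 : ℝ) - r ^ 2 ≠ 0 := by nlinarith
  have h1 : HasDerivAt (fun y : ℝ => 1 - y ^ 2) (-(2 * r)) r := by
    have := (hasDerivAt_pow 2 r).const_sub 1
    refine this.congr_deriv ?_
    norm_num
  have h2 := h1.sqrt hpos
  have h3 : HasDerivAt cc (-(2 * r) / (2 * √(1 - r ^ 2))) r := h2
  refine h3.congr_deriv ?_
  have hc := cc_pos hr hr1
  have : √(1 - r ^ 2) = cc r := rfl
  rw [this]
  field_simp

lemma selrho_G_hasDerivAt {r : ℝ} (hr : 0 < r) (hr1 : r < 1) (x t : ℝ) :
    HasDerivAt (fun y => G y x t) (selrho_dG r x t) r := by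
  have hc := cc_pos hr hr1
  have hc2 := cc_sq hr hr1
  have hcc := selrho_cc_hasDerivAt hr hr1
  have h1 : HasDerivAt (fun y : ℝ => t - y * x) (-x) r := by
    have := ((hasDerivAt_id r).mul_const x).const_sub t
    refine this.congr_deriv ?_
    simp
  have h2 : HasDerivAt (fun y : ℝ => t + y * x) x r := by
    have := ((hasDerivAt_id r).mul_const x).const_add t
    refine this.congr_deriv ?_
    simp
  have h3 : HasDerivAt (fun y : ℝ => (t - y * x) / cc y)
      ((-x * cc r - (t - r * x) * (-r / cc r)) / cc r ^ 2) r := h1.div hcc hc.ne'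
  have h4 : HasDerivAt (fun y : ℝ => (t + y * x) / cc y)
      ((x * cc r - (t + r * x) * (-r / cc r)) / cc r ^ 2) r := h2.div hcc hc.ne'
  have h5 : HasDerivAt (fun y => W ((t - y * x) / cc y))
      (ph ((t - r * x) / cc r) * ((-x * cc r - (t - r * x) * (-r / cc r)) / cc r ^ 2)) r :=
    HasDerivAt.comp (h := fun y : ℝ => (t - y * x) / cc y) (h₂ := W) r (W_hasDerivAt _) h3
  have h6 : HasDerivAt (fun y => W ((t + y * x) / cc y))
      (ph ((t + r * x) / cc r) * ((x * cc r - (t + r * x) * (-r / cc r)) / cc r ^ 2)) r :=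
    HasDerivAt.comp (h := fun y : ℝ => (t + y * x) / cc y) (h₂ := W) r (W_hasDerivAt _) h4
  refine ((h5.add h6).const_mul (kap / 2)).congr_deriv ?_
  unfold selrho_dG
  have e1 : (-x * cc r - (t - r * x) * (-r / cc r)) / cc r ^ 2 = (r * t - x) / cc r ^ 3 := by
    field_simp
    rw [hc2]
    ring
  have e2 : (x * cc r - (t + r * x) * (-r / cc r)) / cc r ^ 2 = (r * t + x) / cc r ^ 3 := by
    field_simp
    rw [hc2]
    ring
  rw [e1, e2]

lemma selrho_cc_continuous : Continuous cc := by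
  unfold cc
  fun_prop

lemma selrho_dG_contOn {a b s : ℝ} (ha : 0 < a) (hb : b < 1) (t : ℝ) :
    ContinuousOn (fun p : ℝ × ℝ => kap * ph p.2 * selrho_dG p.1 p.2 t)
      (Icc a b ×ˢ uIcc 0 s) := by
  have hcc : ContinuousOn (fun p : ℝ × ℝ => cc p.1) (Icc a b ×ˢ uIcc 0 s) :=
    (selrho_cc_continuous.comp continuous_fst).continuousOn
  have hne : ∀ p ∈ Icc a b ×ˢ uIcc 0 s, cc p.1 ≠ 0 := by
    intro p hp
    exact (cc_pos (lt_of_lt_of_le ha hp.1.1) (lt_of_le_of_lt hp.1.2 hb)).ne'
  have hne3 : ∀ p ∈ Icc a b ×ˢ uIcc 0 s, cc p.1 ^ 3 ≠ 0 := fun p hp => pow_ne_zero 3 (hne p hp)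
  have h1 : ContinuousOn (fun p : ℝ × ℝ => ph ((t - p.1 * p.2) / cc p.1))
      (Icc a b ×ˢ uIcc 0 s) :=
    ph_continuous.comp_continuousOn (ContinuousOn.div (by fun_prop) hcc hne)
  have h2 : ContinuousOn (fun p : ℝ × ℝ => ph ((t + p.1 * p.2) / cc p.1))
      (Icc a b ×ˢ uIcc 0 s) :=
    ph_continuous.comp_continuousOn (ContinuousOn.div (by fun_prop) hcc hne)
  have h3 : ContinuousOn (fun p : ℝ × ℝ => (p.1 * t - p.2) / cc p.1 ^ 3)
      (Icc a b ×ˢ uIcc 0 s) := ContinuousOn.div (by fun_prop) (hcc.pow 3) hne3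
  have h4 : ContinuousOn (fun p : ℝ × ℝ => (p.1 * t + p.2) / cc p.1 ^ 3)
      (Icc a b ×ˢ uIcc 0 s) := ContinuousOn.div (by fun_prop) (hcc.pow 3) hne3
  have h5 : ContinuousOn (fun p : ℝ × ℝ => ph p.2) (Icc a b ×ˢ uIcc 0 s) :=
    (ph_continuous.comp continuous_snd).continuousOn
  unfold selrho_dG
  exact (continuousOn_const.mul h5).mul (continuousOn_const.mul ((h1.mul h3).add (h2.mul h4)))

lemma selrho_ph_hasDerivAt (x : ℝ) : HasDerivAt ph (-x * ph x) x := by
  have h1 : HasDerivAt (fun y : ℝ => -y ^ 2 / 2) (-x) x := by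
    have := ((hasDerivAt_pow 2 x).neg).div_const 2
    refine this.congr_deriv ?_
    norm_num
    ring
  have h2 : HasDerivAt ph (Real.exp (-x ^ 2 / 2) * -x) x := h1.exp
  refine h2.congr_deriv ?_
  unfold ph
  ring

lemma selrho_ph_mul {r : ℝ} (hr : 0 < r) (hr1 : r < 1) (x t : ℝ) :
    ph x * ph ((t - r * x) / cc r) = ph t * ph ((x - r * t) / cc r) ∧
    ph x * ph ((t + r * x) / cc r) = ph t * ph ((x + r * t) / cc r) := by
  have hc := cc_pos hr hr1
  have hc2 := cc_sq hr hr1
  have hne : (1 - r ^ 2) ≠ 0 := by nlinarith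
  constructor
  · unfold ph
    rw [← Real.exp_add, ← Real.exp_add]
    congr 1
    rw [div_pow, div_pow, hc2]
    field_simp
    ring
  · unfold ph
    rw [← Real.exp_add, ← Real.exp_add]
    congr 1
    rw [div_pow, div_pow, hc2]
    field_simp
    ring

/-- the integrand of the derivative is an exact derivative -/
lemma selrho_exact {r : ℝ} (hr : 0 < r) (hr1 : r < 1) (x t : ℝ) :
    HasDerivAt (fun y => kap ^ 2 * (ph y * ph t) * Ko r y t)
      (kap * ph x * selrho_dG r x t) x := by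
  have hc := cc_pos hr hr1
  have hc2 := cc_sq hr hr1
  have e : (fun y => kap ^ 2 * (ph y * ph t) * Ko r y t) =
      fun y => kap ^ 2 / (2 * cc r) * ph t * (ph ((y - r * t) / cc r) - ph ((y + r * t) / cc r)) := by
    funext y
    have h := ph_sub hr hr1 t y
    rw [h, Ko_symm r t y]
    field_simp
  rw [e]
  have h1 : HasDerivAt (fun y : ℝ => (y - r * t) / cc r) (1 / cc r) x :=
    ((hasDerivAt_id x).sub_const (r * t)).div_const (cc r)
  have h2 : HasDerivAt (fun y : ℝ => (y + r * t) / cc r) (1 / cc r) x :=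
    ((hasDerivAt_id x).add_const (r * t)).div_const (cc r)
  have h3 : HasDerivAt (fun y : ℝ => ph ((y - r * t) / cc r))
      (-((x - r * t) / cc r) * ph ((x - r * t) / cc r) * (1 / cc r)) x :=
    (selrho_ph_hasDerivAt _).comp x h1
  have h4 : HasDerivAt (fun y : ℝ => ph ((y + r * t) / cc r))
      (-((x + r * t) / cc r) * ph ((x + r * t) / cc r) * (1 / cc r)) x :=
    (selrho_ph_hasDerivAt _).comp x h2
  refine ((h3.sub h4).const_mul (kap ^ 2 / (2 * cc r) * ph t)).congr_deriv ?_
  obtain ⟨m1, m2⟩ := selrho_ph_mul hr hr1 x t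
  have e2 : kap * ph x * selrho_dG r x t =
      kap ^ 2 / 2 * ((ph x * ph ((t - r * x) / cc r)) * ((r * t - x) / cc r ^ 3)
        + (ph x * ph ((t + r * x) / cc r)) * ((r * t + x) / cc r ^ 3)) := by
    unfold selrho_dG
    ring
  rw [e2, m1, m2]
  field_simp
  ring

/-- The derivative of `F` in `ρ` (Plackett's formula).

Proof. `∂/∂r ((t ∓ r x)/c) = (r t ∓ x)/c³`, so
`∂G/∂r (r, x, t) = kap/(2 c³) (ph ((t - r x)/c) (r t - x) + ph ((t + r x)/c) (r t + x))`, and
`ph x ph ((t ∓ r x)/c) = ph t ph ((x ∓ r t)/c)`; hence `kap ph x ∂G/∂r (r, x, t)` is the derivative in `x` of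
`kap²/(2c) ph t (ph ((x - r t)/c) - ph ((x + r t)/c)) = kap² ph x ph t Ko r x t` (`ph_sub` with exchanged
arguments, `Ko_symm`), which vanishes at `x = 0`. So (Fubini for
`F r s t - F ρ s t = ∫ x in 0..s, ∫ r' in ρ..r, kap ph x ∂G/∂r`, or differentiation under the integral sign)
`∂F/∂r = kap² ph s ph t Ko r s t`. -/
theorem F_rho {ρ : ℝ} (hρ : 0 < ρ) (hρ1 : ρ < 1) (s t : ℝ) :
    HasDerivAt (fun r => F r s t) (kap ^ 2 * (ph s * ph t) * Ko ρ s t) ρ := by
  have ha : 0 < ρ / 2 := by linarith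
  have hb : (ρ + 1) / 2 < 1 := by linarith
  have hnb : Icc (ρ / 2) ((ρ + 1) / 2) ∈ 𝓝 ρ := Icc_mem_nhds (by linarith) (by linarith)
  have hcontOn := selrho_dG_contOn (s := s) ha hb t
  obtain ⟨M, hM⟩ := (isCompact_Icc.prod isCompact_uIcc).exists_bound_of_continuousOn hcontOn
  have hGc : ∀ r, Continuous (fun x => kap * ph x * G r x t) := fun r =>
    (continuous_const.mul ph_continuous).mul
      ((calc_G_cont r).comp (Continuous.prodMk continuous_id continuous_const))
  have hdGc : Continuous (fun x => kap * ph x * selrho_dG ρ x t) := by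
    have e : (fun x => kap * ph x * selrho_dG ρ x t) =
        fun x => kap * ph x * (kap / 2 * (ph ((t - ρ * x) / cc ρ) * ((ρ * t - x) / cc ρ ^ 3)
          + ph ((t + ρ * x) / cc ρ) * ((ρ * t + x) / cc ρ ^ 3))) := rfl
    rw [e]
    have h1 := ph_continuous.comp (show Continuous (fun x : ℝ => (t - ρ * x) / cc ρ) by fun_prop)
    have h2 := ph_continuous.comp (show Continuous (fun x : ℝ => (t + ρ * x) / cc ρ) by fun_prop)
    exact (continuous_const.mul ph_continuous).mul (continuous_const.mul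
      ((h1.mul (by fun_prop)).add (h2.mul (by fun_prop))))
  have key := intervalIntegral.hasDerivAt_integral_of_dominated_loc_of_deriv_le
    (μ := volume) (a := 0) (b := s) (F := fun r x => kap * ph x * G r x t)
    (F' := fun r x => kap * ph x * selrho_dG r x t) (x₀ := ρ) (bound := fun _ => M)
    hnb
    (Eventually.of_forall fun r => (hGc r).aestronglyMeasurable)
    ((hGc ρ).intervalIntegrable _ _)
    hdGc.aestronglyMeasurable
    (Eventually.of_forall fun x hx r hr => hM (r, x) ⟨hr, uIoc_subset_uIcc hx⟩)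
    intervalIntegrable_const
    (Eventually.of_forall fun x hx r hr => by
      have hr0 : 0 < r := lt_of_lt_of_le ha hr.1
      have hr1 : r < 1 := lt_of_le_of_lt hr.2 hb
      exact (selrho_G_hasDerivAt hr0 hr1 x t).const_mul (kap * ph x))
  have h2 : ∫ x in (0 : ℝ)..s, kap * ph x * selrho_dG ρ x t =
      kap ^ 2 * (ph s * ph t) * Ko ρ s t := by
    rw [intervalIntegral.integral_eq_sub_of_hasDerivAt (fun x _ => selrho_exact hρ hρ1 x t)
      (hdGc.intervalIntegrable _ _)]
    have : Ko ρ 0 t = 0 := by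
      unfold Ko
      simp
    rw [this]
    ring
  exact key.2.congr_deriv h2

/-- Limit at `ρ = 1`: `G r x t → 1` for `0 ≤ x < t`, dominated convergence. -/
theorem F_diag {t : ℝ} (ht : 0 < t) :
    Tendsto (fun r => F r t t) (𝓝[<] 1) (𝓝 (kap * W t)) := by
  have hGc : ∀ r, Continuous (fun x => kap * ph x * G r x t) := fun r =>
    (continuous_const.mul ph_continuous).mul
      ((calc_G_cont r).comp (Continuous.prodMk continuous_id continuous_const))
  have hphc : Continuous (fun x => kap * ph x) := continuous_const.mul ph_continuous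
  have hW : kap * W t = ∫ x in (0 : ℝ)..t, kap * ph x := by
    rw [intervalIntegral.integral_const_mul]
    rfl
  rw [hW]
  have hcc0 : Tendsto cc (𝓝[<] 1) (𝓝[>] 0) := by
    refine tendsto_nhdsWithin_iff.2 ⟨?_, ?_⟩
    · have h1 : Tendsto cc (𝓝 1) (𝓝 (cc 1)) := selrho_cc_continuous.tendsto 1
      have h2 : cc 1 = 0 := by unfold cc; simp
      rw [h2] at h1
      exact h1.mono_left nhdsWithin_le_nhds
    · have h3 : ∀ᶠ r : ℝ in 𝓝[<] 1, 0 < r :=
        mem_nhdsWithin_of_mem_nhds (Ioi_mem_nhds (show (0 : ℝ) < 1 by norm_num))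
      filter_upwards [h3, self_mem_nhdsWithin] with r h4 h5
      exact cc_pos h4 h5
  have hG1 : ∀ x : ℝ, 0 ≤ x → x < t → Tendsto (fun r => G r x t) (𝓝[<] 1) (𝓝 1) := by
    intro x hx hxt
    have hinv : Tendsto (fun r => (cc r)⁻¹) (𝓝[<] 1) atTop := tendsto_inv_nhdsGT_zero.comp hcc0
    have h1 : Tendsto (fun r : ℝ => t - r * x) (𝓝[<] 1) (𝓝 (t - 1 * x)) :=
      ((show Continuous (fun r : ℝ => t - r * x) by fun_prop).tendsto 1).mono_left
        nhdsWithin_le_nhds
    have h2 : Tendsto (fun r : ℝ => t + r * x) (𝓝[<] 1) (𝓝 (t + 1 * x)) :=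
      ((show Continuous (fun r : ℝ => t + r * x) by fun_prop).tendsto 1).mono_left
        nhdsWithin_le_nhds
    have h3 : Tendsto (fun r => (t - r * x) / cc r) (𝓝[<] 1) atTop :=
      h1.pos_mul_atTop (by linarith) hinv
    have h4 : Tendsto (fun r => (t + r * x) / cc r) (𝓝[<] 1) atTop :=
      h2.pos_mul_atTop (by linarith) hinv
    have h5 := (tendsto_kapW.comp h3).add (tendsto_kapW.comp h4)
    have h6 := h5.const_mul (1 / 2 : ℝ)
    have e1 : (1 / 2 : ℝ) * (1 + 1) = 1 := by norm_num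
    rw [e1] at h6
    refine h6.congr fun r => ?_
    simp only [Function.comp, G]
    ring
  refine intervalIntegral.tendsto_integral_filter_of_dominated_convergence
    (fun x => kap * ph x) ?_ ?_ (hphc.intervalIntegrable _ _) ?_
  · exact Eventually.of_forall fun r => (hGc r).aestronglyMeasurable
  · refine Eventually.of_forall fun r => Eventually.of_forall fun x _ => ?_
    have hpos : 0 < kap * ph x := mul_pos kap_pos (ph_pos x)
    rw [norm_mul, Real.norm_of_nonneg hpos.le, Real.norm_eq_abs]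
    have hG : |G r x t| ≤ 1 := by
      have a1 := kapW_lt ((t - r * x) / cc r)
      have a2 := kapW_lt ((t + r * x) / cc r)
      have a3 := calc_neg_lt ((t - r * x) / cc r)
      have a4 := calc_neg_lt ((t + r * x) / cc r)
      unfold G
      rw [abs_le]
      constructor <;> nlinarith
    calc kap * ph x * |G r x t| ≤ kap * ph x * 1 := mul_le_mul_of_nonneg_left hG hpos.le
      _ = kap * ph x := mul_one _
  · have hae : ∀ᵐ x : ℝ, x ≠ t := by
      simp [ae_iff, measure_singleton]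
    filter_upwards [hae] with x hx hxt
    rw [uIoc_of_le ht.le] at hxt
    have h1 := (hG1 x hxt.1.le (lt_of_le_of_ne hxt.2 hx)).const_mul (kap * ph x)
    rw [mul_one] at h1
    exact h1

/-- Joint continuity in `(ρ, s)` on `(0, 1) × ℝ`. -/
theorem F_continuousOn (t : ℝ) :
    ContinuousOn (fun p : ℝ × ℝ => F p.1 p.2 t) (Ioo 0 1 ×ˢ univ) := by
  rw [continuousOn_iff_continuous_domRestrict]
  let X := ↥((Ioo (0 : ℝ) 1) ×ˢ (univ : Set ℝ))
  have hcc : Continuous (fun q : X × ℝ => cc q.1.1.1) :=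
    selrho_cc_continuous.comp (continuous_fst.comp (continuous_subtype_val.comp continuous_fst))
  have hr : Continuous (fun q : X × ℝ => q.1.1.1) :=
    continuous_fst.comp (continuous_subtype_val.comp continuous_fst)
  have hx : Continuous (fun q : X × ℝ => q.2) := continuous_snd
  have hne : ∀ q : X × ℝ, cc q.1.1.1 ≠ 0 := fun q =>
    (cc_pos q.1.2.1.1 q.1.2.1.2).ne'
  have h1 : Continuous (fun q : X × ℝ => W ((t - q.1.1.1 * q.2) / cc q.1.1.1)) :=
    W_continuous.comp ((continuous_const.sub (hr.mul hx)).div hcc hne)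
  have h2 : Continuous (fun q : X × ℝ => W ((t + q.1.1.1 * q.2) / cc q.1.1.1)) :=
    W_continuous.comp ((continuous_const.add (hr.mul hx)).div hcc hne)
  have h3 : Continuous (fun q : X × ℝ => kap * ph q.2 * G q.1.1.1 q.2 t) := by
    unfold G
    exact (continuous_const.mul (ph_continuous.comp hx)).mul (continuous_const.mul (h1.add h2))
  exact intervalIntegral.continuous_parametric_intervalIntegral_of_continuous (μ := volume)
    (a₀ := 0) (f := fun (q : X) x => kap * ph x * G q.1.1 x t) h3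
    (s := fun q : X => q.1.2) (continuous_snd.comp continuous_subtype_val)

end Pool.Agent.H.MP_eff680_pr.D1
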