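import Pool.Agent.H.MP_eff680_pr.D1.Meas
import Pool.Agent.H.MP_eff680_pr.D1.OptBasic
import Pool.Agent.H.MP_eff680_pr.D1.SelRho

/-! Which of the two candidates is the larger one: a maximum principle. -/

open MeasureTheory Set Filter
open scoped Topology

namespace Pool.Agent.H.MP_eff680_pr.D1

/-- `D(u, v) = P(Θ(x) ≥ 1 - u, Θ(y) ≥ 1 - v) - P(Θ(x) ≤ u, Θ(y) ≤ v)`. -/
noncomputable def DD (ρ u v : ℝ) : ℝ :=
  u + v - 1 - HH (jl ρ) u v + HH (jl ρ) (1 - u) (1 - v)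

theorem sel_lam_Iic {u : ℝ} (hu : 0 ≤ u) (hu1 : u ≤ 1) : lam.real (Iic u) = u := by
  unfold lam
  rw [measureReal_restrict_apply measurableSet_Iic]
  have : Iic u ∩ Icc 0 1 = Icc 0 u := by
    ext x
    simp only [mem_inter_iff, mem_Iic, mem_Icc]
    constructor
    · rintro ⟨h1, h2, h3⟩; exact ⟨h2, h1⟩
    · rintro ⟨h1, h2⟩; exact ⟨h2, h1, h2.trans hu1⟩
  rw [this, Real.volume_real_Icc_of_le hu, sub_zero]

theorem sel_fst {κ : Measure (ℝ × ℝ)} (h : Unif κ) {u : ℝ} (hu : 0 ≤ u) (hu1 : u ≤ 1) :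
    κ.real (Iic u ×ˢ univ) = u := by
  have h1 : (κ.map Prod.fst).real (Iic u) = κ.real (Iic u ×ˢ univ) := by
    rw [map_measureReal_apply measurable_fst measurableSet_Iic]
    congr 1
    ext p
    simp
  rw [← h1, h.fst, sel_lam_Iic hu hu1]

theorem sel_snd {κ : Measure (ℝ × ℝ)} (h : Unif κ) {u : ℝ} (hu : 0 ≤ u) (hu1 : u ≤ 1) :
    κ.real (univ ×ˢ Iic u) = u := by
  have h1 : (κ.map Prod.snd).real (Iic u) = κ.real (univ ×ˢ Iic u) := by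
    rw [map_measureReal_apply measurable_snd measurableSet_Iic]
    congr 1
    ext p
    simp
  rw [← h1, h.snd, sel_lam_Iic hu hu1]

theorem sel_inter (u w : ℝ) :
    (Iic u ×ˢ (univ : Set ℝ)) ∩ ((univ : Set ℝ) ×ˢ Iic w) = Iic u ×ˢ Iic w := by
  rw [prod_inter_prod, inter_univ, univ_inter]

theorem sel_HH_le_left {κ : Measure (ℝ × ℝ)} (h : Unif κ) {u : ℝ} (hu : 0 ≤ u) (hu1 : u ≤ 1)
    (w : ℝ) : HH κ u w ≤ u := by
  have := unif_prob h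
  have h0 := measureReal_mono (μ := κ) (s₁ := Iic u ×ˢ Iic w) (s₂ := Iic u ×ˢ univ)
    (prod_mono le_rfl (subset_univ _))
  rw [sel_fst h hu hu1] at h0
  exact h0

theorem sel_HH_le_right {κ : Measure (ℝ × ℝ)} (h : Unif κ) {w : ℝ} (hw : 0 ≤ w) (hw1 : w ≤ 1)
    (u : ℝ) : HH κ u w ≤ w := by
  have := unif_prob h
  have h0 := measureReal_mono (μ := κ) (s₁ := Iic u ×ˢ Iic w) (s₂ := univ ×ˢ Iic w)
    (prod_mono (subset_univ _) le_rfl)
  rw [sel_snd h hw hw1] at h0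
  exact h0

theorem sel_HH_ge {κ : Measure (ℝ × ℝ)} (h : Unif κ) {u w : ℝ} (hu : 0 ≤ u) (hu1 : u ≤ 1)
    (hw : 0 ≤ w) (hw1 : w ≤ 1) : u + w - 1 ≤ HH κ u w := by
  have := unif_prob h
  have h1 := measureReal_union_add_inter (μ := κ) (s := Iic u ×ˢ (univ : Set ℝ))
    (t := (univ : Set ℝ) ×ˢ Iic w) (MeasurableSet.univ.prod measurableSet_Iic)
  rw [sel_fst h hu hu1, sel_snd h hw hw1, sel_inter] at h1
  have h2 : κ.real (Iic u ×ˢ (univ : Set ℝ) ∪ (univ : Set ℝ) ×ˢ Iic w) ≤ 1 := measureReal_le_one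
  unfold HH
  linarith

theorem sel_HH_diag {κ : Measure (ℝ × ℝ)} (h : Unif κ) {u v : ℝ} (hu : 0 ≤ u) (hu1 : u ≤ 1)
    (hv : 0 ≤ v) (hv1 : v ≤ 1) : min u v - (v - HH κ v v) ≤ HH κ u v := by
  have := unif_prob h
  rcases le_total u v with huv | huv
  · rw [min_eq_left huv]
    have mB : MeasurableSet ((univ : Set ℝ) ×ˢ Iic v) := MeasurableSet.univ.prod measurableSet_Iic
    have h1 := measureReal_inter_add_sdiff (μ := κ) (s := Iic u ×ˢ (univ : Set ℝ)) mB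
    have h2 := measureReal_inter_add_sdiff (μ := κ) (s := Iic v ×ˢ (univ : Set ℝ)) mB
    rw [sel_inter, sel_fst h hu hu1] at h1
    rw [sel_inter, sel_fst h hv hv1] at h2
    have h3 := measureReal_mono (μ := κ) (s₁ := (Iic u ×ˢ (univ : Set ℝ)) \ (univ ×ˢ Iic v))
      (s₂ := (Iic v ×ˢ (univ : Set ℝ)) \ (univ ×ˢ Iic v))
      (sdiff_subset_sdiff_left (prod_mono (Iic_subset_Iic.2 huv) le_rfl))
    unfold HH
    linarith
  · rw [min_eq_right huv]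
    have h0 := measureReal_mono (μ := κ) (s₁ := Iic v ×ˢ Iic v) (s₂ := Iic u ×ˢ Iic v)
      (prod_mono (Iic_subset_Iic.2 huv) le_rfl)
    unfold HH
    linarith

/-- `D` near `u = 1`. -/
theorem sel_le_one_sub {ρ : ℝ} (hρ : 0 < ρ) (hρ1 : ρ < 1) {u v : ℝ} (hu : u ∈ Ioo (0 : ℝ) 1)
    (hv : v ∈ Ioo (0 : ℝ) 1) : DD ρ u v ≤ 1 - u := by
  have h := unif_jl hρ hρ1
  have h1 := sel_HH_ge h hu.1.le hu.2.le hv.1.le hv.2.le
  have h2 := sel_HH_le_left h (u := 1 - u) (by linarith [hu.2]) (by linarith [hu.1]) (1 - v)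
  unfold DD
  linarith

/-- `D` near `ρ = 1`. -/
theorem sel_le_diag {ρ : ℝ} (hρ : 0 < ρ) (hρ1 : ρ < 1) {u v : ℝ} (hu : u ∈ Ioo (0 : ℝ) 1)
    (hv : v ∈ Ioo (0 : ℝ) 1) : DD ρ u v ≤ v - F ρ (qt v) (qt v) := by
  have h := unif_jl hρ hρ1
  have h1 := sel_HH_diag h hu.1.le hu.2.le hv.1.le hv.2.le
  have h2 := sel_HH_le_left h (u := 1 - u) (by linarith [hu.2]) (by linarith [hu.1]) (1 - v)
  have h3 := sel_HH_le_right h (w := 1 - v) (by linarith [hv.2]) (by linarith [hv.1]) (1 - u)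
  rw [HH_jl hρ hρ1 hv.1 hv.2 hv.1 hv.2] at h1
  unfold DD
  rcases le_total u v with huv | huv
  · rw [min_eq_left huv] at h1
    linarith
  · rw [min_eq_right huv] at h1
    linarith

theorem sel_one_sub {u : ℝ} (hu : u ∈ Ioo (0 : ℝ) 1) : 1 - u ∈ Ioo (0 : ℝ) 1 :=
  ⟨by linarith [hu.2], by linarith [hu.1]⟩

theorem sel_DD_eq {ρ : ℝ} (hρ : 0 < ρ) (hρ1 : ρ < 1) {u v : ℝ} (hu : u ∈ Ioo (0 : ℝ) 1)
    (hv : v ∈ Ioo (0 : ℝ) 1) : DD ρ u v =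
      u + v - 1 - F ρ (qt u) (qt v) + F ρ (qt (1 - u)) (qt (1 - v)) := by
  unfold DD
  rw [HH_jl hρ hρ1 hu.1 hu.2 hv.1 hv.2,
    HH_jl hρ hρ1 (sel_one_sub hu).1 (sel_one_sub hu).2 (sel_one_sub hv).1 (sel_one_sub hv).2]

/-- `-ρ ∂D/∂ρ ≤ 0`-part and second derivative part at an interior point. -/
theorem sel_Ko_nonneg {ρ : ℝ} (hρ : 0 < ρ) (hρ1 : ρ < 1) {s t : ℝ} (hs : 0 ≤ s) (ht : 0 ≤ t) :
    0 ≤ Ko ρ s t := by
  have hc := cc_pos hρ hρ1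
  unfold Ko
  have : 0 ≤ Real.sinh (ρ * s * t / cc ρ ^ 2) := Real.sinh_nonneg_iff.2 (by positivity)
  positivity

theorem sel_ph_anti {s s' : ℝ} (hs' : 0 ≤ s') (h : s' ≤ s) : ph s ≤ ph s' := by
  unfold ph
  apply Real.exp_le_exp.2
  nlinarith

/-- first derivative in `u` -/
theorem sel_deriv_u {ρ : ℝ} (hρ : 0 < ρ) (hρ1 : ρ < 1) {u : ℝ} (v : ℝ)
    (hu : u ∈ Ioo (0 : ℝ) 1) :
    HasDerivAt (fun u => u + v - 1 - F ρ (qt u) (qt v) + F ρ (qt (1 - u)) (qt (1 - v)))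
      (1 - G ρ (qt u) (qt v) - G ρ (qt (1 - u)) (qt (1 - v))) u := by
  have hq := qt_hasDerivAt (u := u) (by linarith [hu.1]) hu.2
  have hq' : HasDerivAt (fun y => qt (1 - y)) (1 / (kap * ph (qt (1 - u))) * (-1)) u := by
    have h0 := qt_hasDerivAt (u := 1 - u) (by linarith [hu.2]) (by linarith [hu.1])
    have h1 : HasDerivAt (fun y : ℝ => 1 - y) (-1) u := by
      simpa using (hasDerivAt_id u).const_sub 1
    exact HasDerivAt.comp u h0 h1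
  have e1 := F_hasDerivAt hρ hρ1 hq (hasDerivAt_const u (qt v))
  have e2 := F_hasDerivAt hρ hρ1 hq' (hasDerivAt_const u (qt (1 - v)))
  have e3 : HasDerivAt (fun u : ℝ => u + v - 1) 1 u := by
    simpa using ((hasDerivAt_id u).add_const v).sub_const 1
  refine ((e3.sub e1).add e2).congr_deriv ?_
  have k := kap_pos
  have p1 := ph_pos (qt u)
  have p2 := ph_pos (qt (1 - u))
  field_simp
  ring

/-- second derivative in `u` -/
theorem sel_deriv_uu {ρ : ℝ} (hρ : 0 < ρ) (hρ1 : ρ < 1) {u : ℝ} (v : ℝ)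
    (hu : u ∈ Ioo (0 : ℝ) 1) :
    HasDerivAt (fun u => 1 - G ρ (qt u) (qt v) - G ρ (qt (1 - u)) (qt (1 - v)))
      (ρ * Ko ρ (qt u) (qt v) * ph (qt v) / ph (qt u)
        - ρ * Ko ρ (qt (1 - u)) (qt (1 - v)) * ph (qt (1 - v)) / ph (qt (1 - u))) u := by
  have hq := qt_hasDerivAt (u := u) (by linarith [hu.1]) hu.2
  have hq' : HasDerivAt (fun y => qt (1 - y)) (1 / (kap * ph (qt (1 - u))) * (-1)) u := by
    have h0 := qt_hasDerivAt (u := 1 - u) (by linarith [hu.2]) (by linarith [hu.1])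
    have h1 : HasDerivAt (fun y : ℝ => 1 - y) (-1) u := by
      simpa using (hasDerivAt_id u).const_sub 1
    exact HasDerivAt.comp u h0 h1
  have e1 := G_hasDerivAt hρ hρ1 hq (hasDerivAt_const u (qt v))
  have e2 := G_hasDerivAt hρ hρ1 hq' (hasDerivAt_const u (qt (1 - v)))
  refine ((e1.const_sub 1).sub e2).congr_deriv ?_
  have k := kap_pos
  have p1 := ph_pos (qt u)
  have p2 := ph_pos (qt (1 - u))
  field_simp
  ring

/-- derivative in `ρ` -/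
theorem sel_deriv_rho {ρ : ℝ} (hρ : 0 < ρ) (hρ1 : ρ < 1) (u v : ℝ) :
    HasDerivAt (fun r => u + v - 1 - F r (qt u) (qt v) + F r (qt (1 - u)) (qt (1 - v)))
      (- (kap ^ 2 * (ph (qt u) * ph (qt v)) * Ko ρ (qt u) (qt v))
        + kap ^ 2 * (ph (qt (1 - u)) * ph (qt (1 - v))) * Ko ρ (qt (1 - u)) (qt (1 - v))) ρ := by
  have e1 := F_rho hρ hρ1 (qt u) (qt v)
  have e2 := F_rho hρ hρ1 (qt (1 - u)) (qt (1 - v))
  exact (e1.const_sub (u + v - 1)).add e2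

theorem sel_second {f f' : ℝ → ℝ} {x c : ℝ} (hf : ∀ᶠ y in 𝓝 x, HasDerivAt f (f' y) y)
    (hf' : HasDerivAt f' c x) (hmax : IsLocalMax f x) : c ≤ 0 := by
  by_contra hc
  push Not at hc
  have h1 : deriv f =ᶠ[𝓝 x] f' := hf.mono fun y hy => hy.deriv
  have h2 : deriv (deriv f) x = c := by rw [h1.deriv_eq]; exact hf'.deriv
  have h3 : deriv f x = 0 := hmax.deriv_eq_zero
  have h4 : IsLocalMin f x := isLocalMin_of_deriv_deriv_pos (by rw [h2]; exact hc) h3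
    hf.self_of_nhds.continuousAt
  have h5 : f =ᶠ[𝓝 x] fun _ => f x := by
    filter_upwards [hmax, h4] with y hy1 hy2 using le_antisymm hy1 hy2
  have h6 : deriv f =ᶠ[𝓝 x] fun _ => 0 := by
    have := h5.deriv
    simpa using this
  have h7 : deriv (deriv f) x = 0 := by rw [h6.deriv_eq]; simp
  linarith

theorem sel_first {g : ℝ → ℝ} {g' a b : ℝ} (hab : a < b) (hg : HasDerivAt g g' a)
    (h : ∀ r ∈ Ioc a b, g r ≤ g a) : g' ≤ 0 := by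
  have h1 := hasDerivAt_iff_tendsto_slope.1 hg
  have h2 : Tendsto (slope g a) (𝓝[>] a) (𝓝 g') :=
    h1.mono_left (nhdsWithin_mono a fun x hx => ne_of_gt hx)
  refine le_of_tendsto h2 ?_
  filter_upwards [Ioc_mem_nhdsGT hab] with r hr
  rw [slope_def_field]
  exact div_nonpos_of_nonpos_of_nonneg (by linarith [h r hr]) (by linarith [hr.1])

theorem sel_continuousOn {v : ℝ} (hv : v ∈ Ioo (0 : ℝ) 1) :
    ContinuousOn (fun p : ℝ × ℝ => DD p.1 p.2 v) (Ioo 0 1 ×ˢ Ioo 0 1) := by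
  have hq : ContinuousOn qt (Ioo (0 : ℝ) 1) := fun x hx =>
    (qt_hasDerivAt (by linarith [hx.1]) hx.2).continuousAt.continuousWithinAt
  have hq2 : ContinuousOn (fun p : ℝ × ℝ => qt p.2) (Ioo (0 : ℝ) 1 ×ˢ Ioo (0 : ℝ) 1) :=
    hq.comp continuousOn_snd fun p hp => hp.2
  have hq3 : ContinuousOn (fun p : ℝ × ℝ => qt (1 - p.2)) (Ioo (0 : ℝ) 1 ×ˢ Ioo (0 : ℝ) 1) :=
    hq.comp (f := fun p : ℝ × ℝ => 1 - p.2) (by fun_prop) fun p hp => sel_one_sub hp.2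
  have h1 : ContinuousOn (fun p : ℝ × ℝ => F p.1 (qt p.2) (qt v))
      (Ioo (0 : ℝ) 1 ×ˢ Ioo (0 : ℝ) 1) :=
    (F_continuousOn (qt v)).comp (f := fun p : ℝ × ℝ => (p.1, qt p.2))
      (continuousOn_fst.prodMk hq2) fun p hp => ⟨hp.1, mem_univ _⟩
  have h2 : ContinuousOn (fun p : ℝ × ℝ => F p.1 (qt (1 - p.2)) (qt (1 - v)))
      (Ioo (0 : ℝ) 1 ×ˢ Ioo (0 : ℝ) 1) :=
    (F_continuousOn (qt (1 - v))).comp (f := fun p : ℝ × ℝ => (p.1, qt (1 - p.2)))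
      (continuousOn_fst.prodMk hq3) fun p hp => ⟨hp.1, mem_univ _⟩
  have h3 : ContinuousOn (fun p : ℝ × ℝ => p.2 + v - 1 - F p.1 (qt p.2) (qt v)
      + F p.1 (qt (1 - p.2)) (qt (1 - v))) (Ioo (0 : ℝ) 1 ×ˢ Ioo (0 : ℝ) 1) :=
    ContinuousOn.add (ContinuousOn.sub (by fun_prop) h1) h2
  exact h3.congr fun p hp => sel_DD_eq hp.1.1 hp.1.2 hp.2 hv

/-- the maximum principle -/
theorem sel_max {u₀ v : ℝ} (hu₀ : 1 / 2 ≤ u₀) (hv : v ∈ Ioo (0 : ℝ) 1)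
    (h0 : ∀ ρ : ℝ, 0 < ρ → ρ < 1 → DD ρ u₀ v ≤ 0) {ρ₀ u₁ : ℝ} (hρ : 0 < ρ₀) (hρ1 : ρ₀ < 1)
    (hu₁ : u₀ ≤ u₁) (hu₁1 : u₁ < 1) : DD ρ₀ u₁ v ≤ 0 := by
  by_contra hcon
  push Not at hcon
  set η := DD ρ₀ u₁ v / 2 with hη
  have hηpos : 0 < η := by positivity
  have hη2 : DD ρ₀ u₁ v = 2 * η := by rw [hη]; ring
  -- the value of rho_1
  have hdiag := F_diag (qt_pos hv.1 hv.2)
  rw [kapW_qt (by linarith [hv.1]) hv.2] at hdiag
  have hev : ∀ᶠ r in 𝓝[<] (1 : ℝ), v - F r (qt v) (qt v) < η := by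
    have : ∀ᶠ r in 𝓝[<] (1 : ℝ), v - η < F r (qt v) (qt v) :=
      hdiag.eventually (lt_mem_nhds (by linarith))
    filter_upwards [this] with r hr
    linarith
  obtain ⟨ρ₁, hρ₁η, hρ₀₁, hρ₁1⟩ := (hev.and (Ioo_mem_nhdsLT hρ1)).exists
  -- the value of u_2
  set u₂ := 1 - min η (1 - u₁) / 2 with hu₂
  have hmin : 0 < min η (1 - u₁) := lt_min hηpos (by linarith)
  have hu₂1 : u₂ < 1 := by rw [hu₂]; linarith
  have hu₂η : 1 - u₂ < η := by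
    have := min_le_left η (1 - u₁)
    rw [hu₂]; linarith
  have hu₁₂ : u₁ < u₂ := by
    have := min_le_right η (1 - u₁)
    rw [hu₂]; linarith
  set K : Set (ℝ × ℝ) := Icc ρ₀ ρ₁ ×ˢ Icc u₀ u₂ with hK
  have hKc : IsCompact K := isCompact_Icc.prod isCompact_Icc
  have hKsub : K ⊆ Ioo 0 1 ×ˢ Ioo 0 1 := by
    rintro ⟨r, u⟩ ⟨⟨a1, a2⟩, b1, b2⟩
    simp only at a1 a2 b1 b2
    exact ⟨⟨by linarith, by linarith⟩, ⟨by linarith, by linarith⟩⟩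
  have hmem : (ρ₀, u₁) ∈ K := ⟨⟨le_rfl, hρ₀₁.le⟩, ⟨hu₁, hu₁₂.le⟩⟩
  have hcont : ContinuousOn (fun p : ℝ × ℝ => DD p.1 p.2 v - η / 2 * (1 - p.1)) K :=
    ((sel_continuousOn hv).mono hKsub).sub (by fun_prop)
  obtain ⟨⟨r, u⟩, hru, hmax⟩ := hKc.exists_isMaxOn ⟨_, hmem⟩ hcont
  have hru' := hKsub hru
  obtain ⟨⟨hr1, hr2⟩, hu1, hu2⟩ := hru
  obtain ⟨⟨hr3, hr4⟩, hu3, hu4⟩ := hru'
  simp only at hr1 hr2 hu1 hu2 hr3 hr4 hu3 hu4
  have hval : η < DD r u v - η / 2 * (1 - r) := by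
    have h1 : DD ρ₀ u₁ v - η / 2 * (1 - ρ₀) ≤ DD r u v - η / 2 * (1 - r) := hmax hmem
    rw [hη2] at h1
    have h2 : η / 2 * (1 - ρ₀) ≤ η / 2 * 1 := mul_le_mul_of_nonneg_left (by linarith) (by linarith)
    linarith
  have hval' : η < DD r u v := by
    have h2 : 0 ≤ η / 2 * (1 - r) := mul_nonneg (by linarith) (by linarith)
    linarith
  have hune : u₀ < u := by
    rcases hu1.lt_or_eq with h | h
    · exact h
    · have := h0 r hr3 hr4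
      rw [← h] at hval'
      linarith
  have hune2 : u < u₂ := by
    rcases hu2.lt_or_eq with h | h
    · exact h
    · have := sel_le_one_sub hr3 hr4 ⟨hu3, hu4⟩ hv
      rw [h] at this hval'
      linarith
  have hrne : r < ρ₁ := by
    rcases hr2.lt_or_eq with h | h
    · exact h
    · have := sel_le_diag hr3 hr4 ⟨hu3, hu4⟩ hv
      rw [h] at this hval'
      linarith
  -- derivative in rho
  have hd1 := sel_deriv_rho hr3 hr4 u v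
  have hg : HasDerivAt (fun y => (u + v - 1 - F y (qt u) (qt v) + F y (qt (1 - u)) (qt (1 - v)))
      - η / 2 * (1 - y)) ((- (kap ^ 2 * (ph (qt u) * ph (qt v)) * Ko r (qt u) (qt v))
        + kap ^ 2 * (ph (qt (1 - u)) * ph (qt (1 - v))) * Ko r (qt (1 - u)) (qt (1 - v)))
        + η / 2) r := by
    have h1 : HasDerivAt (fun y : ℝ => η / 2 * (1 - y)) (-(η / 2)) r := by
      simpa using ((hasDerivAt_id r).const_sub 1).const_mul (η / 2)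
    refine (hd1.sub h1).congr_deriv ?_
    ring
  have hfirst := sel_first hrne hg (by
    intro y hy
    have hy0 : 0 < y := by linarith [hy.1]
    have hy1 : y < 1 := by linarith [hy.2]
    have h1 : DD y u v - η / 2 * (1 - y) ≤ DD r u v - η / 2 * (1 - r) :=
      hmax (show (y, u) ∈ K from ⟨⟨by linarith [hy.1], hy.2⟩, ⟨hu1, hu2⟩⟩)
    rw [sel_DD_eq hy0 hy1 ⟨hu3, hu4⟩ hv, sel_DD_eq hr3 hr4 ⟨hu3, hu4⟩ hv] at h1
    exact h1)
  -- second derivative in u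
  have hsecond := sel_second (x := u)
    (f := fun u => u + v - 1 - F r (qt u) (qt v) + F r (qt (1 - u)) (qt (1 - v)))
    (by
      filter_upwards [Ioo_mem_nhds hu3 hu4] with y hy
      exact sel_deriv_u hr3 hr4 v hy)
    (sel_deriv_uu hr3 hr4 v ⟨hu3, hu4⟩) (by
      filter_upwards [Ioo_mem_nhds hune hune2] with y hy
      have hy0 : 0 < y := by linarith [hy.1]
      have hy1 : y < 1 := by linarith [hy.2]
      have h1 : DD r y v - η / 2 * (1 - r) ≤ DD r u v - η / 2 * (1 - r) :=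
        hmax (show (r, y) ∈ K from ⟨⟨hr1, hr2⟩, ⟨hy.1.le, hy.2.le⟩⟩)
      rw [sel_DD_eq hr3 hr4 ⟨hy0, hy1⟩ hv, sel_DD_eq hr3 hr4 ⟨hu3, hu4⟩ hv] at h1
      linarith)
  -- conclusion
  have hs : 0 < qt u := qt_pos hu3 hu4
  have hs' : 0 < qt (1 - u) := qt_pos (by linarith) (by linarith)
  have ht' : 0 < qt (1 - v) := qt_pos (by linarith [hv.2]) (by linarith [hv.1])
  have hss : qt (1 - u) ≤ qt u :=
    qt_strictMonoOn.monotoneOn ⟨by linarith, by linarith⟩ ⟨by linarith, by linarith⟩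
      (by linarith)
  have hph := sel_ph_anti hs'.le hss
  have hKo := sel_Ko_nonneg hr3 hr4 hs'.le ht'.le
  have k := kap_pos
  have p1 := ph_pos (qt u)
  have p2 := ph_pos (qt (1 - u))
  have p3 := ph_pos (qt (1 - v))
  set A := ph (qt u) with hA
  set B := ph (qt (1 - u)) with hB
  set T := ph (qt v) with hT
  set T' := ph (qt (1 - v)) with hT'
  set M := Ko r (qt u) (qt v) with hM
  set M' := Ko r (qt (1 - u)) (qt (1 - v)) with hM'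
  -- A^2 * second: r M T A <= r M' T' A^2 / B
  have h1 : r * M * T * A ≤ r * M' * T' * (A ^ 2 / B) := by
    have := mul_le_mul_of_nonneg_left hsecond (by positivity : 0 ≤ A ^ 2)
    have e : A ^ 2 * (r * M * T / A - r * M' * T' / B) =
        r * M * T * A - r * M' * T' * (A ^ 2 / B) := by
      field_simp
    rw [e, mul_zero] at this
    linarith
  have h2 : A ^ 2 / B ≤ B := by
    rw [div_le_iff₀ p2, sq]
    exact mul_le_mul hph hph p1.le p2.le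
  have h3 : r * M' * T' * (A ^ 2 / B) ≤ r * M' * T' * B :=
    mul_le_mul_of_nonneg_left h2 (by positivity)
  have h4 : kap ^ 2 * (r * M * T * A) ≤ kap ^ 2 * (r * M' * T' * B) :=
    mul_le_mul_of_nonneg_left (h1.trans h3) (by positivity)
  have h5 : r * (-(kap ^ 2 * (A * T) * M) + kap ^ 2 * (B * T') * M' + η / 2) ≤ 0 :=
    mul_nonpos_of_nonneg_of_nonpos hr3.le hfirst
  have h6 : 0 < r * (η / 2) := by positivity
  have h7 : r * (-(kap ^ 2 * (A * T) * M) + kap ^ 2 * (B * T') * M' + η / 2) =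
      -(kap ^ 2 * (r * M * T * A)) + kap ^ 2 * (r * M' * T' * B) + r * (η / 2) := by ring
  rw [h7] at h5
  linarith

/-- Symmetry (`HH_jl`, `F_symm`). -/
theorem DD_symm {ρ : ℝ} (hρ : 0 < ρ) (hρ1 : ρ < 1) {u v : ℝ} (hu : u ∈ Ioo (0 : ℝ) 1)
    (hv : v ∈ Ioo (0 : ℝ) 1) : DD ρ u v = DD ρ v u := by
  have hu' := sel_one_sub hu
  have hv' := sel_one_sub hv
  rw [sel_DD_eq hρ hρ1 hu hv, sel_DD_eq hρ hρ1 hv hu, F_symm hρ hρ1 (qt u) (qt v),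
    F_symm hρ hρ1 (qt (1 - u)) (qt (1 - v))]
  ring

/-- `D ≤ 0` when `u + v ≥ 1`, by a maximum principle.

Proof. Fix `v`. Facts, for `0 < ρ < 1`, `u ∈ (0, 1)`, writing `s = qt u`, `s' = qt (1 - u)`, `t = qt v`,
`t' = qt (1 - v)`, `H u = HH (jl ρ) u v = F ρ s t`, `H' u = HH (jl ρ) (1 - u) (1 - v) = F ρ s' t'`:
(1) `∂H/∂u = G ρ s t`, `∂²H/∂u² = -ρ ph t Ko ρ s t / ph s ≤ 0` (`F_hasDerivAt`, `G_hasDerivAt`, `qt_hasDerivAt`);
with `a u = (kap ph (qt u))²`: `-ρ ∂H/∂ρ = a u ∂²H/∂u²` (`F_rho`). The same for `H'`: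
`-ρ ∂H'/∂ρ = a (1 - u) ∂²H'/∂u²`. So
`-ρ ∂D/∂ρ = -a(u) H_uu + a(1 - u) H'_uu = a(u) D_uu + (a(1 - u) - a(u)) H'_uu`, and for `u ≥ 1/2` the last term is
`≤ 0` because `a` is decreasing and `H'_uu ≤ 0`.
(2) `D ≤ 1 - u` (`H u v ≥ u + v - 1`, `H (1 - u) (1 - v) ≤ 1 - u`).
(3) `D ≤ v - H v v` where `H v v = F ρ t t → v` as `ρ → 1` (`F_diag`): `H (1 - u) (1 - v) ≤ min (1 - u) (1 - v)` and
`H u v ≥ min u v - (v - H v v)`.
(4) `D(u, 1 - u) = 0` (by `F_symm`).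
Maximum principle: let `u₀ ≥ 1/2` with `D ρ u₀ v ≤ 0` for all `ρ`. Then `D ρ u v ≤ 0` for all `u ∈ [u₀, 1)` and all `ρ`:
suppose `D ρ₀ u₁ v = 2η > 0`. Choose `ε > 0` with `ε (1 - ρ₀) < η`, `ρ₁ < 1` with `v - F ρ t t < η` at `ρ₁`
and `ρ₁ > ρ₀`, `u₂ < 1` with `1 - u₂ < η`, `u₂ > u₁`. On the compact rectangle `[ρ₀, ρ₁] × [u₀, u₂]` the continuous function
`E = D - ε (1 - ρ)` (`F_continuousOn`) has a maximum `> η` at some `(ρ*, u*)`; by the three boundary estimates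
`u* ≠ u₀`, `u* ≠ u₂`, `ρ* ≠ ρ₁`. So `∂E/∂ρ ≤ 0`, i.e. `∂D/∂ρ ≤ -ε`, and `D_uu ≤ 0` at this point, and (1) gives
`0 < ε ρ ≤ -ρ ∂D/∂ρ ≤ a(u) D_uu ≤ 0`, contradiction.
Case `v ≤ 1/2`: take `u₀ = 1 - v ≥ 1/2` and (4). Case `v ≥ 1/2`, `u ≤ 1/2`: by symmetry (`DD_symm`) this is the first
case. Case `u, v ≥ 1/2`: take `u₀ = 1/2`, where `D ρ (1/2) v ≤ 0` by the previous case. -/
theorem DD_nonpos {ρ : ℝ} (hρ : 0 < ρ) (hρ1 : ρ < 1) {u v : ℝ} (hu : u ∈ Ioo (0 : ℝ) 1)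
    (hv : v ∈ Ioo (0 : ℝ) 1) (huv : 1 ≤ u + v) : DD ρ u v ≤ 0 := by
  -- the case v ≤ 1/2
  have key : ∀ {ρ : ℝ}, 0 < ρ → ρ < 1 → ∀ {u v : ℝ}, u ∈ Ioo (0 : ℝ) 1 → v ∈ Ioo (0 : ℝ) 1 →
      1 ≤ u + v → v ≤ 1 / 2 → DD ρ u v ≤ 0 := by
    intro ρ hρ hρ1 u v hu hv huv hv2
    have hv' := sel_one_sub hv
    refine sel_max (u₀ := 1 - v) (by linarith) hv ?_ hρ hρ1 (by linarith) hu.2
    intro r hr hr1
    rw [sel_DD_eq hr hr1 hv' hv, F_symm hr hr1 (qt (1 - v)) (qt v)]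
    have : 1 - (1 - v) = v := by ring
    rw [this]
    linarith
  rcases le_total v (1 / 2) with hv2 | hv2
  · exact key hρ hρ1 hu hv huv hv2
  rcases le_total u (1 / 2) with hu2 | hu2
  · rw [DD_symm hρ hρ1 hu hv]
    exact key hρ hρ1 hv hu (by linarith) hu2
  · refine sel_max (u₀ := 1 / 2) le_rfl hv ?_ hρ hρ1 hu2 hu.2
    intro r hr hr1
    have hh : (1 / 2 : ℝ) ∈ Ioo (0 : ℝ) 1 := ⟨by norm_num, by norm_num⟩
    rw [DD_symm hr hr1 hh hv]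
    exact key hr hr1 hv hh (by linarith) le_rfl

end Pool.Agent.H.MP_eff680_pr.D1
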