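import Mathlib
import Pool.Agent.H.MP_eff680_pr.D1.Defs

/-! One may assume that `B` is symmetric. -/

open MeasureTheory ProbabilityTheory Set

namespace Pool.Agent.H.MP_eff680_pr.D1

/-- `Pr[x ∈ A, y ∈ B]` in dimension one. -/
noncomputable def pr (ρ : ℝ) (A B : Set ℝ) : ℝ :=
  ((gaussianReal 0 1).prod (gaussianReal 0 1)).real
    {p : ℝ × ℝ | p.1 ∈ A ∧ ρ * p.1 + cc ρ * p.2 ∈ B}

lemma sym_pr_union (ρ : ℝ) {A : Set ℝ} (hA : MeasurableSet A) {S T : Set ℝ}
    (hT : MeasurableSet T) (hST : Disjoint S T) :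
    pr ρ A (S ∪ T) = pr ρ A S + pr ρ A T := by
  unfold pr
  have h1 : {p : ℝ × ℝ | p.1 ∈ A ∧ ρ * p.1 + cc ρ * p.2 ∈ S ∪ T} =
      {p : ℝ × ℝ | p.1 ∈ A ∧ ρ * p.1 + cc ρ * p.2 ∈ S} ∪
        {p : ℝ × ℝ | p.1 ∈ A ∧ ρ * p.1 + cc ρ * p.2 ∈ T} := by
    ext p
    simp only [mem_ofPred_eq, mem_union]
    tauto
  have hm : Measurable (fun p : ℝ × ℝ => ρ * p.1 + cc ρ * p.2) := by fun_prop
  have h2 : MeasurableSet {p : ℝ × ℝ | p.1 ∈ A ∧ ρ * p.1 + cc ρ * p.2 ∈ T} :=
    (measurable_fst hA).inter (hm hT)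
  rw [h1, measureReal_union ?_ h2]
  rw [Set.disjoint_left]
  rintro p ⟨_, hp⟩ ⟨_, hp'⟩
  exact Set.disjoint_left.1 hST hp hp'

lemma sym_pr_neg (ρ : ℝ) {A : Set ℝ} (hA : MeasurableSet A) (hs : -A = A) {S : Set ℝ}
    (hS : MeasurableSet S) : pr ρ A (-S) = pr ρ A S := by
  unfold pr
  have hm : Measurable (fun p : ℝ × ℝ => ρ * p.1 + cc ρ * p.2) := by fun_prop
  have h2 : MeasurableSet {p : ℝ × ℝ | p.1 ∈ A ∧ ρ * p.1 + cc ρ * p.2 ∈ S} :=
    (measurable_fst hA).inter (hm hS)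
  have hmap : ((gaussianReal 0 1).prod (gaussianReal 0 1)).map
      (Prod.map (fun x : ℝ => -x) (fun x : ℝ => -x)) =
      (gaussianReal 0 1).prod (gaussianReal 0 1) := by
    rw [← Measure.map_prod_map _ _ measurable_neg measurable_neg, gaussianReal_map_neg, neg_zero]
  have h3 : {p : ℝ × ℝ | p.1 ∈ A ∧ ρ * p.1 + cc ρ * p.2 ∈ -S} =
      (Prod.map (fun x : ℝ => -x) (fun x : ℝ => -x)) ⁻¹'
        {p : ℝ × ℝ | p.1 ∈ A ∧ ρ * p.1 + cc ρ * p.2 ∈ S} := by
    ext p
    simp only [mem_ofPred_eq, mem_preimage, Prod.map_fst, Prod.map_snd, Set.mem_neg]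
    have e1 : p.1 ∈ A ↔ -p.1 ∈ A := by
      conv_lhs => rw [← hs]
      exact Set.mem_neg
    rw [e1, show ρ * -p.1 + cc ρ * -p.2 = -(ρ * p.1 + cc ρ * p.2) by ring]
  rw [h3, measureReal_def, ← Measure.map_apply (by fun_prop) h2, hmap]
  rfl

lemma sym_g_neg {S : Set ℝ} (hS : MeasurableSet S) :
    (gaussianReal 0 1).real (-S) = (gaussianReal 0 1).real S := by
  have h := gaussianReal_map_neg (μ := 0) (v := 1)
  rw [neg_zero] at h
  have h3 : -S = (fun x : ℝ => -x) ⁻¹' S := rfl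
  rw [h3, measureReal_def, ← Measure.map_apply measurable_neg hS, h]
  rfl

/-- The symmetric and antisymmetric parts of a set. -/
lemma sym_split (m : Set ℝ → ℝ)
    (hadd : ∀ S T : Set ℝ, MeasurableSet T → Disjoint S T → m (S ∪ T) = m S + m T)
    (hneg : ∀ S : Set ℝ, MeasurableSet S → m (-S) = m S) {B : Set ℝ} (hB : MeasurableSet B) :
    m B = m (B ∩ -B) + m (B \ -B) ∧ m ((B \ -B) ∪ (-B \ B)) = 2 * m (B \ -B) := by
  have hB' : MeasurableSet (-B) := measurable_neg hB
  constructor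
  · rw [← hadd _ _ (hB.diff hB') ?_]
    · congr 1
      exact (Set.inter_union_sdiff B (-B)).symm
    · exact Set.disjoint_left.2 fun x hx hx' => hx'.2 hx.2
  · rw [hadd _ _ (hB'.diff hB) (Set.disjoint_left.2 fun x hx hx' => hx'.2 hx.1)]
    have h1 : -B \ B = -(B \ -B) := by
      ext x
      simp only [Set.mem_sdiff, Set.mem_neg, neg_neg]
    rw [h1, hneg _ (hB.diff hB')]
    ring

/-- A symmetric half of a symmetric set. -/
lemma sym_half {D : Set ℝ} (hD : MeasurableSet D) : ∃ t : ℝ,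
    (gaussianReal 0 1).real (D ∩ Icc (-t) t) = (gaussianReal 0 1).real D / 2 := by
  have hna : NullSingletonClass (gaussianReal 0 1) :=
    nullSingletonClass_gaussianReal one_ne_zero
  set f : ℝ → ℝ := D.indicator 1 with hf
  have hfi : Integrable f (gaussianReal 0 1) :=
    (integrable_indicator_iff hD).2 (integrable_const (1 : ℝ)).integrableOn
  have hval : ∀ t : ℝ, 0 ≤ t → ∫ x in (-t)..t, f x ∂(gaussianReal 0 1) =
      (gaussianReal 0 1).real (D ∩ Icc (-t) t) := by
    intro t ht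
    rw [intervalIntegral.integral_of_le (by linarith), ← integral_Icc_eq_integral_Ioc, hf,
      integral_indicator_one hD, measureReal_def, Measure.restrict_apply hD]
    rfl
  have htot : ∫ x, f x ∂(gaussianReal 0 1) = (gaussianReal 0 1).real D := by
    rw [hf, integral_indicator_one hD]
  have hcont : Continuous fun t : ℝ => ∫ x in (-t)..t, f x ∂(gaussianReal 0 1) := by
    have h1 : ∀ a b : ℝ, IntervalIntegrable f (gaussianReal 0 1) a b :=
      fun a b => hfi.intervalIntegrable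
    have h2 : (fun t : ℝ => ∫ x in (-t)..t, f x ∂(gaussianReal 0 1)) =
        fun t : ℝ => (∫ x in (0 : ℝ)..t, f x ∂(gaussianReal 0 1)) -
          ∫ x in (0 : ℝ)..(-t), f x ∂(gaussianReal 0 1) := by
      funext t
      rw [intervalIntegral.integral_interval_sub_left (h1 _ _) (h1 _ _)]
    rw [h2]
    have h3 := intervalIntegral.continuous_primitive h1 0
    exact h3.sub (h3.comp continuous_neg)
  have hlim : Filter.Tendsto (fun t : ℝ => ∫ x in (-t)..t, f x ∂(gaussianReal 0 1))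
      Filter.atTop (nhds ((gaussianReal 0 1).real D)) := by
    rw [← htot]
    exact intervalIntegral_tendsto_integral hfi Filter.tendsto_neg_atTop_atBot Filter.tendsto_id
  have hzero : ∫ x in (-(0 : ℝ))..0, f x ∂(gaussianReal 0 1) = 0 := by simp
  rcases eq_or_lt_of_le (measureReal_nonneg (μ := gaussianReal 0 1) (s := D)) with h0 | h0
  · refine ⟨0, ?_⟩
    rw [← hval 0 le_rfl, hzero, ← h0]
    simp
  · have hev : ∀ᶠ t : ℝ in Filter.atTop, (gaussianReal 0 1).real D / 2 <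
        ∫ x in (-t)..t, f x ∂(gaussianReal 0 1) := hlim.eventually (lt_mem_nhds (by linarith))
    obtain ⟨T, hT1, hT0⟩ := (hev.and (Filter.eventually_ge_atTop (0 : ℝ))).exists
    have hiv := intermediate_value_Icc hT0 hcont.continuousOn
    obtain ⟨t, ht, hte⟩ := hiv ⟨by rw [hzero]; linarith, hT1.le⟩
    refine ⟨t, ?_⟩
    rw [← hval t ht.1]
    exact hte

/-- Replacing `B` by a symmetric set of the same measure without increasing the probability.

Proof. Let `C = B ∩ -B`, `D = (B ∪ -B) \ C`; both symmetric, `γ(B) = γ(C) + γ(D)/2` since `B \ -B` and its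
negative have the same measure and partition `D`. As `x ∈ A` is symmetric and the law of `(x, z)` is invariant
under `(x, z) ↦ (-x, -z)`, `pr A B = pr A C + pr A (B \ -B) = pr A C + pr A D / 2`. Choose `t ≥ 0` with
`γ(D ∩ [-t, t]) = γ(D)/2` (the function of `t` is continuous, `0` at `0`, and tends to `γ(D)`). With
`D₁ = D ∩ [-t, t]`, `D₂ = D \ D₁` the two symmetric sets `C ∪ D₁`, `C ∪ D₂` have measure `γ(B)` and
`pr A (C ∪ D₁) + pr A (C ∪ D₂) = 2 pr A C + pr A D = 2 pr A B`, so one of them is at most `pr A B`. -/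
theorem symmetrize (ρ : ℝ) (A B : Set ℝ) (hA : MeasurableSet A) (hB : MeasurableSet B)
    (hs : -A = A) : ∃ B' : Set ℝ, MeasurableSet B' ∧ -B' = B' ∧
      (gaussianReal 0 1).real B' = (gaussianReal 0 1).real B ∧ pr ρ A B' ≤ pr ρ A B := by
  have hB' : MeasurableSet (-B) := measurable_neg hB
  have ga : ∀ S T : Set ℝ, MeasurableSet T → Disjoint S T →
      (gaussianReal 0 1).real (S ∪ T) = (gaussianReal 0 1).real S + (gaussianReal 0 1).real T :=
    fun S T hT h => measureReal_union h hT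
  have pa : ∀ S T : Set ℝ, MeasurableSet T → Disjoint S T →
      pr ρ A (S ∪ T) = pr ρ A S + pr ρ A T := fun S T hT h => sym_pr_union ρ hA hT h
  obtain ⟨g1, g2⟩ := sym_split (fun S => (gaussianReal 0 1).real S) ga
    (fun S hS => sym_g_neg hS) hB
  obtain ⟨p1, p2⟩ := sym_split (fun S => pr ρ A S) pa (fun S hS => sym_pr_neg ρ hA hs hS) hB
  set C := B ∩ -B with hC
  set E := B \ -B with hE
  set D := E ∪ (-B \ B) with hDdef
  have hCm : MeasurableSet C := hB.inter hB'
  have hDm : MeasurableSet D := (hB.diff hB').union (hB'.diff hB)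
  have hCs : -C = C := by
    ext x
    simp only [hC, Set.mem_neg, Set.mem_inter_iff, neg_neg]
    tauto
  have hDs : -D = D := by
    ext x
    simp only [hDdef, hE, Set.mem_neg, Set.mem_union, Set.mem_sdiff, neg_neg]
    tauto
  have hCD : Disjoint C D := by
    rw [Set.disjoint_left]
    intro x hx hx'
    simp only [hDdef, hE, Set.mem_union, Set.mem_sdiff] at hx'
    rcases hx' with h | h
    · exact h.2 hx.2
    · exact h.2 hx.1
  obtain ⟨t, ht⟩ := sym_half hDm
  have hIs : -(Icc (-t) t) = Icc (-t) t := by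
    rw [Set.neg_Icc, neg_neg]
  have hD1m : MeasurableSet (D ∩ Icc (-t) t) := hDm.inter measurableSet_Icc
  have hD2m : MeasurableSet (D \ Icc (-t) t) := hDm.diff measurableSet_Icc
  have hD12 : (D ∩ Icc (-t) t) ∪ (D \ Icc (-t) t) = D := Set.inter_union_sdiff D (Icc (-t) t)
  have hd : Disjoint (D ∩ Icc (-t) t) (D \ Icc (-t) t) :=
    Set.disjoint_left.2 fun x hx hx' => hx'.2 hx.2
  have gD := ga _ _ hD2m hd
  have pD := pa _ _ hD2m hd
  rw [hD12] at gD pD
  have gC1 := ga C _ hD1m (hCD.mono_right Set.inter_subset_left)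
  have pC1 := pa C _ hD1m (hCD.mono_right Set.inter_subset_left)
  have gC2 := ga C _ hD2m (hCD.mono_right Set.sdiff_subset)
  have pC2 := pa C _ hD2m (hCD.mono_right Set.sdiff_subset)
  by_cases hle : pr ρ A (C ∪ (D ∩ Icc (-t) t)) ≤ pr ρ A B
  · refine ⟨C ∪ (D ∩ Icc (-t) t), hCm.union hD1m, ?_, ?_, hle⟩
    · rw [Set.union_neg, hCs, Set.inter_neg, hDs, hIs]
    · rw [gC1]; linarith
  · refine ⟨C ∪ (D \ Icc (-t) t), hCm.union hD2m, ?_, ?_, ?_⟩
    · rw [Set.union_neg, hCs]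
      congr 1
      rw [Set.sdiff_eq, Set.inter_neg, Set.compl_neg, hDs, hIs]
    · rw [gC2]; linarith
    · push Not at hle
      rw [pC2]
      linarith

end Pool.Agent.H.MP_eff680_pr.D1
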