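import Pool.Agent.H.MP_eff680_pr.D1.Calc

/-! First and second order conditions at a maximum. -/

open MeasureTheory Set

namespace Pool.Agent.H.MP_eff680_pr.D1

/-- Second order necessary condition for a local maximum.

Proof. `j' 0 = 0` by Fermat. If `D > 0` then `j' x > 0` for small `x > 0`, so `j x > j 0` for small `x > 0` (mean
value theorem), contradiction. -/
theorem second_order {j j' : ℝ → ℝ} {D : ℝ} (h : ∀ᶠ x in nhds (0 : ℝ), HasDerivAt j (j' x) x)
    (h2 : HasDerivAt j' D 0) (hmax : IsLocalMax j 0) : j' 0 = 0 ∧ D ≤ 0 := by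
  have h0 : j' 0 = 0 := hmax.hasDerivAt_eq_zero h.self_of_nhds
  refine ⟨h0, ?_⟩
  by_contra hD
  rw [not_le] at hD
  have hs : Filter.Tendsto (slope j' 0) (nhdsWithin 0 {0}ᶜ) (nhds D) :=
    hasDerivAt_iff_tendsto_slope.1 h2
  have hs2 : ∀ᶠ x in nhdsWithin (0 : ℝ) {0}ᶜ, 0 < slope j' 0 x := hs.eventually (lt_mem_nhds hD)
  rw [eventually_nhdsWithin_iff] at hs2
  obtain ⟨ε, hε, hball⟩ := Metric.eventually_nhds_iff.1 (hs2.and (h.and hmax))
  have hpos : ∀ x : ℝ, 0 < x → x < ε → 0 < j' x := by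
    intro x hx hxε
    have h3 := (hball (y := x) (by rw [Real.dist_eq, sub_zero, abs_of_pos hx]; exact hxε)).1
      (by simpa using hx.ne')
    rw [slope_def_field, h0, sub_zero, sub_zero] at h3
    exact (div_pos_iff_of_pos_right hx).1 h3
  have hder : ∀ x : ℝ, |x| < ε → HasDerivAt j (j' x) x := by
    intro x hx
    exact (hball (y := x) (by rw [Real.dist_eq, sub_zero]; exact hx)).2.1
  have hmono : StrictMonoOn j (Icc 0 (ε / 2)) := by
    refine strictMonoOn_of_deriv_pos (convex_Icc _ _) ?_ ?_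
    · intro x hx
      refine (hder x ?_).continuousAt.continuousWithinAt
      rw [abs_of_nonneg hx.1]
      linarith [hx.2]
    · intro x hx
      rw [interior_Icc] at hx
      rw [(hder x (by rw [abs_of_pos hx.1]; linarith [hx.2])).deriv]
      exact hpos x hx.1 (by linarith [hx.2])
  have h4 := hmono (left_mem_Icc.2 (by linarith)) (right_mem_Icc.2 (by linarith))
    (show (0 : ℝ) < ε / 2 by linarith)
  have h5 := (hball (y := ε / 2) (by
    rw [Real.dist_eq, sub_zero, abs_of_pos (by linarith)]; linarith)).2.2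
  exact absurd h4 (not_lt.2 h5)

theorem var_aux {k p g s : ℝ} (hk : k ≠ 0) (hp : p ≠ 0) : k * p * g * (s / (k * p)) = g * s := by
  field_simp

/-- The two conditions for one direction. -/
theorem var_core {ρ : ℝ} (hρ : 0 < ρ) (hρ1 : ρ < 1) {m n : ℕ} (u : Fin m → ℝ) (w : Fin n → ℝ)
    (hu : ∀ i, 0 < u i ∧ u i < 1) (hw : ∀ j, 0 < w j ∧ w j < 1) (σ : Fin m → ℝ) (τ : Fin n → ℝ)
    (hσ : ∀ i, σ i * σ i = 1) (hτ : ∀ j, τ j * τ j = 1) (α : Fin m → ℝ) (β : Fin n → ℝ)
    (hmax : IsLocalMax (fun x : ℝ => ∑ i, ∑ j, σ i * τ j *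
        F ρ (qt (u i + x * (σ i * α i))) (qt (w j + x * (τ j * β j)))) 0) :
    (∑ i, ∑ j, (τ j * α i * G ρ (qt (u i)) (qt (w j)) + σ i * β j * G ρ (qt (w j)) (qt (u i))) = 0)
    ∧ ∑ i, ∑ j, (τ j * α i * (Ke ρ (qt (u i)) (qt (w j)) * (τ j * β j)
        - ρ * Ko ρ (qt (u i)) (qt (w j)) * (ph (qt (w j)) * (σ i * α i) / ph (qt (u i))))
        + σ i * β j * (Ke ρ (qt (w j)) (qt (u i)) * (σ i * α i)
        - ρ * Ko ρ (qt (w j)) (qt (u i)) * (ph (qt (u i)) * (τ j * β j) / ph (qt (w j))))) ≤ 0 := by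
  have hk := kap_pos
  -- derivatives of the coordinates
  have hev : ∀ (u₀ c : ℝ), 0 < u₀ → u₀ < 1 →
      ∀ᶠ x in nhds (0 : ℝ), -1 < u₀ + x * c ∧ u₀ + x * c < 1 := by
    intro u₀ c h1 h2
    have hc : ContinuousAt (fun x : ℝ => u₀ + x * c) 0 := by fun_prop
    have h3 : (fun x : ℝ => u₀ + x * c) 0 = u₀ := by simp
    have h4 : ∀ᶠ y in nhds ((fun x : ℝ => u₀ + x * c) 0), -1 < y ∧ y < 1 := by
      rw [h3]
      exact (lt_mem_nhds (by linarith)).and (gt_mem_nhds h2)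
    exact hc.eventually h4
  have hqt : ∀ (u₀ c x : ℝ), -1 < u₀ + x * c → u₀ + x * c < 1 →
      HasDerivAt (fun y : ℝ => qt (u₀ + y * c)) (c / (kap * ph (qt (u₀ + x * c)))) x := by
    intro u₀ c x h1 h2
    have h3 : HasDerivAt (fun y : ℝ => u₀ + y * c) c x := by
      have := ((hasDerivAt_id x).mul_const c).const_add u₀
      simpa using this
    have h4 := (qt_hasDerivAt h1 h2).comp x h3
    refine h4.congr_deriv ?_
    ring
  have hall : ∀ᶠ x in nhds (0 : ℝ), (∀ i, -1 < u i + x * (σ i * α i) ∧ u i + x * (σ i * α i) < 1) ∧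
      (∀ j, -1 < w j + x * (τ j * β j) ∧ w j + x * (τ j * β j) < 1) :=
    (Filter.eventually_all.2 fun i => hev _ _ (hu i).1 (hu i).2).and
      (Filter.eventually_all.2 fun j => hev _ _ (hw j).1 (hw j).2)
  have hd1 : ∀ᶠ x in nhds (0 : ℝ), HasDerivAt (fun x : ℝ => ∑ i, ∑ j, σ i * τ j *
        F ρ (qt (u i + x * (σ i * α i))) (qt (w j + x * (τ j * β j))))
      ((fun x : ℝ => ∑ i, ∑ j,
        (τ j * α i * G ρ (qt (u i + x * (σ i * α i))) (qt (w j + x * (τ j * β j))) +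
        σ i * β j * G ρ (qt (w j + x * (τ j * β j))) (qt (u i + x * (σ i * α i))))) x) x := by
    filter_upwards [hall] with x hx
    refine HasDerivAt.fun_sum fun i _ => HasDerivAt.fun_sum fun j _ => ?_
    have h1 := hqt (u i) (σ i * α i) x (hx.1 i).1 (hx.1 i).2
    have h2 := hqt (w j) (τ j * β j) x (hx.2 j).1 (hx.2 j).2
    have h3 := (F_hasDerivAt hρ hρ1 h1 h2).const_mul (σ i * τ j)
    refine h3.congr_deriv ?_
    have hp1 := (ph_pos (qt (u i + x * (σ i * α i)))).ne'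
    have hp2 := (ph_pos (qt (w j + x * (τ j * β j)))).ne'
    have hk' := hk.ne'
    have e1 : kap * ph (qt (u i + x * (σ i * α i))) * G ρ (qt (u i + x * (σ i * α i)))
        (qt (w j + x * (τ j * β j))) * (σ i * α i / (kap * ph (qt (u i + x * (σ i * α i))))) =
        G ρ (qt (u i + x * (σ i * α i))) (qt (w j + x * (τ j * β j))) * (σ i * α i) :=
      var_aux hk' hp1
    have e2 : kap * ph (qt (w j + x * (τ j * β j))) * G ρ (qt (w j + x * (τ j * β j)))
        (qt (u i + x * (σ i * α i))) * (τ j * β j / (kap * ph (qt (w j + x * (τ j * β j))))) =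
        G ρ (qt (w j + x * (τ j * β j))) (qt (u i + x * (σ i * α i))) * (τ j * β j) :=
      var_aux hk' hp2
    rw [e1, e2]
    linear_combination
      (τ j * α i * G ρ (qt (u i + x * (σ i * α i))) (qt (w j + x * (τ j * β j)))) * hσ i +
      (σ i * β j * G ρ (qt (w j + x * (τ j * β j))) (qt (u i + x * (σ i * α i)))) * hτ j
  have hd2 : HasDerivAt (fun x : ℝ => ∑ i, ∑ j,
        (τ j * α i * G ρ (qt (u i + x * (σ i * α i))) (qt (w j + x * (τ j * β j))) +
        σ i * β j * G ρ (qt (w j + x * (τ j * β j))) (qt (u i + x * (σ i * α i)))))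
      (∑ i, ∑ j, (τ j * α i * (Ke ρ (qt (u i)) (qt (w j)) * (τ j * β j)
        - ρ * Ko ρ (qt (u i)) (qt (w j)) * (ph (qt (w j)) * (σ i * α i) / ph (qt (u i))))
        + σ i * β j * (Ke ρ (qt (w j)) (qt (u i)) * (σ i * α i)
        - ρ * Ko ρ (qt (w j)) (qt (u i)) * (ph (qt (u i)) * (τ j * β j) / ph (qt (w j)))))) 0 := by
    refine HasDerivAt.fun_sum fun i _ => HasDerivAt.fun_sum fun j _ => ?_
    have hx := hall.self_of_nhds
    have h1 := hqt (u i) (σ i * α i) 0 (hx.1 i).1 (hx.1 i).2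
    have h2 := hqt (w j) (τ j * β j) 0 (hx.2 j).1 (hx.2 j).2
    have h3 := ((G_hasDerivAt hρ hρ1 h1 h2).const_mul (τ j * α i)).add
      ((G_hasDerivAt hρ hρ1 h2 h1).const_mul (σ i * β j))
    refine h3.congr_deriv ?_
    simp only [zero_mul, add_zero]
    have hp1 := (ph_pos (qt (u i))).ne'
    have hp2 := (ph_pos (qt (w j))).ne'
    have hk' := hk.ne'
    field_simp
  have h5 := second_order hd1 hd2 hmax
  simp only [zero_mul, add_zero] at h5
  exact h5

/-- Necessary conditions at a configuration which is a local maximum for all perturbations with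
`Σ α = 0`, `Σ β = 0`.

Proof. Let `a x i = qt (u i + x σ_i α_i)`, `b x j = qt (w j + x τ_j β_j)`; for `x` near `0` these are
differentiable with derivatives `σ_i α_i / (kap ph (a x i))`, `τ_j β_j / (kap ph (b x j))`. By `F_hasDerivAt` and
`σ_i² = τ_j² = 1` the function `j` has derivative
`j' x = Σ_i Σ_j (τ_j α_i G ρ (a x i) (b x j) + σ_i β_j G ρ (b x j) (a x i))`, and by `G_hasDerivAt`
(and `Ke_symm`) `j'' 0 = 2 Σ_ij α_i β_j Ke ρ (a_i) (b_j) - Σ_i ρ σ_i (Σ_j τ_j ph (b_j) Ko ρ a_i b_j) / ph (a_i) α_i²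
- Σ_j ρ τ_j (Σ_i σ_i ph (a_i) Ko ρ b_j a_i) / ph (b_j) β_j²`. Apply `second_order`. The first order condition
`j' 0 = 0` with `β = 0` and `α = e_i - e_i'` gives the first conclusion, similarly the second. -/
theorem var {ρ : ℝ} (hρ : 0 < ρ) (hρ1 : ρ < 1) {m n : ℕ} (u : Fin m → ℝ) (w : Fin n → ℝ)
    (hu : ∀ i, 0 < u i ∧ u i < 1) (hw : ∀ j, 0 < w j ∧ w j < 1) (σ : Fin m → ℝ) (τ : Fin n → ℝ)
    (hσ : ∀ i, σ i * σ i = 1) (hτ : ∀ j, τ j * τ j = 1)
    (hmax : ∀ (α : Fin m → ℝ) (β : Fin n → ℝ), ∑ i, α i = 0 → ∑ j, β j = 0 →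
      IsLocalMax (fun x : ℝ => ∑ i, ∑ j, σ i * τ j *
        F ρ (qt (u i + x * (σ i * α i))) (qt (w j + x * (τ j * β j)))) 0) :
    (∀ i i', ∑ j, τ j * G ρ (qt (u i)) (qt (w j)) = ∑ j, τ j * G ρ (qt (u i')) (qt (w j))) ∧
    (∀ j j', ∑ i, σ i * G ρ (qt (w j)) (qt (u i)) = ∑ i, σ i * G ρ (qt (w j')) (qt (u i))) ∧
    (∀ (α : Fin m → ℝ) (β : Fin n → ℝ), ∑ i, α i = 0 → ∑ j, β j = 0 →
      2 * ∑ i, ∑ j, α i * β j * Ke ρ (qt (u i)) (qt (w j)) ≤
        ∑ i, ρ * (σ i * ∑ j, τ j * ph (qt (w j)) * Ko ρ (qt (u i)) (qt (w j))) / ph (qt (u i))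
            * α i ^ 2 +
        ∑ j, ρ * (τ j * ∑ i, σ i * ph (qt (u i)) * Ko ρ (qt (w j)) (qt (u i))) / ph (qt (w j))
            * β j ^ 2) := by
  have core := fun (α : Fin m → ℝ) (β : Fin n → ℝ) (hα : ∑ i, α i = 0) (hβ : ∑ j, β j = 0) =>
    var_core hρ hρ1 u w hu hw σ τ hσ hτ α β (hmax α β hα hβ)
  refine ⟨?_, ?_, ?_⟩
  · intro i i'
    have h1 := (core (fun k => (if k = i then 1 else 0) - (if k = i' then 1 else 0)) 0
      (by simp) (by simp)).1
    have h2 : ∑ k, ((if k = i then (1 : ℝ) else 0) - (if k = i' then 1 else 0)) *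
        ∑ j, τ j * G ρ (qt (u k)) (qt (w j)) = 0 := by
      refine Eq.trans ?_ h1
      refine Finset.sum_congr rfl fun k _ => ?_
      rw [Finset.mul_sum]
      refine Finset.sum_congr rfl fun j _ => ?_
      simp only [Pi.zero_apply, mul_zero, zero_mul, add_zero]
      ring
    simp only [sub_mul, Finset.sum_sub_distrib, ite_mul, one_mul, zero_mul, Finset.sum_ite_eq',
      Finset.mem_univ, if_true] at h2
    linarith
  · intro j j'
    have h1 := (core 0 (fun k => (if k = j then 1 else 0) - (if k = j' then 1 else 0))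
      (by simp) (by simp)).1
    have h2 : ∑ k, ((if k = j then (1 : ℝ) else 0) - (if k = j' then 1 else 0)) *
        ∑ i, σ i * G ρ (qt (w k)) (qt (u i)) = 0 := by
      refine Eq.trans ?_ h1
      rw [Finset.sum_comm (s := Finset.univ) (t := Finset.univ)
        (f := fun (i : Fin m) (k : Fin n) => τ k * (0 : Fin m → ℝ) i * G ρ (qt (u i)) (qt (w k)) +
          σ i * ((if k = j then (1 : ℝ) else 0) - (if k = j' then 1 else 0)) *
            G ρ (qt (w k)) (qt (u i)))]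
      refine Finset.sum_congr rfl fun k _ => ?_
      rw [Finset.mul_sum]
      refine Finset.sum_congr rfl fun i _ => ?_
      simp only [Pi.zero_apply, mul_zero, zero_mul, zero_add]
      ring
    simp only [sub_mul, Finset.sum_sub_distrib, ite_mul, one_mul, zero_mul, Finset.sum_ite_eq',
      Finset.mem_univ, if_true] at h2
    linarith
  · intro α β hα hβ
    have h1 := (core α β hα hβ).2
    have hA : ∑ i, ρ * (σ i * ∑ j, τ j * ph (qt (w j)) * Ko ρ (qt (u i)) (qt (w j))) / ph (qt (u i))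
            * α i ^ 2 = ∑ i, ∑ j, ρ * (σ i * (τ j * ph (qt (w j)) * Ko ρ (qt (u i)) (qt (w j))))
            / ph (qt (u i)) * α i ^ 2 := by
      refine Finset.sum_congr rfl fun i _ => ?_
      rw [Finset.mul_sum, Finset.mul_sum, Finset.sum_div, Finset.sum_mul]
    have hB : ∑ j, ρ * (τ j * ∑ i, σ i * ph (qt (u i)) * Ko ρ (qt (w j)) (qt (u i))) / ph (qt (w j))
            * β j ^ 2 = ∑ i, ∑ j, ρ * (τ j * (σ i * ph (qt (u i)) * Ko ρ (qt (w j)) (qt (u i))))
            / ph (qt (w j)) * β j ^ 2 := by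
      rw [Finset.sum_comm]
      refine Finset.sum_congr rfl fun j _ => ?_
      rw [Finset.mul_sum, Finset.mul_sum, Finset.sum_div, Finset.sum_mul]
    rw [hA, hB, Finset.mul_sum]
    have hC : (∑ i, 2 * ∑ j, α i * β j * Ke ρ (qt (u i)) (qt (w j))) -
        (∑ i, ∑ j, ρ * (σ i * (τ j * ph (qt (w j)) * Ko ρ (qt (u i)) (qt (w j))))
            / ph (qt (u i)) * α i ^ 2 +
          ∑ i, ∑ j, ρ * (τ j * (σ i * ph (qt (u i)) * Ko ρ (qt (w j)) (qt (u i))))
            / ph (qt (w j)) * β j ^ 2) =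
        ∑ i, ∑ j, (τ j * α i * (Ke ρ (qt (u i)) (qt (w j)) * (τ j * β j)
        - ρ * Ko ρ (qt (u i)) (qt (w j)) * (ph (qt (w j)) * (σ i * α i) / ph (qt (u i))))
        + σ i * β j * (Ke ρ (qt (w j)) (qt (u i)) * (σ i * α i)
        - ρ * Ko ρ (qt (w j)) (qt (u i)) * (ph (qt (u i)) * (τ j * β j) / ph (qt (w j))))) := by
      rw [← Finset.sum_add_distrib, ← Finset.sum_sub_distrib]
      refine Finset.sum_congr rfl fun i _ => ?_
      rw [Finset.mul_sum, ← Finset.sum_add_distrib, ← Finset.sum_sub_distrib]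
      refine Finset.sum_congr rfl fun j _ => ?_
      rw [Ke_symm ρ (qt (w j)) (qt (u i))]
      linear_combination (-(α i * β j * Ke ρ (qt (u i)) (qt (w j)))) * hσ i -
        (α i * β j * Ke ρ (qt (u i)) (qt (w j))) * hτ j
    linarith
end Pool.Agent.H.MP_eff680_pr.D1
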