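import Pool.Agent.H.MP_eff680_pr.D1.Crit
import Pool.Agent.H.MP_eff680_pr.D1.Var
import Pool.Agent.H.MP_eff680_pr.D1.Opt
import Pool.Agent.H.MP_eff680_pr.D1.Meas
import Pool.Agent.H.MP_eff680_pr.D1.Sym
import Pool.Agent.H.MP_eff680_pr.D1.Sel

/-! The main theorem in dimension one, on the real line. -/

open MeasureTheory ProbabilityTheory Set Filter
open scoped Topology

namespace Pool.Agent.H.MP_eff680_pr.D1

/-- The optimisation theorem for the joint law of `(Θ(x), Θ(y))`. -/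
theorem opt_jl {ρ : ℝ} (hρ : 0 < ρ) (hρ1 : ρ < 1) (μ ν : ℝ) (hμ : μ ∈ Ioo (0 : ℝ) 1)
    (hν : ν ∈ Ioo (0 : ℝ) 1) (S T : Set ℝ) (hS : MeasurableSet S) (hT : MeasurableSet T)
    (hSμ : lam.real S = μ) (hTν : lam.real T = ν) :
    (jl ρ).real (S ×ˢ T) ≤ max (HH (jl ρ) μ ν) (μ + ν - 1 + HH (jl ρ) (1 - μ) (1 - ν)) := by
  refine opt (unif_jl hρ hρ1) ?_ (fun u hu w hw => pqd hρ hρ1 hu.1 hu.2 hw.1 hw.2) μ ν hμ hν S T
    hS hT hSμ hTν
  intro m n hm hn u w hu hw hu0 hw0 σ τ hσ hτ hmax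
  have hu0' : ∀ i, u i ∈ Ioo (-1 : ℝ) 1 := fun i => ⟨by linarith [(hu0 i).1], (hu0 i).2⟩
  have hw0' : ∀ j, w j ∈ Ioo (-1 : ℝ) 1 := fun j => ⟨by linarith [(hw0 j).1], (hw0 j).2⟩
  have hσ1 : ∀ i, σ i * σ i = 1 := fun i => by
    rw [hσ i i, ← two_mul, pow_mul]; norm_num
  have hτ1 : ∀ j, τ j * τ j = 1 := fun j => by
    rw [hτ j j, ← two_mul, pow_mul]; norm_num
  obtain ⟨v1, v2, v3⟩ := var hρ hρ1 u w hu0 hw0 σ τ hσ1 hτ1 (by
    intro α β hα hβ
    have h1 := hmax α β hα hβ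
    have hev : (fun x : ℝ => sumH (jl ρ) σ τ (fun i => u i + x * (σ i * α i))
          (fun j => w j + x * (τ j * β j))) =ᶠ[𝓝 0] (fun x : ℝ => ∑ i, ∑ j, σ i * τ j *
        F ρ (qt (u i + x * (σ i * α i))) (qt (w j + x * (τ j * β j)))) := by
      have e1 : ∀ᶠ x : ℝ in 𝓝 0, ∀ i, u i + x * (σ i * α i) ∈ Ioo (0 : ℝ) 1 := by
        refine eventually_all.2 fun i => ?_
        have hc : ContinuousAt (fun x : ℝ => u i + x * (σ i * α i)) 0 := by fun_prop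
        refine hc.eventually_mem (Ioo_mem_nhds ?_ ?_)
        · simpa using (hu0 i).1
        · simpa using (hu0 i).2
      have e2 : ∀ᶠ x : ℝ in 𝓝 0, ∀ j, w j + x * (τ j * β j) ∈ Ioo (0 : ℝ) 1 := by
        refine eventually_all.2 fun j => ?_
        have hc : ContinuousAt (fun x : ℝ => w j + x * (τ j * β j)) 0 := by fun_prop
        refine hc.eventually_mem (Ioo_mem_nhds ?_ ?_)
        · simpa using (hw0 j).1
        · simpa using (hw0 j).2
      filter_upwards [e1, e2] with x h1 h2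
      unfold sumH
      refine Finset.sum_congr rfl fun i _ => Finset.sum_congr rfl fun j _ => ?_
      rw [HH_jl hρ hρ1 (h1 i).1 (h1 i).2 (h2 j).1 (h2 j).2]
    exact h1.congr hev)
  exact crit hρ hρ1 hm hn (fun i => qt (u i)) (fun j => qt (w j))
    (fun i i' h => qt_strictMonoOn (hu0' i) (hu0' i') (hu h))
    (fun j j' h => qt_strictMonoOn (hw0' j) (hw0' j') (hw h))
    (fun i => qt_pos (hu0 i).1 (hu0 i).2) (fun j => qt_pos (hw0 j).1 (hw0 j).2) σ τ hσ hτ v1 v2 v3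

end Pool.Agent.H.MP_eff680_pr.D1
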