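import Pool.Agent.H.MP_eff680_pr.D1.OptBasic

/-! Approximation of Borel sets by the sets `cset L`. -/

open MeasureTheory Set Filter Topology

namespace Pool.Agent.H.MP_eff680_pr.D1

instance optapprox_noAtoms : NullSingletonClass lam := by unfold lam; infer_instance

/-- The approximation property. -/
def OptapproxP (S : Set ℝ) : Prop :=
  ∀ δ : ℝ, 0 < δ → ∃ L : List ℝ, (∀ v ∈ L, v ∈ Icc (0 : ℝ) 1) ∧
    lam.real (symmDiff S (cset L)) < δ

lemma optapprox_cset_nil : cset [] = univ := by
  ext θ; simp [cset]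

lemma optapprox_cset_single (a : ℝ) : cset [a] = Ioi a := by
  ext θ; simp [cset]

lemma optapprox_of_ae {S : Set ℝ} {L : List ℝ} (hL : ∀ v ∈ L, v ∈ Icc (0 : ℝ) 1)
    (h : S =ᵐ[lam] cset L) : OptapproxP S := by
  intro δ hδ
  refine ⟨L, hL, ?_⟩
  have : lam (symmDiff S (cset L)) = 0 := measure_symmDiff_eq_zero_iff.2 h
  rw [measureReal_def, this]
  simpa using hδ

lemma optapprox_one_ae : cset [1] =ᵐ[lam] (∅ : Set ℝ) := by
  have h := cset_one []
  have h2 : (cset [])ᶜ = (∅ : Set ℝ) := by rw [optapprox_cset_nil, compl_univ]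
  exact h.trans (Filter.EventuallyEq.of_eq h2)

lemma optapprox_compl {S : Set ℝ} (h : OptapproxP S) : OptapproxP Sᶜ := by
  intro δ hδ
  obtain ⟨L, hL, h1⟩ := h δ hδ
  refine ⟨1 :: L, ?_, ?_⟩
  · intro v hv
    rcases List.mem_cons.1 hv with rfl | hv
    · exact ⟨zero_le_one, le_refl _⟩
    · exact hL v hv
  · have e : lam.real (symmDiff Sᶜ (cset (1 :: L))) = lam.real (symmDiff Sᶜ (cset L)ᶜ) := by
      refine measureReal_congr ?_
      exact (ae_eq_refl _).symmDiff (cset_one L)
    rw [e, compl_symmDiff_compl]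
    exact h1

lemma optapprox_symmDiff {S T : Set ℝ} (h : OptapproxP S) (h' : OptapproxP T) :
    OptapproxP (symmDiff S T) := by
  intro δ hδ
  obtain ⟨L, hL, h1⟩ := h (δ / 2) (half_pos hδ)
  obtain ⟨L', hL', h1'⟩ := h' (δ / 2) (half_pos hδ)
  refine ⟨1 :: (L ++ L'), ?_, ?_⟩
  · intro v hv
    rcases List.mem_cons.1 hv with rfl | hv
    · exact ⟨zero_le_one, le_refl _⟩
    · rcases List.mem_append.1 hv with hv | hv
      · exact hL v hv
      · exact hL' v hv
  · have e : lam.real (symmDiff (symmDiff S T) (cset (1 :: (L ++ L'))))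
        = lam.real (symmDiff (symmDiff S T) (symmDiff (cset L) (cset L'))) := by
      refine measureReal_congr ?_
      exact (ae_eq_refl _).symmDiff (cset_append L L')
    rw [e, symmDiff_symmDiff_symmDiff_comm]
    calc lam.real (symmDiff (symmDiff S (cset L)) (symmDiff T (cset L')))
        ≤ lam.real (symmDiff S (cset L) ∪ symmDiff T (cset L')) := by
          refine measureReal_mono ?_ (measure_ne_top _ _)
          exact symmDiff_le_sup
      _ ≤ lam.real (symmDiff S (cset L)) + lam.real (symmDiff T (cset L')) :=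
          measureReal_union_le _ _
      _ < δ := by linarith

lemma optapprox_empty : OptapproxP (∅ : Set ℝ) := by
  refine optapprox_of_ae (L := [1]) ?_ optapprox_one_ae.symm
  intro v hv
  rw [List.mem_singleton.1 hv]
  exact ⟨zero_le_one, le_refl _⟩

lemma optapprox_Iio (a : ℝ) : OptapproxP (Iio a) := by
  rcases lt_or_ge a 0 with ha | ha
  · have h : (Iio a : Set ℝ) =ᵐ[lam] (∅ : Set ℝ) := by
      rw [ae_eq_empty]
      unfold lam
      rw [Measure.restrict_apply measurableSet_Iio]
      have : Iio a ∩ Icc (0 : ℝ) 1 = ∅ := by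
        ext θ
        simp only [mem_inter_iff, mem_Iio, mem_Icc, mem_empty_iff_false, iff_false]
        intro h
        linarith [h.1, h.2.1]
      rw [this, measure_empty]
    refine optapprox_of_ae (L := [1]) ?_ (h.trans optapprox_one_ae.symm)
    intro v hv
    rw [List.mem_singleton.1 hv]
    exact ⟨zero_le_one, le_refl _⟩
  rcases le_or_gt a 1 with ha1 | ha1
  · refine optapprox_of_ae (L := [1, a]) ?_ ?_
    · intro v hv
      simp only [List.mem_cons, List.not_mem_nil, or_false] at hv
      rcases hv with rfl | rfl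
      · exact ⟨zero_le_one, le_refl _⟩
      · exact ⟨ha, ha1⟩
    · refine (?_ : (Iio a : Set ℝ) =ᵐ[lam] (cset [a])ᶜ).trans (cset_one [a]).symm
      have h2 : (cset [a])ᶜ = Iic a := by rw [optapprox_cset_single, compl_Ioi]
      exact Iio_ae_eq_Iic.trans (Filter.EventuallyEq.of_eq h2.symm)
  · have h : (Iio a : Set ℝ) =ᵐ[lam] (univ : Set ℝ) := by
      rw [ae_eq_univ]
      unfold lam
      rw [Measure.restrict_apply measurableSet_Iio.compl]
      have : (Iio a)ᶜ ∩ Icc (0 : ℝ) 1 = ∅ := by
        ext θ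
        simp only [mem_inter_iff, mem_compl_iff, mem_Iio, mem_Icc, mem_empty_iff_false,
          iff_false, not_lt]
        intro h
        linarith [h.1, h.2.2]
      rw [this, measure_empty]
    refine optapprox_of_ae (L := []) (by simp) ?_
    rw [optapprox_cset_nil]
    exact h

lemma optapprox_iUnion (f : ℕ → Set ℝ) (hd : Pairwise (Function.onFun Disjoint f))
    (hm : ∀ i, MeasurableSet (f i)) (h : ∀ i, OptapproxP (f i)) : OptapproxP (⋃ i, f i) := by
  have hfin : ∀ n : ℕ, OptapproxP (⋃ i < n, f i) := by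
    intro n
    induction n with
    | zero => simpa using optapprox_empty
    | succ n ih =>
      have e : (⋃ i < n + 1, f i) = symmDiff (⋃ i < n, f i) (f n) := by
        have hdj : Disjoint (⋃ i < n, f i) (f n) := by
          rw [Set.disjoint_iUnion_left]
          intro i
          rw [Set.disjoint_iUnion_left]
          intro hi
          exact hd (ne_of_lt hi)
        rw [hdj.symmDiff_eq_sup]
        ext θ
        simp only [mem_iUnion, exists_prop, sup_eq_union, mem_union]
        constructor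
        · rintro ⟨i, hi, hθ⟩
          rcases Nat.lt_succ_iff_lt_or_eq.1 hi with hi | rfl
          · exact Or.inl ⟨i, hi, hθ⟩
          · exact Or.inr hθ
        · rintro (⟨i, hi, hθ⟩ | hθ)
          · exact ⟨i, by omega, hθ⟩
          · exact ⟨n, by omega, hθ⟩
      rw [e]
      exact optapprox_symmDiff ih (h n)
  intro δ hδ
  have ht := tendsto_measure_biUnion_Ici_zero_of_pairwise_disjoint (μ := lam)
    (fun i => (hm i).nullMeasurableSet) hd
  have ht2 : ∀ᶠ n in atTop, lam (⋃ i ≥ n, f i) < ENNReal.ofReal (δ / 2) := by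
    have h0 : (0 : ENNReal) < ENNReal.ofReal (δ / 2) := ENNReal.ofReal_pos.2 (half_pos hδ)
    have := ht.eventually (Iio_mem_nhds h0)
    simpa using this
  obtain ⟨n, hn⟩ := ht2.exists
  obtain ⟨L, hL, hLδ⟩ := hfin n (δ / 2) (half_pos hδ)
  refine ⟨L, hL, ?_⟩
  have hsub : symmDiff (⋃ i, f i) (cset L) ⊆ (⋃ i ≥ n, f i) ∪ symmDiff (⋃ i < n, f i) (cset L) := by
    intro θ hθ
    rcases hθ with ⟨h1, h2⟩ | ⟨h1, h2⟩
    · obtain ⟨i, hi⟩ := mem_iUnion.1 h1
      rcases lt_or_ge i n with hin | hin
      · right; left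
        exact ⟨mem_iUnion₂.2 ⟨i, hin, hi⟩, h2⟩
      · left
        exact mem_iUnion₂.2 ⟨i, hin, hi⟩
    · right; right
      refine ⟨h1, fun h3 => h2 ?_⟩
      obtain ⟨i, _, hi⟩ := mem_iUnion₂.1 h3
      exact mem_iUnion.2 ⟨i, hi⟩
  calc lam.real (symmDiff (⋃ i, f i) (cset L))
      ≤ lam.real ((⋃ i ≥ n, f i) ∪ symmDiff (⋃ i < n, f i) (cset L)) :=
        measureReal_mono hsub (measure_ne_top _ _)
    _ ≤ lam.real (⋃ i ≥ n, f i) + lam.real (symmDiff (⋃ i < n, f i) (cset L)) :=
        measureReal_union_le _ _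
    _ < δ / 2 + δ / 2 := by
        refine add_lt_add ?_ hLδ
        rw [measureReal_def]
        exact (ENNReal.lt_ofReal_iff_toReal_lt (measure_ne_top _ _)).1 hn
    _ = δ := by ring

/-- Every Borel set is approximated by sets `cset L` with `L ⊂ [0, 1]`.

Proof. π-λ theorem (`MeasurableSpace.induction_on_inter` with `borel_eq_generateFrom_Iio`, `isPiSystem_Iio`).
Empty set: `cset [1]` has measure zero in `[0,1]`. `Iio a`: if `0 ≤ a ≤ 1` it is a.e. `cset [1, a]`
(`(θ - 1) (θ - a) > 0` iff `θ < a`), if `a < 0` it is null, if `a > 1` it is a.e. everything, `cset []`.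
Complement: `cset (1 :: L)` (`cset_one`). Countable disjoint unions: approximate the union by finitely many sets
up to `δ/2` and each of these up to `δ / 2^(i+2)` (or `δ/(2N)`), and note that the union of finitely many
disjoint sets is their symmetric difference; symmetric differences of sets `cset L` are again of this form
(`cset_append`), and `(A Δ B) Δ (A' Δ B') ⊂ (A Δ A') ∪ (B Δ B')`. -/
theorem approx (S : Set ℝ) (hS : MeasurableSet S) (δ : ℝ) (hδ : 0 < δ) :
    ∃ L : List ℝ, (∀ v ∈ L, v ∈ Icc (0 : ℝ) 1) ∧ lam.real (symmDiff S (cset L)) < δ := by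
  have key : OptapproxP S := by
    refine MeasurableSpace.induction_on_inter (C := fun s _ => OptapproxP s)
      (s := range Iio) ?_ isPiSystem_Iio optapprox_empty ?_ ?_ ?_ S hS
    · rw [← borel_eq_generateFrom_Iio]
      exact BorelSpace.measurable_eq
    · rintro t ⟨a, rfl⟩
      exact optapprox_Iio a
    · intro t _ ht
      exact optapprox_compl ht
    · intro f hd hm hf
      exact optapprox_iUnion f hd hm hf
  exact key δ hδ

end Pool.Agent.H.MP_eff680_pr.D1
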