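import Pool.Agent.H.MP_eff680_pr.D1.Defs

/-! The function `Ψ` of four variables. -/

open MeasureTheory Set

namespace Pool.Agent.H.MP_eff680_pr.D1

/-- `Ψ(N; t, a, b) = Σ_{σ ∈ {±1}³} σ_t σ_a σ_b W(N + σ_t t + σ_a a + σ_b b)`. -/
noncomputable def Psi (N t a b : ℝ) : ℝ :=
  W (N + t + a + b) - W (N + t + a - b) - W (N + t - a + b) - W (N - t + a + b)
    + W (N + t - a - b) + W (N - t + a - b) + W (N - t - a + b) - W (N - t - a - b)

/-- `∂Ψ/∂t`; by the symmetry of `Ψ`, `∂Ψ/∂a = Pt N a t b` and `∂Ψ/∂b = Pt N b t a`. -/
noncomputable def Pt (N t a b : ℝ) : ℝ :=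
  ph (N + t + a + b) - ph (N + t + a - b) - ph (N + t - a + b) + ph (N - t + a + b)
    + ph (N + t - a - b) - ph (N - t + a - b) - ph (N - t - a + b) + ph (N - t - a - b)

/-- `∂Ψ/∂N`. -/
noncomputable def PN (N t a b : ℝ) : ℝ :=
  ph (N + t + a + b) - ph (N + t + a - b) - ph (N + t - a + b) - ph (N - t + a + b)
    + ph (N + t - a - b) + ph (N - t + a - b) + ph (N - t - a + b) - ph (N - t - a - b)

lemma Psi_swap_ta (N t a b : ℝ) : Psi N a t b = Psi N t a b := by
  unfold Psi
  rw [show N + a + t + b = N + t + a + b by ring, show N + a + t - b = N + t + a - b by ring,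
    show N + a - t + b = N - t + a + b by ring, show N - a + t + b = N + t - a + b by ring,
    show N + a - t - b = N - t + a - b by ring, show N - a + t - b = N + t - a - b by ring,
    show N - a - t + b = N - t - a + b by ring, show N - a - t - b = N - t - a - b by ring]
  ring

lemma Psi_swap_ab (N t a b : ℝ) : Psi N t b a = Psi N t a b := by
  unfold Psi
  rw [show N + t + b + a = N + t + a + b by ring, show N + t + b - a = N + t - a + b by ring,
    show N + t - b + a = N + t + a - b by ring, show N - t + b + a = N - t + a + b by ring,
    show N + t - b - a = N + t - a - b by ring, show N - t + b - a = N - t - a + b by ring,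
    show N - t - b + a = N - t + a - b by ring, show N - t - b - a = N - t - a - b by ring]
  ring

lemma Pt_swap_ab (N t a b : ℝ) : Pt N t b a = Pt N t a b := by
  unfold Pt
  rw [show N + t + b + a = N + t + a + b by ring, show N + t + b - a = N + t - a + b by ring,
    show N + t - b + a = N + t + a - b by ring, show N - t + b + a = N - t + a + b by ring,
    show N + t - b - a = N + t - a - b by ring, show N - t + b - a = N - t - a + b by ring,
    show N - t - b + a = N - t + a - b by ring, show N - t - b - a = N - t - a - b by ring]
  ring

/-- The sum of the four derivatives in closed form. -/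
lemma sum_eq (N t a b : ℝ) : PN N t a b + Pt N t a b + Pt N a t b + Pt N b t a =
    4 * ph (N + t + a + b) + 2 * ph (N - t - a - b)
      - 2 * (ph (N + t + a - b) + ph (N + t - a + b) + ph (N - t + a + b)) := by
  unfold PN Pt
  rw [show N + a + t + b = N + t + a + b by ring, show N + a + t - b = N + t + a - b by ring,
    show N + a - t + b = N - t + a + b by ring, show N - a + t + b = N + t - a + b by ring,
    show N + a - t - b = N - t + a - b by ring, show N - a + t - b = N + t - a - b by ring,
    show N - a - t + b = N - t - a + b by ring, show N - a - t - b = N - t - a - b by ring,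
    show N + b + t + a = N + t + a + b by ring, show N + b + t - a = N + t - a + b by ring,
    show N + b - t + a = N - t + a + b by ring, show N - b + t + a = N + t + a - b by ring,
    show N + b - t - a = N - t - a + b by ring, show N - b + t - a = N + t - a - b by ring,
    show N - b - t + a = N - t + a - b by ring, show N - b - t - a = N - t - a - b by ring]
  ring

end Pool.Agent.H.MP_eff680_pr.D1
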