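import Pool.Agent.H.MP_eff680_pr.D1.PsiDefs

/-! At a zero of `Ψ` the derivative `∂Ψ/∂t` is negative. -/

open MeasureTheory Set

namespace Pool.Agent.H.MP_eff680_pr.D1

/-- An even primitive of `ph (r - b) - ph (r + b)`. -/
noncomputable def ptNegG (b x : ℝ) : ℝ := W (x - b) - W (x + b)

lemma ptNegG_neg (b x : ℝ) : ptNegG b (-x) = ptNegG b x := by
  unfold ptNegG
  rw [show -x - b = -(x + b) by ring, show -x + b = -(x - b) by ring, W_neg, W_neg]
  ring

lemma ptNegG_abs (b x : ℝ) : ptNegG b |x| = ptNegG b x := by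
  rcases abs_cases x with h | h
  · rw [h.1]
  · rw [h.1, ptNegG_neg]

lemma ptNegG_hasDerivAt (b x : ℝ) : HasDerivAt (ptNegG b) (ph (x - b) - ph (x + b)) x := by
  have h1 : HasDerivAt (fun y => W (y - b)) (ph (x - b)) x :=
    (HasDerivAt.comp (h₂ := W) (h := fun y => y - b) x (W_hasDerivAt (x - b))
      ((hasDerivAt_id x).sub_const b)).congr_deriv (mul_one _)
  have h2 : HasDerivAt (fun y => W (y + b)) (ph (x + b)) x :=
    (HasDerivAt.comp (h₂ := W) (h := fun y => y + b) x (W_hasDerivAt (x + b))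
      ((hasDerivAt_id x).add_const b)).congr_deriv (mul_one _)
  exact h1.sub h2

lemma ptNegG_strict {b : ℝ} (hb : 0 < b) : StrictMonoOn (ptNegG b) (Ici 0) := by
  refine strictMonoOn_of_deriv_pos (convex_Ici 0)
    (fun x _ => (ptNegG_hasDerivAt b x).continuousAt.continuousWithinAt) fun x hx => ?_
  rw [interior_Ici] at hx
  have hx0 : 0 < x := hx
  rw [(ptNegG_hasDerivAt b x).deriv, sub_pos]
  unfold ph
  apply Real.exp_lt_exp.2
  nlinarith [mul_pos hx0 hb]

lemma ptNeg_V_pos {y a b : ℝ} (hy : 0 < y) (ha : 0 < a) (hb : 0 < b) :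
    ptNegG b (y - a) < ptNegG b (y + a) := by
  rw [← ptNegG_abs b (y - a)]
  refine ptNegG_strict hb (mem_Ici.2 (abs_nonneg _)) (show (0 : ℝ) ≤ y + a by linarith) ?_
  rw [abs_lt]
  constructor <;> linarith

lemma ptNeg_V_nonneg {y a b : ℝ} (hy : 0 ≤ y) (ha : 0 < a) (hb : 0 < b) :
    ptNegG b (y - a) ≤ ptNegG b (y + a) := by
  rw [← ptNegG_abs b (y - a)]
  refine (ptNegG_strict hb).monotoneOn (mem_Ici.2 (abs_nonneg _)) (show (0 : ℝ) ≤ y + a by linarith) ?_
  rw [abs_le]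
  constructor <;> linarith

lemma ptNeg_Psi_eq (N t a b : ℝ) : Psi N t a b =
    (ptNegG b (N - t + a) - ptNegG b (N - t - a))
      - (ptNegG b (N + t + a) - ptNegG b (N + t - a)) := by
  unfold Psi ptNegG
  ring

lemma ptNeg_of_le {N t a b : ℝ} (hN : 0 < N) (ht : 0 < t) (ha : 0 < a) (hb : 0 < b)
    (h : N ≤ t) : Psi N t a b < 0 := by
  rw [ptNeg_Psi_eq]
  have h1 := ptNeg_V_pos (y := N + t) (by linarith) ha hb
  have h2 := ptNeg_V_nonneg (y := t - N) (by linarith) ha hb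
  have h3 : ptNegG b (N - t + a) = ptNegG b (t - N - a) := by
    rw [← ptNegG_neg]; congr 1; ring
  have h4 : ptNegG b (N - t - a) = ptNegG b (t - N + a) := by
    rw [← ptNegG_neg]; congr 1; ring
  rw [h3, h4]
  linarith

/-- A zero of `Ψ` with positive arguments has `N > t, a, b`.

Proof. By symmetry it is enough to show `Ψ < 0` for `N ≤ t` (then for `a`, `b` by `Psi_swap_ta`,
`Psi_swap_ab`). Put `V y = W (y + a - b) - W (y - a - b) - W (y + a + b) + W (y - a + b)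
= ∫ r in (y - a)..(y + a), (ph (r - b) - ph (r + b))`. Then `Ψ = V (N - t) - V (N + t)`; `V` is odd and
`V y > 0` for `y > 0`: the integrand is odd in `r` and positive for `r > 0`
(`(r - b)^2 < (r + b)^2`), so the part of `(y - a, y + a)` that is symmetric about `0` cancels.
(Alternative: `V 0 = 0` and `V' y > 0`? no, `V` is not monotone; use the integral.) Hence for `0 < N ≤ t`:
`Ψ = - V (t - N) - V (N + t) < 0`. -/
theorem lt_of_zero {N t a b : ℝ} (hN : 0 < N) (ht : 0 < t) (ha : 0 < a) (hb : 0 < b)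
    (h : Psi N t a b = 0) : t < N ∧ a < N ∧ b < N := by
  refine ⟨?_, ?_, ?_⟩
  · by_contra hc
    have := ptNeg_of_le hN ht ha hb (not_lt.1 hc)
    linarith
  · by_contra hc
    have h1 := ptNeg_of_le hN ha ht hb (not_lt.1 hc)
    rw [Psi_swap_ta] at h1
    linarith
  · by_contra hc
    have h1 := ptNeg_of_le hN hb ht ha (not_lt.1 hc)
    rw [Psi_swap_ta, Psi_swap_ab] at h1
    linarith

lemma ptNeg_ph_add (M s : ℝ) :
    ph (M + s) + ph (M - s) = 2 * Real.exp (-s ^ 2 / 2) * (ph M * Real.cosh (M * s)) := by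
  unfold ph
  rw [show -(M + s) ^ 2 / 2 = -s ^ 2 / 2 + -M ^ 2 / 2 + -(M * s) by ring,
    show -(M - s) ^ 2 / 2 = -s ^ 2 / 2 + -M ^ 2 / 2 + M * s by ring,
    Real.exp_add, Real.exp_add, Real.exp_add, Real.exp_add, Real.cosh_eq]
  ring

/-- The function `Q`. -/
noncomputable def ptNegQ (N a b s : ℝ) : ℝ :=
  ph (N + a + b) * Real.cosh ((N + a + b) * s) + ph (N - a - b) * Real.cosh ((N - a - b) * s)
    - ph (N + a - b) * Real.cosh ((N + a - b) * s) - ph (N - a + b) * Real.cosh ((N - a + b) * s)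

lemma ptNeg_Pt_eq (N s a b : ℝ) :
    Pt N s a b = 2 * Real.exp (-s ^ 2 / 2) * ptNegQ N a b s := by
  have h1 := ptNeg_ph_add (N + a + b) s
  have h2 := ptNeg_ph_add (N - a - b) s
  have h3 := ptNeg_ph_add (N + a - b) s
  have h4 := ptNeg_ph_add (N - a + b) s
  unfold Pt ptNegQ
  rw [show N + s + a + b = N + a + b + s by ring, show N + s + a - b = N + a - b + s by ring,
    show N + s - a + b = N - a + b + s by ring, show N - s + a + b = N + a + b - s by ring,
    show N + s - a - b = N - a - b + s by ring, show N - s + a - b = N + a - b - s by ring,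
    show N - s - a + b = N - a + b - s by ring, show N - s - a - b = N - a - b - s by ring]
  linear_combination h1 + h2 - h3 - h4

lemma ptNeg_Psi_hasDerivAt (N a b s : ℝ) :
    HasDerivAt (fun s => Psi N s a b) (Pt N s a b) s := by
  have hp : ∀ c : ℝ, HasDerivAt (fun s => W (N + s + c)) (ph (N + s + c)) s := fun c => by
    exact ((W_hasDerivAt (N + s + c)).comp s
      (((hasDerivAt_id s).const_add N).add_const c)).congr_deriv (mul_one _)
  have hm : ∀ c : ℝ, HasDerivAt (fun s => W (N - s + c)) (-ph (N - s + c)) s := fun c => by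
    exact ((W_hasDerivAt (N - s + c)).comp s
      (((hasDerivAt_id s).const_sub N).add_const c)).congr_deriv (mul_neg_one _)
  have key := (((((((hp (a + b)).sub (hp (a - b))).sub (hp (-a + b))).sub (hm (a + b))).add
    (hp (-a - b))).add (hm (a - b))).add (hm (-a + b))).sub (hm (-a - b))
  refine (key.congr_of_eventuallyEq (Filter.Eventually.of_forall fun x => ?_)).congr_deriv ?_
  · simp only [Psi, Pi.sub_apply, Pi.add_apply]
    rw [show N + x + a + b = N + x + (a + b) by ring, show N + x + a - b = N + x + (a - b) by ring,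
      show N + x - a + b = N + x + (-a + b) by ring, show N - x + a + b = N - x + (a + b) by ring,
      show N + x - a - b = N + x + (-a - b) by ring, show N - x + a - b = N - x + (a - b) by ring,
      show N - x - a + b = N - x + (-a + b) by ring, show N - x - a - b = N - x + (-a - b) by ring]
  · simp only [Pt]
    rw [show N + s + a + b = N + s + (a + b) by ring, show N + s + a - b = N + s + (a - b) by ring,
      show N + s - a + b = N + s + (-a + b) by ring, show N - s + a + b = N - s + (a + b) by ring,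
      show N + s - a - b = N + s + (-a - b) by ring, show N - s + a - b = N - s + (a - b) by ring,
      show N - s - a + b = N - s + (-a + b) by ring, show N - s - a - b = N - s + (-a - b) by ring]
    ring

lemma ptNeg_cosh {n m v s : ℝ} (hn : 0 ≤ n) (hnm : n < m) (hv : 0 ≤ v) (hvs : v < s) :
    Real.cosh (n * s) * Real.cosh (m * v) < Real.cosh (n * v) * Real.cosh (m * s) := by
  have e : ∀ x y : ℝ, Real.cosh x * Real.cosh y = (Real.cosh (x + y) + Real.cosh (x - y)) / 2 :=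
    fun x y => by rw [Real.cosh_add, Real.cosh_sub]; ring
  rw [e, e]
  have h1 : Real.cosh (n * s + m * v) < Real.cosh (n * v + m * s) := by
    rw [Real.cosh_lt_cosh]
    have h0 : 0 ≤ n * s + m * v := by
      have := mul_nonneg hn (hv.trans hvs.le)
      have := mul_nonneg (hn.trans hnm.le) hv
      linarith
    rw [abs_of_nonneg h0]
    refine lt_of_lt_of_le ?_ (le_abs_self _)
    nlinarith [mul_pos (sub_pos.2 hnm) (sub_pos.2 hvs)]
  have h2 : Real.cosh (n * s - m * v) < Real.cosh (n * v - m * s) := by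
    rw [Real.cosh_lt_cosh]
    refine lt_of_lt_of_le ?_ (neg_le_abs _)
    rw [abs_lt]
    have hs : 0 < s := lt_of_le_of_lt hv hvs
    constructor
    · nlinarith [mul_pos (add_pos_of_nonneg_of_pos hn (lt_of_le_of_lt hn hnm)) (sub_pos.2 hvs)]
    · nlinarith [mul_pos (sub_pos.2 hnm) (add_pos_of_pos_of_nonneg hs hv)]
  linarith

lemma ptNeg_sign {A₁ A₃ A₄ n₁ n₃ n₄ v s : ℝ} (h3 : 0 < A₃) (h4 : 0 < A₄)
    (hn3 : 0 ≤ n₃) (hn4 : 0 ≤ n₄) (hn31 : n₃ < n₁) (hn41 : n₄ < n₁) (hv : 0 ≤ v) (hvs : v < s)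
    (h : 0 ≤ A₁ * Real.cosh (n₁ * v) - A₃ * Real.cosh (n₃ * v) - A₄ * Real.cosh (n₄ * v)) :
    0 < A₁ * Real.cosh (n₁ * s) - A₃ * Real.cosh (n₃ * s) - A₄ * Real.cosh (n₄ * s) := by
  have e3 := mul_lt_mul_of_pos_left (ptNeg_cosh hn3 hn31 hv hvs) h3
  have e4 := mul_lt_mul_of_pos_left (ptNeg_cosh hn4 hn41 hv hvs) h4
  have e1 := mul_nonneg (Real.cosh_pos (n₁ * s)).le h
  have hc := Real.cosh_pos (n₁ * v)
  have key : 0 < Real.cosh (n₁ * v) *
      (A₁ * Real.cosh (n₁ * s) - A₃ * Real.cosh (n₃ * s) - A₄ * Real.cosh (n₄ * s)) := by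
    nlinarith
  exact (mul_pos_iff_of_pos_left hc).1 key

lemma ptNeg_cosh_deriv (n s : ℝ) :
    HasDerivAt (fun s => Real.cosh (n * s)) (n * Real.sinh (n * s)) s := by
  exact ((Real.hasDerivAt_cosh (n * s)).comp s ((hasDerivAt_id s).const_mul n)).congr_deriv
    (by ring)

lemma ptNeg_sinh_deriv (n s : ℝ) :
    HasDerivAt (fun s => Real.sinh (n * s)) (n * Real.cosh (n * s)) s := by
  exact ((Real.hasDerivAt_sinh (n * s)).comp s ((hasDerivAt_id s).const_mul n)).congr_deriv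
    (by ring)

/-- The function `D_j`. -/
noncomputable def ptNegD (m n s : ℝ) : ℝ :=
  n * Real.sinh (n * s) * Real.cosh (m * s) - m * Real.cosh (n * s) * Real.sinh (m * s)

lemma ptNegD_hasDerivAt (m n s : ℝ) : HasDerivAt (ptNegD m n)
    ((n ^ 2 - m ^ 2) * (Real.cosh (n * s) * Real.cosh (m * s))) s := by
  have h := (((ptNeg_sinh_deriv n s).const_mul n).mul (ptNeg_cosh_deriv m s)).sub
    (((ptNeg_cosh_deriv n s).const_mul m).mul (ptNeg_sinh_deriv m s))
  refine h.congr_deriv ?_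
  ring

/-- Abstract form: an exponential sum with sign changes. -/
lemma ptNeg_abstract {P₁ P₂ P₃ P₄ n₁ m n₃ n₄ : ℝ} (hP3 : 0 < P₃) (hP4 : 0 < P₄)
    (hm3 : m ^ 2 < n₃ ^ 2) (hm4 : m ^ 2 < n₄ ^ 2) (hn3 : 0 ≤ n₃) (hn4 : 0 ≤ n₄)
    (hn31 : n₃ < n₁) (hn41 : n₄ < n₁) (Q : ℝ → ℝ)
    (hQ : Q = fun s => P₁ * Real.cosh (n₁ * s) + P₂ * Real.cosh (m * s)
      - P₃ * Real.cosh (n₃ * s) - P₄ * Real.cosh (n₄ * s))
    {t₁ t : ℝ} (ht₁ : 0 < t₁) (ht₁t : t₁ < t) (h1 : Q t₁ ≤ 0) (h2 : 0 ≤ Q t) :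
    ∀ s, t < s → 0 < Q s := by
  set r : ℝ → ℝ := fun s => Q s / Real.cosh (m * s) with hr
  set R : ℝ → ℝ := fun s => P₁ * ptNegD m n₁ s - P₃ * ptNegD m n₃ s - P₄ * ptNegD m n₄ s with hR
  have hRd : ∀ s, HasDerivAt R (Real.cosh (m * s) *
      (P₁ * (n₁ ^ 2 - m ^ 2) * Real.cosh (n₁ * s) - P₃ * (n₃ ^ 2 - m ^ 2) * Real.cosh (n₃ * s)
        - P₄ * (n₄ ^ 2 - m ^ 2) * Real.cosh (n₄ * s))) s := by
    intro s
    have h := (((ptNegD_hasDerivAt m n₁ s).const_mul P₁).sub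
      ((ptNegD_hasDerivAt m n₃ s).const_mul P₃)).sub ((ptNegD_hasDerivAt m n₄ s).const_mul P₄)
    refine h.congr_deriv ?_
    ring
  have hrd : ∀ s, HasDerivAt r (R s / Real.cosh (m * s) ^ 2) s := by
    intro s
    have hQd : HasDerivAt Q (P₁ * (n₁ * Real.sinh (n₁ * s)) + P₂ * (m * Real.sinh (m * s))
        - P₃ * (n₃ * Real.sinh (n₃ * s)) - P₄ * (n₄ * Real.sinh (n₄ * s))) s := by
      rw [hQ]
      exact ((((ptNeg_cosh_deriv n₁ s).const_mul P₁).add
        ((ptNeg_cosh_deriv m s).const_mul P₂)).sub ((ptNeg_cosh_deriv n₃ s).const_mul P₃)).sub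
        ((ptNeg_cosh_deriv n₄ s).const_mul P₄)
    have h := hQd.div (ptNeg_cosh_deriv m s) (Real.cosh_pos _).ne'
    refine h.congr_deriv ?_
    congr 1
    simp only [hR, hQ, ptNegD]
    ring
  have hR0 : R 0 = 0 := by simp [hR, ptNegD]
  -- step 4
  have hrt : r t₁ ≤ r t := by
    have hc1 := Real.cosh_pos (m * t₁)
    have hc2 := Real.cosh_pos (m * t)
    exact (div_nonpos_of_nonpos_of_nonneg h1 hc1.le).trans (div_nonneg h2 hc2.le)
  obtain ⟨s₁, hs₁, hs₁e⟩ := exists_hasDerivAt_eq_slope r (fun s => R s / Real.cosh (m * s) ^ 2)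
    ht₁t (fun s _ => (hrd s).continuousAt.continuousWithinAt) (fun s _ => hrd s)
  have hRs₁ : 0 ≤ R s₁ := by
    have h3 : 0 ≤ R s₁ / Real.cosh (m * s₁) ^ 2 := by
      have : R s₁ / Real.cosh (m * s₁) ^ 2 = (r t - r t₁) / (t - t₁) := hs₁e
      rw [this]
      exact div_nonneg (by linarith) (by linarith)
    have hc : 0 < Real.cosh (m * s₁) ^ 2 := pow_pos (Real.cosh_pos _) 2
    by_contra hneg
    have := div_neg_of_neg_of_pos (not_le.1 hneg) hc
    linarith
  have hs₁0 : 0 < s₁ := ht₁.trans hs₁.1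
  obtain ⟨v, hv, hve⟩ := exists_hasDerivAt_eq_slope R _ hs₁0
    (fun s _ => (hRd s).continuousAt.continuousWithinAt) (fun s _ => hRd s)
  have hBv : 0 ≤ P₁ * (n₁ ^ 2 - m ^ 2) * Real.cosh (n₁ * v)
      - P₃ * (n₃ ^ 2 - m ^ 2) * Real.cosh (n₃ * v)
        - P₄ * (n₄ ^ 2 - m ^ 2) * Real.cosh (n₄ * v) := by
    rw [hR0] at hve
    have h3 : 0 ≤ (R s₁ - 0) / (s₁ - 0) := div_nonneg (by linarith) (by linarith)
    rw [← hve] at h3
    exact (mul_nonneg_iff_of_pos_left (Real.cosh_pos _)).1 h3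
  have hA3 : 0 < P₃ * (n₃ ^ 2 - m ^ 2) := mul_pos hP3 (by linarith)
  have hA4 : 0 < P₄ * (n₄ ^ 2 - m ^ 2) := mul_pos hP4 (by linarith)
  have hRmono : StrictMonoOn R (Ici v) := by
    refine strictMonoOn_of_deriv_pos (convex_Ici v)
      (fun s _ => (hRd s).continuousAt.continuousWithinAt) fun s hs => ?_
    rw [interior_Ici] at hs
    rw [(hRd s).deriv]
    exact mul_pos (Real.cosh_pos _) (ptNeg_sign hA3 hA4 hn3 hn4 hn31 hn41 hv.1.le hs hBv)
  have hRpos : ∀ s, s₁ < s → 0 < R s := fun s hs =>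
    lt_of_le_of_lt hRs₁ (hRmono (le_of_lt hv.2) (le_of_lt (hv.2.trans hs)) hs)
  have hrmono : StrictMonoOn r (Ici s₁) := by
    refine strictMonoOn_of_deriv_pos (convex_Ici s₁)
      (fun s _ => (hrd s).continuousAt.continuousWithinAt) fun s hs => ?_
    rw [interior_Ici] at hs
    rw [(hrd s).deriv]
    exact div_pos (hRpos s hs) (pow_pos (Real.cosh_pos _) 2)
  intro s hs
  have h3 : r t < r s := hrmono (le_of_lt hs₁.2) (le_of_lt (hs₁.2.trans hs)) hs
  have h4 : 0 ≤ r t := div_nonneg h2 (Real.cosh_pos _).le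
  have h5 : 0 < Q s / Real.cosh (m * s) := lt_of_le_of_lt h4 h3
  have hc := Real.cosh_pos (m * s)
  rw [div_pos_iff] at h5
  rcases h5 with h5 | h5
  · exact h5.1
  · linarith [h5.2]

/-- At a zero of `Ψ`, `∂Ψ/∂t < 0`.

Proof. Fix `N, a, b`, with `a, b < N` by `lt_of_zero`, and put `n₁ = N + a + b`, `n₃ = N + |a - b|`,
`n₄ = N - |a - b|`, `n₂ = |N - a - b|`; so `0 ≤ n₂ < n₄ ≤ n₃ < n₁`. Using
`ph (M + s) + ph (M - s) = 2 * exp (-s^2/2) * ph M * cosh (M s)` one gets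
`Pt N s a b = 2 exp (-s^2/2) * Q s`, `Q s = P₁ cosh (n₁ s) + P₂ cosh (n₂ s) - P₃ cosh (n₃ s) - P₄ cosh (n₄ s)`
with `P_j = ph n_j > 0`. `s ↦ Psi N s a b` has derivative `Pt N s a b`, vanishes at `s = 0`, at `s = t` and
tends to `0` as `s → ∞`. So there are `0 < t₁ < t < t₂` with `Q t₁ ≤ 0`, `Q t₂ ≤ 0` (if `Q > 0` on `(0, t)`
then `Ψ` would be strictly increasing on `[0, t]`; if `Q > 0` on `(t, ∞)` then it would be strictly increasing
there and positive in the limit).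
Let `r s = Q s / cosh (n₂ s)`. Claim: `r t < max (r t₁) (r t₂)`; this gives `Q t < 0`.
`r' = R / cosh (n₂ s)^2`, `R s = P₁ D₁ s - P₃ D₃ s - P₄ D₄ s`,
`D_j s = n_j sinh (n_j s) cosh (n₂ s) - n₂ cosh (n_j s) sinh (n₂ s)`, `R 0 = 0` and
`D_j' s = (n_j^2 - n₂^2) cosh (n_j s) cosh (n₂ s)`, so `R' s = cosh (n₂ s) cosh (n₁ s) * B s` with
`B s = A₁ - A₃ cosh (n₃ s) / cosh (n₁ s) - A₄ cosh (n₄ s) / cosh (n₁ s)`, `A_j = P_j (n_j^2 - n₂^2) > 0`, and `B`
is strictly increasing on `(0, ∞)` since `cosh (n s) / cosh (n₁ s)` is strictly decreasing for `0 < n < n₁`.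
If `r t ≥ max (r t₁) (r t₂)`, the mean value theorem gives `s₁ ∈ (t₁, t)` with `R s₁ ≥ 0` and
`s₂ ∈ (t, t₂)` with `R s₂ ≤ 0`, and again (using `R 0 = 0`) `v₁ ∈ (0, s₁)` with `R' v₁ ≥ 0` and
`v₂ ∈ (s₁, s₂)` with `R' v₂ ≤ 0`; then `B v₁ ≥ 0 ≥ B v₂` with `v₁ < v₂`, contradiction. -/
theorem Pt_neg {N t a b : ℝ} (hN : 0 < N) (ht : 0 < t) (ha : 0 < a) (hb : 0 < b)
    (h : Psi N t a b = 0) : Pt N t a b < 0 := by
  obtain ⟨_, haN, hbN⟩ := lt_of_zero hN ht ha hb h
  have h0 : Psi N 0 a b = 0 := by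
    unfold Psi
    simp only [add_zero, sub_zero]
    ring
  obtain ⟨t₁, ht₁, ht₁e⟩ := exists_hasDerivAt_eq_zero (f := fun s => Psi N s a b)
    (f' := fun s => Pt N s a b) ht
    (fun s _ => (ptNeg_Psi_hasDerivAt N a b s).continuousAt.continuousWithinAt)
    (by show Psi N 0 a b = Psi N t a b; rw [h0, h])
    (fun s _ => ptNeg_Psi_hasDerivAt N a b s)
  have hexp : ∀ s : ℝ, 0 < 2 * Real.exp (-s ^ 2 / 2) := fun s =>
    mul_pos two_pos (Real.exp_pos _)
  have hQ1 : ptNegQ N a b t₁ ≤ 0 := by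
    rw [ptNeg_Pt_eq] at ht₁e
    rcases mul_eq_zero.1 ht₁e with h1 | h1
    · exact absurd h1 (hexp t₁).ne'
    · exact h1.le
  by_contra hc
  have hPt : 0 ≤ Pt N t a b := not_lt.1 hc
  have hQ2 : 0 ≤ ptNegQ N a b t := by
    rw [ptNeg_Pt_eq] at hPt
    exact (mul_nonneg_iff_of_pos_left (hexp t)).1 hPt
  have hpos := ptNeg_abstract (P₁ := ph (N + a + b)) (P₂ := ph (N - a - b))
    (P₃ := ph (N + a - b)) (P₄ := ph (N - a + b)) (n₁ := N + a + b) (m := N - a - b)
    (n₃ := N + a - b) (n₄ := N - a + b) (ph_pos _) (ph_pos _)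
    (by nlinarith [mul_pos ha (sub_pos.2 hbN)]) (by nlinarith [mul_pos hb (sub_pos.2 haN)])
    (by linarith) (by linarith) (by linarith) (by linarith) (ptNegQ N a b) rfl ht₁.1 ht₁.2
    hQ1 hQ2
  have hmono : StrictMonoOn (fun s => Psi N s a b) (Ici t) := by
    refine strictMonoOn_of_deriv_pos (convex_Ici t)
      (fun s _ => (ptNeg_Psi_hasDerivAt N a b s).continuousAt.continuousWithinAt) fun s hs => ?_
    rw [interior_Ici] at hs
    rw [(ptNeg_Psi_hasDerivAt N a b s).deriv, ptNeg_Pt_eq]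
    exact mul_pos (hexp s) (hpos s hs)
  have hs : t < max N t + 1 := lt_of_le_of_lt (le_max_right N t) (lt_add_one _)
  have h1 : Psi N t a b < Psi N (max N t + 1) a b := hmono (le_refl t) (le_of_lt hs) hs
  have h2 := ptNeg_of_le hN (ht.trans hs) ha hb
    ((le_max_left N t).trans (le_of_lt (lt_add_one _)))
  rw [h] at h1
  linarith

end Pool.Agent.H.MP_eff680_pr.D1
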