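import Pool.Agent.H.MP_eff680_pr.D1.PtNeg

/-! At a zero of `Ψ` the sum of the four partial derivatives is nonnegative. -/

open MeasureTheory Set

namespace Pool.Agent.H.MP_eff680_pr.D1

/-- The factor `f` of the derivative along the path. -/
noncomputable def starF (n c d x : ℝ) : ℝ :=
  1 + 2 * Real.exp (-2 * (n + x) * (c + d + 3 * x)) - Real.exp (-2 * n * (c + d + 2 * x))
    - Real.exp (-2 * (n - c) * (d + 2 * x)) - Real.exp (-2 * (n - d) * (c + 2 * x))

/-- The convex factor of `f'`. -/
noncomputable def starG (n c d x : ℝ) : ℝ :=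
  n * Real.exp (2 * x * (n + c + d + 3 * x)) + (n - c) * Real.exp (2 * (c + x) * (n + d + 3 * x))
    + (n - d) * Real.exp (2 * (d + x) * (n + c + 3 * x)) - (c + d + 3 * n + 6 * x)

lemma star_hasDerivAt_exp {q : ℝ → ℝ} {q' x : ℝ} (h : HasDerivAt q q' x) :
    HasDerivAt (fun y => Real.exp (q y)) (Real.exp (q x) * q') x := h.exp

lemma star_hasDerivAt_quad (α β γ x : ℝ) :
    HasDerivAt (fun y : ℝ => α * y ^ 2 + β * y + γ) (2 * α * x + β) x := by
  have h1 : HasDerivAt (fun y : ℝ => y ^ 2) (2 * x) x := by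
    simpa using hasDerivAt_pow 2 x
  refine (((h1.const_mul α).add ((hasDerivAt_id x).const_mul β)).add_const γ).congr_deriv ?_
  ring

lemma starF_hasDerivAt (n c d x : ℝ) : HasDerivAt (starF n c d)
    (4 * Real.exp (-2 * (n + x) * (c + d + 3 * x)) * starG n c d x) x := by
  have e1 : HasDerivAt (fun y : ℝ => -2 * (n + y) * (c + d + 3 * y))
      (-2 * (c + d + 3 * n + 6 * x)) x := by
    have := star_hasDerivAt_quad (-6) (-2 * (c + d + 3 * n)) (-2 * n * (c + d)) x
    refine (this.congr_deriv (by ring)).congr_of_eventuallyEq ?_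
    exact Filter.Eventually.of_forall fun y => by ring
  have e2 : HasDerivAt (fun y : ℝ => -2 * n * (c + d + 2 * y)) (-4 * n) x := by
    have := star_hasDerivAt_quad 0 (-4 * n) (-2 * n * (c + d)) x
    refine (this.congr_deriv (by ring)).congr_of_eventuallyEq ?_
    exact Filter.Eventually.of_forall fun y => by ring
  have e3 : HasDerivAt (fun y : ℝ => -2 * (n - c) * (d + 2 * y)) (-4 * (n - c)) x := by
    have := star_hasDerivAt_quad 0 (-4 * (n - c)) (-2 * (n - c) * d) x
    refine (this.congr_deriv (by ring)).congr_of_eventuallyEq ?_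
    exact Filter.Eventually.of_forall fun y => by ring
  have e4 : HasDerivAt (fun y : ℝ => -2 * (n - d) * (c + 2 * y)) (-4 * (n - d)) x := by
    have := star_hasDerivAt_quad 0 (-4 * (n - d)) (-2 * (n - d) * c) x
    refine (this.congr_deriv (by ring)).congr_of_eventuallyEq ?_
    exact Filter.Eventually.of_forall fun y => by ring
  have h := ((((e1.exp.const_mul 2).const_add 1).sub e2.exp).sub e3.exp).sub e4.exp
  refine h.congr_deriv ?_
  have k2 : Real.exp (-2 * n * (c + d + 2 * x)) = Real.exp (-2 * (n + x) * (c + d + 3 * x)) *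
      Real.exp (2 * x * (n + c + d + 3 * x)) := by
    rw [← Real.exp_add]; congr 1; ring
  have k3 : Real.exp (-2 * (n - c) * (d + 2 * x)) = Real.exp (-2 * (n + x) * (c + d + 3 * x)) *
      Real.exp (2 * (c + x) * (n + d + 3 * x)) := by
    rw [← Real.exp_add]; congr 1; ring
  have k4 : Real.exp (-2 * (n - d) * (c + 2 * x)) = Real.exp (-2 * (n + x) * (c + d + 3 * x)) *
      Real.exp (2 * (d + x) * (n + c + 3 * x)) := by
    rw [← Real.exp_add]; congr 1; ring
  rw [k2, k3, k4]
  unfold starG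
  ring

lemma starF_continuous (n c d : ℝ) : Continuous (starF n c d) :=
  continuous_iff_continuousAt.2 fun x => (starF_hasDerivAt n c d x).continuousAt

lemma star_convexOn_exp_quad {α : ℝ} (hα : 0 ≤ α) (β γ : ℝ) :
    ConvexOn ℝ univ (fun x : ℝ => Real.exp (α * x ^ 2 + β * x + γ)) := by
  refine ⟨convex_univ, fun x _ y _ s t hs ht hst => ?_⟩
  have h1 : α * (s • x + t • y) ^ 2 + β * (s • x + t • y) + γ ≤
      s • (α * x ^ 2 + β * x + γ) + t • (α * y ^ 2 + β * y + γ) := by
    have hs' : s = 1 - t := by linarith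
    simp only [smul_eq_mul]
    have h2 : 0 ≤ α * (s * t * (x - y) ^ 2) := by positivity
    subst hs'
    nlinarith
  exact (Real.exp_le_exp.2 h1).trans
    (convexOn_exp.2 (mem_univ _) (mem_univ _) hs ht hst)

lemma starG_convexOn {n c d : ℝ} (hn : 0 ≤ n) (hc : c ≤ n) (hd : d ≤ n) :
    ConvexOn ℝ univ (starG n c d) := by
  have h1 := (star_convexOn_exp_quad (α := 6) (by norm_num) (2 * (n + c + d)) 0).smul hn
  have h2 := (star_convexOn_exp_quad (α := 6) (by norm_num) (2 * (n + d) + 6 * c)
    (2 * c * (n + d))).smul (sub_nonneg.2 hc)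
  have h3 := (star_convexOn_exp_quad (α := 6) (by norm_num) (2 * (n + c) + 6 * d)
    (2 * d * (n + c))).smul (sub_nonneg.2 hd)
  have h4 : ConvexOn ℝ univ (fun x : ℝ => -(c + d + 3 * n + 6 * x)) := by
    refine ⟨convex_univ, fun x _ y _ s t hs ht hst => ?_⟩
    have hs' : s = 1 - t := by linarith
    simp only [smul_eq_mul]
    subst hs'
    nlinarith
  refine (((h1.add h2).add h3).add h4).congr ?_
  intro x _
  simp only [Pi.add_apply, smul_eq_mul, starG]
  rw [show 6 * x ^ 2 + 2 * (n + c + d) * x + 0 = 2 * x * (n + c + d + 3 * x) by ring,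
    show 6 * x ^ 2 + (2 * (n + d) + 6 * c) * x + 2 * c * (n + d) =
      2 * (c + x) * (n + d + 3 * x) by ring,
    show 6 * x ^ 2 + (2 * (n + c) + 6 * d) * x + 2 * d * (n + c) =
      2 * (d + x) * (n + c + 3 * x) by ring]
  ring

lemma star_convex_contra {g : ℝ → ℝ} (hg : ConvexOn ℝ univ g) {x y z : ℝ} (hxy : x < y)
    (hyz : y < z) (hx : g x = 0) (hy : g y = 0) (hz : g z < 0) : False := by
  have hzx : z - x ≠ 0 := by have : x < z := hxy.trans hyz; linarith
  have hsum : (z - y) / (z - x) + (y - x) / (z - x) = 1 := by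
    rw [← add_div, div_eq_one_iff_eq hzx]
    ring
  have ha : 0 ≤ (z - y) / (z - x) := div_nonneg (by linarith) (by linarith)
  have hb : 0 ≤ (y - x) / (z - x) := div_nonneg (by linarith) (by linarith)
  have h := hg.2 (mem_univ x) (mem_univ z) ha hb hsum
  have e : ((z - y) / (z - x)) • x + ((y - x) / (z - x)) • z = y := by
    simp only [smul_eq_mul]
    field_simp
    ring
  rw [e, hx, hy, smul_zero, zero_add, smul_eq_mul] at h
  have : (y - x) / (z - x) * g z < 0 :=
    mul_neg_of_pos_of_neg (div_pos (by linarith) (by linarith)) hz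
  linarith

/-- The path. -/
noncomputable def starP (n c d x : ℝ) : ℝ := Psi (n + x) x (c + x) (d + x)

lemma star_W_affine (m k x : ℝ) :
    HasDerivAt (fun y : ℝ => W (m + k * y)) (ph (m + k * x) * k) x := by
  refine (W_hasDerivAt (m + k * x)).comp x (h₂ := W) (h := fun y : ℝ => m + k * y) ?_
  simpa using ((hasDerivAt_id x).const_mul k).const_add m

lemma starP_eq (n c d x : ℝ) : starP n c d x =
    W (n + c + d + 4 * x) - W (n + c - d + 2 * x) - W (n - c + d + 2 * x) - W (n + c + d + 2 * x)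
      + W (n - c - d + 0 * x) + W (n + c - d + 0 * x) + W (n - c + d + 0 * x)
      - W (n - c - d + (-2) * x) := by
  unfold starP Psi
  rw [show n + x + x + (c + x) + (d + x) = n + c + d + 4 * x by ring,
    show n + x + x + (c + x) - (d + x) = n + c - d + 2 * x by ring,
    show n + x + x - (c + x) + (d + x) = n - c + d + 2 * x by ring,
    show n + x - x + (c + x) + (d + x) = n + c + d + 2 * x by ring,
    show n + x + x - (c + x) - (d + x) = n - c - d + 0 * x by ring,
    show n + x - x + (c + x) - (d + x) = n + c - d + 0 * x by ring,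
    show n + x - x - (c + x) + (d + x) = n - c + d + 0 * x by ring,
    show n + x - x - (c + x) - (d + x) = n - c - d + (-2) * x by ring]

/-- The sum of the values of `ph` along the path. -/
lemma star_ph_eq (n c d x : ℝ) :
    4 * ph (n + c + d + 4 * x) - 2 * ph (n + c - d + 2 * x) - 2 * ph (n - c + d + 2 * x)
      - 2 * ph (n + c + d + 2 * x) + 2 * ph (n - c - d + (-2) * x)
      = 2 * ph (n - c - d + (-2) * x) * starF n c d x := by
  have k1 : ph (n + c + d + 4 * x) = ph (n - c - d + (-2) * x) *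
      Real.exp (-2 * (n + x) * (c + d + 3 * x)) := by
    unfold ph; rw [← Real.exp_add]; congr 1; ring
  have k2 : ph (n + c + d + 2 * x) = ph (n - c - d + (-2) * x) *
      Real.exp (-2 * n * (c + d + 2 * x)) := by
    unfold ph; rw [← Real.exp_add]; congr 1; ring
  have k3 : ph (n - c + d + 2 * x) = ph (n - c - d + (-2) * x) *
      Real.exp (-2 * (n - c) * (d + 2 * x)) := by
    unfold ph; rw [← Real.exp_add]; congr 1; ring
  have k4 : ph (n + c - d + 2 * x) = ph (n - c - d + (-2) * x) *
      Real.exp (-2 * (n - d) * (c + 2 * x)) := by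
    unfold ph; rw [← Real.exp_add]; congr 1; ring
  rw [k1, k2, k3, k4]
  unfold starF
  ring

lemma starP_hasDerivAt (n c d x : ℝ) : HasDerivAt (starP n c d)
    (2 * ph (n - c - d + (-2) * x) * starF n c d x) x := by
  have h := ((((((((star_W_affine (n + c + d) 4 x).sub (star_W_affine (n + c - d) 2 x)).sub
    (star_W_affine (n - c + d) 2 x)).sub (star_W_affine (n + c + d) 2 x)).add
    (star_W_affine (n - c - d) 0 x)).add (star_W_affine (n + c - d) 0 x)).add
    (star_W_affine (n - c + d) 0 x)).sub (star_W_affine (n - c - d) (-2) x))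
  refine (h.congr_deriv ?_).congr_of_eventuallyEq
    (Filter.Eventually.of_forall fun y => starP_eq n c d y)
  rw [← star_ph_eq]
  ring

lemma starP_continuous (n c d : ℝ) : Continuous (starP n c d) :=
  continuous_iff_continuousAt.2 fun x => (starP_hasDerivAt n c d x).continuousAt

/-- Rolle along the path. -/
lemma star_rolle (n c d : ℝ) {x y : ℝ} (hxy : x < y) (hx : starP n c d x = 0)
    (hy : starP n c d y = 0) : ∃ z, x < z ∧ z < y ∧ starF n c d z = 0 := by
  obtain ⟨z, hz, h⟩ := exists_hasDerivAt_eq_zero hxy (starP_continuous n c d).continuousOn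
    (hx.trans hy.symm) (fun w _ => starP_hasDerivAt n c d w)
  refine ⟨z, hz.1, hz.2, ?_⟩
  have hp := ph_pos (n - c - d + (-2) * z)
  rcases mul_eq_zero.1 h with h | h
  · linarith
  · exact h

/-- Rolle for `f`. -/
lemma star_rolle' (n c d : ℝ) {x y : ℝ} (hxy : x < y) (hx : starF n c d x = 0)
    (hy : starF n c d y = 0) : ∃ z, x < z ∧ z < y ∧ starG n c d z = 0 := by
  obtain ⟨z, hz, h⟩ := exists_hasDerivAt_eq_zero hxy (starF_continuous n c d).continuousOn
    (hx.trans hy.symm) (fun w _ => starF_hasDerivAt n c d w)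
  refine ⟨z, hz.1, hz.2, ?_⟩
  have hp := Real.exp_pos (-2 * (n + z) * (c + d + 3 * z))
  rcases mul_eq_zero.1 h with h | h
  · linarith
  · exact h

lemma starP_zero_t (n c d : ℝ) : starP n c d 0 = 0 := by
  unfold starP Psi
  simp only [add_zero, sub_zero]
  ring

lemma starP_zero_a (n c d : ℝ) : starP n c d (-c) = 0 := by
  unfold starP Psi
  simp only [add_neg_cancel, add_zero, sub_zero]
  ring

lemma starP_zero_b (n c d : ℝ) : starP n c d (-d) = 0 := by
  unfold starP Psi
  simp only [add_neg_cancel, add_zero, sub_zero]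
  ring

lemma starF_eq_zero_ab (n c : ℝ) : starF n c c (-c) = 0 := by
  unfold starF
  rw [show -2 * n * (c + c + 2 * -c) = 0 by ring,
    show -2 * (n + -c) * (c + c + 3 * -c) = -2 * (n - c) * (c + 2 * -c) by ring, Real.exp_zero]
  ring

lemma starF_eq_zero_ta (n d : ℝ) : starF n 0 d 0 = 0 := by
  unfold starF
  rw [show -2 * (n - d) * (0 + 2 * 0) = 0 by ring,
    show -2 * (n + 0) * (0 + d + 3 * 0) = -2 * n * (0 + d + 2 * 0) by ring,
    show -2 * (n - 0) * (d + 2 * 0) = -2 * n * (0 + d + 2 * 0) by ring, Real.exp_zero]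
  ring

lemma starG_eq_zero (n : ℝ) : starG n 0 0 0 = 0 := by
  unfold starG
  simp
  ring

/-- Two zeros of `f` in `[-d, 0]` and a zero of `g` at or to the left of the second. -/
lemma star_left {n c d : ℝ} (hc : 0 ≤ c) (hcd : c ≤ d) :
    ∃ z ζ : ℝ, ζ ≤ z ∧ z ≤ 0 ∧ starF n c d z = 0 ∧ starG n c d ζ = 0 := by
  obtain ⟨z₁, h1, h1', h1''⟩ : ∃ z₁, z₁ ≤ -c ∧ starF n c d z₁ = 0 ∧ (z₁ = -c → c = d) := by
    rcases hcd.eq_or_lt with h | h
    · subst h
      exact ⟨-c, le_rfl, starF_eq_zero_ab n c, fun _ => rfl⟩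
    · obtain ⟨z, hz1, hz2, hz3⟩ := star_rolle n c d (x := -d) (y := -c) (by linarith)
        (starP_zero_b n c d) (starP_zero_a n c d)
      exact ⟨z, hz2.le, hz3, fun h => absurd h hz2.ne⟩
  obtain ⟨z₂, h2, h2', h2'', k2⟩ : ∃ z₂, z₂ ≤ 0 ∧ -c ≤ z₂ ∧ starF n c d z₂ = 0 ∧
      (z₂ = -c → c = 0) := by
    rcases hc.eq_or_lt with h | h
    · subst h
      exact ⟨0, le_rfl, by simp, starF_eq_zero_ta n d, fun _ => rfl⟩
    · obtain ⟨z, hz1, hz2, hz3⟩ := star_rolle n c d (x := -c) (y := 0) (by linarith)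
        (starP_zero_a n c d) (starP_zero_t n c d)
      exact ⟨z, hz2.le, hz1.le, hz3, fun h => absurd h hz1.ne'⟩
  rcases (h1.trans h2').eq_or_lt with h | h
  · have h3 : z₁ = -c := le_antisymm h1 (by linarith)
    have h4 : z₂ = -c := by rw [← h]; exact h3
    have h5 : c = d := h1'' h3
    have h6 : c = 0 := k2 h4
    subst h5
    subst h6
    refine ⟨z₂, z₂, le_rfl, h2, h2'', ?_⟩
    rw [h4, neg_zero]
    exact starG_eq_zero n
  · obtain ⟨ζ, hζ1, hζ2, hζ3⟩ := star_rolle' n c d h h1' h2''
    exact ⟨z₂, ζ, hζ2.le, h2, h2'', hζ3⟩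

lemma starF_nonneg {n c d t : ℝ} (hc : 0 ≤ c) (hcd : c ≤ d) (hdn : d ≤ n) (ht : 0 < t)
    (h : starP n c d t = 0) : 0 ≤ starF n c d t := by
  by_contra hneg
  rw [not_le] at hneg
  obtain ⟨z, ζ₁, hζz, hz0, hFz, hG1⟩ := star_left (n := n) hc hcd
  obtain ⟨z₃, h30, h3t, hF3⟩ := star_rolle n c d ht (starP_zero_t n c d) h
  obtain ⟨ζ₂, h21, h22, hG2⟩ := star_rolle' n c d (hz0.trans_lt h30) hFz hF3
  obtain ⟨ζ₃, hζ3, h3⟩ := exists_hasDerivAt_eq_slope (starF n c d)
    (fun w => 4 * Real.exp (-2 * (n + w) * (c + d + 3 * w)) * starG n c d w) h3t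
    (starF_continuous n c d).continuousOn (fun w _ => starF_hasDerivAt n c d w)
  have h4 : 4 * Real.exp (-2 * (n + ζ₃) * (c + d + 3 * ζ₃)) * starG n c d ζ₃ < 0 := by
    rw [h3, hF3, sub_zero]
    exact div_neg_of_neg_of_pos hneg (by linarith)
  have h5 : starG n c d ζ₃ < 0 := by
    by_contra h6
    rw [not_lt] at h6
    have := Real.exp_pos (-2 * (n + ζ₃) * (c + d + 3 * ζ₃))
    have : 0 ≤ 4 * Real.exp (-2 * (n + ζ₃) * (c + d + 3 * ζ₃)) * starG n c d ζ₃ := by positivity
    linarith
  exact star_convex_contra (starG_convexOn (by linarith) (by linarith) hdn)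
    (hζz.trans_lt h21) (h22.trans hζ3.1) hG1 hG2 h5

/-- The inequality for `t ≤ a ≤ b`.

Proof. Let `N₀ = N - t`, `a₀ = a - t ≥ 0`, `b₀ = b - t ≥ a₀`; by `lt_of_zero`, `b < N`, so `b₀ < N₀` and
`a₀ < N₀`. Put
`Φ η = Psi (N₀ + η) η (a₀ + η) (b₀ + η)`, so `Φ t = 0`, and `Φ (-b₀) = Φ (-a₀) = Φ 0 = 0` because `Ψ` is
odd in each of its last three arguments. By `sum_eq`,
`Φ' η = PN + Pt + Pt + Pt = 2 ph (N - p) f η` with `N = N₀ + η`, `p = a₀ + b₀ + 3 η` (= `t + a + b`),
`f η = 1 + 2 exp (-2 N p) - exp (-2 N₀ (p - η)) - exp (-2 (N₀ - a₀) (p - a₀ - η)) - exp (-2 (N₀ - b₀) (p - b₀ - η))`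
(here `N - t = N₀`, `N - a = N₀ - a₀`, `N - b = N₀ - b₀` are constant along the path). Claim `f t ≥ 0`.
`f' η = -4 (p + 3 N) e^{-2 N p} + 4 Σ_v (N - v) e^{-2 (N - v)(p - v)}
      = 4 (p + 3 N) e^{-2 N p} (R η - 1)`, `R η = Σ_v (N - v) e^{2 v (N + p - v)} / (p + 3 N)`, where `v` runs over
`η, a₀ + η, b₀ + η`. If `p + 3 N ≤ 0` then `f' η > 0` (first formula). On the interval where
`p + 3 N = a₀ + b₀ + 3 N₀ + 6 η > 0`, `R` is convex: each summand is `exp` of (a convex quadratic polynomial
in `η` minus `log` of a positive affine function), and `exp` of a convex function is convex.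
Find zeros of `f'`: if `a₀ < b₀` there is (Rolle) `z₁ ∈ (-b₀, -a₀)` with `f z₁ = 0`; if `a₀ = b₀` take
`z₁ = -a₀`, where `f z₁ = 0` by direct computation (`a = b = 0` there, `N = N₀ - a₀`, `p = -a₀`...). If `0 < a₀`
there is `z₂ ∈ (-a₀, 0)` with `f z₂ = 0`; if `a₀ = 0` take `z₂ = 0` (`t = a = 0` there: `f 0 = 0`). There is
`z₃ ∈ (0, t)` with `f z₃ = 0`. If `z₁ < z₂` there is `ζ₁ ∈ (z₁, z₂)` with `f' ζ₁ = 0`; if not then
`a₀ = b₀ = 0`, `z₁ = z₂ = 0`; take `ζ₁ = 0`, where `f' 0 = 0` directly (`p = 0`). There is `ζ₂ ∈ (z₂, z₃)` with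
`f' ζ₂ = 0`. If `f t < 0`, there is `ζ₃ ∈ (z₃, t)` with `f' ζ₃ < 0`. So `ζ₁ < ζ₂ < ζ₃`, all in the
region `p + 3 N > 0`, with `R ζ₁ = 1`, `R ζ₂ = 1`, `R ζ₃ < 1`, contradicting the convexity of `R`. -/
theorem star_sorted {N t a b : ℝ} (ht : 0 < t) (hta : t ≤ a) (hab : a ≤ b)
    (hN : 0 < N) (h : Psi N t a b = 0) :
    0 ≤ 4 * ph (N + t + a + b) + 2 * ph (N - t - a - b)
      - 2 * (ph (N + t + a - b) + ph (N + t - a + b) + ph (N - t + a + b)) := by
  obtain ⟨_, _, hbN⟩ := lt_of_zero hN ht (ht.trans_le hta) (ht.trans_le (hta.trans hab)) h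
  have hP : starP (N - t) (a - t) (b - t) t = 0 := by
    unfold starP
    rw [show N - t + t = N by ring, show a - t + t = a by ring, show b - t + t = b by ring]
    exact h
  have h1 := starF_nonneg (n := N - t) (c := a - t) (d := b - t) (by linarith) (by linarith)
    (by linarith) ht hP
  have h2 := star_ph_eq (N - t) (a - t) (b - t) t
  have h3 := ph_pos (N - t - (a - t) - (b - t) + (-2) * t)
  have h4 : 0 ≤ 2 * ph (N - t - (a - t) - (b - t) + (-2) * t) *
      starF (N - t) (a - t) (b - t) t := by positivity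
  rw [← h2] at h4
  rw [show N - t + (a - t) + (b - t) + 4 * t = N + t + a + b by ring,
    show N - t + (a - t) - (b - t) + 2 * t = N + t + a - b by ring,
    show N - t - (a - t) + (b - t) + 2 * t = N + t - a + b by ring,
    show N - t + (a - t) + (b - t) + 2 * t = N - t + a + b by ring,
    show N - t - (a - t) - (b - t) + (-2) * t = N - t - a - b by ring] at h4
  linarith

/-- The inequality in general: use `sum_eq` and the symmetry in `t, a, b` (six orders;
`Psi_swap_ta`, `Psi_swap_ab`). -/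
theorem star {N t a b : ℝ} (hN : 0 < N) (ht : 0 < t) (ha : 0 < a) (hb : 0 < b)
    (h : Psi N t a b = 0) : 0 ≤ PN N t a b + Pt N t a b + Pt N a t b + Pt N b t a := by
  rw [sum_eq]
  have key : ∀ {t a b : ℝ}, 0 < t → 0 < a → 0 < b → t ≤ a → t ≤ b → Psi N t a b = 0 →
      0 ≤ 4 * ph (N + t + a + b) + 2 * ph (N - t - a - b)
        - 2 * (ph (N + t + a - b) + ph (N + t - a + b) + ph (N - t + a + b)) := by
    intro t a b ht ha hb hta htb h
    rcases le_total a b with hab | hab
    · exact star_sorted ht hta hab hN h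
    · have h1 := star_sorted ht htb hab hN ((Psi_swap_ab N t a b).trans h)
      rw [show N + t + b + a = N + t + a + b by ring, show N - t - b - a = N - t - a - b by ring,
        show N + t + b - a = N + t - a + b by ring, show N + t - b + a = N + t + a - b by ring,
        show N - t + b + a = N - t + a + b by ring] at h1
      linarith
  rcases le_total t a with hta | hta
  · rcases le_total t b with htb | htb
    · exact key ht ha hb hta htb h
    · -- `b ≤ t ≤ a`: the minimum is `b`
      have h0 : Psi N b a t = 0 := by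
        rw [Psi_swap_ta, Psi_swap_ab, Psi_swap_ta]
        exact h
      have h1 := key hb ha ht (htb.trans hta) htb h0
      rw [show N + b + a + t = N + t + a + b by ring, show N - b - a - t = N - t - a - b by ring,
        show N + b + a - t = N - t + a + b by ring, show N + b - a + t = N + t - a + b by ring,
        show N - b + a + t = N + t + a - b by ring] at h1
      linarith
  · rcases le_total a b with hab | hab
    · have h0 : Psi N a t b = 0 := (Psi_swap_ta N t a b).trans h
      have h1 := key ha ht hb hta hab h0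
      rw [show N + a + t + b = N + t + a + b by ring, show N - a - t - b = N - t - a - b by ring,
        show N + a + t - b = N + t + a - b by ring, show N + a - t + b = N - t + a + b by ring,
        show N - a + t + b = N + t - a + b by ring] at h1
      linarith
    · have h0 : Psi N b a t = 0 := by
        rw [Psi_swap_ta, Psi_swap_ab, Psi_swap_ta]
        exact h
      have h1 := key hb ha ht hab (hab.trans hta) h0
      rw [show N + b + a + t = N + t + a + b by ring, show N - b - a - t = N - t - a - b by ring,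
        show N + b + a - t = N - t + a + b by ring, show N + b - a + t = N + t - a + b by ring,
        show N - b + a + t = N + t + a - b by ring] at h1
      linarith

end Pool.Agent.H.MP_eff680_pr.D1
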