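import Pool.Agent.H.MP_eff680_pr.D1.ExpSum

/-! Sums of hyperbolic functions: zeros, and comparison of the inverses of `[cosh]` and `[sinh]`. -/

open Set

namespace Pool.Agent.H.MP_eff680_pr.D1

/-- Two-sided exponential sums: number of zeros, and signs in the extremal case. -/
theorem tp_two (m : ℕ) (b : Fin (m + 1) → ℝ) (hb : StrictMono b) (hb0 : ∀ j, 0 < b j)
    (u v : Fin (m + 1) → ℝ) (huv : ¬ (u = 0 ∧ v = 0)) (Z : Finset ℝ)
    (hZ : ∀ t ∈ Z, ∑ j, (u j * Real.exp (-b j * t) + v j * Real.exp (b j * t)) = 0) :
    Z.card ≤ 2 * m + 1 ∧ (Z.card = 2 * m + 1 → u 0 * v 0 < 0 ∧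
      (∀ j : Fin m, u j.castSucc * u j.succ < 0) ∧ (∀ j : Fin m, v j.castSucc * v j.succ < 0)) := by
  set β : Fin ((m + 1) + (m + 1)) → ℝ := Fin.append (fun l => -b (Fin.rev l)) b with hβ
  set C : Fin ((m + 1) + (m + 1)) → ℝ := Fin.append (fun l => u (Fin.rev l)) v with hC
  have hmono : StrictMono β := by
    intro x y hxy
    induction x using Fin.addCases with
    | left x =>
      induction y using Fin.addCases with
      | left y =>
        have hxy' : x < y := by
          simp only [Fin.lt_def, Fin.val_castAdd] at hxy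
          exact Fin.lt_def.mpr hxy
        simp only [hβ, Fin.append_left, neg_lt_neg_iff]
        exact hb (Fin.rev_lt_rev.mpr hxy')
      | right y =>
        simp only [hβ, Fin.append_left, Fin.append_right]
        have h1 := hb0 (Fin.rev x)
        have h2 := hb0 y
        linarith
    | right x =>
      induction y using Fin.addCases with
      | left y =>
        exfalso
        have h1 := x.isLt
        have h2 := y.isLt
        simp only [Fin.lt_def, Fin.val_natAdd, Fin.val_castAdd] at hxy
        omega
      | right y =>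
        simp only [hβ, Fin.append_right]
        apply hb
        simp only [Fin.lt_def, Fin.val_natAdd] at hxy
        exact Fin.lt_def.mpr (by omega)
  have hC0 : C ≠ 0 := by
    intro h
    apply huv
    constructor
    · funext j
      have := congrFun h (Fin.castAdd (m + 1) (Fin.rev j))
      simpa only [hC, Fin.append_left, Fin.rev_rev, Pi.zero_apply] using this
    · funext j
      have := congrFun h (Fin.natAdd (m + 1) j)
      simpa only [hC, Fin.append_right, Pi.zero_apply] using this
  have hsum : ∀ t : ℝ, ∑ l, C l * Real.exp (β l * t)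
      = ∑ j, (u j * Real.exp (-b j * t) + v j * Real.exp (b j * t)) := by
    intro t
    rw [Fin.sum_univ_add, Finset.sum_add_distrib]
    congr 1
    · simp only [hC, hβ, Fin.append_left]
      exact (Equiv.sum_comp Fin.revPerm (fun j => u j * Real.exp (-b j * t)))
    · simp only [hC, hβ, Fin.append_right]
  have key := expSum_zeros ((m + 1) + m) β hmono C hC0 Z
    (fun t ht => (hsum t).trans (hZ t ht))
  refine ⟨by have := key.1; omega, ?_⟩
  intro hcard
  have key2 := key.2 (by omega)
  refine ⟨?_, ?_, ?_⟩
  · have := key2 ⟨m, by omega⟩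
    have e1 : (Fin.castSucc (⟨m, by omega⟩ : Fin ((m + 1) + m))) = Fin.castAdd (m + 1) (Fin.rev 0) := by
      apply Fin.ext
      simp
    have e2 : (Fin.succ (⟨m, by omega⟩ : Fin ((m + 1) + m))) = Fin.natAdd (m + 1) (0 : Fin (m + 1)) := by
      apply Fin.ext
      simp
    rw [e1, e2] at this
    simpa only [hC, Fin.append_left, Fin.append_right, Fin.rev_rev] using this
  · intro j
    have hj := j.isLt
    have := key2 ⟨m - j.val - 1, by omega⟩
    have e1 : (Fin.castSucc (⟨m - j.val - 1, by omega⟩ : Fin ((m + 1) + m)))
        = Fin.castAdd (m + 1) (Fin.rev j.succ) := by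
      apply Fin.ext
      simp [Fin.val_rev]
      omega
    have e2 : (Fin.succ (⟨m - j.val - 1, by omega⟩ : Fin ((m + 1) + m)))
        = Fin.castAdd (m + 1) (Fin.rev j.castSucc) := by
      apply Fin.ext
      simp [Fin.val_rev]
      omega
    rw [e1, e2] at this
    simp only [hC, Fin.append_left, Fin.rev_rev] at this
    linarith [mul_comm (u j.succ) (u j.castSucc)]
  · intro j
    have hj := j.isLt
    have := key2 ⟨m + 1 + j.val, by omega⟩
    have e1 : (Fin.castSucc (⟨m + 1 + j.val, by omega⟩ : Fin ((m + 1) + m)))
        = Fin.natAdd (m + 1) j.castSucc := by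
      apply Fin.ext
      simp only [Fin.val_castSucc, Fin.val_natAdd]
    have e2 : (Fin.succ (⟨m + 1 + j.val, by omega⟩ : Fin ((m + 1) + m)))
        = Fin.natAdd (m + 1) j.succ := by
      apply Fin.ext
      simp
      omega
    rw [e1, e2] at this
    simpa only [hC, Fin.append_right] using this

theorem tp_disj (Z : Finset ℝ) (hZ0 : ∀ t ∈ Z, 0 < t) : Disjoint Z (Z.image (fun t => -t)) := by
  rw [Finset.disjoint_left]
  intro x hx hx'
  obtain ⟨l, hl, h⟩ := Finset.mem_image.mp hx'
  have h1 := hZ0 x hx
  have h2 := hZ0 l hl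
  linarith

/-- Alternating consecutive signs. -/
theorem tp_alt (m : ℕ) (x : Fin (m + 1) → ℝ) (h0 : x 0 ≠ 0)
    (h : ∀ j : Fin m, x j.castSucc * x j.succ < 0) (j j' : Fin (m + 1)) :
    0 < (-1 : ℝ) ^ (j.val + j'.val) * (x j * x j') := by
  have key : ∀ j : Fin (m + 1), 0 < (-1 : ℝ) ^ j.val * (x 0 * x j) := by
    intro j
    induction j using Fin.induction with
    | zero => simpa using mul_self_pos.mpr h0
    | succ j ih =>
      have h1 := h j
      rw [Fin.val_castSucc] at ih
      have hne : x j.castSucc ≠ 0 := by
        intro h2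
        rw [h2] at h1
        simp at h1
      have h2 : 0 < (-1 : ℝ) ^ j.val * (x 0 * x j.castSucc) * (-(x j.castSucc * x j.succ)) :=
        mul_pos ih (by linarith)
      have h3 : (-1 : ℝ) ^ j.val * (x 0 * x j.castSucc) * (-(x j.castSucc * x j.succ))
          = ((-1 : ℝ) ^ j.succ.val * (x 0 * x j.succ)) * (x j.castSucc) ^ 2 := by
        rw [Fin.val_succ, pow_succ]; ring
      rw [h3] at h2
      exact (mul_pos_iff_of_pos_right (by positivity)).mp h2
  have h1 := mul_pos (key j) (key j')
  have h3 : (-1 : ℝ) ^ j.val * (x 0 * x j) * ((-1 : ℝ) ^ j'.val * (x 0 * x j'))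
      = ((-1 : ℝ) ^ (j.val + j'.val) * (x j * x j')) * (x 0) ^ 2 := by
    rw [pow_add]; ring
  rw [h3] at h1
  exact (mul_pos_iff_of_pos_right (by positivity)).mp h1

/-- A sum of `k` hyperbolic sines has fewer than `k` positive zeros.

Proof. With `Z` also `-Z` and `0` are zeros, so the exponential sum with the `2k` exponents `± b_j` has
`2 |Z| + 1` zeros, hence `2 |Z| + 1 ≤ 2k - 1` by `expSum_zeros`. -/
theorem sinhSum_zeros (k : ℕ) (b : Fin k → ℝ) (hb : StrictMono b) (hb0 : ∀ j, 0 < b j)
    (c : Fin k → ℝ) (hc : c ≠ 0) (Z : Finset ℝ) (hZ0 : ∀ t ∈ Z, 0 < t)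
    (hZ : ∀ t ∈ Z, ∑ j, c j * Real.sinh (b j * t) = 0) : Z.card < k := by
  cases k with
  | zero => exact absurd (Subsingleton.elim c 0) hc
  | succ m =>
    have hdisj := tp_disj Z hZ0
    have hev : ∀ t : ℝ, ∑ j, ((fun j => -(c j / 2)) j * Real.exp (-b j * t)
        + (fun j => c j / 2) j * Real.exp (b j * t)) = ∑ j, c j * Real.sinh (b j * t) := by
      intro t
      refine Finset.sum_congr rfl (fun j _ => ?_)
      rw [Real.sinh_eq, ← neg_mul]
      ring
    have h := tp_two m b hb hb0 (fun j => -(c j / 2)) (fun j => c j / 2) (by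
      rintro ⟨-, h2⟩
      apply hc
      funext j
      have := congrFun h2 j
      simp only [Pi.zero_apply] at this ⊢
      linarith) (Z ∪ Z.image (fun t => -t)) (by
      intro t ht
      rw [hev]
      rcases Finset.mem_union.mp ht with ht | ht
      · exact hZ t ht
      · obtain ⟨z, hz, rfl⟩ := Finset.mem_image.mp ht
        have := hZ z hz
        simp only [mul_neg, Real.sinh_neg, Finset.sum_neg_distrib, this, neg_zero])
    have h1 := h.1
    rw [Finset.card_union_of_disjoint hdisj,
      Finset.card_image_of_injective _ neg_injective] at h1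
    omega

/-- The same for hyperbolic cosines (`2 |Z| ≤ 2k - 1`). -/
theorem coshSum_zeros (k : ℕ) (b : Fin k → ℝ) (hb : StrictMono b) (hb0 : ∀ j, 0 < b j)
    (c : Fin k → ℝ) (hc : c ≠ 0) (Z : Finset ℝ) (hZ0 : ∀ t ∈ Z, 0 < t)
    (hZ : ∀ t ∈ Z, ∑ j, c j * Real.cosh (b j * t) = 0) : Z.card < k := by
  cases k with
  | zero => exact absurd (Subsingleton.elim c 0) hc
  | succ m =>
    have hdisj := tp_disj Z hZ0
    have hev : ∀ t : ℝ, ∑ j, ((fun j => c j / 2) j * Real.exp (-b j * t)
        + (fun j => c j / 2) j * Real.exp (b j * t)) = ∑ j, c j * Real.cosh (b j * t) := by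
      intro t
      refine Finset.sum_congr rfl (fun j _ => ?_)
      rw [Real.cosh_eq, ← neg_mul]
      ring
    have h := tp_two m b hb hb0 (fun j => c j / 2) (fun j => c j / 2) (by
      rintro ⟨-, h2⟩
      apply hc
      funext j
      have := congrFun h2 j
      simp only [Pi.zero_apply] at this ⊢
      linarith) (Z ∪ Z.image (fun t => -t)) (by
      intro t ht
      rw [hev]
      rcases Finset.mem_union.mp ht with ht | ht
      · exact hZ t ht
      · obtain ⟨z, hz, rfl⟩ := Finset.mem_image.mp ht
        have := hZ z hz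
        simp only [mul_neg, Real.cosh_neg, this])
    have h1 := h.1
    rw [Finset.card_union_of_disjoint hdisj,
      Finset.card_image_of_injective _ neg_injective] at h1
    omega

/-- Comparison of the inverses of `[cosh (b_j a_l)]` and `[sinh (b_j a_l)]`.

Proof. Let `f s = Σ c_j cosh (b_j s)`, `h s = Σ d_j sinh (b_j s)` and `D = h - f`, an exponential sum with
exponents `-b_{k-1} < ... < -b_0 < b_0 < ... < b_{k-1}` and coefficients `-(d_j + c_j)/2` at `-b_j`,
`(d_j - c_j)/2` at `b_j`. It vanishes at the `k` points `a_l` (all of them: at `a_i` both are `1`) and, since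
`D (-s) = -(h + f) s`, at the `k - 1` points `-a_l`, `l ≠ i`: these are `2k - 1` distinct zeros, and `D ≠ 0`
(`D (-a_i) = -2`). By `expSum_zeros` all consecutive coefficients have opposite signs: so `d_j + c_j`
alternates in sign, `d_j - c_j` alternates in sign, and `(d_0 + c_0) (d_0 - c_0) > 0`. Hence
`(d_j + c_j) (d_j - c_j) > 0` for all `j`, i.e. `|c_j| < |d_j|`, and `d_j` alternates in sign. -/
theorem tp (k : ℕ) (a b : Fin k → ℝ) (ha : StrictMono a) (ha0 : ∀ i, 0 < a i)
    (hb : StrictMono b) (hb0 : ∀ j, 0 < b j) (i : Fin k) (c d : Fin k → ℝ)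
    (hc : ∀ l, ∑ j, c j * Real.cosh (b j * a l) = if l = i then 1 else 0)
    (hd : ∀ l, ∑ j, d j * Real.sinh (b j * a l) = if l = i then 1 else 0) :
    (∀ j, |c j| < |d j|) ∧ (∀ j j' : Fin k, 0 < (-1 : ℝ) ^ (j.val + j'.val) * (d j * d j')) := by
  cases k with
  | zero => exact i.elim0
  | succ m =>
    set u : Fin (m + 1) → ℝ := fun j => -((d j + c j) / 2) with hu
    set v : Fin (m + 1) → ℝ := fun j => (d j - c j) / 2 with hv
    have hev : ∀ t : ℝ, ∑ j, (u j * Real.exp (-b j * t) + v j * Real.exp (b j * t))
        = ∑ j, d j * Real.sinh (b j * t) - ∑ j, c j * Real.cosh (b j * t) := by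
      intro t
      rw [← Finset.sum_sub_distrib]
      refine Finset.sum_congr rfl (fun j _ => ?_)
      rw [Real.cosh_eq, Real.sinh_eq, ← neg_mul]
      simp only [hu, hv]
      ring
    have hneg : ∀ l, ∑ j, (u j * Real.exp (-b j * (-a l)) + v j * Real.exp (b j * (-a l)))
        = if l = i then -2 else 0 := by
      intro l
      rw [hev]
      simp only [mul_neg, Real.cosh_neg, Real.sinh_neg, Finset.sum_neg_distrib]
      rw [hc l, hd l]
      split_ifs <;> norm_num
    have huv : ¬ (u = 0 ∧ v = 0) := by
      rintro ⟨h1, h2⟩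
      have := hneg i
      rw [h1, h2] at this
      simp at this
    have hinj : Function.Injective (fun l => -a l) := fun x y hxy => ha.injective (neg_injective hxy)
    have hdisj : Disjoint (Finset.univ.image a) ((Finset.univ.erase i).image (fun l => -a l)) := by
      rw [Finset.disjoint_left]
      intro x hx hx'
      obtain ⟨l, -, rfl⟩ := Finset.mem_image.mp hx
      obtain ⟨l', -, h⟩ := Finset.mem_image.mp hx'
      have h1 := ha0 l
      have h2 := ha0 l'
      linarith
    have hcard : (Finset.univ.image a ∪ (Finset.univ.erase i).image (fun l => -a l)).card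
        = 2 * m + 1 := by
      rw [Finset.card_union_of_disjoint hdisj, Finset.card_image_of_injective _ ha.injective,
        Finset.card_image_of_injective _ hinj, Finset.card_erase_of_mem (Finset.mem_univ _),
        Finset.card_univ, Fintype.card_fin]
      omega
    have h := (tp_two m b hb hb0 u v huv
      (Finset.univ.image a ∪ (Finset.univ.erase i).image (fun l => -a l)) (by
        intro t ht
        rcases Finset.mem_union.mp ht with ht | ht
        · obtain ⟨l, -, rfl⟩ := Finset.mem_image.mp ht
          rw [hev, hc l, hd l, sub_self]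
        · obtain ⟨l, hl, rfl⟩ := Finset.mem_image.mp ht
          rw [hneg l, if_neg (Finset.mem_erase.mp hl).1])).2 hcard
    obtain ⟨h0, hu1, hv1⟩ := h
    have huvneg : ∀ j, u j * v j < 0 := by
      intro j
      induction j using Fin.induction with
      | zero => exact h0
      | succ j ih =>
        have h1 : 0 < (u j.castSucc * v j.castSucc) * (u j.succ * v j.succ) := by
          have := mul_pos_of_neg_of_neg (hu1 j) (hv1 j)
          nlinarith [this]
        by_contra hcon
        have hcon' : 0 ≤ u j.succ * v j.succ := not_lt.mp hcon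
        nlinarith [mul_nonneg hcon' (neg_nonneg.mpr ih.le)]
    have hsq : ∀ j, |c j| < |d j| := by
      intro j
      apply sq_lt_sq.mp
      have := huvneg j
      simp only [hu, hv] at this
      nlinarith [this]
    refine ⟨hsq, tp_alt m d ?_ ?_⟩
    · have := hsq 0
      intro h
      rw [h, abs_zero] at this
      exact absurd this (not_lt.mpr (abs_nonneg _))
    · intro j
      have h1 := hu1 j
      have h2 := hv1 j
      have h3 := huvneg j.castSucc
      have h4 := huvneg j.succ
      have e1 : d j.castSucc = v j.castSucc - u j.castSucc := by simp only [hu, hv]; ring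
      have e2 : d j.succ = v j.succ - u j.succ := by simp only [hu, hv]; ring
      rw [e1, e2]
      rcases lt_trichotomy (v j.castSucc) 0 with hneg' | hzero | hpos
      · have g1 : 0 < u j.castSucc := by
          by_contra hcon
          have := mul_nonneg_of_nonpos_of_nonpos (not_lt.mp hcon) hneg'.le
          linarith
        have g2 : 0 < v j.succ := by
          by_contra hcon
          have := mul_nonneg_of_nonpos_of_nonpos hneg'.le (not_lt.mp hcon)
          linarith
        have g3 : u j.succ < 0 := by
          by_contra hcon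
          have := mul_nonneg (not_lt.mp hcon) g2.le
          linarith
        exact mul_neg_of_neg_of_pos (by linarith) (by linarith)
      · rw [hzero] at h2
        simp at h2
      · have g1 : u j.castSucc < 0 := by
          by_contra hcon
          have := mul_nonneg (not_lt.mp hcon) hpos.le
          linarith
        have g2 : v j.succ < 0 := by
          by_contra hcon
          have := mul_nonneg hpos.le (not_lt.mp hcon)
          linarith
        have g3 : 0 < u j.succ := by
          by_contra hcon
          have := mul_nonneg_of_nonpos_of_nonpos (not_lt.mp hcon) g2.le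
          linarith
        exact mul_neg_of_pos_of_neg (by linarith) (by linarith)

end Pool.Agent.H.MP_eff680_pr.D1
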